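import Mathlib

/-!
# Definitions: growth of actions of rank two

Everything about number fields is used for `K = ℚ (x, y)`, `x` and `y` units, `D = [K : ℚ]`.
-/

set_option autoImplicit false

open NumberField Module Finset

namespace Pool.Agent.Helper28K9.RK

/-- the sum of `log max (1, |τ x|)` over the embeddings `τ` of `K` -/
noncomputable def HK (K : Type) [Field K] [NumberField K] (x : K) : ℝ :=
  ∑ τ : K →+* ℂ, Real.log (max 1 ‖τ x‖)

/-- the value at `(x, y)` of the polynomial with the coefficients `c i j`, `i < A`, `j < B` -/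
noncomputable def evl {R S : Type} [CommRing R] [CommRing S] [Algebra R S] (A B : ℕ)
    (c : ℕ → ℕ → R) (x y : S) : S :=
  ∑ i ∈ range A, ∑ j ∈ range B, algebraMap R S (c i j) * x ^ i * y ^ j

/-- the (divided) partial derivatives at `(x, y)` -/
noncomputable def jet {R S : Type} [CommRing R] [CommRing S] [Algebra R S] (A B : ℕ)
    (c : ℕ → ℕ → R) (x y : S) (k l : ℕ) : S :=
  ∑ i ∈ range A, ∑ j ∈ range B,
    algebraMap R S (c i j) * (i.choose k : S) * (j.choose l : S) * x ^ (i - k) * y ^ (j - l)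

/-- the polynomial with the coefficients `c` vanishes to the order `T` at `(x, y)` -/
def Van {R S : Type} [CommRing R] [CommRing S] [Algebra R S] (A B : ℕ)
    (c : ℕ → ℕ → R) (x y : S) (T : ℕ) : Prop :=
  ∀ k l : ℕ, k + l < T → jet A B c x y k l = 0

/-- `q` has enough unramified primes above it: the product of the norms of some primes above `q`
which are unramified is at least `q ^ (D / 2)` -/
def Unr (K : Type) [Field K] [NumberField K] (q : ℕ) : Prop :=
  ∃ s : Finset (Ideal (𝓞 K)), (∀ 𝔭 ∈ s, 𝔭.IsPrime ∧ 𝔭 ≠ ⊥ ∧ (q : 𝓞 K) ∈ 𝔭 ∧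
    (q : 𝓞 K) ∉ 𝔭 ^ 2) ∧ q ^ finrank ℚ K ≤ (∏ 𝔭 ∈ s, Ideal.absNorm 𝔭) ^ 2

/-- the span of the monomials `x ^ i * y ^ j`, `i < A`, `j < B` -/
noncomputable def box (K : Type) [Field K] [NumberField K] (A B : ℕ) (x y : K) :
    Submodule ℚ K :=
  Submodule.span ℚ (Set.range fun p : Fin A × Fin B => x ^ (p.1 : ℕ) * y ^ (p.2 : ℕ))

/-- the rank of the evaluation at the points `(x ^ q, y ^ q)`, `q ∈ Q`, of the polynomials with
exponents `i < A`, `j < B` -/
noncomputable def rk (K : Type) [Field K] [NumberField K] (A B : ℕ) (x y : K) (Q : Finset ℕ) :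
    ℕ :=
  finrank ℚ (Submodule.span ℚ (Set.range fun p : Fin A × Fin B =>
    (fun q : Q => (x ^ (q : ℕ)) ^ (p.1 : ℕ) * (y ^ (q : ℕ)) ^ (p.2 : ℕ) : Q → K)))

/-- the rank of the map of the jets of order `T` at `(x, y)` -/
noncomputable def jrk (K : Type) [Field K] [NumberField K] (A B : ℕ) (x y : K) (T : ℕ) : ℕ :=
  finrank ℚ (Submodule.span ℚ (Set.range fun p : Fin A × Fin B =>
    (fun kl : Fin T × Fin T => if (kl.1 : ℕ) + kl.2 < T then
      ((p.1 : ℕ).choose kl.1 : K) * ((p.2 : ℕ).choose kl.2 : K) * x ^ ((p.1 : ℕ) - kl.1) *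
        y ^ ((p.2 : ℕ) - kl.2) else 0 : Fin T × Fin T → K)))

/-- the primes in `(X, 2 X]` -/
def prs (X : ℕ) : Finset ℕ := (Finset.Ioc X (2 * X)).filter Nat.Prime

/-- the sums `∑ ε (m, j) Q ^ m ξ ^ j`, `m < n`, `j < J`, with digits 0 and 1 -/
def dbl (J n : ℕ) (ξ Q : ℂ) : Set ℂ :=
  {z | ∃ ε : Fin n → Fin J → Bool,
    z = ∑ m : Fin n, ∑ j : Fin J, if ε m j then Q ^ (m : ℕ) * ξ ^ (j : ℕ) else 0}

end Pool.Agent.Helper28K9.RK
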