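import Mathlib
import Pool.Agent.Helper28K9.RK.Defs

/-!
# Statements: two multiplicatively independent units of a number field of large degree

`D = [K : ℚ]`, `HK K x = D h(x)`.  GOAL: `NT`: if `K = ℚ (x, y)` with independent units `x`, `y`
and `D` is large, then `max (HK x, HK y) ≥ D ^ (1 / 100)`.
-/

set_option autoImplicit false

open NumberField Module Finset

namespace Pool.Agent.Helper28K9.RK

/-! ## basics -/

/-- [HKB] basics: for `u` use `(𝓞 K)` units; `ψ : K →+* K` permutes the embeddings (it is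
bijective, finite dimension); the last part is Kronecker's theorem -/
def S_HKB : Prop := ∀ (K : Type) [Field K] [NumberField K],
  (∀ x : K, 0 ≤ HK K x) ∧ (∀ (x : K) (n : ℕ), HK K (x ^ n) = n * HK K x) ∧
  (∀ x y : K, HK K (x * y) ≤ HK K x + HK K y) ∧
  (∀ x : 𝓞 K, IsUnit x → HK K ((x : K)⁻¹) = HK K (x : K)) ∧
  (∀ (ψ : K →+* K) (x : K), HK K (ψ x) = HK K x) ∧
  (∀ x : 𝓞 K, x ≠ 0 → HK K (x : K) = 0 → ∃ n : ℕ, 0 < n ∧ x ^ n = 1)

/-- [PRIMES] at least `√ X` primes in `(X, 2 X]` (any proof; e.g. from `centralBinom` as in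
Mathlib's Bertrand) -/
def S_PRIMES : Prop := ∃ X0 : ℕ, ∀ X : ℕ, X0 ≤ X → X ≤ (prs X).card ^ 2

/-! ## Frobenius -/

/-- [LIFT] a lift of Frobenius to `R = 𝓞 K / 𝔭 ^ T`, `𝔭` unramified above `q`.  PROOF (one of
many): `R` is a finite local ring with maximal ideal `(q)`; the residue field is `𝔽_q (ā)`; `h`
in `ℤ[X]` monic of degree `f` lifting the minimal polynomial of `ā`; by Hensel (`q` nilpotent)
`a` may be chosen with `h (a) = 0`; `R ≅ (ℤ / q ^ T)[X] / h` (surjective by Nakayama, both have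
`q ^ (f T)` elements); by Hensel `h` has a root `b ≡ a ^ q` mod `q`; `φ (a) = b`.
Or: `N` a Galois closure, `𝔓` above `𝔭`, `σ` an arithmetic Frobenius element at `𝔓`
(`IsArithFrobAt`), inertia acts trivially on `K` and on `σ K` (this gives LOC directly). -/
def S_LIFT : Prop := ∀ (K : Type) [Field K] [NumberField K] (𝔭 : Ideal (𝓞 K)) (q T : ℕ),
  q.Prime → 𝔭.IsPrime → (q : 𝓞 K) ∈ 𝔭 → (q : 𝓞 K) ∉ 𝔭 ^ 2 →
  ∃ φ : (𝓞 K ⧸ 𝔭 ^ T) →+* (𝓞 K ⧸ 𝔭 ^ T), ∀ a, ∃ b, φ a = a ^ q + q * b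

/-- [TAY] Taylor: `evl (x ^ q, y ^ q) = evl (φ x - q b, φ y - q b') =
∑ jet k l (φ x, φ y) (- q b) ^ k (- q b') ^ l`, and `jet k l (φ x, φ y) = φ (jet k l (x, y))`
vanishes for `k + l < T` -/
def S_TAY : Prop := ∀ (R : Type) [CommRing R] (φ : R →+* R) (q T A B : ℕ) (c : ℕ → ℕ → ℤ)
  (x y : R), (q : R) ^ T = 0 → (∀ a, ∃ b, φ a = a ^ q + q * b) → Van A B c x y T →
  evl A B c (x ^ q) (y ^ q) = 0

/-- [LOC] from LIFT and TAY in `R = 𝓞 K / 𝔭 ^ T` -/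
def S_LOC : Prop := ∀ (K : Type) [Field K] [NumberField K] (𝔭 : Ideal (𝓞 K)) (q T A B : ℕ)
  (c : ℕ → ℕ → ℤ) (x y : 𝓞 K), q.Prime → 𝔭.IsPrime → (q : 𝓞 K) ∈ 𝔭 → (q : 𝓞 K) ∉ 𝔭 ^ 2 →
  Van A B c x y T → evl A B c (x ^ q) (y ^ q) ∈ 𝔭 ^ T

/-- [NB] the norm from above: `|N (evl c (x ^ q, y ^ q))| ≤ (A B) ^ D exp (q (A HK x + B HK y))` -/
def S_NB : Prop := ∀ (K : Type) [Field K] [NumberField K] (x y : 𝓞 K) (A B q : ℕ)
  (c : ℕ → ℕ → ℤ), (∀ i j, |c i j| ≤ 1) →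
  |((Algebra.norm ℚ ((evl A B c (x ^ q) (y ^ q) : 𝓞 K) : K) : ℚ) : ℝ)| ≤
    ((A : ℝ) * B) ^ finrank ℚ K * Real.exp (q * (A * HK K x + B * HK K y))

/-- [EXTRAP] LOC, then `α = evl c (x ^ q, y ^ q)` is in the product of the `𝔭 ^ T`, `𝔭` in the
set of `Unr`; if `α ≠ 0` then `|N α| ≥ (∏ N 𝔭) ^ T`, the square is at least `q ^ (D T)`; and NB -/
def S_EXTRAP : Prop := ∀ (K : Type) [Field K] [NumberField K] (x y : 𝓞 K) (A B T q : ℕ)
  (c : ℕ → ℕ → ℤ), q.Prime → Unr K q → (∀ i j, |c i j| ≤ 1) → Van A B c x y T →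
  ((A : ℝ) * B * Real.exp (q * (A * HK K x + B * HK K y) / finrank ℚ K)) ^ 2 < (q : ℝ) ^ T →
  evl A B c (x ^ q) (y ^ q) = 0

/-- [EX1] the case `T = 1`, for all primes: `evl c (x ^ q, y ^ q) ≡ (evl c (x, y)) ^ q` mod `q` -/
def S_EX1 : Prop := ∀ (K : Type) [Field K] [NumberField K] (x y : 𝓞 K) (A B q : ℕ)
  (c : ℕ → ℕ → ℤ), q.Prime → (∀ i j, |c i j| ≤ 1) → evl A B c x y = 0 →
  (A : ℝ) * B * Real.exp (q * (A * HK K x + B * HK K y) / finrank ℚ K) < q →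
  evl A B c (x ^ q) (y ^ q) = 0

/-! ## ramification -/

/-- [DISC] a basis of monomials `x ^ i y ^ j`, `i < e₁ = [ℚ (x) : ℚ]`, `j < e₂ = D / e₁`; its
discriminant is the square of the determinant of the conjugates, at most
`(D! ∏_τ max (1, |τ x|) ^ e₁ max (1, |τ y|) ^ e₂) ^ 2` (Leibniz), and a multiple of `discr K` -/
def S_DISC : Prop := ∀ (K : Type) [Field K] [NumberField K] (x y : 𝓞 K),
  Algebra.adjoin ℚ {(x : K), (y : K)} = ⊤ →
  Real.log |((NumberField.discr K : ℤ) : ℝ)| ≤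
    2 * finrank ℚ K * (Real.log (finrank ℚ K) + HK K x + HK K y)

/-- [BADQ] `q 𝓞 K = ∏ 𝔭 ^ e`, norms `q ^ f`; take the `𝔭` with `e = 1`: if `q` is not `Unr`, the
sum of the `f` over `e = 1` is less than `D / 2`, so `∑ (e - 1) f ≥ ∑_{e ≥ 2} e f / 2 > D / 4`;
`𝔭 ^ (e - 1)` divides the different, whose norm is `|discr K|`; so
`∏_{q ∈ s} q ^ (D / 4) ≤ |discr K|` -/
def S_BADQ : Prop := ∀ (K : Type) [Field K] [NumberField K] (s : Finset ℕ) (Y : ℕ), 1 ≤ Y →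
  (∀ q ∈ s, q.Prime ∧ Y < q ∧ ¬ Unr K q) →
  (s.card : ℝ) * finrank ℚ K * Real.log Y ≤ 4 * Real.log |((NumberField.discr K : ℤ) : ℝ)|

/-- [DEGP] if `ℚ (x ^ p) ≠ ℚ (x)` then there is a `σ_p` in the Galois group (of a Galois closure)
with `σ_p x = ζ_p x`, `ζ_p` a primitive `p`-th root of unity; for subsets `I` of `s` the products
of the `σ_p`, `p ∈ I`, map `x` to `x` times a root of unity of order exactly `∏_{p ∈ I} p`;
so `x` has `2 ^ |s|` conjugates -/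
def S_DEGP : Prop := ∀ (K : Type) [Field K] [NumberField K] (x : K) (s : Finset ℕ), x ≠ 0 →
  (∀ p ∈ s, p.Prime ∧ Algebra.adjoin ℚ {x ^ p} ≠ Algebra.adjoin ℚ {x}) →
  2 ^ s.card ≤ finrank ℚ K

/-! ## linear algebra -/

/-- [SPAN] for a subspace `V ≠ 0` with `V W ≠ K` let `f (V) = dim V W - dim V`, `κ` the minimum,
`A` such a `V` with `f (A) = κ` and of minimal dimension (an atom), after scaling `1 ∈ A`.
(0) if there is no such `V` then `W = K` and the result is trivial.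
(1) trace duality: `V* = (V W)^⊥` (trace form) has `V* W ≤ V^⊥`, so `V* ≠ 0`, `V* W ≠ K`,
`f (V*) ≤ f (V)`, `dim V* = D - dim V - f (V)`; so `2 dim A ≤ D - κ`.
(2) if `A ∩ z A ≠ 0` (`z ≠ 0`) then `dim (A + z A) W ≤ 2 (dim A + κ) - dim ((A ∩ z A) W) < D`, and
`f` is submodular, so `f (A ∩ z A) ≤ κ`, `z A = A`; for `z ∈ A` nonzero `z ∈ A ∩ z A`; so `A` is a
subfield.  (3) `W` is not contained in `A`, `A W` is an `A`-space, so `dim A W ≥ 2 dim A`, so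
`κ = dim A W - dim A ≥ dim A W / 2 ≥ dim W / 2`.  (4) so `dim V W ≥ dim V + dim W / 2` or `V W = K`
for all `V ≠ 0`; induction over `V = W ^ k`: `2 dim W ^ k ≥ (k + 1) dim W` or `W ^ k = K` -/
def S_SPAN : Prop := ∀ (K : Type) [Field K] [NumberField K] (W : Submodule ℚ K) (n : ℕ),
  (1 : K) ∈ W → Algebra.adjoin ℚ (W : Set K) = ⊤ → 2 * finrank ℚ K ≤ n * finrank ℚ W →
  W ^ n = ⊤

/-- [SEP] otherwise `F (x ^ q, y ^ q) ↦ F (x ^ p, y ^ p)` (degrees `≤ A`) is a well defined ring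
homomorphism `K → K` (products have degrees `≤ 2 A`), it maps `x ^ q` to `x ^ p`, so
`q HK x = p HK x`, so `HK x = 0` (HKB) -/
def S_SEP : Prop := ∀ (K : Type) [Field K] [NumberField K] (x y : K) (A p q : ℕ), 1 ≤ A →
  p ≠ q → HK K x ≠ 0 → box K (A + 1) (A + 1) (x ^ q) (y ^ q) = ⊤ →
  ∃ c : ℕ → ℕ → ℚ, evl (2 * A + 1) (2 * A + 1) c (x ^ q) (y ^ q) = 0 ∧
    evl (2 * A + 1) (2 * A + 1) c (x ^ p) (y ^ p) ≠ 0

/-- [UNION] for `q ∈ Q` and `α ∈ K` there is a polynomial with degrees `≤ 2 A |Q|` with value `α`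
at the point `q` and `0` at the other points: products of the polynomials of SEP vanishing at the
other points and of a polynomial of degree `≤ A`; so the span is everything -/
def S_UNION : Prop := ∀ (K : Type) [Field K] [NumberField K] (x y : K) (A : ℕ) (Q : Finset ℕ),
  1 ≤ A → (∀ q ∈ Q, box K (A + 1) (A + 1) (x ^ q) (y ^ q) = ⊤) →
  (∀ q ∈ Q, ∀ p ∈ Q, p ≠ q → ∃ c : ℕ → ℕ → ℚ,
    evl (2 * A + 1) (2 * A + 1) c (x ^ q) (y ^ q) = 0 ∧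
    evl (2 * A + 1) (2 * A + 1) c (x ^ p) (y ^ p) ≠ 0) →
  rk K (2 * A * Q.card + 1) (2 * A * Q.card + 1) x y Q = Q.card * finrank ℚ K

/-! ## pigeonhole -/

/-- [PACK] volumes of disjoint balls, as in `Besicovitch.card_le_of_separated` -/
def S_PACK : Prop := ∀ (E : Type) [NormedAddCommGroup E] [NormedSpace ℝ E]
  [FiniteDimensional ℝ E] (F : Finset E) (ρ δ : ℝ), 0 < δ → 0 ≤ ρ → (∀ v ∈ F, ‖v‖ ≤ ρ) →
  (∀ v ∈ F, ∀ w ∈ F, v ≠ w → δ ≤ ‖v - w‖) → (F.card : ℝ) ≤ (1 + 2 * ρ / δ) ^ finrank ℝ E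

/-- [FIB] choose indices `I`, `|I| =` rank, such that the `L (e_i)`, `i ∈ I`, are independent:
a 0-1 vector in the fibre is determined by its coordinates outside `I` -/
def S_FIB : Prop := ∀ (ι V : Type) [Fintype ι] [AddCommGroup V] [Module ℚ V]
  (L : (ι → ℚ) →ₗ[ℚ] V) (v : V),
  Nat.card {c : ι → Bool // L (fun i => if c i then 1 else 0) = v} *
    2 ^ finrank ℚ (LinearMap.range L) ≤ 2 ^ Fintype.card ι

/-- [SEPD] a nonzero algebraic integer `α` of `K`, `w_τ = max (1, |τ x|) ^ A max (1, |τ y|) ^ B`: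
by the inequality of the means `∑_τ |τ α|² / w_τ² ≥ D (∏ |τ α| / w_τ) ^ (2 / D)` and the norm of
`α` is at least 1 -/
def S_SEPD : Prop := ∀ (K : Type) [Field K] [NumberField K] (x y : K) (A B : ℕ) (α : 𝓞 K),
  α ≠ 0 → (finrank ℚ K : ℝ) * Real.exp (-(2 * (A * HK K x + B * HK K y) / finrank ℚ K)) ≤
    ∑ τ : K →+* ℂ, ‖τ (α : K)‖ ^ 2 / (max 1 ‖τ x‖ ^ A * max 1 ‖τ y‖ ^ B) ^ 2

/-- [COUNT] Pigeonhole.  The 0-1 vectors `c` on `Fin A × Fin B` are `2 ^ (A B)`.  Their jets of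
order `T` are in the real span (dimension at most `jrk`) of the images of `ℚ ^ (A B)` in
`(Fin T × Fin T) × (K →+* ℂ) → ℂ`, with the norm `(∑ |·|² / w_τ²) ^ (1/2)` (`w_τ` of SEPD; or
`EuclideanSpace` after division by `w_τ`): length at most `T √D A B max (A, B) ^ (T - 1)`,
differences at least `√D exp (- (A HK x + B HK y) / D)` (SEPD), so by PACK at most
`(1 + 2 T A B max (A, B) ^ T exp (..)) ^ jrk` values.  In each fibre all the differences vanish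
at the points of `Q`, so by FIB each fibre has at most `2 ^ (A B - rk)` elements -/
def S_COUNT : Prop := ∀ (K : Type) [Field K] [NumberField K] (x y : 𝓞 K) (A B T : ℕ)
  (Q : Finset ℕ), 0 < A → 0 < B → 0 < T →
  (∀ c : ℕ → ℕ → ℤ, (∀ i j, |c i j| ≤ 1) → Van A B c x y T →
    ∀ q ∈ Q, evl A B c (x ^ q) (y ^ q) = 0) →
  (rk K A B x y Q : ℝ) * Real.log 2 ≤ jrk K A B x y T *
    Real.log (1 + 2 * T * (A * B) * (max A B : ℕ) ^ T *
      Real.exp ((A * HK K x + B * HK K y) / finrank ℚ K))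

/-- [JRK0] the jets are in at most `T ^ 2` copies of `K` -/
def S_JRK0 : Prop := ∀ (K : Type) [Field K] [NumberField K] (x y : K) (A B T : ℕ),
  jrk K A B x y T ≤ T ^ 2 * finrank ℚ K

/-! ## curves -/

/-- [IRR] an irreducible factor vanishing at `P` (UFD) -/
def S_IRR : Prop := ∀ (k K : Type) [Field k] [Field K] [Algebra k K] (P : Fin 2 → K)
  (F : MvPolynomial (Fin 2) k), F ≠ 0 → MvPolynomial.aeval P F = 0 →
  ∃ g : MvPolynomial (Fin 2) k, Irreducible g ∧ g ∣ F ∧ MvPolynomial.aeval P g = 0 ∧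
    ∀ i, g.degreeOf i ≤ F.degreeOf i

/-- [BEZ] a weak theorem of Bezout: `a, b` the degrees of `g`, `a', b'` of `R`; the polynomials
with exponents `< L, < L'` (`L`, `L'` large) map onto `K`; the kernel contains
`g * box (L - a, L' - b) + R * box (L - a', L' - b')`, and the intersection of the two is
`g R * box (L - a - a', L' - b - b')` (`g` prime); dimensions give `D ≤ a b' + a' b` -/
def S_BEZ : Prop := ∀ (K : Type) [Field K] [NumberField K] (P : Fin 2 → K)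
  (g R : MvPolynomial (Fin 2) ℚ), Algebra.adjoin ℚ (Set.range P) = ⊤ → Irreducible g →
  ¬ g ∣ R → MvPolynomial.aeval P g = 0 → MvPolynomial.aeval P R = 0 →
  finrank ℚ K ≤ g.degreeOf 0 * R.degreeOf 1 + R.degreeOf 0 * g.degreeOf 1

/-- [JRK1] the kernel contains `g * box ((n - 1) a, (n - 1) b)` -/
def S_JRK1 : Prop := ∀ (K : Type) [Field K] [NumberField K] (x y : K) (n : ℕ)
  (g : MvPolynomial (Fin 2) ℚ), 1 ≤ n → g ≠ 0 → MvPolynomial.aeval ![x, y] g = 0 →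
  jrk K (n * g.degreeOf 0) (n * g.degreeOf 1) x y 1 ≤ 2 * n * (g.degreeOf 0 * g.degreeOf 1)

/-- the determinant of the differences of three exponents -/
def det3 (s t r : Fin 2 →₀ ℕ) : ℤ :=
  ((t 0 : ℤ) - s 0) * ((r 1 : ℤ) - s 1) - ((r 0 : ℤ) - s 0) * ((t 1 : ℤ) - s 1)

/-- [TRANS] `q` prime, `q > 2 ω ^ 2`: the `q ^ 2` polynomials `g (ζ X, ζ' Y)`, `ζ ^ q = ζ' ^ q = 1`,
are irreducible, divide `R (X ^ q, Y ^ q)` and are not associated: if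
`g (ζ X, ζ' Y) = λ g (X, Y)`, then `ζ ^ i ζ' ^ j = λ` for all `(i, j)` in the support, so
`ζ ^ Δ = ζ' ^ Δ = 1` with `Δ = det3 ≠ 0`, `|Δ| < q`.  So `q ^ 2 deg_X g ≤ q deg_X R`, and
`deg_X g ≥ 1` as the support is not on a line -/
def S_TRANS : Prop := ∀ (g R : MvPolynomial (Fin 2) ℂ) (ω q : ℕ), Irreducible g →
  (∀ i, g.degreeOf i < ω) → (∃ s ∈ g.support, ∃ t ∈ g.support, ∃ r ∈ g.support,
    det3 s t r ≠ 0) → q.Prime → 2 * ω ^ 2 < q → R ≠ 0 → g ∣ MvPolynomial.expand q R →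
  q ≤ R.degreeOf 0

/-- [LINE] the support of `g₁` is on a line, in the direction `(u, v)` (coprime, `|u|, |v| < ω`;
one exponent only is impossible as `β β' ≠ 0`).  `g₁` vanishes at `(β, β')`, so at all
`(β t ^ v, β' t ^ (-u))`, `t ≠ 0`; so does its multiple `g`: for every `ℓ` the part of `g` with
exponents on the line `v i - u j = ℓ` vanishes at `(β, β')`.  Some part is not zero, and is
`X ^ i Y ^ j h (X ^ u Y ^ v)`, `h` a nonzero polynomial over `ℚ` of degree `< ω`; so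
`h (β ^ u β' ^ v) = 0` -/
def S_LINE : Prop := ∀ (K : Type) [Field K] [NumberField K] (β β' : K) (τ : K →+* ℂ)
  (g : MvPolynomial (Fin 2) ℚ) (g₁ : MvPolynomial (Fin 2) ℂ) (ω : ℕ), β ≠ 0 → β' ≠ 0 → g ≠ 0 →
  (∀ i, g.degreeOf i < ω) → g₁ ∣ MvPolynomial.map (algebraMap ℚ ℂ) g →
  MvPolynomial.eval ![τ β, τ β'] g₁ = 0 →
  (∀ s ∈ g₁.support, ∀ t ∈ g₁.support, ∀ r ∈ g₁.support, det3 s t r = 0) →
  ∃ u v : ℤ, (u, v) ≠ (0, 0) ∧ |u| < ω ∧ |v| < ω ∧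
    (minpoly ℚ (β ^ u * β' ^ v)).natDegree ≤ ω

/-- `x` and `y` are multiplicatively independent -/
def Ind {K : Type} [Field K] (x y : K) : Prop := ∀ a b : ℤ, x ^ a * y ^ b = 1 → a = 0 ∧ b = 0

/-- [SMALL] `θ = β ^ u β' ^ v` is a unit, not a root of unity, `HK θ ≤ ω (HK β + HK β')`,
`log M (θ) = deg θ / D * HK θ` (Helper72K9.AB S_HM, proved in Helper55K9.AB.Hm) and Dobrowolski
(`Pool.Agent.W963.GE.mm_dob`) -/
def S_SMALL : Prop := ∃ c : ℝ, 0 < c ∧ ∀ (K : Type) [Field K] [NumberField K] (β β' : 𝓞 K)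
  (ω : ℕ) (u v : ℤ), IsUnit β → IsUnit β' → Ind (β : K) (β' : K) → (u, v) ≠ (0, 0) →
  |u| ≤ ω → |v| ≤ ω → (minpoly ℚ ((β : K) ^ u * (β' : K) ^ v)).natDegree ≤ ω →
  c / (Real.log (2 * ω)) ^ 3 ≤ (ω : ℝ) ^ 2 * (HK K β + HK K β') / finrank ℚ K

/-- [FULL] if a nonzero `R` with exponents `< n a`, `< n b` vanishes at `(β ^ q, β' ^ q)`, then
`R (X ^ q, Y ^ q)` vanishes at `(β, β')`, by BEZ `g` divides it; over `ℂ` take (IRR) an
irreducible factor `g₁` of `g` vanishing at `(τ β, τ β')`; by LINE it is not on a line; by TRANS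
`q ≤ n a - 1` -/
def S_FULL : Prop := ∀ (K : Type) [Field K] [NumberField K] (β β' : K)
  (g : MvPolynomial (Fin 2) ℚ) (ω n q : ℕ), β ≠ 0 → β' ≠ 0 → Algebra.adjoin ℚ {β, β'} = ⊤ →
  Irreducible g → MvPolynomial.aeval ![β, β'] g = 0 → (∀ i, g.degreeOf i < ω) →
  q.Prime → 2 * ω ^ 2 < q → n * ω ≤ q → 2 * q * n * (g.degreeOf 0 * g.degreeOf 1) < finrank ℚ K →
  (∀ u v : ℤ, (u, v) ≠ (0, 0) → |u| < ω → |v| < ω →
    ω < (minpoly ℚ (β ^ u * β' ^ v)).natDegree) →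
  rk K (n * g.degreeOf 0) (n * g.degreeOf 1) β β' {q} =
    n * g.degreeOf 0 * (n * g.degreeOf 1)

/-! ## the two cases and the theorem; `D ^ (1 / 100)` is about `r` -/

/-- the monomials with exponents `< A`, `< B` are independent at `(x, y)` -/
def NoRel {K : Type} [Field K] [Algebra ℚ K] (A B : ℕ) (x y : K) : Prop :=
  ∀ c : ℕ → ℕ → ℚ, evl A B c x y = 0 → ∀ i < A, ∀ j < B, c i j = 0

/-- [CASEA] from FULL, SMALL, COUNT (`T = 1`), EX1, JRK1, IRR, PRIMES: `ω = r ^ 10`, `n = r`, one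
prime `q` in `(r ^ 30, 2 r ^ 30]` -/
def S_CASEA : Prop := ∃ r0 : ℕ, ∀ (K : Type) [Field K] [NumberField K] (β β' : 𝓞 K) (r : ℕ),
  r0 ≤ r → r ^ 100 ≤ finrank ℚ K → IsUnit β → IsUnit β' → Ind (β : K) (β' : K) →
  Algebra.adjoin ℚ {(β : K), (β' : K)} = ⊤ → HK K β ≤ 4 * (r : ℝ) ^ 6 →
  HK K β' ≤ 4 * (r : ℝ) ^ 6 → NoRel (r ^ 10) (r ^ 10) (β : K) (β' : K)

/-- [CASEB] from SPAN, SEP, UNION, EXTRAP, COUNT, JRK0 with `T = 100` -/
def S_CASEB : Prop := ∃ r0 : ℕ, ∀ (K : Type) [Field K] [NumberField K] (x y : 𝓞 K) (r : ℕ)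
  (Q : Finset ℕ), r0 ≤ r → r ^ 100 ≤ finrank ℚ K → finrank ℚ K < (r + 1) ^ 100 →
  HK K x ≠ 0 → HK K x ≤ r + 1 → HK K y ≤ r + 1 → Q.card = r →
  (∀ p ∈ Q, p.Prime ∧ r ^ 5 < p ∧ p ≤ 2 * r ^ 5 ∧ Unr K p ∧
    Algebra.adjoin ℚ {(x : K) ^ p, (y : K) ^ p} = ⊤ ∧
    NoRel (r ^ 10) (r ^ 10) ((x : K) ^ p) ((y : K) ^ p)) → False

/-- [PICK] `r` good primes, from PRIMES, BADQ, DISC, DEGP -/
def S_PICK : Prop := ∃ r0 : ℕ, ∀ (K : Type) [Field K] [NumberField K] (x y : 𝓞 K) (r : ℕ),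
  r0 ≤ r → r ^ 100 ≤ finrank ℚ K → finrank ℚ K < (r + 1) ^ 100 → x ≠ 0 → y ≠ 0 →
  Algebra.adjoin ℚ {(x : K), (y : K)} = ⊤ → HK K x ≤ r + 1 → HK K y ≤ r + 1 →
  ∃ Q : Finset ℕ, Q.card = r ∧ ∀ p ∈ Q, p.Prime ∧ r ^ 5 < p ∧ p ≤ 2 * r ^ 5 ∧ Unr K p ∧
    Algebra.adjoin ℚ {(x : K) ^ p, (y : K) ^ p} = ⊤

/-- [NT] **the weak two-dimensional Lehmer bound** -/
def S_NT : Prop := ∃ D0 : ℕ, ∀ (K : Type) [Field K] [NumberField K] (x y : 𝓞 K),
  D0 ≤ finrank ℚ K → IsUnit x → IsUnit y → Ind (x : K) (y : K) →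
  Algebra.adjoin ℚ {(x : K), (y : K)} = ⊤ →
  (finrank ℚ K : ℝ) ^ (1 / 100 : ℝ) ≤ max (HK K x) (HK K y)

end Pool.Agent.Helper28K9.RK
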