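import Mathlib
import Pool.Agent.H746UG.MetFinal
import Pool.Agent.Helper28K9.RK.Stm

/-!
# Statements: growth of affine actions of rank two

`χ : G →* ℂˣ`, `b (g h) = b g + χ g * b h` (so `g` acts on `ℂ` by `z ↦ χ g * z + b g`).
-/

set_option autoImplicit false

open NumberField Module Finset
open scoped Pointwise

namespace Pool.Agent.Helper28K9.RK

open Pool.Agent.H746UG (rho eta digitSums)

universe u

/-- [PAIR] for fixed `g` the `h` with `b (g h) = b (h g)` form a subgroup (the centralizer of the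
image of `g` in the affine group) -/
def S_PAIR : Prop := ∀ (G : Type u) [Group G] (S : Set G) (χ : G →* ℂˣ) (b : G → ℂ),
  Subgroup.closure S = ⊤ → (∀ g h, b (g * h) = b g + χ g * b h) →
  (∃ g h, b (g * h) ≠ b (h * g)) → ∃ s ∈ S, ∃ t ∈ S, b (s * t) ≠ b (t * s)

/-- [RANK] if any two of the `χ s`, `s ∈ S`, are multiplicatively dependent, then so are any two
elements of the group that they generate (`ℚ ⊗ χ(G)` has dimension at most one: if all the `χ s`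
are roots of unity clear; otherwise let `χ s₀` be of infinite order; for every `g` some power
`χ g ^ m`, `m > 0`, is a power of `χ s₀`) -/
def S_RANK : Prop := ∀ (G : Type u) [Group G] (S : Set G) (χ : G →* ℂˣ),
  Subgroup.closure S = ⊤ → (∃ g h, Ind ((χ g : ℂˣ) : ℂ) ((χ h : ℂˣ) : ℂ)) →
  ∃ s ∈ S, ∃ t ∈ S, Ind ((χ s : ℂˣ) : ℂ) ((χ t : ℂˣ) : ℂ)

/-- [PROG] the products of `n` periods; a period is `J` times (`u` or `v`, then `w`), then `J`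
times `z`.  All the factors at a given place have the same `χ`, so the value of `b` at the product
is a constant plus `(b u - b v) * ∑ ε (m, j) Q ^ m ξ ^ j` with `ξ = χ (u w)`,
`Q = (χ (u w z)) ^ J` -/
def S_PROG : Prop := ∀ (G : Type u) [Group G] (S : Set G) (χ : G →* ℂˣ) (b : G → ℂ)
  (u v w z : G) (l₀ l₁ l₂ J n : ℕ), S.Finite → (∀ g h, b (g * h) = b g + χ g * b h) →
  u ∈ S ^ l₀ → v ∈ S ^ l₀ → w ∈ S ^ l₁ → z ∈ S ^ l₂ → χ u = χ v → b u ≠ b v →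
  Nat.card (dbl J n ((χ (u * w) : ℂˣ) : ℂ) (((χ (u * w * z) : ℂˣ) : ℂ) ^ J)) ≤
    Nat.card ↥(S ^ (n * (J * (l₀ + l₁) + J * l₂)))

/-- the powers `ξ ^ j`, `j < e`, are independent over `ℚ (Q)` -/
def LI (e : ℕ) (ξ Q : ℂ) : Prop :=
  ∀ a : Fin e → ℂ, (∀ j, a j ∈ IntermediateField.adjoin ℚ {Q}) →
    ∑ j : Fin e, a j * ξ ^ (j : ℕ) = 0 → ∀ j, a j = 0

/-- [DBL] the inner sums in `Q` can be chosen independently for `j < e` -/
def S_DBL : Prop := ∀ (ξ Q : ℂ) (J n e : ℕ), e ≤ J → LI e ξ Q →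
  Nat.card ↥(digitSums Q n) ^ e ≤ Nat.card ↥(dbl J n ξ Q)

/-- [RATE] limits along `n L` (`tendsto_rho`, `tendsto_eta` of H746UG) -/
def S_RATE : Prop := ∀ (G : Type u) [Group G] (S : Set G) (Q : ℂ) (e L : ℕ), Q ≠ 0 → 0 < L →
  (∀ n, Nat.card ↥(digitSums Q n) ^ e ≤ Nat.card ↥(S ^ (n * L))) →
  (e : ℝ) / L * eta Q ≤ rho S

/-- [ETAB] `Pool.Agent.R976.UG.eta_boundC` and `H746UG.eta_eq_log_two`; `K` a subfield of `ℂ`,
`Q ∈ K` a unit, not a root of unity: `log M (Q) = HK K Q / [K : ℚ (Q)]` (Helper55K9.AB.Hm) -/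
def S_ETAB : Prop := ∀ (K : IntermediateField ℚ ℂ) [NumberField K] (Q : K) (e : ℕ),
  IsIntegral ℤ (Q : ℂ) → Q ≠ 0 → (∀ m > 0, Q ^ m ≠ 1) →
  e * (minpoly ℚ (Q : ℂ)).natDegree = finrank ℚ K →
  min (1 / 180) (HK K Q / e) / 2 ≤ eta (Q : ℂ)

/-- [CHOICE] `K = ℚ (x, ξ)`, `D = [K : ℚ]`, `w = ξ ψ` is `x ξ` or `x ξ ^ 2`, so for one of them
`3 HK w ≥ max (HK x, HK ξ)` (HKB: `ξ = (x ξ²) / (x ξ)`, `x = (x ξ)² / (x ξ²)`).
(1) `D < D0` (`D0` of NT): `J = e = 1`, Dobrowolski (`Pool.Agent.W963.GE.mm_dob`) and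
`R976.UG.eta_boundC`.  (2) `D ≥ D0`: `HK w ≥ D ^ (1 / 100) / 3` by NT.  `e₁ = [K : ℚ (w)]`.  If
`e₁ ≤ D ^ (1 / 200)`: `J = e = 1`, ETAB.  Otherwise by PRIMES and DEGP (at most `2 log₂ D` bad
primes) there is a prime `J ∈ (e₁, 2 e₁]` with `ℚ (w ^ J) = ℚ (w)` and `ℚ (x ^ J) = ℚ (x)`;
`Q = w ^ J`: `ℚ (Q, ξ)` contains `ψ ^ J`, so `x ^ J`, so `x`, so it is `K`; so `ξ` has degree
`e = e₁` over `ℚ (Q)` and LI holds; `eta (Q) ≥ min (1 / 180, J HK w / e₁) / 2` by ETAB, and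
`e / J ≥ 1 / 2`.  (`LI 1` is trivial.) -/
def S_CHOICE : Prop := ∃ c : ℝ, 0 < c ∧ ∀ x ξ : ℂ, x ≠ 0 → ξ ≠ 0 → IsIntegral ℤ x →
  IsIntegral ℤ x⁻¹ → IsIntegral ℤ ξ → IsIntegral ℤ ξ⁻¹ → Ind x ξ →
  ∃ ψ : ℂ, (ψ = x ∨ ψ = x * ξ) ∧ ∃ J e : ℕ, 0 < e ∧ e ≤ J ∧ LI e ξ ((ξ * ψ) ^ J) ∧
    c ≤ (e : ℝ) / J * eta ((ξ * ψ) ^ J)

/-- [GROW] **the growth gap for actions of rank two**, from all of the above -/
def S_GROW : Prop := ∃ c : ℝ, 0 < c ∧ ∀ (G : Type u) [Group G] (S : Set G), S.Finite →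
  Subgroup.closure S = ⊤ → ∀ (χ : G →* ℂˣ) (b : G → ℂ),
  (∀ g h, b (g * h) = b g + χ g * b h) → (∃ g h, b (g * h) ≠ b (h * g)) →
  (∃ g h, Ind ((χ g : ℂˣ) : ℂ) ((χ h : ℂˣ) : ℂ)) → c ≤ rho S

end Pool.Agent.Helper28K9.RK
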