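import Mathlib
import Pool.Agent.Helper28K9.RK.St2

/-!
Leaves PAIR, RANK, DBL, PROG, RATE.
-/

set_option autoImplicit false

open NumberField Module Finset
open scoped Pointwise

namespace Pool.Agent.Helper28K9.RK

open Pool.Agent.H746UG (rho eta digitSums)

universe u

theorem pair : S_PAIR.{u} := by
  intro G _ S χ b hS hb hne
  by_contra hcon
  push Not at hcon
  have h0 : b 1 = 0 := by
    have := hb 1 1
    rw [mul_one, map_one, Units.val_one, one_mul] at this
    linear_combination -this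
  have key : ∀ g h : G, b (g * h) = b (h * g) ↔
      (1 - ((χ h : ℂˣ) : ℂ)) * b g = (1 - ((χ g : ℂˣ) : ℂ)) * b h := by
    intro g h
    rw [hb g h, hb h g]
    constructor
    · intro e; linear_combination e
    · intro e; linear_combination e
  let C : G → Subgroup G := fun g =>
    { carrier := {h | (1 - ((χ h : ℂˣ) : ℂ)) * b g = (1 - ((χ g : ℂˣ) : ℂ)) * b h}
      mul_mem' := by
        intro h h' h1 h2
        have h1' : (1 - ((χ h : ℂˣ) : ℂ)) * b g = (1 - ((χ g : ℂˣ) : ℂ)) * b h := h1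
        have h2' : (1 - ((χ h' : ℂˣ) : ℂ)) * b g = (1 - ((χ g : ℂˣ) : ℂ)) * b h' := h2
        show (1 - ((χ (h * h') : ℂˣ) : ℂ)) * b g = (1 - ((χ g : ℂˣ) : ℂ)) * b (h * h')
        rw [hb, map_mul, Units.val_mul]
        linear_combination h1' + ((χ h : ℂˣ) : ℂ) * h2'
      one_mem' := by
        show (1 - ((χ 1 : ℂˣ) : ℂ)) * b g = (1 - ((χ g : ℂˣ) : ℂ)) * b 1
        rw [h0, map_one, Units.val_one]
        ring
      inv_mem' := by
        intro h h1
        have h1' : (1 - ((χ h : ℂˣ) : ℂ)) * b g = (1 - ((χ g : ℂˣ) : ℂ)) * b h := h1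
        show (1 - ((χ h⁻¹ : ℂˣ) : ℂ)) * b g = (1 - ((χ g : ℂˣ) : ℂ)) * b h⁻¹
        have h3 := hb h⁻¹ h
        rw [inv_mul_cancel, h0] at h3
        have h2 : b h⁻¹ = -((χ h⁻¹ : ℂˣ) : ℂ) * b h := by linear_combination -h3
        have h4 : ((χ h⁻¹ : ℂˣ) : ℂ) * ((χ h : ℂˣ) : ℂ) = 1 := by
          rw [← Units.val_mul, ← map_mul, inv_mul_cancel, map_one, Units.val_one]
        rw [h2]
        linear_combination (-((χ h⁻¹ : ℂˣ) : ℂ)) * h1' - b g * h4 }
  have hC : ∀ g, (∀ s ∈ S, s ∈ C g) → ∀ h, h ∈ C g := fun g hg h => by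
    have h1 : Subgroup.closure S ≤ C g := (Subgroup.closure_le _).mpr hg
    rw [hS] at h1
    exact h1 (Subgroup.mem_top h)
  obtain ⟨g, h, hgh⟩ := hne
  apply hgh
  rw [key]
  have h2 : h ∈ C g := by
    refine hC g (fun s hs => ?_) h
    have h1 : g ∈ C s := hC s (fun t ht => (key s t).mp (hcon s hs t ht)) g
    have h1' : (1 - ((χ g : ℂˣ) : ℂ)) * b s = (1 - ((χ s : ℂˣ) : ℂ)) * b g := h1
    exact h1'.symm
  exact h2

theorem rank : S_RANK.{u} := by
  intro G _ S χ hS hgh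
  obtain ⟨g, h, hgh⟩ := hgh
  by_contra hcon
  push Not at hcon
  have toU : ∀ (x y : ℂˣ) (a b : ℤ), (x : ℂ) ^ a * (y : ℂ) ^ b = 1 ↔ x ^ a * y ^ b = 1 := by
    intro x y a b
    rw [← Units.val_zpow_eq_zpow_val, ← Units.val_zpow_eq_zpow_val, ← Units.val_mul,
      Units.val_eq_one]
  have dep : ∀ s ∈ S, ∀ t ∈ S, ∃ a b : ℤ, (a ≠ 0 ∨ b ≠ 0) ∧ χ s ^ a * χ t ^ b = 1 := by
    intro s hs t ht
    have h1 := hcon s hs t ht
    unfold Ind at h1
    push Not at h1
    obtain ⟨a, b, h2, h3⟩ := h1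
    refine ⟨a, b, ?_, (toU _ _ _ _).mp h2⟩
    by_cases ha : a = 0
    · exact Or.inr (h3 ha)
    · exact Or.inl ha
  by_cases hall : ∀ s ∈ S, ∃ m : ℤ, m ≠ 0 ∧ χ s ^ m = 1
  · let T : Subgroup G :=
      { carrier := {g | ∃ m : ℤ, m ≠ 0 ∧ χ g ^ m = 1}
        mul_mem' := by
          rintro a c ⟨m, hm, e⟩ ⟨m', hm', e'⟩
          refine ⟨m * m', mul_ne_zero hm hm', ?_⟩
          rw [map_mul, mul_zpow, zpow_mul, e, one_zpow, one_mul, mul_comm m m', zpow_mul, e',
            one_zpow]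
        one_mem' := ⟨1, one_ne_zero, by simp⟩
        inv_mem' := by
          rintro a ⟨m, hm, e⟩
          refine ⟨m, hm, ?_⟩
          rw [map_inv, inv_zpow, e, inv_one] }
    have h1 : Subgroup.closure S ≤ T := (Subgroup.closure_le _).mpr hall
    rw [hS] at h1
    obtain ⟨m, hm, e⟩ := h1 (Subgroup.mem_top g)
    refine hm (hgh m 0 ?_).1
    rw [toU, e, zpow_zero, mul_one]
  · push Not at hall
    obtain ⟨s0, hs0, h0⟩ := hall
    let T : Subgroup G :=
      { carrier := {g | ∃ m k : ℤ, m ≠ 0 ∧ χ g ^ m = χ s0 ^ k}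
        mul_mem' := by
          rintro a c ⟨m, k, hm, e⟩ ⟨m', k', hm', e'⟩
          refine ⟨m * m', k * m' + k' * m, mul_ne_zero hm hm', ?_⟩
          rw [map_mul, mul_zpow, zpow_mul, e, mul_comm m m', zpow_mul, e', ← zpow_mul,
            ← zpow_mul, ← zpow_add]
        one_mem' := ⟨1, 0, one_ne_zero, by simp⟩
        inv_mem' := by
          rintro a ⟨m, k, hm, e⟩
          refine ⟨m, -k, hm, ?_⟩
          rw [map_inv, inv_zpow, e, zpow_neg] }
    have h1 : Subgroup.closure S ≤ T := by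
      refine (Subgroup.closure_le _).mpr (fun t ht => ?_)
      obtain ⟨a, b, hab, e⟩ := dep s0 hs0 t ht
      have hb : b ≠ 0 := by
        intro hb
        rw [hb, zpow_zero, mul_one] at e
        rcases hab with ha | hb'
        · exact h0 a ha e
        · exact hb' hb
      refine ⟨b, -a, hb, ?_⟩
      rw [zpow_neg]
      exact eq_inv_of_mul_eq_one_right e
    rw [hS] at h1
    obtain ⟨m, k, hm, e⟩ := h1 (Subgroup.mem_top g)
    obtain ⟨m', k', hm', e'⟩ := h1 (Subgroup.mem_top h)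
    by_cases hk : k' = 0
    · have h2 : χ h ^ m' = 1 := by rw [e', hk, zpow_zero]
      refine hm' (hgh 0 m' ?_).2
      rw [toU, h2, zpow_zero, mul_one]
    · have h3 := hgh (m * k') (-(m' * k)) (by
        rw [toU, zpow_mul, e, zpow_neg, zpow_mul, e', ← zpow_mul, ← zpow_mul, mul_comm k' k,
          mul_inv_cancel])
      exact mul_ne_zero hm hk h3.1

theorem mem_adj (Q : ℂ) (n : ℕ) {z : ℂ} (hz : z ∈ digitSums Q n) :
    z ∈ IntermediateField.adjoin ℚ {Q} := by
  obtain ⟨ε, rfl⟩ := hz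
  refine sum_mem (fun i _ => ?_)
  split_ifs
  · exact pow_mem (IntermediateField.mem_adjoin_simple_self ℚ Q) _
  · exact zero_mem _

theorem dbl_ok : S_DBL := by
  intro ξ Q J n e heJ hLI
  have hfin : Finite ↥(dbl J n ξ Q) := by
    have h1 : (dbl J n ξ Q) = Set.range (fun ε : Fin n → Fin J → Bool =>
        ∑ m : Fin n, ∑ j : Fin J, if ε m j then Q ^ (m : ℕ) * ξ ^ (j : ℕ) else 0) := by
      ext z
      constructor
      · rintro ⟨ε, h⟩
        exact ⟨ε, h.symm⟩
      · rintro ⟨ε, h⟩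
        exact ⟨ε, h.symm⟩
    rw [h1]
    exact (Set.finite_range _).to_subtype
  have h1 : Nat.card (Fin e → ↥(digitSums Q n)) = Nat.card ↥(digitSums Q n) ^ e := by
    rw [Nat.card_fun, Nat.card_eq_fintype_card (α := Fin e), Fintype.card_fin]
  rw [← h1]
  have hmem : ∀ z : Fin e → ↥(digitSums Q n), (∑ j : Fin e, (z j : ℂ) * ξ ^ (j : ℕ)) ∈
      dbl J n ξ Q := by
    intro z
    choose ε hε using fun j => (z j).2
    refine ⟨fun m j => if h : (j : ℕ) < e then ε ⟨j, h⟩ m else false, ?_⟩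
    have h2 : ∀ m : Fin n, (∑ j : Fin J, if (if h : (j : ℕ) < e then ε ⟨j, h⟩ m else false) then
        Q ^ (m : ℕ) * ξ ^ (j : ℕ) else 0) =
        ∑ j : Fin e, if ε j m then Q ^ (m : ℕ) * ξ ^ (j : ℕ) else 0 := by
      intro m
      have h3 : ∀ F : ℕ → ℂ, (∀ i, e ≤ i → F i = 0) → ∑ j : Fin J, F j = ∑ j : Fin e, F j := by
        intro F hF
        rw [← Finset.sum_range, ← Finset.sum_range]
        symm
        apply Finset.sum_subset
        · intro i hi
          rw [Finset.mem_range] at hi ⊢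
          omega
        · intro i _ hi
          rw [Finset.mem_range, not_lt] at hi
          exact hF i hi
      have h4 := h3 (fun i => if (if h : i < e then ε ⟨i, h⟩ m else false) then
        Q ^ (m : ℕ) * ξ ^ i else 0) (by
          intro i hi
          simp [not_lt.mpr hi])
      rw [h4]
      apply Finset.sum_congr rfl
      intro j _
      simp
    rw [Finset.sum_congr rfl (fun m _ => h2 m), Finset.sum_comm]
    apply Finset.sum_congr rfl
    intro j _
    rw [hε j, Finset.sum_mul]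
    apply Finset.sum_congr rfl
    intro m _
    split_ifs
    · rfl
    · rw [zero_mul]
  refine Nat.card_le_card_of_injective
    (fun z : Fin e → ↥(digitSums Q n) => (⟨_, hmem z⟩ : ↥(dbl J n ξ Q))) ?_
  intro z z' hzz
  have h5 : ∑ j : Fin e, (z j : ℂ) * ξ ^ (j : ℕ) = ∑ j : Fin e, (z' j : ℂ) * ξ ^ (j : ℕ) :=
    congrArg Subtype.val hzz
  have h6 := hLI (fun j => (z j : ℂ) - (z' j : ℂ))
    (fun j => sub_mem (mem_adj Q n (z j).2) (mem_adj Q n (z' j).2)) (by
      simp only [sub_mul]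
      rw [Finset.sum_sub_distrib, h5, sub_self])
  funext j
  exact Subtype.ext (sub_eq_zero.mp (h6 j))

theorem rate : S_RATE.{u} := by
  intro G _ S Q e L hQ hL h
  have hT := Pool.Agent.H746UG.tendsto_eta Q hQ
  have hR := Pool.Agent.H746UG.tendsto_rho S
  have hR2 : Filter.Tendsto (fun n : ℕ => Real.log (Nat.card ↥(S ^ (n * L))) /
      ((n * L : ℕ) : ℝ)) Filter.atTop (nhds (rho S)) :=
    hR.comp (Filter.tendsto_id.atTop_mul_const' hL)
  have h1 : Filter.Tendsto (fun n : ℕ => (e : ℝ) / L *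
      (Real.log (Nat.card ↥(digitSums Q n)) / n)) Filter.atTop (nhds ((e : ℝ) / L * eta Q)) :=
    hT.const_mul _
  refine le_of_tendsto_of_tendsto' h1 hR2 (fun n => ?_)
  have hfin : Finite ↥(digitSums Q n) := by
    have h2 : digitSums Q n = Set.range (fun ε : Fin n → Bool =>
        ∑ i : Fin n, if ε i then Q ^ (i : ℕ) else 0) := by
      ext z
      constructor
      · rintro ⟨ε, h⟩
        exact ⟨ε, h.symm⟩
      · rintro ⟨ε, h⟩
        exact ⟨ε, h.symm⟩
    rw [h2]
    exact (Set.finite_range _).to_subtype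
  have hne : Nonempty ↥(digitSums Q n) := ⟨⟨_, fun _ => true, rfl⟩⟩
  have hD : 0 < Nat.card ↥(digitSums Q n) := Nat.card_pos
  have h3 : (e : ℝ) * Real.log (Nat.card ↥(digitSums Q n)) ≤
      Real.log (Nat.card ↥(S ^ (n * L))) := by
    rw [← Real.log_pow]
    apply Real.log_le_log
    · positivity
    · exact_mod_cast h n
  rw [Nat.cast_mul, div_mul_div_comm, mul_comm (L : ℝ) n]
  gcongr

theorem prog : S_PROG.{u} := by
  intro G _ S χ b u v w z l₀ l₁ l₂ J n hS hb hu hv hw hz hχ hne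
  have h0 : b 1 = 0 := by
    have := hb 1 1
    rw [mul_one, map_one, Units.val_one, one_mul] at this
    linear_combination -this
  set ξ : ℂ := ((χ (u * w) : ℂˣ) : ℂ) with hξ
  have inner : ∀ j : ℕ, ∃ c : ℂ, ∀ ε : ℕ → Bool, ∃ g ∈ S ^ (j * (l₀ + l₁)),
      ((χ g : ℂˣ) : ℂ) = ξ ^ j ∧
      b g = c + (b u - b v) * ∑ i ∈ range j, if ε i then ξ ^ i else 0 := by
    intro j
    induction j with
    | zero =>
      refine ⟨0, fun ε => ⟨1, ?_, ?_, ?_⟩⟩
      · rw [zero_mul, pow_zero]; exact Set.mem_one.mpr rfl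
      · rw [map_one, Units.val_one, pow_zero]
      · rw [h0, Finset.sum_range_zero]; ring
    | succ j ih =>
      obtain ⟨c, hc⟩ := ih
      refine ⟨c + ξ ^ j * (b v + ((χ v : ℂˣ) : ℂ) * b w), fun ε => ?_⟩
      obtain ⟨g, hg, hg1, hg2⟩ := hc ε
      have hx : ∃ x ∈ S ^ l₀, χ x = χ v ∧ b x = b v + (b u - b v) * (if ε j then 1 else 0) := by
        by_cases h : ε j
        · exact ⟨u, hu, hχ, by rw [if_pos h]; ring⟩
        · exact ⟨v, hv, rfl, by rw [if_neg h]; ring⟩
      obtain ⟨x, hx1, hx2, hx3⟩ := hx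
      refine ⟨g * (x * w), ?_, ?_, ?_⟩
      · rw [Nat.succ_mul, pow_add, pow_add]
        exact Set.mul_mem_mul hg (Set.mul_mem_mul hx1 hw)
      · rw [map_mul, map_mul, hx2, Units.val_mul, hg1, pow_succ, hξ, map_mul, hχ]
      · rw [hb, hb, hg1, hg2, hx2, hx3, Finset.sum_range_succ]
        by_cases h : ε j
        · rw [if_pos h, if_pos h]; ring
        · rw [if_neg h, if_neg h]; ring
  set Q : ℂ := ((χ (u * w * z) : ℂˣ) : ℂ) ^ J with hQ
  have hzJ : z ^ J ∈ S ^ (J * l₂) := by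
    rw [mul_comm, pow_mul]
    exact Set.pow_mem_pow hz
  have outer : ∀ n : ℕ, ∃ c : ℂ, ∀ ε : ℕ → ℕ → Bool,
      ∃ g ∈ S ^ (n * (J * (l₀ + l₁) + J * l₂)), ((χ g : ℂˣ) : ℂ) = Q ^ n ∧
      b g = c + (b u - b v) *
        ∑ m ∈ range n, ∑ j ∈ range J, if ε m j then Q ^ m * ξ ^ j else 0 := by
    intro n
    induction n with
    | zero =>
      refine ⟨0, fun ε => ⟨1, ?_, ?_, ?_⟩⟩
      · rw [zero_mul, pow_zero]; exact Set.mem_one.mpr rfl
      · rw [map_one, Units.val_one, pow_zero]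
      · rw [h0, Finset.sum_range_zero]; ring
    | succ n ih =>
      obtain ⟨c, hc⟩ := ih
      obtain ⟨c', hc'⟩ := inner J
      refine ⟨c + Q ^ n * (c' + ξ ^ J * b (z ^ J)), fun ε => ?_⟩
      obtain ⟨g, hg, hg1, hg2⟩ := hc ε
      obtain ⟨g', hg', hg1', hg2'⟩ := hc' (ε n)
      refine ⟨g * (g' * z ^ J), ?_, ?_, ?_⟩
      · rw [Nat.succ_mul, pow_add, pow_add]
        exact Set.mul_mem_mul hg (Set.mul_mem_mul hg' hzJ)
      · rw [map_mul, map_mul, Units.val_mul, Units.val_mul, hg1, hg1', pow_succ, map_pow,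
          Units.val_pow_eq_pow_val, ← mul_pow, hQ, hξ, ← Units.val_mul, ← map_mul]
      · rw [hb, hb, hg1, hg2, hg1', hg2', Finset.sum_range_succ]
        have h7 : ∑ j ∈ range J, (if ε n j then Q ^ n * ξ ^ j else 0) =
            Q ^ n * ∑ j ∈ range J, (if ε n j then ξ ^ j else 0) := by
          rw [Finset.mul_sum]
          apply Finset.sum_congr rfl
          intro j _
          split_ifs
          · rfl
          · rw [mul_zero]
        rw [h7]
        ring
  obtain ⟨c, hc⟩ := outer n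
  have hsub : dbl J n ξ Q ⊆ (fun g => (b g - c) / (b u - b v)) ''
      (S ^ (n * (J * (l₀ + l₁) + J * l₂))) := by
    rintro y ⟨ε, rfl⟩
    obtain ⟨g, hg, _, hbg⟩ := hc (fun m j => if h : m < n ∧ j < J then ε ⟨m, h.1⟩ ⟨j, h.2⟩ else
      false)
    refine ⟨g, hg, ?_⟩
    show (b g - c) / (b u - b v) = _
    rw [hbg, add_sub_cancel_left, mul_div_cancel_left₀ _ (sub_ne_zero.mpr hne),
      Finset.sum_range]
    apply Finset.sum_congr rfl
    intro m _
    rw [Finset.sum_range]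
    apply Finset.sum_congr rfl
    intro j _
    simp [m.2, j.2]
  have hpow : ∀ N : ℕ, (S ^ N).Finite := by
    intro N
    induction N with
    | zero => rw [pow_zero]; exact Set.finite_one
    | succ N ih => rw [pow_succ]; exact ih.mul hS
  have hSf : (S ^ (n * (J * (l₀ + l₁) + J * l₂))).Finite := hpow _
  refine (Nat.card_mono (hSf.image _) hsub).trans ?_
  exact Set.ncard_image_le hSf

end Pool.Agent.Helper28K9.RK
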