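import Pool.Agent.Helper28K9.RK.Stm

/-!
# [BADQ] primes with few unramified primes above them (helper94)
-/

set_option autoImplicit false

open NumberField Module Finset

namespace Pool.Agent.Helper28K9.RK

namespace BadqL

open UniqueFactorizationMonoid

open Classical in
/-- one prime number -/
theorem one (K : Type) [Field K] [NumberField K] (q : ℕ) (hq : q.Prime) (hU : ¬ Unr K q) :
    ∃ G : Ideal (𝓞 K), G ∣ Ideal.span {(q : 𝓞 K)} ∧ G ∣ differentIdeal ℤ (𝓞 K) ∧
      q ^ finrank ℚ K ≤ Ideal.absNorm G ^ 4 := by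
  have hqne : (q : 𝓞 K) ≠ 0 := by exact_mod_cast hq.ne_zero
  set I : Ideal (𝓞 K) := Ideal.span {(q : 𝓞 K)} with hI
  have hI0 : I ≠ ⊥ := by
    rw [hI, Ne, Ideal.span_singleton_eq_bot]
    exact hqne
  set F : Multiset (Ideal (𝓞 K)) := normalizedFactors I with hF
  have hFp : F.prod = I := Ideal.prod_normalizedFactors_eq_self hI0
  set e : Ideal (𝓞 K) → ℕ := fun P => F.count P with he
  have hprod : ∏ P ∈ F.toFinset, P ^ e P = I := by
    rw [← hFp, Finset.prod_multiset_count]
  have hmem : ∀ P ∈ F.toFinset, Prime P ∧ P ∣ I ∧ 1 ≤ e P := by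
    intro P hP
    rw [Multiset.mem_toFinset] at hP
    exact ⟨prime_of_normalized_factor P hP, dvd_of_mem_normalizedFactors hP, Multiset.one_le_count_iff_mem.2 hP⟩
  have hprime : ∀ P ∈ F.toFinset, P.IsPrime ∧ P ≠ ⊥ := fun P hP =>
    ⟨Ideal.isPrime_of_prime (hmem P hP).1, (hmem P hP).1.ne_zero⟩
  have hNpos : ∀ P ∈ F.toFinset, 1 ≤ Ideal.absNorm P := by
    intro P hP
    rw [Nat.one_le_iff_ne_zero, Ne, Ideal.absNorm_eq_zero_iff]
    exact (hprime P hP).2
  refine ⟨∏ P ∈ F.toFinset, P ^ (e P - 1), ?_, ?_, ?_⟩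
  · rw [← hprod]
    exact Finset.prod_dvd_prod_of_dvd _ _ fun P _ => pow_dvd_pow _ (Nat.sub_le _ _)
  · refine Finset.prod_dvd_of_coprime ?_ ?_
    · intro P hP Q hQ hPQ
      have h1 := (hprime P hP).1.isMaximal (hprime P hP).2
      have h2 := (hprime Q hQ).1.isMaximal (hprime Q hQ).2
      have h3 : IsCoprime P Q := by
        rw [Ideal.isCoprime_iff_sup_eq]
        exact Ideal.IsMaximal.coprime_of_ne h1 h2 hPQ
      exact IsCoprime.pow h3
    · intro P hP
      have hm : (Ideal.span {(q : ℤ)}).IsMaximal := by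
        have h1 : Prime (q : ℤ) := Nat.prime_iff_prime_int.1 hq
        have h2 : (Ideal.span {(q : ℤ)}).IsPrime := (Ideal.span_singleton_prime h1.ne_zero).2 h1
        exact h2.isMaximal (by rw [Ne, Ideal.span_singleton_eq_bot]; exact h1.ne_zero)
      refine pow_sub_one_dvd_differentIdeal (A := ℤ) (B := 𝓞 K) (p := Ideal.span {(q : ℤ)}) P (e P) ?_ ?_
      · rw [Ne, Ideal.span_singleton_eq_bot]
        exact_mod_cast hq.ne_zero
      · rw [Ideal.map_span, Set.image_singleton]
        have h1 : (algebraMap ℤ (𝓞 K)) (q : ℤ) = (q : 𝓞 K) := by simp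
        rw [h1]
        calc P ^ e P ∣ ∏ P ∈ F.toFinset, P ^ e P := Finset.dvd_prod_of_mem (fun P => P ^ e P) hP
          _ = I := hprod
  · set S := F.toFinset.filter (fun P => e P = 1) with hS
    set S' := F.toFinset.filter (fun P => ¬ e P = 1) with hS'
    have ha : (∏ P ∈ S, Ideal.absNorm P) ^ 2 < q ^ finrank ℚ K := by
      by_contra hcon
      push Not at hcon
      apply hU
      refine ⟨S, fun P hP => ?_, hcon⟩
      rw [hS, mem_filter] at hP
      refine ⟨(hprime P hP.1).1, (hprime P hP.1).2, ?_, ?_⟩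
      · exact Ideal.dvd_span_singleton.1 (hmem P hP.1).2.1
      · intro h2
        have h3 : P ^ 2 ∣ I := Ideal.dvd_span_singleton.2 h2
        have h4 := (dvd_iff_normalizedFactors_le_normalizedFactors (pow_ne_zero 2 (hprime P hP.1).2) hI0).1 h3
        have h5 := Multiset.count_le_of_le P h4
        rw [normalizedFactors_pow, normalizedFactors_irreducible (hmem P hP.1).1.irreducible] at h5
        have h6 : Multiset.count P (normalizedFactors I) = 1 := hP.2
        rw [h6] at h5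
        simp at h5
    have hN : (∏ P ∈ S, Ideal.absNorm P) * ∏ P ∈ S', Ideal.absNorm P ^ e P = q ^ finrank ℚ K := by
      have h1 : Ideal.absNorm I = q ^ finrank ℚ K := by
        rw [hI, Ideal.absNorm_span_natCast, RingOfIntegers.rank]
      have h2 : ∏ P ∈ S, Ideal.absNorm P = ∏ P ∈ S, Ideal.absNorm P ^ e P := by
        refine Finset.prod_congr rfl fun P hP => ?_
        rw [hS, mem_filter] at hP
        rw [hP.2, pow_one]
      rw [h2, hS, hS', Finset.prod_filter_mul_prod_filter_not, ← h1, ← hprod, map_prod]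
      exact Finset.prod_congr rfl fun P _ => (map_pow _ _ _).symm
    have hG : ∏ P ∈ S', Ideal.absNorm P ^ e P ≤ Ideal.absNorm (∏ P ∈ F.toFinset, P ^ (e P - 1)) ^ 2 := by
      rw [map_prod, ← Finset.prod_pow]
      calc ∏ P ∈ S', Ideal.absNorm P ^ e P ≤ ∏ P ∈ S', Ideal.absNorm (P ^ (e P - 1)) ^ 2 := by
            refine Finset.prod_le_prod' fun P hP => ?_
            rw [hS', mem_filter] at hP
            rw [map_pow, ← pow_mul]
            refine Nat.pow_le_pow_right (hNpos P hP.1) ?_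
            have := (hmem P hP.1).2.2
            omega
        _ ≤ ∏ P ∈ F.toFinset, Ideal.absNorm (P ^ (e P - 1)) ^ 2 := by
            refine Finset.prod_le_prod_of_subset_of_one_le' (Finset.filter_subset _ _) fun P hP _ => ?_
            rw [map_pow]
            exact Nat.one_le_pow _ _ (Nat.pow_pos (hNpos P hP))
    set a := ∏ P ∈ S, Ideal.absNorm P
    set b := ∏ P ∈ S', Ideal.absNorm P ^ e P
    set g := Ideal.absNorm (∏ P ∈ F.toFinset, P ^ (e P - 1))
    set Q := q ^ finrank ℚ K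
    have h7 : Q ≤ b ^ 2 := by
      by_contra hcon
      push Not at hcon
      have hQ : 0 < Q := lt_of_le_of_lt (Nat.zero_le _) ha
      have h8 : a ^ 2 * b ^ 2 = Q ^ 2 := by rw [← mul_pow, hN]
      have h9 : a ^ 2 * b ^ 2 < Q * Q := by
        calc a ^ 2 * b ^ 2 ≤ a ^ 2 * Q := Nat.mul_le_mul_left _ hcon.le
          _ < Q * Q := Nat.mul_lt_mul_of_pos_right ha hQ
      nlinarith
    calc Q ≤ b ^ 2 := h7
      _ ≤ (g ^ 2) ^ 2 := Nat.pow_le_pow_left hG 2
      _ = g ^ 4 := by ring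

end BadqL

open BadqL in
theorem badq : S_BADQ := by
  intro K _ _ s Y hY hs
  have h1 : ∀ q : s, ∃ G : Ideal (𝓞 K), G ∣ Ideal.span {((q : ℕ) : 𝓞 K)} ∧ G ∣ differentIdeal ℤ (𝓞 K) ∧
      (q : ℕ) ^ finrank ℚ K ≤ Ideal.absNorm G ^ 4 := fun q => one K q (hs q q.2).1 (hs q q.2).2.2
  choose G hG1 hG2 hG3 using h1
  have h2 : ∏ q ∈ s.attach, G q ∣ differentIdeal ℤ (𝓞 K) := by
    refine Finset.prod_dvd_of_coprime ?_ fun q _ => hG2 q
    intro q _ q' _ hqq
    have hne : (q : ℕ) ≠ q' := fun h => hqq (Subtype.ext h)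
    have h3 : IsCoprime (Ideal.span {((q : ℕ) : 𝓞 K)}) (Ideal.span {((q' : ℕ) : 𝓞 K)}) := by
      rw [Ideal.isCoprime_span_singleton_iff]
      have h4 := (((Nat.coprime_primes (hs q q.2).1 (hs q' q'.2).1).2 hne).isCoprime).map (Int.castRingHom (𝓞 K))
      simpa using h4
    exact (h3.of_isCoprime_of_dvd_left (hG1 q)).of_isCoprime_of_dvd_right (hG1 q')
  have hd : NumberField.discr K ≠ 0 := NumberField.discr_ne_zero K
  have h3 : ∏ q ∈ s.attach, Ideal.absNorm (G q) ≤ (NumberField.discr K).natAbs := by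
    rw [← map_prod, ← NumberField.absNorm_differentIdeal K (𝓞 K)]
    refine Nat.le_of_dvd ?_ (Ideal.absNorm_dvd_absNorm_of_le (Ideal.le_of_dvd h2))
    rw [NumberField.absNorm_differentIdeal K (𝓞 K)]
    exact Int.natAbs_pos.2 hd
  have h4 : (Y ^ finrank ℚ K) ^ s.card ≤ (NumberField.discr K).natAbs ^ 4 := by
    calc (Y ^ finrank ℚ K) ^ s.card = ∏ q ∈ s.attach, Y ^ finrank ℚ K := by
          rw [Finset.prod_const, Finset.card_attach]
      _ ≤ ∏ q ∈ s.attach, Ideal.absNorm (G q) ^ 4 := by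
          refine Finset.prod_le_prod' fun q _ => ?_
          exact (Nat.pow_le_pow_left (hs q q.2).2.1.le _).trans (hG3 q)
      _ = (∏ q ∈ s.attach, Ideal.absNorm (G q)) ^ 4 := by rw [Finset.prod_pow]
      _ ≤ _ := Nat.pow_le_pow_left h3 4
  have h5 : ((Y : ℝ) ^ finrank ℚ K) ^ s.card ≤ |((NumberField.discr K : ℤ) : ℝ)| ^ 4 := by
    have h6 : (((NumberField.discr K).natAbs : ℕ) : ℝ) = |((NumberField.discr K : ℤ) : ℝ)| := by
      rw [← Int.cast_natCast, Int.natCast_natAbs, Int.cast_abs]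
    rw [← h6]
    exact_mod_cast h4
  have hY0 : (0 : ℝ) < Y := by exact_mod_cast hY
  have h6 := Real.log_le_log (by positivity) h5
  rw [Real.log_pow, Real.log_pow, Real.log_pow] at h6
  push_cast at h6
  linarith

end Pool.Agent.Helper28K9.RK
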