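import Pool.Agent.Helper28K9.RK.Stm

/-!
# A weak theorem of Bezout by dimensions
-/

set_option autoImplicit false

open NumberField Module Finset

namespace Pool.Agent.Helper28K9.RK

namespace BezL

open MvPolynomial

/-- exponents `< L`, `< L'` -/
def St (L L' : ℕ) : Set (Fin 2 →₀ ℕ) := {s | s 0 < L ∧ s 1 < L'}

/-- polynomials with exponents `< L`, `< L'` -/
noncomputable def Bx (L L' : ℕ) : Submodule ℚ (MvPolynomial (Fin 2) ℚ) := restrictSupport ℚ (St L L')

theorem mem_Bx {L L' : ℕ} {p : MvPolynomial (Fin 2) ℚ} :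
    p ∈ Bx L L' ↔ ∀ s ∈ p.support, s 0 < L ∧ s 1 < L' := by
  unfold Bx
  rw [mem_restrictSupport_iff]
  rfl

theorem mem_Bx' {L L' : ℕ} (h : 0 < L) (h' : 0 < L') {p : MvPolynomial (Fin 2) ℚ} :
    p ∈ Bx L L' ↔ p.degreeOf 0 < L ∧ p.degreeOf 1 < L' := by
  rw [mem_Bx, degreeOf_lt_iff h, degreeOf_lt_iff h']
  exact ⟨fun h => ⟨fun s hs => (h s hs).1, fun s hs => (h s hs).2⟩,
    fun h s hs => ⟨h.1 s hs, h.2 s hs⟩⟩

/-- the exponents as pairs -/
noncomputable def eqv (L L' : ℕ) : St L L' ≃ Fin L × Fin L' where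
  toFun s := (⟨s.1 0, s.2.1⟩, ⟨s.1 1, s.2.2⟩)
  invFun p := ⟨Finsupp.equivFunOnFinite.symm ![(p.1 : ℕ), (p.2 : ℕ)], by
    constructor
    · show ![(p.1 : ℕ), (p.2 : ℕ)] 0 < L
      exact p.1.2
    · show ![(p.1 : ℕ), (p.2 : ℕ)] 1 < L'
      exact p.2.2⟩
  left_inv s := by
    apply Subtype.ext
    ext i
    show ![s.1 0, s.1 1] i = s.1 i
    fin_cases i <;> rfl
  right_inv p := rfl

instance (L L' : ℕ) : Finite (St L L') := Finite.of_equiv _ (eqv L L').symm

instance (L L' : ℕ) : FiniteDimensional ℚ (Bx L L') :=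
  Module.Finite.of_basis (basisRestrictSupport ℚ (St L L'))

theorem fin_Bx (L L' : ℕ) : finrank ℚ (Bx L L') = L * L' := by
  have h := finrank_eq_nat_card_basis (basisRestrictSupport ℚ (St L L'))
  rw [Nat.card_congr (eqv L L')] at h
  exact h.trans (by simp)

theorem fin_map {g : MvPolynomial (Fin 2) ℚ} (hg : g ≠ 0) (S : Submodule ℚ (MvPolynomial (Fin 2) ℚ)) :
    finrank ℚ ↥(S.map (LinearMap.mulLeft ℚ g)) = finrank ℚ S := by
  have hinj : Function.Injective (LinearMap.mulLeft ℚ g) := by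
    intro a b h
    exact mul_left_cancel₀ hg h
  exact (Submodule.equivMapOfInjective _ hinj S).finrank_eq.symm

/-- large boxes map onto `K` -/
theorem exists_L (K : Type) [Field K] [NumberField K] (P : Fin 2 → K)
    (hP : Algebra.adjoin ℚ (Set.range P) = ⊤) : ∃ L0 : ℕ, ∀ L L' : ℕ, L0 ≤ L → L0 ≤ L' →
      (Bx L L').map (MvPolynomial.aeval P : MvPolynomial (Fin 2) ℚ →ₐ[ℚ] K).toLinearMap = ⊤ := by
  have hsurj : Function.Surjective (MvPolynomial.aeval P : MvPolynomial (Fin 2) ℚ →ₐ[ℚ] K) := by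
    rw [← AlgHom.range_eq_top, ← Algebra.adjoin_range_eq_range_aeval]
    exact hP
  let b := Module.finBasis ℚ K
  choose p hp using fun i => hsurj (b i)
  refine ⟨(Finset.univ.sup fun i => (p i).degreeOf 0 + (p i).degreeOf 1) + 1, fun L L' hL hL' => ?_⟩
  rw [eq_top_iff, ← b.span_eq, Submodule.span_le]
  rintro _ ⟨i, rfl⟩
  have h1 : (p i).degreeOf 0 + (p i).degreeOf 1 ≤
      Finset.univ.sup fun i => (p i).degreeOf 0 + (p i).degreeOf 1 :=
    Finset.le_sup (f := fun i => (p i).degreeOf 0 + (p i).degreeOf 1) (Finset.mem_univ i)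
  exact ⟨p i, (mem_Bx' (by omega) (by omega)).2 ⟨by omega, by omega⟩, hp i⟩

end BezL

open BezL in
theorem bez : S_BEZ := by
  intro K _ _ P g R hP hg hgR hPg hPR
  obtain ⟨L0, hL0⟩ := exists_L K P hP
  set a := g.degreeOf 0
  set b := g.degreeOf 1
  set a' := R.degreeOf 0
  set b' := R.degreeOf 1
  have hg0 : g ≠ 0 := hg.ne_zero
  have hR0 : R ≠ 0 := by
    rintro rfl
    exact hgR (dvd_zero g)
  have hprime : Prime g := hg.prime
  let L := L0 + a + a' + 1
  let L' := L0 + b + b' + 1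
  let Φ := (MvPolynomial.aeval P : MvPolynomial (Fin 2) ℚ →ₐ[ℚ] K).toLinearMap
  let I₁ := (Bx (L - a) (L' - b)).map (LinearMap.mulLeft ℚ g)
  let I₂ := (Bx (L - a') (L' - b')).map (LinearMap.mulLeft ℚ R)
  let I₃ := (Bx (L - a - a') (L' - b - b')).map (LinearMap.mulLeft ℚ (g * R))
  have e1 : finrank ℚ I₁ = (L - a) * (L' - b) := by rw [fin_map hg0, fin_Bx]
  have e2 : finrank ℚ I₂ = (L - a') * (L' - b') := by rw [fin_map hR0, fin_Bx]
  have e3 : finrank ℚ I₃ = (L - a - a') * (L' - b - b') := by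
    rw [fin_map (mul_ne_zero hg0 hR0), fin_Bx]
  have hfd1 : FiniteDimensional ℚ I₁ := inferInstance
  have hfd2 : FiniteDimensional ℚ I₂ := inferInstance
  have hfd3 : FiniteDimensional ℚ I₃ := inferInstance
  have hLa : 0 < L - a := by omega
  have hLb : 0 < L' - b := by omega
  have hLa' : 0 < L - a' := by omega
  have hLb' : 0 < L' - b' := by omega
  have hLaa : 0 < L - a - a' := by omega
  have hLbb : 0 < L' - b - b' := by omega
  have hLp : 0 < L := by omega
  have hLp' : 0 < L' := by omega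
  have hmul : ∀ (u v : MvPolynomial (Fin 2) ℚ), u ≠ 0 → v ≠ 0 → ∀ i,
      (u * v).degreeOf i = u.degreeOf i + v.degreeOf i := fun u v hu hv i =>
    MvPolynomial.degreeOf_mul_eq hu hv
  -- the intersection
  have h12 : I₁ ⊓ I₂ ≤ I₃ := by
    rintro x ⟨⟨u, hu, rfl⟩, ⟨v, hv, hx⟩⟩
    have hx' : R * v = g * u := hx
    by_cases hu0 : u = 0
    · rw [hu0, map_zero]
      exact Submodule.zero_mem _
    have hv0 : v ≠ 0 := by
      rintro rfl
      rw [mul_zero] at hx'
      exact mul_ne_zero hg0 hu0 hx'.symm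
    have hdvd : g ∣ v := by
      rcases hprime.dvd_or_dvd (Dvd.intro u hx'.symm) with h | h
      · exact absurd h hgR
      · exact h
    obtain ⟨v', rfl⟩ := hdvd
    have hv'0 : v' ≠ 0 := right_ne_zero_of_mul hv0
    refine ⟨v', ?_, ?_⟩
    · rw [SetLike.mem_coe, mem_Bx' hLaa hLbb]
      have h1 := (mem_Bx' hLa' hLb').1 hv
      rw [hmul _ _ hg0 hv'0, hmul _ _ hg0 hv'0] at h1
      constructor
      · have := h1.1
        omega
      · have := h1.2
        omega
    · show g * R * v' = g * u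
      rw [← hx']
      ring
  have h3 := Submodule.finrank_mono h12
  have h4 := Submodule.finrank_sup_add_finrank_inf_eq I₁ I₂
  -- the sum is in the kernel and in the box
  have hbox : I₁ ⊔ I₂ ≤ Bx L L' := by
    refine sup_le ?_ ?_
    · rintro _ ⟨u, hu, rfl⟩
      by_cases hu0 : u = 0
      · rw [hu0, map_zero]
        exact Submodule.zero_mem _
      rw [mem_Bx' hLp hLp']
      have h1 := (mem_Bx' hLa hLb).1 hu
      show (g * u).degreeOf 0 < L ∧ (g * u).degreeOf 1 < L'
      rw [hmul _ _ hg0 hu0, hmul _ _ hg0 hu0]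
      omega
    · rintro _ ⟨u, hu, rfl⟩
      by_cases hu0 : u = 0
      · rw [hu0, map_zero]
        exact Submodule.zero_mem _
      rw [mem_Bx' hLp hLp']
      have h1 := (mem_Bx' hLa' hLb').1 hu
      show (R * u).degreeOf 0 < L ∧ (R * u).degreeOf 1 < L'
      rw [hmul _ _ hR0 hu0, hmul _ _ hR0 hu0]
      omega
  have hker : I₁ ⊔ I₂ ≤ LinearMap.ker Φ := by
    refine sup_le ?_ ?_
    · rintro _ ⟨u, hu, rfl⟩
      show MvPolynomial.aeval P (g * u) = 0
      rw [map_mul, hPg, zero_mul]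
    · rintro _ ⟨u, hu, rfl⟩
      show MvPolynomial.aeval P (R * u) = 0
      rw [map_mul, hPR, zero_mul]
  let φ : Bx L L' →ₗ[ℚ] K := Φ.domRestrict (Bx L L')
  have hr : LinearMap.range φ = ⊤ := by
    rw [LinearMap.range_domRestrict]
    exact hL0 L L' (by omega) (by omega)
  have h5 := LinearMap.finrank_range_add_finrank_ker φ
  rw [hr, finrank_top, fin_Bx] at h5
  have h6 : (I₁ ⊔ I₂).comap (Bx L L').subtype ≤ LinearMap.ker φ := by
    intro x hx
    exact hker hx
  have h7 := Submodule.finrank_mono h6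
  rw [(Submodule.comapSubtypeEquivOfLe hbox).finrank_eq] at h7
  rw [e1, e2] at h4
  rw [e3] at h3
  -- arithmetic
  obtain ⟨m, hm⟩ : ∃ m, m = L0 + 1 := ⟨_, rfl⟩
  have f1 : L = m + a + a' := by omega
  have f2 : L' = m + b + b' := by omega
  have g1 : L - a = m + a' := by omega
  have g2 : L' - b = m + b' := by omega
  have g3 : L - a' = m + a := by omega
  have g4 : L' - b' = m + b := by omega
  have g5 : L - a - a' = m := by omega
  have g6 : L' - b - b' = m := by omega
  rw [g1, g2, g3, g4] at h4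
  rw [g5, g6] at h3
  have h8 : finrank ℚ K + finrank ℚ ↥(I₁ ⊔ I₂) ≤ L * L' := by omega
  rw [f1, f2] at h8
  have h9 : (m + a + a') * (m + b + b') + m * m =
      (m + a') * (m + b') + (m + a) * (m + b) + (a * b' + a' * b) := by ring
  generalize (m + a + a') * (m + b + b') = t1 at *
  generalize (m + a') * (m + b') = t2 at *
  generalize (m + a) * (m + b) = t3 at *
  generalize m * m = t4 at *
  generalize a * b' = t5 at *
  generalize a' * b = t6 at *
  omega

end Pool.Agent.Helper28K9.RK
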