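import Mathlib
import Pool.Agent.Helper28K9.RK.Stm

/-!
# Case B: no relation of small degree at many points
-/

set_option autoImplicit false

open NumberField Module Finset

namespace Pool.Agent.Helper28K9.RK

namespace CaseBL

variable {K : Type} [Field K] [NumberField K]

lemma mono_mem_box {A B : ℕ} {x y : K} {i j : ℕ} (hi : i < A) (hj : j < B) :
    x ^ i * y ^ j ∈ box K A B x y :=
  Submodule.subset_span ⟨(⟨i, hi⟩, ⟨j, hj⟩), rfl⟩

lemma box_mono {A B A' B' : ℕ} (hA : A ≤ A') (hB : B ≤ B') (x y : K) :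
    box K A B x y ≤ box K A' B' x y := by
  rw [box, Submodule.span_le]
  rintro _ ⟨p, rfl⟩
  exact mono_mem_box (p.1.2.trans_le hA) (p.2.2.trans_le hB)

lemma box_mul (A B A' B' : ℕ) (x y : K) :
    box K A B x y * box K A' B' x y ≤ box K (A + A') (B + B') x y := by
  rw [box, box, Submodule.span_mul_span, Submodule.span_le]
  rintro _ ⟨_, ⟨p, rfl⟩, _, ⟨q, rfl⟩, rfl⟩
  have h : x ^ (p.1 : ℕ) * y ^ (p.2 : ℕ) * (x ^ (q.1 : ℕ) * y ^ (q.2 : ℕ)) =
      x ^ ((p.1 : ℕ) + q.1) * y ^ ((p.2 : ℕ) + q.2) := by ring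
  show x ^ (p.1 : ℕ) * y ^ (p.2 : ℕ) * (x ^ (q.1 : ℕ) * y ^ (q.2 : ℕ)) ∈ _
  rw [h]
  exact mono_mem_box (by have := p.1.2; have := q.1.2; omega)
    (by have := p.2.2; have := q.2.2; omega)

lemma box_pow (A : ℕ) (x y : K) (n : ℕ) : box K A A x y ^ n ≤ box K (n * A + 1) (n * A + 1) x y := by
  induction n with
  | zero =>
    rw [pow_zero, Submodule.one_le]
    have := mono_mem_box (K := K) (x := x) (y := y) (A := 0 * A + 1) (B := 0 * A + 1)
      (i := 0) (j := 0) (by omega) (by omega)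
    simpa using this
  | succ n ih =>
    rw [pow_succ]
    refine (mul_le_mul' ih le_rfl).trans ?_
    refine (box_mul _ _ _ _ x y).trans ?_
    apply box_mono <;> nlinarith

lemma finrank_box {A : ℕ} {x y : K} (h : NoRel A A x y) : finrank ℚ (box K A A x y) = A ^ 2 := by
  have hli : LinearIndependent ℚ
      (fun p : Fin A × Fin A => x ^ (p.1 : ℕ) * y ^ (p.2 : ℕ)) := by
    rw [Fintype.linearIndependent_iff]
    intro a ha p
    set c : ℕ → ℕ → ℚ := fun i j => if hi : i < A then if hj : j < A then a (⟨i, hi⟩, ⟨j, hj⟩)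
      else 0 else 0 with hc
    have h1 : evl A A c x y = 0 := by
      rw [evl, ← ha, Fintype.sum_prod_type, Finset.sum_range]
      apply Finset.sum_congr rfl
      intro i _
      rw [Finset.sum_range]
      apply Finset.sum_congr rfl
      intro j _
      simp only [hc, i.2, j.2, dif_pos, Fin.eta]
      rw [Algebra.smul_def, mul_assoc]
    have h2 := h c h1 p.1 p.1.2 p.2 p.2.2
    simpa [hc] using h2
  rw [box, finrank_span_eq_card hli]
  simp [sq]

lemma two_mul_sqrt {r : ℝ} (hr : 1 ≤ r) : Real.log r ≤ 2 * Real.sqrt r := by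
  have h1 : 0 < Real.sqrt r := Real.sqrt_pos.2 (by linarith)
  have h2 : r = Real.sqrt r ^ 2 := (Real.sq_sqrt (by linarith)).symm
  have h3 : Real.log r = 2 * Real.log (Real.sqrt r) := by
    conv_lhs => rw [h2]
    rw [Real.log_pow]
    norm_num
  have h4 := Real.log_le_sub_one_of_pos h1
  linarith

/-- numerics: `k` times `log 2` is more than `C log r` -/
lemma num {r : ℝ} (hr : (10 : ℝ) ^ 18 ≤ r) : 200000000 * Real.log r < r * Real.log 2 := by
  have h1 := two_mul_sqrt (r := r) (by linarith [show (1 : ℝ) ≤ 10 ^ 18 by norm_num])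
  have h2 := Real.log_two_gt_d9
  have h0 : 0 ≤ r := le_trans (by positivity) hr
  have h3 : (10 : ℝ) ^ 9 ≤ Real.sqrt r := by
    rw [show (10 : ℝ) ^ 9 = Real.sqrt ((10 ^ 9) ^ 2) by rw [Real.sqrt_sq (by positivity)]]
    apply Real.sqrt_le_sqrt
    norm_num at hr ⊢
    exact hr
  have h4 : r = Real.sqrt r * Real.sqrt r := (Real.mul_self_sqrt h0).symm
  have h5 : 0 < Real.sqrt r := lt_of_lt_of_le (by positivity) h3
  calc 200000000 * Real.log r ≤ 400000000 * Real.sqrt r := by linarith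
    _ < Real.sqrt r * (Real.sqrt r * Real.log 2) := by
        rw [mul_comm (400000000 : ℝ)]
        apply mul_lt_mul_of_pos_left _ h5
        nlinarith
    _ = r * Real.log 2 := by rw [← mul_assoc, ← h4]

/-- numerics -/
lemma numN {r D n A N : ℝ} (hr : (10 : ℝ) ^ 18 ≤ r) (hD1 : r ^ 100 ≤ D)
    (hD2 : D ≤ (r + 1) ^ 100) (hn : n ≤ 2 * D / (r ^ 10) ^ 2 + 1) (hA : A = n * r ^ 10)
    (hN : N = 2 * A * r + 1) : N ≤ 7 * D / r ^ 9 ∧ N ≤ r ^ 102 := by
  have hr0 : (0 : ℝ) < r := lt_of_lt_of_le (by positivity) hr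
  have hr1 : (1 : ℝ) ≤ r := le_trans (by norm_num) hr
  have hD0 : 0 < D := lt_of_lt_of_le (by positivity) hD1
  have hn2 : n ≤ 3 * D / (r ^ 10) ^ 2 := by
    have h3 : (1 : ℝ) ≤ D / (r ^ 10) ^ 2 := by
      rw [le_div_iff₀ (by positivity), one_mul]
      refine le_trans ?_ hD1
      rw [← pow_mul]
      exact pow_le_pow_right₀ hr1 (by norm_num)
    have h4 : 3 * D / (r ^ 10) ^ 2 = 2 * D / (r ^ 10) ^ 2 + D / (r ^ 10) ^ 2 := by ring
    rw [h4]
    linarith
  have hA2 : A ≤ 3 * D / r ^ 10 := by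
    rw [hA]
    calc n * r ^ 10 ≤ 3 * D / (r ^ 10) ^ 2 * r ^ 10 :=
          mul_le_mul_of_nonneg_right hn2 (by positivity)
      _ = 3 * D / r ^ 10 := by field_simp
  have hN2 : N ≤ 7 * D / r ^ 9 := by
    have h2 : (1 : ℝ) ≤ D / r ^ 9 := by
      rw [le_div_iff₀ (by positivity), one_mul]
      exact le_trans (pow_le_pow_right₀ hr1 (by norm_num)) hD1
    have h3 : 2 * A * r ≤ 6 * (D / r ^ 9) := by
      calc 2 * A * r ≤ 2 * (3 * D / r ^ 10) * r :=
            mul_le_mul_of_nonneg_right (by linarith) hr0.le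
        _ = 6 * (D / r ^ 9) := by field_simp; ring
    rw [hN, mul_div_assoc]
    linarith
  refine ⟨hN2, ?_⟩
  have h1 : D ≤ (2 * r) ^ 100 :=
    hD2.trans (pow_le_pow_left₀ (by linarith) (by linarith) _)
  calc N ≤ 7 * D / r ^ 9 := hN2
    _ ≤ 7 * (2 * r) ^ 100 / r ^ 9 :=
        div_le_div_of_nonneg_right (by linarith) (by positivity)
    _ = (7 * 2 ^ 100) * r ^ 91 := by
        rw [mul_pow, div_eq_iff (by positivity)]; ring
    _ ≤ r ^ 11 * r ^ 91 := by
        apply mul_le_mul_of_nonneg_right _ (by positivity)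
        calc (7 * 2 ^ 100 : ℝ) ≤ ((10 : ℝ) ^ 18) ^ 11 := by norm_num
          _ ≤ r ^ 11 := pow_le_pow_left₀ (by positivity) hr _
    _ = r ^ 102 := by ring

/-- numerics -/
lemma numH {r D N hx hy : ℝ} (hr : (10 : ℝ) ^ 18 ≤ r) (hD0 : 0 < D) (hN0 : 0 ≤ N)
    (hN : N ≤ 7 * D / r ^ 9) (h : hx + hy ≤ 4 * r) : (N * hx + N * hy) / D ≤ 28 / r ^ 8 := by
  have hr0 : (0 : ℝ) < r := lt_of_lt_of_le (by positivity) hr
  rw [← mul_add]
  calc N * (hx + hy) / D ≤ 7 * D / r ^ 9 * (4 * r) / D := by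
        apply div_le_div_of_nonneg_right _ hD0.le
        calc N * (hx + hy) ≤ N * (4 * r) := mul_le_mul_of_nonneg_left h hN0
          _ ≤ 7 * D / r ^ 9 * (4 * r) := mul_le_mul_of_nonneg_right hN (by positivity)
    _ = 28 / r ^ 8 := by field_simp; ring

/-- numerics -/
lemma numE {r D N H p : ℝ} (hr : (10 : ℝ) ^ 18 ≤ r) (hp1 : r ^ 5 ≤ p) (hp2 : p ≤ 2 * r ^ 5)
    (hN0 : 0 ≤ N) (hN : N ≤ r ^ 102) (h : H / D ≤ 28 / r ^ 8) :
    (N * N * Real.exp (p * H / D)) ^ 2 < p ^ 100 := by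
  have hr0 : (0 : ℝ) < r := lt_of_lt_of_le (by positivity) hr
  have hr1 : (1 : ℝ) ≤ r := le_trans (by norm_num) hr
  have hp0 : 0 ≤ p := le_trans (by positivity) hp1
  have h1 : p * H / D ≤ 1 := by
    rw [mul_div_assoc]
    calc p * (H / D) ≤ p * (28 / r ^ 8) := mul_le_mul_of_nonneg_left h hp0
      _ ≤ 2 * r ^ 5 * (28 / r ^ 8) := mul_le_mul_of_nonneg_right hp2 (by positivity)
      _ = 56 / r ^ 3 := by field_simp; ring
      _ ≤ 1 := by
          rw [div_le_one (by positivity)]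
          calc (56 : ℝ) ≤ ((10 : ℝ) ^ 18) ^ 3 := by norm_num
            _ ≤ r ^ 3 := pow_le_pow_left₀ (by positivity) hr _
  have h2 : Real.exp (p * H / D) ≤ 3 := by
    refine (Real.exp_le_exp.2 h1).trans ?_
    have := Real.exp_one_lt_d9
    linarith
  have h3 : N * N ≤ r ^ 102 * r ^ 102 := mul_le_mul hN hN hN0 (by positivity)
  calc (N * N * Real.exp (p * H / D)) ^ 2 ≤ (r ^ 102 * r ^ 102 * 3) ^ 2 :=
        pow_le_pow_left₀ (by positivity) (mul_le_mul h3 h2 (by positivity) (by positivity)) _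
    _ = 9 * r ^ 408 := by ring
    _ < r * r ^ 408 := by
        apply mul_lt_mul_of_pos_right _ (by positivity)
        exact lt_of_lt_of_le (by norm_num) hr
    _ ≤ r ^ 500 := by
        rw [← pow_succ']
        exact pow_le_pow_right₀ hr1 (by norm_num)
    _ = (r ^ 5) ^ 100 := by ring
    _ ≤ p ^ 100 := pow_le_pow_left₀ (by positivity) hp1 _

/-- numerics -/
lemma numF {r D N H R j : ℝ} (hr : (10 : ℝ) ^ 18 ≤ r) (hD0 : 0 < D)
    (hN0 : 0 ≤ N) (hN : N ≤ r ^ 102) (h : H / D ≤ 28 / r ^ 8) (hR : R = r * D)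
    (hj : j ≤ 10000 * D)
    (hC : R * Real.log 2 ≤ j * Real.log (1 + 2 * 100 * (N * N) * N ^ 100 * Real.exp (H / D))) :
    False := by
  have hr0 : (0 : ℝ) < r := lt_of_lt_of_le (by positivity) hr
  have hr1 : (1 : ℝ) ≤ r := le_trans (by norm_num) hr
  have h28 : H / D ≤ 1 := by
    refine h.trans ?_
    rw [div_le_one (by positivity)]
    calc (28 : ℝ) ≤ ((10 : ℝ) ^ 18) ^ 8 := by norm_num
      _ ≤ r ^ 8 := pow_le_pow_left₀ (by positivity) hr _
  have hexp : Real.exp (H / D) ≤ 3 := by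
    refine (Real.exp_le_exp.2 h28).trans ?_
    have := Real.exp_one_lt_d9
    linarith
  have h3 : N * N ≤ r ^ 102 * r ^ 102 := mul_le_mul hN hN hN0 (by positivity)
  have h4 : N ^ 100 ≤ (r ^ 102) ^ 100 := pow_le_pow_left₀ hN0 hN _
  have key : ∀ a b c a' b' : ℝ, 0 ≤ a → 0 ≤ b → 0 ≤ c → a ≤ a' → b ≤ b' → c ≤ 3 →
      2 * 100 * a * b * c ≤ 2 * 100 * a' * b' * 3 := by
    intro a b c a' b' h1 h2 h3 h4 h5 h6
    have h7 : a * b ≤ a' * b' := mul_le_mul h4 h5 h2 (h1.trans h4)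
    have h8 : a * b * c ≤ a' * b' * 3 :=
      mul_le_mul h7 h6 h3 (mul_nonneg (h1.trans h4) (h2.trans h5))
    linarith
  have hbig : 1 + 2 * 100 * (N * N) * N ^ 100 * Real.exp (H / D) ≤ r ^ 10500 := by
    have h5 : 2 * 100 * (N * N) * N ^ 100 * Real.exp (H / D) ≤
        2 * 100 * (r ^ 102 * r ^ 102) * (r ^ 102) ^ 100 * 3 :=
      key (N * N) (N ^ 100) _ _ _ (mul_nonneg hN0 hN0) (pow_nonneg hN0 _)
        (Real.exp_pos _).le h3 h4 hexp
    have h6 : 1 + 2 * 100 * (r ^ 102 * r ^ 102) * (r ^ 102) ^ 100 * 3 =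
        1 + 600 * r ^ 10404 := by
      rw [← pow_mul, ← pow_add]
      have e1 : r ^ 10404 = r ^ (102 + 102) * r ^ (102 * 100) := by
        rw [← pow_add]
      rw [e1]
      generalize r ^ (102 + 102) = a
      generalize r ^ (102 * 100) = b
      ring
    refine (add_le_add_right h5 1).trans ?_
    rw [h6]
    calc 1 + 600 * r ^ 10404 ≤ r ^ 10404 + 600 * r ^ 10404 := by
          have : (1 : ℝ) ≤ r ^ 10404 := one_le_pow₀ hr1
          linarith
      _ = 601 * r ^ 10404 := by ring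
      _ ≤ r * r ^ 10404 := by
          apply mul_le_mul_of_nonneg_right _ (by positivity)
          exact le_trans (by norm_num) hr
      _ = r ^ 10405 := by rw [← pow_succ']
      _ ≤ r ^ 10500 := pow_le_pow_right₀ hr1 (by norm_num)
  have h0 : 0 ≤ 2 * 100 * (N * N) * N ^ 100 * Real.exp (H / D) :=
    mul_nonneg (mul_nonneg (mul_nonneg (by norm_num) (mul_nonneg hN0 hN0)) (pow_nonneg hN0 _))
      (Real.exp_pos _).le
  have hlog : Real.log (1 + 2 * 100 * (N * N) * N ^ 100 * Real.exp (H / D)) ≤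
      10500 * Real.log r := by
    refine (Real.log_le_log (by linarith) hbig).trans ?_
    rw [Real.log_pow]
    norm_num
  have hlogr : 0 ≤ Real.log r := Real.log_nonneg hr1
  have hlog0 : 0 ≤ Real.log (1 + 2 * 100 * (N * N) * N ^ 100 * Real.exp (H / D)) :=
    Real.log_nonneg (by linarith)
  have hfin : r * D * Real.log 2 ≤ 10000 * D * (10500 * Real.log r) := by
    rw [← hR]
    exact hC.trans (mul_le_mul hj hlog hlog0 (by positivity))
  have hfin2 : r * Real.log 2 ≤ 105000000 * Real.log r := by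
    have h1 : D * (r * Real.log 2) ≤ D * (105000000 * Real.log r) := by linarith
    exact le_of_mul_le_mul_left h1 hD0
  have := num hr
  linarith

end CaseBL

open CaseBL

set_option maxHeartbeats 1000000 in
theorem caseb (hSPAN : S_SPAN) (hSEP : S_SEP) (hUNION : S_UNION) (hEX : S_EXTRAP)
    (hCOUNT : S_COUNT) (hJRK : S_JRK0) : S_CASEB := by
  refine ⟨10 ^ 18, ?_⟩
  intro K _ _ x y r Q hr hD1 hD2 hx0 hx1 hy1 hQc hQ
  set D := finrank ℚ K with hD
  have hr1 : 10 ^ 18 ≤ r := hr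
  have hr2 : 2 ≤ r := le_trans (by norm_num) hr
  have hrR : (10 : ℝ) ^ 18 ≤ r := by exact_mod_cast hr
  have hr0R : (0 : ℝ) < r := lt_of_lt_of_le (by positivity) hrR
  have hr1R : (1 : ℝ) ≤ r := le_trans (by norm_num) hrR
  set ω := r ^ 10 with hω
  have hω0 : 0 < ω := by positivity
  have hω2 : 2 ≤ ω := by
    calc 2 ≤ r := hr2
      _ = r ^ 1 := (pow_one r).symm
      _ ≤ r ^ 10 := Nat.pow_le_pow_right (by omega) (by norm_num)
  set n := 2 * D / ω ^ 2 + 1 with hn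
  have hn1 : 2 * D ≤ n * ω ^ 2 := by
    have := Nat.lt_div_mul_add (a := 2 * D) (b := ω ^ 2) (by positivity)
    rw [hn, add_mul, one_mul]
    exact this.le
  set A := n * ω with hA
  have hA1 : 1 ≤ A := Nat.mul_pos (Nat.succ_pos _) hω0
  -- step 1
  have hbox : ∀ q ∈ Q, box K (A + 1) (A + 1) ((x : K) ^ q) ((y : K) ^ q) = ⊤ := by
    intro p hp
    obtain ⟨_, _, _, _, hgen, hno⟩ := hQ p hp
    have h1 : (1 : K) ∈ box K ω ω ((x : K) ^ p) ((y : K) ^ p) := by
      have := mono_mem_box (K := K) (x := (x : K) ^ p) (y := (y : K) ^ p) (A := ω) (B := ω)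
        (i := 0) (j := 0) hω0 hω0
      simpa using this
    have h2 : Algebra.adjoin ℚ (box K ω ω ((x : K) ^ p) ((y : K) ^ p) : Set K) = ⊤ := by
      rw [eq_top_iff, ← hgen]
      apply Algebra.adjoin_mono
      rintro z (rfl | rfl)
      · have := mono_mem_box (K := K) (x := (x : K) ^ p) (y := (y : K) ^ p) (A := ω) (B := ω)
          (i := 1) (j := 0) (by omega) hω0
        simpa using this
      · have := mono_mem_box (K := K) (x := (x : K) ^ p) (y := (y : K) ^ p) (A := ω) (B := ω)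
          (i := 0) (j := 1) hω0 (by omega)
        simpa using this
    have h3 := hSPAN K (box K ω ω ((x : K) ^ p) ((y : K) ^ p)) n h1 h2
      (by rw [finrank_box hno]; exact hn1)
    rw [eq_top_iff, ← h3]
    exact box_pow ω _ _ n
  -- step 2
  have hrk := hUNION K x y A Q hA1 hbox (fun q hq p _ hpq =>
    hSEP K x y A p q hA1 hpq hx0 (hbox q hq))
  rw [hQc] at hrk
  obtain ⟨N, hN⟩ : ∃ N : ℕ, N = 2 * A * r + 1 := ⟨_, rfl⟩
  rw [← hN] at hrk
  -- bounds for N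
  have hD0 : (0 : ℝ) < D := by
    have : 0 < D := finrank_pos
    exact_mod_cast this
  have hD1R : (r : ℝ) ^ 100 ≤ D := by exact_mod_cast hD1
  have hD2R : (D : ℝ) ≤ ((r : ℝ) + 1) ^ 100 := by exact_mod_cast hD2.le
  have hnR : (n : ℝ) ≤ 2 * D / ((r : ℝ) ^ 10) ^ 2 + 1 := by
    have h1 : ((2 * D / ω ^ 2 : ℕ) : ℝ) ≤ ((2 * D : ℕ) : ℝ) / ((ω ^ 2 : ℕ) : ℝ) :=
      Nat.cast_div_le
    have h2 : (n : ℝ) = ((2 * D / ω ^ 2 : ℕ) : ℝ) + 1 := by rw [hn]; push_cast; rfl
    have h3 : ((ω ^ 2 : ℕ) : ℝ) = ((r : ℝ) ^ 10) ^ 2 := by rw [hω]; push_cast; rfl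
    rw [h3] at h1
    rw [h2]
    have h4 : ((2 * D : ℕ) : ℝ) = 2 * D := by push_cast; rfl
    rw [h4] at h1
    linarith
  have hAR : (A : ℝ) = n * (r : ℝ) ^ 10 := by rw [hA, hω]; push_cast; rfl
  have hNR : (N : ℝ) = 2 * A * r + 1 := by rw [hN]; push_cast; rfl
  obtain ⟨hN1, hN2⟩ := numN hrR hD1R hD2R hnR hAR hNR
  have hN0 : 0 < N := by rw [hN]; exact Nat.succ_pos _
  have hN0R : (0 : ℝ) ≤ N := Nat.cast_nonneg _
  have hHK : HK K x + HK K y ≤ 4 * r := by linarith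
  have hsmall := numH hrR hD0 hN0R hN1 hHK
  -- step 3
  have hEXT : ∀ c : ℕ → ℕ → ℤ, (∀ i j, |c i j| ≤ 1) → Van N N c x y 100 →
      ∀ q ∈ Q, evl N N c (x ^ q) (y ^ q) = 0 := by
    intro c hc hv p hp
    obtain ⟨hpp, hp1, hp2, hunr, _, _⟩ := hQ p hp
    refine hEX K x y N N 100 p c hpp hunr hc hv ?_
    have hp1R : (r : ℝ) ^ 5 ≤ p := by exact_mod_cast hp1.le
    have hp2R : (p : ℝ) ≤ 2 * (r : ℝ) ^ 5 := by exact_mod_cast hp2
    exact numE hrR hp1R hp2R hN0R hN2 hsmall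
  -- step 4
  have hC := hCOUNT K x y N N 100 Q hN0 hN0 (by norm_num) hEXT
  rw [hrk, max_self] at hC
  have hj : (jrk K N N (x : K) (y : K) 100 : ℝ) ≤ 10000 * D := by
    have h1 := hJRK K x y N N 100
    have h2 : ((100 ^ 2 * finrank ℚ K : ℕ) : ℝ) = 10000 * D := by
      rw [← hD]; push_cast; norm_num
    rw [← h2]
    exact_mod_cast h1
  have hR : ((r * D : ℕ) : ℝ) = r * D := by push_cast; rfl
  exact numF hrR hD0 hN0R hN2 hsmall hR hj hC

end Pool.Agent.Helper28K9.RK
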