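import Mathlib
import Pool.Agent.Helper28K9.RK.CaseB

/-!
# Case A: a relation of small degree at one point
-/

set_option autoImplicit false

open NumberField Module Finset

namespace Pool.Agent.Helper28K9.RK

namespace CaseAL

/-- the exponent `(i, j)` -/
noncomputable def ex (i j : ℕ) : Fin 2 →₀ ℕ := Finsupp.single 0 i + Finsupp.single 1 j

lemma ex_zero (i j : ℕ) : ex i j 0 = i := by simp [ex]
lemma ex_one (i j : ℕ) : ex i j 1 = j := by simp [ex]

lemma ex_inj {i j i' j' : ℕ} (h : ex i j = ex i' j') : i = i' ∧ j = j' := by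
  have h0 := congrArg (fun f => f 0) h
  have h1 := congrArg (fun f => f 1) h
  simp only [ex_zero, ex_one] at h0 h1
  exact ⟨h0, h1⟩

lemma ex_eta (m : Fin 2 →₀ ℕ) : ex (m 0) (m 1) = m := by
  ext i
  fin_cases i
  · exact ex_zero _ _
  · exact ex_one _ _

/-- the polynomial -/
noncomputable def pol (A B : ℕ) (c : ℕ → ℕ → ℚ) : MvPolynomial (Fin 2) ℚ :=
  ∑ i ∈ range A, ∑ j ∈ range B, MvPolynomial.monomial (ex i j) (c i j)

lemma coeff_pol (A B : ℕ) (c : ℕ → ℕ → ℚ) (m : Fin 2 →₀ ℕ) :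
    (pol A B c).coeff m = if m 0 < A ∧ m 1 < B then c (m 0) (m 1) else 0 := by
  classical
  rw [pol, MvPolynomial.coeff_sum]
  simp only [MvPolynomial.coeff_sum, MvPolynomial.coeff_monomial]
  split_ifs with h
  · rw [Finset.sum_eq_single_of_mem (m 0) (mem_range.2 h.1),
      Finset.sum_eq_single_of_mem (m 1) (mem_range.2 h.2)]
    · rw [if_pos (ex_eta m)]
    · intro j _ hj
      rw [if_neg]
      intro h1
      rw [← ex_eta m] at h1
      exact hj (by have := (ex_inj h1).2; simpa [ex_one] using this)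
    · intro i _ hi
      apply Finset.sum_eq_zero
      intro j _
      rw [if_neg]
      intro h1
      rw [← ex_eta m] at h1
      exact hi (by have := (ex_inj h1).1; simpa [ex_zero] using this)
  · apply Finset.sum_eq_zero
    intro i hi
    apply Finset.sum_eq_zero
    intro j hj
    rw [if_neg]
    intro h1
    apply h
    rw [← h1, ex_zero, ex_one]
    exact ⟨mem_range.1 hi, mem_range.1 hj⟩

lemma aeval_pol {K : Type} [Field K] [Algebra ℚ K] (A B : ℕ) (c : ℕ → ℕ → ℚ) (x y : K) :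
    MvPolynomial.aeval ![x, y] (pol A B c) = evl A B c x y := by
  rw [pol, evl, map_sum]
  apply Finset.sum_congr rfl
  intro i _
  rw [map_sum]
  apply Finset.sum_congr rfl
  intro j _
  rw [MvPolynomial.aeval_monomial, ex, Finsupp.prod_add_index' (by simp) (by intros; rw [pow_add]),
    Finsupp.prod_single_index (by simp), Finsupp.prod_single_index (by simp)]
  simp [mul_assoc]

lemma degreeOf_pol {A B : ℕ} (hA : 0 < A) (hB : 0 < B) (c : ℕ → ℕ → ℚ) :
    (pol A B c).degreeOf 0 < A ∧ (pol A B c).degreeOf 1 < B := by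
  constructor
  · rw [MvPolynomial.degreeOf_lt_iff hA]
    intro m hm
    rw [MvPolynomial.mem_support_iff, coeff_pol] at hm
    by_contra h
    exact hm (if_neg fun h' => h h'.1)
  · rw [MvPolynomial.degreeOf_lt_iff hB]
    intro m hm
    rw [MvPolynomial.mem_support_iff, coeff_pol] at hm
    by_contra h
    exact hm (if_neg fun h' => h h'.2)

/-- a polynomial in one variable only -/
lemma deg_one {K : Type} [Field K] [Algebra ℚ K] (P : Fin 2 → K)
    (g : MvPolynomial (Fin 2) ℚ) (hg : g ≠ 0) (h0 : MvPolynomial.aeval P g = 0) (i k : Fin 2)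
    (hik : ∀ l : Fin 2, l = i ∨ l = k) (hk : g.degreeOf k = 0) :
    (minpoly ℚ (P i)).natDegree ≤ g.degreeOf i := by
  classical
  set p : Polynomial ℚ := ∑ m ∈ g.support, Polynomial.monomial (m i) (g.coeff m) with hp
  have hmk : ∀ m ∈ g.support, m k = 0 := by
    intro m hm
    have := MvPolynomial.monomial_le_degreeOf k hm
    omega
  have hinj : ∀ m ∈ g.support, ∀ m' ∈ g.support, m i = m' i → m = m' := by
    intro m hm m' hm' h
    ext l
    rcases hik l with rfl | rfl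
    · exact h
    · rw [hmk m hm, hmk m' hm']
  have hcoeff : ∀ m ∈ g.support, p.coeff (m i) = g.coeff m := by
    intro m hm
    rw [hp, Polynomial.finsetSum_coeff]
    rw [Finset.sum_eq_single_of_mem m hm]
    · rw [Polynomial.coeff_monomial, if_pos rfl]
    · intro m' hm' hne
      rw [Polynomial.coeff_monomial, if_neg]
      intro h
      exact hne (hinj m' hm' m hm h)
  have hp0 : p ≠ 0 := by
    obtain ⟨m, hm⟩ := MvPolynomial.support_nonempty.2 hg
    intro h
    have := hcoeff m hm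
    rw [h, Polynomial.coeff_zero] at this
    exact (MvPolynomial.mem_support_iff.1 hm) this.symm
  have hpe : Polynomial.aeval (P i) p = 0 := by
    rw [hp, map_sum, ← h0, MvPolynomial.aeval_def, MvPolynomial.eval₂_eq']
    apply Finset.sum_congr rfl
    intro m hm
    rw [Polynomial.aeval_monomial]
    congr 1
    rw [Finset.prod_eq_single_of_mem i (Finset.mem_univ _)]
    intro l _ hl
    rcases hik l with rfl | rfl
    · exact absurd rfl hl
    · rw [hmk m hm, pow_zero]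
  refine (Polynomial.natDegree_le_of_dvd (minpoly.dvd ℚ _ hpe) hp0).trans ?_
  rw [hp]
  apply Polynomial.natDegree_sum_le_of_forall_le
  intro m hm
  refine (Polynomial.natDegree_monomial_le _).trans ?_
  exact MvPolynomial.monomial_le_degreeOf i hm

open CaseBL

/-- numerics for SMALL -/
lemma numS {c r D H : ℝ} (hc : 0 < c) (hr : (10 : ℝ) ^ 18 ≤ r) (hrc : 64 / c < r)
    (hD : r ^ 100 ≤ D) (hH : H ≤ 8 * r ^ 6)
    (h : c / (Real.log (2 * r ^ 10)) ^ 3 ≤ (r ^ 10) ^ 2 * H / D) : False := by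
  have hr0 : (0 : ℝ) < r := lt_of_lt_of_le (by positivity) hr
  have hr1 : (1 : ℝ) ≤ r := le_trans (by norm_num) hr
  have hD0 : 0 < D := lt_of_lt_of_le (by positivity) hD
  have h1 : (1 : ℝ) ≤ r ^ 10 := one_le_pow₀ hr1
  have h2 : 0 < Real.log (2 * r ^ 10) := Real.log_pos (by linarith)
  have h3 : Real.log (2 * r ^ 10) ≤ 2 * r ^ 10 :=
    (Real.log_le_sub_one_of_pos (by positivity)).trans (by linarith)
  have h4 : c / (2 * r ^ 10) ^ 3 ≤ c / (Real.log (2 * r ^ 10)) ^ 3 :=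
    div_le_div_of_nonneg_left hc.le (by positivity) (pow_le_pow_left₀ h2.le h3 _)
  have h5 : (r ^ 10) ^ 2 * H / D ≤ (r ^ 10) ^ 2 * (8 * r ^ 6) / r ^ 100 := by
    calc (r ^ 10) ^ 2 * H / D ≤ (r ^ 10) ^ 2 * (8 * r ^ 6) / D :=
          div_le_div_of_nonneg_right (mul_le_mul_of_nonneg_left hH (by positivity)) hD0.le
      _ ≤ _ := div_le_div_of_nonneg_left (by positivity) (by positivity) hD
  have h6 : (r ^ 10) ^ 2 * (8 * r ^ 6) / r ^ 100 = 8 / r ^ 74 := by
    rw [div_eq_div_iff (by positivity) (by positivity)]; ring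
  have h7 : c / (8 * r ^ 30) ≤ 8 / r ^ 74 := by
    have e : (2 * r ^ 10) ^ 3 = 8 * r ^ 30 := by ring
    rw [e] at h4
    rw [h6] at h5
    exact h4.trans (h.trans h5)
  rw [div_le_div_iff₀ (by positivity) (by positivity)] at h7
  have h8 : c * r ^ 74 = (c * r ^ 44) * r ^ 30 := by ring
  have h9 : 8 * (8 * r ^ 30) = 64 * r ^ 30 := by ring
  rw [h8, h9] at h7
  have h10 : c * r ^ 44 ≤ 64 := le_of_mul_le_mul_right h7 (by positivity)
  have h11 : r ≤ r ^ 44 := by
    calc r = r ^ 1 := (pow_one r).symm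
      _ ≤ r ^ 44 := pow_le_pow_right₀ hr1 (by norm_num)
  rw [div_lt_iff₀ hc] at hrc
  nlinarith

/-- numerics for EX1 -/
lemma numX {r D A B hb hb' q : ℝ} (hr : (10 : ℝ) ^ 18 ≤ r) (hD : r ^ 100 ≤ D)
    (hA0 : 0 ≤ A) (hB0 : 0 ≤ B) (hA : A ≤ r ^ 11) (hB : B ≤ r ^ 11) (h0 : 0 ≤ hb) (h0' : 0 ≤ hb')
    (h1 : hb ≤ 4 * r ^ 6) (h1' : hb' ≤ 4 * r ^ 6) (hq1 : r ^ 30 < q) (hq2 : q ≤ 2 * r ^ 30) :
    A * B * Real.exp (q * (A * hb + B * hb') / D) < q ∧ (A * hb + B * hb') / D ≤ 1 := by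
  have hr0 : (0 : ℝ) < r := lt_of_lt_of_le (by positivity) hr
  have hr1 : (1 : ℝ) ≤ r := le_trans (by norm_num) hr
  have hD0 : 0 < D := lt_of_lt_of_le (by positivity) hD
  have hq0 : 0 ≤ q := le_trans (by positivity) hq1.le
  have e1 : A * hb ≤ r ^ 11 * (4 * r ^ 6) := mul_le_mul hA h1 h0 (by positivity)
  have e2 : B * hb' ≤ r ^ 11 * (4 * r ^ 6) := mul_le_mul hB h1' h0' (by positivity)
  have e3 : A * hb + B * hb' ≤ 8 * r ^ 17 := by
    have : r ^ 11 * (4 * r ^ 6) = 4 * r ^ 17 := by ring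
    rw [this] at e1 e2
    linarith
  have e0 : 0 ≤ A * hb + B * hb' := add_nonneg (mul_nonneg hA0 h0) (mul_nonneg hB0 h0')
  have e4 : q * (A * hb + B * hb') ≤ 2 * r ^ 30 * (8 * r ^ 17) :=
    mul_le_mul hq2 e3 e0 (by positivity)
  have e5 : q * (A * hb + B * hb') / D ≤ 1 := by
    rw [div_le_one hD0]
    refine e4.trans (le_trans ?_ hD)
    calc 2 * r ^ 30 * (8 * r ^ 17) = 16 * r ^ 47 := by ring
      _ ≤ r * r ^ 47 := by
          apply mul_le_mul_of_nonneg_right _ (by positivity)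
          exact le_trans (by norm_num) hr
      _ = r ^ 48 := by ring
      _ ≤ r ^ 100 := pow_le_pow_right₀ hr1 (by norm_num)
  have e6 : Real.exp (q * (A * hb + B * hb') / D) ≤ 3 := by
    refine (Real.exp_le_exp.2 e5).trans ?_
    have := Real.exp_one_lt_d9
    linarith
  constructor
  · calc A * B * Real.exp (q * (A * hb + B * hb') / D) ≤ (r ^ 11 * r ^ 11) * 3 :=
          mul_le_mul (mul_le_mul hA hB hB0 (by positivity)) e6 (Real.exp_pos _).le (by positivity)
      _ = 3 * r ^ 22 := by ring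
      _ ≤ r * r ^ 22 := by
          apply mul_le_mul_of_nonneg_right _ (by positivity)
          exact le_trans (by norm_num) hr
      _ = r ^ 23 := by ring
      _ ≤ r ^ 30 := pow_le_pow_right₀ hr1 (by norm_num)
      _ < q := hq1
  · rw [div_le_one hD0]
    refine e3.trans (le_trans ?_ hD)
    calc 8 * r ^ 17 ≤ r * r ^ 17 := by
          apply mul_le_mul_of_nonneg_right _ (by positivity)
          exact le_trans (by norm_num) hr
      _ = r ^ 18 := by ring
      _ ≤ r ^ 100 := pow_le_pow_right₀ hr1 (by norm_num)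

/-- the final contradiction -/
lemma numG {r A B M H ab R j : ℝ} (hr : (10 : ℝ) ^ 18 ≤ r) (hab : 0 < ab)
    (hA0 : 0 ≤ A) (hB0 : 0 ≤ B) (hA : A ≤ r ^ 11) (hB : B ≤ r ^ 11) (hM0 : 0 ≤ M)
    (hM : M ≤ r ^ 11) (hH : H ≤ 1) (hR : R = r * r * ab) (hj : j ≤ 2 * r * ab)
    (h : R * Real.log 2 ≤ j * Real.log (1 + 2 * 1 * (A * B) * M ^ 1 * Real.exp H)) : False := by
  have hr0 : (0 : ℝ) < r := lt_of_lt_of_le (by positivity) hr
  have hr1 : (1 : ℝ) ≤ r := le_trans (by norm_num) hr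
  have e6 : Real.exp H ≤ 3 := by
    refine (Real.exp_le_exp.2 hH).trans ?_
    have := Real.exp_one_lt_d9
    linarith
  have h1 : A * B * M * Real.exp H ≤ r ^ 11 * r ^ 11 * r ^ 11 * 3 :=
    mul_le_mul (mul_le_mul (mul_le_mul hA hB hB0 (by positivity)) hM hM0 (by positivity)) e6
      (Real.exp_pos _).le (by positivity)
  have h0 : 0 ≤ A * B * M * Real.exp H :=
    mul_nonneg (mul_nonneg (mul_nonneg hA0 hB0) hM0) (Real.exp_pos _).le
  have e : 1 + 2 * 1 * (A * B) * M ^ 1 * Real.exp H = 1 + 2 * (A * B * M * Real.exp H) := by ring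
  rw [e] at h
  have h2 : 1 + 2 * (A * B * M * Real.exp H) ≤ r ^ 40 := by
    have e1 : r ^ 11 * r ^ 11 * r ^ 11 * 3 = 3 * r ^ 33 := by ring
    rw [e1] at h1
    have e2 : (1 : ℝ) ≤ r ^ 33 := one_le_pow₀ hr1
    calc 1 + 2 * (A * B * M * Real.exp H) ≤ 7 * r ^ 33 := by linarith
      _ ≤ r * r ^ 33 := by
          apply mul_le_mul_of_nonneg_right _ (by positivity)
          exact le_trans (by norm_num) hr
      _ = r ^ 34 := by ring
      _ ≤ r ^ 40 := pow_le_pow_right₀ hr1 (by norm_num)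
  have h3 : Real.log (1 + 2 * (A * B * M * Real.exp H)) ≤ 40 * Real.log r := by
    refine (Real.log_le_log (by linarith) h2).trans ?_
    rw [Real.log_pow]
    norm_num
  have h4 : 0 ≤ Real.log (1 + 2 * (A * B * M * Real.exp H)) := Real.log_nonneg (by linarith)
  have h5 : r * r * ab * Real.log 2 ≤ 2 * r * ab * (40 * Real.log r) := by
    rw [← hR]
    exact h.trans (mul_le_mul hj h3 h4 (by positivity))
  have h6 : (r * ab) * (r * Real.log 2) ≤ (r * ab) * (80 * Real.log r) := by linarith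
  have h7 : r * Real.log 2 ≤ 80 * Real.log r := le_of_mul_le_mul_left h6 (by positivity)
  have h8 := num hr
  have h9 : 0 ≤ Real.log r := Real.log_nonneg hr1
  linarith

end CaseAL

open CaseAL CaseBL

theorem casea (hFULL : S_FULL) (hSMALL : S_SMALL) (hCOUNT : S_COUNT) (hEX1 : S_EX1)
    (hJRK1 : S_JRK1) (hIRR : S_IRR) (hPRIMES : S_PRIMES) (hHKB : S_HKB) : S_CASEA := by
  obtain ⟨X0, hX0⟩ := hPRIMES
  obtain ⟨c0, hc0, hS⟩ := hSMALL
  obtain ⟨R1, hR1⟩ := exists_nat_gt (64 / c0)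
  refine ⟨max (10 ^ 18) (max X0 R1), ?_⟩
  intro K _ _ β β' r hr hD1 hu hu' hind hgen hb hb'
  have hr18 : 10 ^ 18 ≤ r := (le_max_left _ _).trans hr
  have hrX : X0 ≤ r := ((le_max_left _ _).trans (le_max_right _ _)).trans hr
  have hrR : R1 ≤ r := ((le_max_right _ _).trans (le_max_right _ _)).trans hr
  have hr2 : 2 ≤ r := le_trans (by norm_num) hr18
  have hr18R : (10 : ℝ) ^ 18 ≤ r := by exact_mod_cast hr18
  have hr0R : (0 : ℝ) < r := lt_of_lt_of_le (by positivity) hr18R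
  have hr1R : (1 : ℝ) ≤ r := le_trans (by norm_num) hr18R
  have hrc : 64 / c0 < r := lt_of_lt_of_le hR1 (by exact_mod_cast hrR)
  have hD1R : (r : ℝ) ^ 100 ≤ (finrank ℚ K : ℝ) := by exact_mod_cast hD1
  have hb0 : (β : K) ≠ 0 := by
    intro h
    have : β = 0 := by exact_mod_cast h
    rw [this] at hu
    exact not_isUnit_zero hu
  have hb0' : (β' : K) ≠ 0 := by
    intro h
    have : β' = 0 := by exact_mod_cast h
    rw [this] at hu'
    exact not_isUnit_zero hu'
  set ω := r ^ 10 with hω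
  have hω0 : 0 < ω := by positivity
  have hlarge : ∀ u v : ℤ, (u, v) ≠ (0, 0) → |u| < ω → |v| < ω →
      ω < (minpoly ℚ ((β : K) ^ u * (β' : K) ^ v)).natDegree := by
    intro u v huv h1 h2
    by_contra hle
    push Not at hle
    have h3 := hS K β β' ω u v hu hu' hind huv h1.le h2.le hle
    have h4 : (ω : ℝ) = (r : ℝ) ^ 10 := by rw [hω]; push_cast; rfl
    rw [h4] at h3
    exact numS hc0 hr18R hrc hD1R (by linarith) h3
  by_contra hno
  rw [NoRel] at hno
  push Not at hno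
  obtain ⟨c, hc, i, hi, j, hj, hcij⟩ := hno
  set F := pol ω ω c with hF
  have hF0 : F ≠ 0 := by
    intro h
    have h1 := coeff_pol ω ω c (ex i j)
    rw [← hF, h, MvPolynomial.coeff_zero, ex_zero, ex_one, if_pos ⟨hi, hj⟩] at h1
    exact hcij h1.symm
  have hFe : MvPolynomial.aeval ![(β : K), (β' : K)] F = 0 := by rw [hF, aeval_pol, hc]
  obtain ⟨g, hgi, _, hge, hgd⟩ := hIRR ℚ K ![(β : K), (β' : K)] F hF0 hFe
  have hd := degreeOf_pol hω0 hω0 c
  have hgω : ∀ i, g.degreeOf i < ω := by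
    intro i
    fin_cases i
    · exact (hgd 0).trans_lt hd.1
    · exact (hgd 1).trans_lt hd.2
  have ha : 1 ≤ g.degreeOf 0 := by
    by_contra h
    have h0 : g.degreeOf 0 = 0 := by omega
    have h1 := deg_one ![(β : K), (β' : K)] g hgi.ne_zero hge 1 0
      (by intro l; fin_cases l <;> simp) h0
    have h2 := hlarge 0 1 (by simp) (by simpa using hω0) (by
      have : 2 ≤ ω := hr2.trans (Nat.le_self_pow (by norm_num) r)
      rw [abs_one]; exact_mod_cast this)
    have h3 : ((β : K) ^ (0 : ℤ) * (β' : K) ^ (1 : ℤ)) = ![(β : K), (β' : K)] 1 := by simp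
    rw [h3] at h2
    have := hgω 1
    omega
  have hbb : 1 ≤ g.degreeOf 1 := by
    by_contra h
    have h0 : g.degreeOf 1 = 0 := by omega
    have h1 := deg_one ![(β : K), (β' : K)] g hgi.ne_zero hge 0 1
      (by intro l; fin_cases l <;> simp) h0
    have h2 := hlarge 1 0 (by simp) (by
      have : 2 ≤ ω := hr2.trans (Nat.le_self_pow (by norm_num) r)
      rw [abs_one]; exact_mod_cast this) (by simpa using hω0)
    have h3 : ((β : K) ^ (1 : ℤ) * (β' : K) ^ (0 : ℤ)) = ![(β : K), (β' : K)] 0 := by simp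
    rw [h3] at h2
    have := hgω 0
    omega
  obtain ⟨a, hadef⟩ : ∃ a, a = g.degreeOf 0 := ⟨_, rfl⟩
  obtain ⟨b, hbdef⟩ : ∃ b, b = g.degreeOf 1 := ⟨_, rfl⟩
  have haω : a < ω := by rw [hadef]; exact hgω 0
  have hbω : b < ω := by rw [hbdef]; exact hgω 1
  rw [← hadef] at ha
  rw [← hbdef] at hbb
  -- the prime
  obtain ⟨q, hq⟩ : (prs (r ^ 30)).Nonempty := by
    rw [← Finset.card_pos]
    have h1 := hX0 (r ^ 30) (hrX.trans (Nat.le_self_pow (by norm_num) r))
    have h2 : 0 < r ^ 30 := by positivity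
    by_contra h
    have h3 : (prs (r ^ 30)).card = 0 := by omega
    rw [h3] at h1
    omega
  rw [prs, Finset.mem_filter, Finset.mem_Ioc] at hq
  obtain ⟨⟨hq1, hq2⟩, hqp⟩ := hq
  have hab : a * b ≤ r ^ 20 := by
    calc a * b ≤ ω * ω := Nat.mul_le_mul haω.le hbω.le
      _ = r ^ 20 := by rw [hω]; ring
  have h4r : 4 * r ^ 51 < r ^ 100 := by
    calc 4 * r ^ 51 < r * r ^ 51 := by
          apply Nat.mul_lt_mul_of_pos_right _ (by positivity)
          exact lt_of_lt_of_le (by norm_num) hr18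
      _ = r ^ 52 := by ring
      _ ≤ r ^ 100 := Nat.pow_le_pow_right (by omega) (by norm_num)
  have hfull := hFULL K (β : K) (β' : K) g ω r q hb0 hb0' hgen hgi hge hgω hqp
    (by
      refine lt_of_le_of_lt ?_ hq1
      calc 2 * ω ^ 2 = 2 * r ^ 20 := by rw [hω]; ring
        _ ≤ r * r ^ 20 := Nat.mul_le_mul_right _ hr2
        _ = r ^ 21 := by ring
        _ ≤ r ^ 30 := Nat.pow_le_pow_right (by omega) (by norm_num))
    (by
      refine le_trans ?_ hq1.le
      calc r * ω = r ^ 11 := by rw [hω]; ring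
        _ ≤ r ^ 30 := Nat.pow_le_pow_right (by omega) (by norm_num))
    (by
      rw [← hadef, ← hbdef]
      refine lt_of_le_of_lt ?_ (lt_of_lt_of_le h4r hD1)
      calc 2 * q * r * (a * b) ≤ 2 * (2 * r ^ 30) * r * r ^ 20 := by gcongr
        _ = 4 * r ^ 51 := by ring)
    hlarge
  have hjrk := hJRK1 K (β : K) (β' : K) r g (by omega) hgi.ne_zero hge
  rw [← hadef, ← hbdef] at hfull hjrk
  have hA0 : 0 < r * a := Nat.mul_pos (by omega) ha
  have hB0 : 0 < r * b := Nat.mul_pos (by omega) hbb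
  have hAr : r * a ≤ r ^ 11 := by
    calc r * a ≤ r * ω := Nat.mul_le_mul_left _ haω.le
      _ = r ^ 11 := by rw [hω]; ring
  have hBr : r * b ≤ r ^ 11 := by
    calc r * b ≤ r * ω := Nat.mul_le_mul_left _ hbω.le
      _ = r ^ 11 := by rw [hω]; ring
  obtain ⟨A, hA⟩ : ∃ A, A = r * a := ⟨_, rfl⟩
  obtain ⟨B, hB⟩ : ∃ B, B = r * b := ⟨_, rfl⟩
  have hR : ((r * a * (r * b) : ℕ) : ℝ) = r * r * ((a : ℝ) * b) := by push_cast; ring
  have hjR : (jrk K (r * a) (r * b) (β : K) (β' : K) 1 : ℝ) ≤ 2 * r * ((a : ℝ) * b) := by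
    have : ((2 * r * (a * b) : ℕ) : ℝ) = 2 * r * ((a : ℝ) * b) := by push_cast; ring
    rw [← this]
    exact_mod_cast hjrk
  rw [← hA, ← hB] at hfull hjR hR
  rw [← hA] at hA0 hAr
  rw [← hB] at hB0 hBr
  have hAR : (A : ℝ) ≤ (r : ℝ) ^ 11 := by exact_mod_cast hAr
  have hBR : (B : ℝ) ≤ (r : ℝ) ^ 11 := by exact_mod_cast hBr
  have hq1R : (r : ℝ) ^ 30 < q := by exact_mod_cast hq1
  have hq2R : (q : ℝ) ≤ 2 * (r : ℝ) ^ 30 := by exact_mod_cast hq2
  obtain ⟨hnx1, hnx2⟩ := numX hr18R hD1R (Nat.cast_nonneg A) (Nat.cast_nonneg B) hAR hBR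
    ((hHKB K).1 (β : K)) ((hHKB K).1 (β' : K)) hb hb' hq1R hq2R
  have hcount := hCOUNT K β β' A B 1 {q} hA0 hB0 one_pos (by
    intro c hc hv q' hq'
    rw [Finset.mem_singleton] at hq'
    subst hq'
    have h1 : evl A B c β β' = 0 := by
      have := hv 0 0 (by norm_num)
      simpa [jet, evl] using this
    exact hEX1 K β β' A B q' c hqp hc h1 hnx1)
  rw [hfull] at hcount
  have habR : (0 : ℝ) < (a : ℝ) * b := by
    have : 0 < a * b := Nat.mul_pos ha hbb
    exact_mod_cast this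
  have hMR : ((max A B : ℕ) : ℝ) ≤ (r : ℝ) ^ 11 := by
    rw [Nat.cast_max]
    exact max_le hAR hBR
  rw [hA, hB] at hR
  refine numG (R := ((A * B : ℕ) : ℝ)) hr18R habR (Nat.cast_nonneg A) (Nat.cast_nonneg B)
    hAR hBR (Nat.cast_nonneg (max A B)) hMR hnx2 (by rw [hA, hB]; exact hR) hjR ?_
  simpa using hcount

end Pool.Agent.Helper28K9.RK
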