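import Mathlib
import Pool.Agent.Helper28K9.RK.Stm

/-!
# [COUNT] the pigeonhole principle with jets
-/

set_option autoImplicit false

open NumberField Module Finset

namespace Pool.Agent.Helper28K9.RK

namespace CountL

variable {K : Type} [Field K] [NumberField K]

/-- the weights -/
noncomputable def wt (x y : K) (A B : ℕ) (τ : K →+* ℂ) : ℝ :=
  max 1 ‖τ x‖ ^ A * max 1 ‖τ y‖ ^ B

omit [NumberField K] in
theorem wt_pos (x y : K) (A B : ℕ) (τ : K →+* ℂ) : 0 < wt x y A B τ := by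
  unfold wt
  have hx : 0 < max 1 ‖τ x‖ := lt_of_lt_of_le one_pos (le_max_left _ _)
  have hy : 0 < max 1 ‖τ y‖ := lt_of_lt_of_le one_pos (le_max_left _ _)
  positivity

/-- the jets of the monomials -/
noncomputable def vJ (A B T : ℕ) (x y : K) (p : Fin A × Fin B) : Fin T × Fin T → K :=
  fun kl => if (kl.1 : ℕ) + kl.2 < T then
      ((p.1 : ℕ).choose kl.1 : K) * ((p.2 : ℕ).choose kl.2 : K) * x ^ ((p.1 : ℕ) - kl.1) *
        y ^ ((p.2 : ℕ) - kl.2) else 0

/-- the values of the monomials -/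
noncomputable def vQ (A B : ℕ) (x y : K) (Q : Finset ℕ) (p : Fin A × Fin B) : Q → K :=
  fun q => (x ^ (q : ℕ)) ^ (p.1 : ℕ) * (y ^ (q : ℕ)) ^ (p.2 : ℕ)

/-- the map of the jets -/
noncomputable def LJ (A B T : ℕ) (x y : K) : (Fin A × Fin B → ℚ) →ₗ[ℚ] (Fin T × Fin T → K) :=
  Fintype.linearCombination ℚ (vJ A B T x y)

/-- the map of the values -/
noncomputable def LQ (A B : ℕ) (x y : K) (Q : Finset ℕ) : (Fin A × Fin B → ℚ) →ₗ[ℚ] (Q → K) :=
  Fintype.linearCombination ℚ (vQ A B x y Q)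

theorem rank_LJ (A B T : ℕ) (x y : K) :
    finrank ℚ (LinearMap.range (LJ A B T x y)) = jrk K A B x y T := by
  rw [LJ, Fintype.range_linearCombination]
  rfl

theorem rank_LQ (A B : ℕ) (x y : K) (Q : Finset ℕ) :
    finrank ℚ (LinearMap.range (LQ A B x y Q)) = rk K A B x y Q := by
  rw [LQ, Fintype.range_linearCombination]
  rfl

/-- the rational 0-1 vector of `c` -/
def ind {A B : ℕ} (c : Fin A × Fin B → Bool) : Fin A × Fin B → ℚ := fun i => if c i then 1 else 0

/-- the integer coefficients of the difference -/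
def co {A B : ℕ} (c c' : Fin A × Fin B → Bool) : ℕ → ℕ → ℤ := fun i j =>
  if h : i < A ∧ j < B then (if c (⟨i, h.1⟩, ⟨j, h.2⟩) then 1 else 0) -
    (if c' (⟨i, h.1⟩, ⟨j, h.2⟩) then 1 else 0) else 0

theorem co_le {A B : ℕ} (c c' : Fin A × Fin B → Bool) (i j : ℕ) : |co c c' i j| ≤ 1 := by
  unfold co
  split_ifs <;> simp

theorem co_eq {A B : ℕ} (c c' : Fin A × Fin B → Bool) :
    (fun p : Fin A × Fin B => ((co c c' p.1 p.2 : ℤ) : ℚ)) = ind c - ind c' := by
  funext p
  obtain ⟨i, j⟩ := p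
  have h : (i : ℕ) < A ∧ (j : ℕ) < B := ⟨i.2, j.2⟩
  simp only [co, dif_pos h, ind, Pi.sub_apply]
  push_cast
  rfl

theorem LJ_apply (A B T : ℕ) (x y : 𝓞 K) (c : ℕ → ℕ → ℤ) (kl : Fin T × Fin T) :
    LJ A B T (x : K) (y : K) (fun p => (c p.1 p.2 : ℚ)) kl =
      if (kl.1 : ℕ) + kl.2 < T then ((jet A B c x y kl.1 kl.2 : 𝓞 K) : K) else 0 := by
  rw [LJ, Fintype.linearCombination_apply, Finset.sum_apply]
  simp only [Pi.smul_apply, vJ, NumberField.RingOfIntegers.coe_eq_algebraMap]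
  split_ifs with h
  · rw [Fintype.sum_prod_type, jet, map_sum, Finset.sum_range]
    refine Finset.sum_congr rfl fun i _ => ?_
    rw [map_sum, Finset.sum_range]
    refine Finset.sum_congr rfl fun j _ => ?_
    simp only [Algebra.smul_def, map_mul, map_pow, map_natCast, eq_ratCast, eq_intCast,
      map_intCast, Rat.cast_intCast]
    ring
  · simp

theorem LQ_apply (A B : ℕ) (x y : 𝓞 K) (c : ℕ → ℕ → ℤ) (Q : Finset ℕ) (q : Q) :
    LQ A B (x : K) (y : K) Q (fun p => (c p.1 p.2 : ℚ)) q =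
      ((evl A B c (x ^ (q : ℕ)) (y ^ (q : ℕ)) : 𝓞 K) : K) := by
  rw [LQ, Fintype.linearCombination_apply, Finset.sum_apply]
  simp only [Pi.smul_apply, vQ, NumberField.RingOfIntegers.coe_eq_algebraMap]
  rw [Fintype.sum_prod_type, evl, map_sum, Finset.sum_range]
  refine Finset.sum_congr rfl fun i _ => ?_
  rw [map_sum, Finset.sum_range]
  refine Finset.sum_congr rfl fun j _ => ?_
  simp only [Algebra.smul_def, map_mul, map_pow, eq_ratCast, eq_intCast, map_intCast,
    Rat.cast_intCast]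
  ring

/-- if the jets agree then the values agree -/
theorem same (A B T : ℕ) (x y : 𝓞 K) (Q : Finset ℕ)
    (H : ∀ c : ℕ → ℕ → ℤ, (∀ i j, |c i j| ≤ 1) → Van A B c x y T →
      ∀ q ∈ Q, evl A B c (x ^ q) (y ^ q) = 0) (c c' : Fin A × Fin B → Bool)
    (h : LJ A B T (x : K) (y : K) (ind c) = LJ A B T (x : K) (y : K) (ind c')) :
    LQ A B (x : K) (y : K) Q (ind c) = LQ A B (x : K) (y : K) Q (ind c') := by
  rw [← sub_eq_zero, ← map_sub, ← co_eq] at h ⊢
  have h1 : Van A B (co c c') x y T := by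
    intro k l hkl
    have hk : k < T := by omega
    have hl : l < T := by omega
    have h2 := congrFun h (⟨k, hk⟩, ⟨l, hl⟩)
    rw [LJ_apply] at h2
    simp only [hkl, if_true, Pi.zero_apply] at h2
    exact_mod_cast h2
  funext q
  rw [LQ_apply, H _ (co_le c c') h1 q.1 q.2]
  simp

theorem card_fib_le (hF : S_FIB) (A B : ℕ) (x y : K) (Q : Finset ℕ) (v : Q → K) :
    Nat.card {c : Fin A × Fin B → Bool // LQ A B x y Q (ind c) = v} * 2 ^ rk K A B x y Q ≤
      2 ^ Fintype.card (Fin A × Fin B) := by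
  have := hF (Fin A × Fin B) (Q → K) (LQ A B x y Q) v
  rwa [rank_LQ] at this

open Classical in
/-- the values of the map of the jets on 0-1 vectors -/
noncomputable def SJ (A B T : ℕ) (x y : K) : Finset (Fin T × Fin T → K) :=
  Finset.univ.image fun c : Fin A × Fin B → Bool => LJ A B T x y (ind c)

open Classical in
theorem le_card (hF : S_FIB) (A B T : ℕ) (x y : 𝓞 K) (Q : Finset ℕ)
    (H : ∀ c : ℕ → ℕ → ℤ, (∀ i j, |c i j| ≤ 1) → Van A B c x y T →
      ∀ q ∈ Q, evl A B c (x ^ q) (y ^ q) = 0) :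
    2 ^ rk K A B x y Q ≤ (SJ A B T (x : K) (y : K)).card := by
  set N : ℕ := 2 ^ Fintype.card (Fin A × Fin B) with hN
  have hN0 : 0 < N := by positivity
  have h1 : N = ∑ s ∈ SJ A B T (x : K) (y : K),
      (Finset.univ.filter fun c : Fin A × Fin B → Bool =>
        LJ A B T (x : K) (y : K) (ind c) = s).card := by
    unfold SJ
    rw [← Finset.card_eq_sum_card_image]
    simp [hN]
  have h2 : ∀ s ∈ SJ A B T (x : K) (y : K),
      (Finset.univ.filter fun c : Fin A × Fin B → Bool =>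
        LJ A B T (x : K) (y : K) (ind c) = s).card * 2 ^ rk K A B x y Q ≤ N := by
    intro s hs
    obtain ⟨c₀, _, hc₀⟩ := Finset.mem_image.1 hs
    have h3 := card_fib_le hF A B (x : K) (y : K) Q (LQ A B (x : K) (y : K) Q (ind c₀))
    refine le_trans (Nat.mul_le_mul_right _ ?_) h3
    rw [Nat.card_eq_fintype_card, Fintype.card_subtype]
    apply Finset.card_le_card
    intro c hc
    rw [Finset.mem_filter] at hc ⊢
    refine ⟨Finset.mem_univ _, ?_⟩
    exact same A B T x y Q H c c₀ (hc.2.trans hc₀.symm)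
  have h3 : N * 2 ^ rk K A B x y Q ≤ (SJ A B T (x : K) (y : K)).card * N := by
    conv_lhs => rw [h1]
    rw [Finset.sum_mul]
    refine (Finset.sum_le_sum h2).trans ?_
    rw [Finset.sum_const, smul_eq_mul]
  rw [mul_comm] at h3
  exact Nat.le_of_mul_le_mul_right h3 hN0

theorem choose_le (n k M : ℕ) (h : n ≤ M) : n.choose k ≤ M ^ k := by
  refine le_trans ?_ (Nat.pow_le_pow_left h k)
  exact Nat.choose_le_pow n k

theorem norm_vJ (A B T : ℕ) (hA : 0 < A) (x y : K) (p : Fin A × Fin B) (kl : Fin T × Fin T)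
    (τ : K →+* ℂ) : ‖τ (vJ A B T x y p kl)‖ ≤ ((max A B : ℕ) : ℝ) ^ T * wt x y A B τ := by
  have hM : 1 ≤ max A B := le_max_of_le_left hA
  have hw := wt_pos x y A B τ
  unfold vJ
  split_ifs with h
  · rw [map_mul, map_mul, map_mul, map_natCast, map_natCast, map_pow, map_pow, norm_mul, norm_mul,
      norm_mul, norm_pow, norm_pow, Complex.norm_natCast, Complex.norm_natCast]
    have h1 : (((p.1 : ℕ).choose kl.1 : ℕ) : ℝ) * (((p.2 : ℕ).choose kl.2 : ℕ) : ℝ) ≤
        ((max A B : ℕ) : ℝ) ^ T := by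
      have h2 : (p.1 : ℕ).choose kl.1 * (p.2 : ℕ).choose kl.2 ≤ (max A B) ^ T := by
        calc (p.1 : ℕ).choose kl.1 * (p.2 : ℕ).choose kl.2
            ≤ (max A B) ^ (kl.1 : ℕ) * (max A B) ^ (kl.2 : ℕ) :=
              Nat.mul_le_mul (choose_le _ _ _ (p.1.2.le.trans (le_max_left _ _)))
                (choose_le _ _ _ (p.2.2.le.trans (le_max_right _ _)))
          _ = (max A B) ^ ((kl.1 : ℕ) + kl.2) := by rw [pow_add]
          _ ≤ (max A B) ^ T := Nat.pow_le_pow_right hM h.le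
      exact_mod_cast h2
    have h3 : ‖τ x‖ ^ ((p.1 : ℕ) - kl.1) ≤ max 1 ‖τ x‖ ^ A :=
      (pow_le_pow_left₀ (norm_nonneg _) (le_max_right _ _) _).trans
        (pow_le_pow_right₀ (le_max_left _ _) (by omega))
    have h4 : ‖τ y‖ ^ ((p.2 : ℕ) - kl.2) ≤ max 1 ‖τ y‖ ^ B :=
      (pow_le_pow_left₀ (norm_nonneg _) (le_max_right _ _) _).trans
        (pow_le_pow_right₀ (le_max_left _ _) (by omega))
    calc _ = ((((p.1 : ℕ).choose kl.1 : ℕ) : ℝ) * (((p.2 : ℕ).choose kl.2 : ℕ) : ℝ)) *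
          (‖τ x‖ ^ ((p.1 : ℕ) - kl.1) * ‖τ y‖ ^ ((p.2 : ℕ) - kl.2)) := by ring
      _ ≤ ((max A B : ℕ) : ℝ) ^ T * (max 1 ‖τ x‖ ^ A * max 1 ‖τ y‖ ^ B) := by
          apply mul_le_mul h1 _ (by positivity) (by positivity)
          exact mul_le_mul h3 h4 (by positivity) (by positivity)
  · rw [map_zero, norm_zero]
    positivity

/-- the embedding into a Euclidean space -/
noncomputable def emb (A B T : ℕ) (x y : K) (s : Fin T × Fin T → K) :
    EuclideanSpace ℂ ((Fin T × Fin T) × (K →+* ℂ)) :=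
  WithLp.toLp 2 fun p => p.2 (s p.1) / ((wt x y A B p.2 : ℝ) : ℂ)

omit [NumberField K] in
theorem emb_apply (A B T : ℕ) (x y : K) (s : Fin T × Fin T → K)
    (p : (Fin T × Fin T) × (K →+* ℂ)) :
    emb A B T x y s p = p.2 (s p.1) / ((wt x y A B p.2 : ℝ) : ℂ) := rfl

theorem norm_emb_apply (A B T : ℕ) (x y : K) (s : Fin T × Fin T → K)
    (p : (Fin T × Fin T) × (K →+* ℂ)) :
    ‖emb A B T x y s p‖ = ‖p.2 (s p.1)‖ / wt x y A B p.2 := by
  rw [emb_apply, norm_div, Complex.norm_real, Real.norm_of_nonneg (wt_pos _ _ _ _ _).le]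

theorem emb_sub (A B T : ℕ) (x y : K) (s t : Fin T × Fin T → K) :
    emb A B T x y s - emb A B T x y t = emb A B T x y (s - t) := by
  ext p
  rw [PiLp.sub_apply, emb_apply, emb_apply, emb_apply, Pi.sub_apply, map_sub, sub_div]

theorem emb_sum (A B T : ℕ) (x y : K) {n : ℕ} (q : Fin n → ℚ) (b : Fin n → Fin T × Fin T → K) :
    emb A B T x y (∑ i, q i • b i) = ∑ i, (q i : ℝ) • emb A B T x y (b i) := by
  ext p
  rw [emb_apply, Finset.sum_apply, map_sum, Finset.sum_div]
  simp only [WithLp.ofLp_sum, Finset.sum_apply]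
  refine Finset.sum_congr rfl fun i _ => ?_
  rw [PiLp.smul_apply, emb_apply, Pi.smul_apply, Algebra.smul_def, map_mul, eq_ratCast,
    map_ratCast, Complex.real_smul, mul_div_assoc]
  push_cast
  rfl

theorem norm_emb_le (A B T : ℕ) (hA : 0 < A) (x y : K) (c : Fin A × Fin B → Bool) :
    ‖emb A B T x y (LJ A B T x y (ind c))‖ ≤
      T * Real.sqrt (finrank ℚ K) * (A * B * ((max A B : ℕ) : ℝ) ^ T) := by
  apply le_of_sq_le_sq _ (by positivity)
  rw [EuclideanSpace.norm_sq_eq]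
  have h1 : ∀ p : (Fin T × Fin T) × (K →+* ℂ), ‖emb A B T x y (LJ A B T x y (ind c)) p‖ ≤
      A * B * ((max A B : ℕ) : ℝ) ^ T := by
    intro p
    rw [norm_emb_apply, div_le_iff₀ (wt_pos _ _ _ _ _), LJ, Fintype.linearCombination_apply,
      Finset.sum_apply, map_sum]
    refine (norm_sum_le _ _).trans ?_
    have h2 : ∀ i : Fin A × Fin B, ‖p.2 ((ind c i • vJ A B T x y i) p.1)‖ ≤
        ((max A B : ℕ) : ℝ) ^ T * wt x y A B p.2 := by
      intro i
      have h3 := norm_vJ A B T hA x y i p.1 p.2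
      unfold ind
      split_ifs
      · rwa [one_smul]
      · rw [zero_smul, Pi.zero_apply, map_zero, norm_zero]
        have := wt_pos x y A B p.2
        positivity
    refine (Finset.sum_le_sum fun i _ => h2 i).trans ?_
    rw [Finset.sum_const, Finset.card_univ, Fintype.card_prod, Fintype.card_fin, Fintype.card_fin,
      nsmul_eq_mul]
    push_cast
    exact le_of_eq (by ring)
  refine (Finset.sum_le_sum fun p _ => pow_le_pow_left₀ (norm_nonneg _) (h1 p) 2).trans ?_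
  rw [Finset.sum_const, Finset.card_univ, Fintype.card_prod, Fintype.card_prod, Fintype.card_fin,
    nsmul_eq_mul, NumberField.Embeddings.card]
  have h5 : (T * Real.sqrt (finrank ℚ K) * (A * B * ((max A B : ℕ) : ℝ) ^ T)) ^ 2 =
      (T : ℝ) ^ 2 * (finrank ℚ K) * (A * B * ((max A B : ℕ) : ℝ) ^ T) ^ 2 := by
    rw [mul_pow, mul_pow, Real.sq_sqrt (by positivity)]
  rw [h5, Nat.cast_mul, Nat.cast_mul]
  exact le_of_eq (by ring)

theorem le_norm_emb (hS : S_SEPD) (A B T : ℕ) (x y : 𝓞 K) (c : ℕ → ℕ → ℤ)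
    (h : LJ A B T (x : K) (y : K) (fun p => (c p.1 p.2 : ℚ)) ≠ 0) :
    Real.sqrt (finrank ℚ K) * Real.exp (-((A * HK K (x : K) + B * HK K (y : K)) / finrank ℚ K)) ≤
      ‖emb A B T (x : K) (y : K) (LJ A B T (x : K) (y : K) (fun p => (c p.1 p.2 : ℚ)))‖ := by
  apply le_of_sq_le_sq _ (norm_nonneg _)
  rw [EuclideanSpace.norm_sq_eq]
  obtain ⟨kl, hkl⟩ := Function.ne_iff.1 h
  rw [LJ_apply] at hkl
  split_ifs at hkl with h0
  · have hα : (jet A B c x y kl.1 kl.2 : 𝓞 K) ≠ 0 := by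
      intro h1
      apply hkl
      rw [h1]
      simp
    have h2 := hS K (x : K) (y : K) A B _ hα
    rw [mul_pow, Real.sq_sqrt (by positivity), ← Real.exp_nat_mul]
    have h3 : ((2 : ℕ) : ℝ) * -((A * HK K (x : K) + B * HK K (y : K)) / finrank ℚ K) =
        -(2 * (A * HK K (x : K) + B * HK K (y : K)) / finrank ℚ K) := by
      push_cast
      ring
    rw [h3]
    refine h2.trans ?_
    rw [Fintype.sum_prod_type]
    refine le_trans ?_ (Finset.single_le_sum (f := fun kl' : Fin T × Fin T =>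
      ∑ τ : K →+* ℂ, ‖emb A B T (x : K) (y : K)
        (LJ A B T (x : K) (y : K) (fun p => (c p.1 p.2 : ℚ))) (kl', τ)‖ ^ 2)
      (fun _ _ => by positivity) (Finset.mem_univ kl))
    refine Finset.sum_le_sum fun τ _ => ?_
    rw [norm_emb_apply, div_pow, LJ_apply]
    simp only [h0, if_true]
    exact le_of_eq rfl
  · simp at hkl

open Classical in
theorem card_le (hP : S_PACK) (hS : S_SEPD) (A B T : ℕ) (hA : 0 < A) (x y : 𝓞 K) :
    ((SJ A B T (x : K) (y : K)).card : ℝ) ≤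
      (1 + 2 * T * (A * B) * (max A B : ℕ) ^ T *
        Real.exp ((A * HK K (x : K) + B * HK K (y : K)) / finrank ℚ K)) ^
          jrk K A B (x : K) (y : K) T := by
  set D : ℝ := (finrank ℚ K : ℝ) with hD
  have hD0 : 0 < D := by rw [hD]; exact_mod_cast finrank_pos
  set H : ℝ := (A * HK K (x : K) + B * HK K (y : K)) / D with hH
  set R := LinearMap.range (LJ A B T (x : K) (y : K)) with hR
  let n := finrank ℚ R
  let b : Basis (Fin n) ℚ R := Module.finBasis ℚ R
  let Φ := emb A B T (x : K) (y : K)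
  let E : Submodule ℝ (EuclideanSpace ℂ ((Fin T × Fin T) × (K →+* ℂ))) :=
    Submodule.span ℝ (Set.range fun i : Fin n => Φ (b i : Fin T × Fin T → K))
  have hE : finrank ℝ E ≤ n := by
    have := finrank_range_le_card (R := ℝ) (fun i : Fin n => Φ (b i : Fin T × Fin T → K))
    simpa [Set.finrank] using this
  have hmem : ∀ s ∈ SJ A B T (x : K) (y : K), Φ s ∈ E := by
    intro s hs
    obtain ⟨c, _, rfl⟩ := Finset.mem_image.1 hs
    have hr : LJ A B T (x : K) (y : K) (ind c) ∈ R := ⟨_, rfl⟩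
    have h1 := b.sum_repr ⟨_, hr⟩
    have h2 := congrArg (Subtype.val) h1
    simp only [Submodule.coe_sum, Submodule.coe_smul] at h2
    rw [← h2]
    have h3 := emb_sum A B T (x : K) (y : K) (fun i => b.repr ⟨_, hr⟩ i)
      (fun i => (b i : Fin T × Fin T → K))
    rw [show Φ _ = _ from h3]
    exact Submodule.sum_mem _ fun i _ => Submodule.smul_mem _ _
      (Submodule.subset_span ⟨i, rfl⟩)
  set δ : ℝ := Real.sqrt D * Real.exp (-H) with hδ
  have hδ0 : 0 < δ := mul_pos (Real.sqrt_pos.2 hD0) (Real.exp_pos _)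
  set ρ : ℝ := T * Real.sqrt D * (A * B * ((max A B : ℕ) : ℝ) ^ T) with hρ
  have hρ0 : 0 ≤ ρ := by positivity
  have hsep : ∀ s ∈ SJ A B T (x : K) (y : K), ∀ t ∈ SJ A B T (x : K) (y : K), s ≠ t →
      δ ≤ ‖Φ s - Φ t‖ := by
    intro s hs t ht hst
    obtain ⟨c, _, rfl⟩ := Finset.mem_image.1 hs
    obtain ⟨c', _, rfl⟩ := Finset.mem_image.1 ht
    have h1 : LJ A B T (x : K) (y : K) (ind c) - LJ A B T (x : K) (y : K) (ind c') =
        LJ A B T (x : K) (y : K) (fun p => ((co c c' p.1 p.2 : ℤ) : ℚ)) := by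
      rw [co_eq, map_sub]
    have h2 : LJ A B T (x : K) (y : K) (fun p => ((co c c' p.1 p.2 : ℤ) : ℚ)) ≠ 0 := by
      rw [← h1, sub_ne_zero]; exact hst
    have h3 := le_norm_emb hS A B T x y (co c c') h2
    show δ ≤ ‖emb A B T (x : K) (y : K) _ - emb A B T (x : K) (y : K) _‖
    rw [emb_sub, h1]
    exact h3
  let g : {s // s ∈ SJ A B T (x : K) (y : K)} → E := fun s => ⟨Φ s.1, hmem s.1 s.2⟩
  have hg : Function.Injective g := by
    intro s t hst
    by_contra hne
    have h1 := hsep s.1 s.2 t.1 t.2 (fun h => hne (Subtype.ext h))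
    have h2 : Φ s.1 = Φ t.1 := congrArg Subtype.val hst
    rw [h2, sub_self, norm_zero] at h1
    linarith
  have h1 := hP E (Finset.univ.image g) ρ δ hδ0 hρ0 (by
    intro v hv
    obtain ⟨s, _, rfl⟩ := Finset.mem_image.1 hv
    obtain ⟨c, _, hc⟩ := Finset.mem_image.1 s.2
    have h2 := norm_emb_le A B T hA (x : K) (y : K) c
    show ‖Φ s.1‖ ≤ ρ
    rw [← hc]
    exact h2) (by
    intro v hv w hw hvw
    obtain ⟨s, _, rfl⟩ := Finset.mem_image.1 hv
    obtain ⟨t, _, rfl⟩ := Finset.mem_image.1 hw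
    have hst : s.1 ≠ t.1 := by
      intro h
      apply hvw
      rw [Subtype.ext h]
    exact hsep s.1 s.2 t.1 t.2 hst)
  rw [Finset.card_image_of_injective _ hg] at h1
  have hc : (Finset.univ : Finset {s // s ∈ SJ A B T (x : K) (y : K)}).card =
      (SJ A B T (x : K) (y : K)).card := by
    rw [Finset.card_univ, Fintype.card_coe]
  rw [hc] at h1
  have h2 : 1 + 2 * ρ / δ = 1 + 2 * T * (A * B) * ((max A B : ℕ) : ℝ) ^ T * Real.exp H := by
    congr 1
    have hs : Real.sqrt D ≠ 0 := (Real.sqrt_pos.2 hD0).ne'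
    rw [hρ, hδ, Real.exp_neg]
    field_simp
  rw [h2] at h1
  refine h1.trans ?_
  have h3 : (1 : ℝ) ≤ 1 + 2 * T * (A * B) * ((max A B : ℕ) : ℝ) ^ T * Real.exp H := by
    have : 0 ≤ 2 * (T : ℝ) * (A * B) * ((max A B : ℕ) : ℝ) ^ T * Real.exp H := by positivity
    linarith
  rw [← rank_LJ]
  exact pow_le_pow_right₀ h3 hE

end CountL

open CountL

theorem count (hP : S_PACK) (hF : S_FIB) (hS : S_SEPD) : S_COUNT := by
  intro K _ _ x y A B T Q hA hB hT H
  have h1 := le_card hF A B T x y Q H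
  have h2 := card_le hP hS A B T hA x y
  have h3 : (2 : ℝ) ^ rk K A B x y Q ≤ (1 + 2 * T * (A * B) * (max A B : ℕ) ^ T *
        Real.exp ((A * HK K (x : K) + B * HK K (y : K)) / finrank ℚ K)) ^
          jrk K A B (x : K) (y : K) T := by
    refine le_trans ?_ h2
    exact_mod_cast h1
  have h4 := Real.log_le_log (by positivity) h3
  rw [Real.log_pow, Real.log_pow] at h4
  exact h4

end Pool.Agent.Helper28K9.RK
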