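import Pool.Agent.Helper28K9.RK.Stm

set_option autoImplicit false

/-!
# The degree of `ℚ (x ^ p)` (task DEGP)
-/

open NumberField Module Finset Polynomial

namespace Pool.Agent.Helper28K9.RK

namespace DegpL

/-- an automorphism moving `X` by a root of unity -/
lemma move {L : Type} [Field L] [Algebra ℚ L] [IsAlgClosed L] [Algebra.IsAlgebraic ℚ L] (X : L)
    (hX : X ≠ 0) (p : ℕ) (h : X ∉ IntermediateField.adjoin ℚ {X ^ p}) :
    ∃ (σ : L →ₐ[ℚ] L) (ζ : L), σ X = ζ * X ∧ ζ ^ p = 1 ∧ ζ ≠ 1 := by
  set F := IntermediateField.adjoin ℚ {X ^ p} with hF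
  have : Algebra.IsAlgebraic F L := Algebra.IsAlgebraic.tower_top (K := ℚ) F
  have : IsAlgClosure F L := ⟨inferInstance, inferInstance⟩
  have : IsGalois F L := IsAlgClosure.isGalois F L
  have h1 : ¬ ∀ f : Gal(L/F), f X = X := by
    intro h2
    have h3 := (InfiniteGalois.mem_bot_iff_fixed (k := F) X).2 h2
    rw [IntermediateField.mem_bot] at h3
    obtain ⟨y, hy⟩ := h3
    apply h
    rw [← hy]
    exact y.2
  push Not at h1
  obtain ⟨f, hf⟩ := h1
  refine ⟨(f : L ≃ₐ[F] L).toAlgHom.restrictScalars ℚ, f X / X, ?_, ?_, ?_⟩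
  · show f X = f X / X * X
    field_simp
  · have h4 : f (X ^ p) = X ^ p := by
      have h5 : X ^ p ∈ F := IntermediateField.mem_adjoin_simple_self ℚ _
      exact f.commutes ⟨X ^ p, h5⟩
    rw [div_pow, ← map_pow, h4, div_self (pow_ne_zero _ hX)]
  · intro h4
    rw [div_eq_one_iff_eq hX] at h4
    exact hf h4

end DegpL

open DegpL in
theorem degp : S_DEGP := by
  intro K _ _ x s hx hs
  classical
  let L := AlgebraicClosure K
  have hLa : Algebra.IsAlgebraic ℚ L := Algebra.IsAlgebraic.trans ℚ K L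
  set X : L := algebraMap K L x with hX
  have hX0 : X ≠ 0 := by
    rw [hX]
    exact (_root_.map_ne_zero _).2 hx
  have h1 : ∀ p ∈ s, ∃ (σ : L →ₐ[ℚ] L) (ζ : L), σ X = ζ * X ∧ ζ ^ p = 1 ∧ ζ ≠ 1 := by
    intro p hp
    refine move X hX0 p ?_
    intro h2
    apply (hs p hp).2
    have hint : IsAlgebraic ℚ (X ^ p) := Algebra.IsAlgebraic.isAlgebraic _
    have h3 : X ∈ Algebra.adjoin ℚ {X ^ p} := by
      rw [← IntermediateField.adjoin_simple_toSubalgebra_of_isAlgebraic hint]
      exact h2
    have h4 : x ∈ Algebra.adjoin ℚ {x ^ p} := by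
      have h5 : Algebra.adjoin ℚ {X ^ p} =
          (Algebra.adjoin ℚ {x ^ p}).map (IsScalarTower.toAlgHom ℚ K L) := by
        rw [AlgHom.map_adjoin, Set.image_singleton]
        simp [hX]
      rw [h5] at h3
      obtain ⟨y, hy, hyx⟩ := h3
      have h6 : algebraMap K L y = algebraMap K L x := hyx
      have h7 : y = x := (algebraMap K L).injective h6
      subst h7
      exact hy
    refine le_antisymm ?_ ?_
    · rw [Algebra.adjoin_le_iff, Set.singleton_subset_iff]
      exact pow_mem (Algebra.self_mem_adjoin_singleton _ _) _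
    · rw [Algebra.adjoin_le_iff, Set.singleton_subset_iff]
      exact h4
  have h2 : ∀ I : Finset ℕ, I ⊆ s → ∃ (τ : L →ₐ[ℚ] L) (η : L), τ X = η * X ∧
      orderOf η = ∏ p ∈ I, p := by
    intro I
    induction I using Finset.induction_on with
    | empty => intro _; exact ⟨AlgHom.id ℚ L, 1, by simp, by simp⟩
    | insert p I hpI ih =>
      intro hI
      obtain ⟨τ, η, h3, h4⟩ := ih (fun a ha => hI (Finset.mem_insert_of_mem ha))
      have hps := hI (Finset.mem_insert_self p I)
      obtain ⟨σ, ζ, h5, h6, h7⟩ := h1 p hps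
      have hp := (hs p hps).1
      have : Fact p.Prime := ⟨hp⟩
      have h8 : orderOf (τ ζ) = p := by
        refine orderOf_eq_prime ?_ ?_
        · rw [← map_pow, h6, map_one]
        · intro h9
          apply h7
          exact τ.toRingHom.injective (by
            show τ ζ = τ 1
            rw [h9, map_one])
      refine ⟨τ.comp σ, τ ζ * η, ?_, ?_⟩
      · rw [AlgHom.comp_apply, h5, map_mul, h3, mul_assoc]
      · rw [(Commute.all _ _).orderOf_mul_eq_mul_orderOf_of_coprime, h8, h4,
          Finset.prod_insert hpI]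
        rw [h8, h4]
        refine Nat.Coprime.prod_right fun r hr => ?_
        refine (Nat.coprime_primes hp (hs r (hI (Finset.mem_insert_of_mem hr))).1).2 ?_
        rintro rfl
        exact hpI hr
  choose! τ η h3 h4 using h2
  have hint : IsIntegral ℚ x := Algebra.IsIntegral.isIntegral _
  have hne : minpoly ℚ x ≠ 0 := minpoly.ne_zero hint
  set R : Finset L := ((minpoly ℚ x).map (algebraMap ℚ L)).roots.toFinset with hR
  have h5 : ∀ I ∈ s.powerset, τ I X ∈ R := by
    intro I hI
    rw [hR, Multiset.mem_toFinset, mem_roots (Polynomial.map_ne_zero hne), IsRoot.def, eval_map_algebraMap]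
    have h6 : aeval X (minpoly ℚ x) = 0 := by
      rw [hX, aeval_algebraMap_apply, minpoly.aeval, map_zero]
    rw [Polynomial.aeval_algHom_apply, h6, map_zero]
  have h6 : Set.InjOn (fun I => τ I X) (s.powerset : Set (Finset ℕ)) := by
    intro I hI J hJ hIJ
    have hI' := Finset.mem_powerset.1 hI
    have hJ' := Finset.mem_powerset.1 hJ
    have h7 : η I = η J := by
      have h8 : τ I X = τ J X := hIJ
      rw [h3 I hI', h3 J hJ'] at h8
      exact mul_right_cancel₀ hX0 h8
    have h8 : ∏ p ∈ I, p = ∏ p ∈ J, p := by rw [← h4 I hI', ← h4 J hJ', h7]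
    have h9 := congrArg Nat.primeFactors h8
    rwa [Nat.primeFactors_prod (fun p hp => (hs p (hI' hp)).1),
      Nat.primeFactors_prod (fun p hp => (hs p (hJ' hp)).1)] at h9
  have h7 := Finset.card_le_card_of_injOn (fun I => τ I X) h5 h6
  rw [Finset.card_powerset] at h7
  refine h7.trans ((Multiset.toFinset_card_le _).trans ((card_roots' _).trans ?_))
  rw [natDegree_map]
  exact minpoly.natDegree_le x

end Pool.Agent.Helper28K9.RK
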