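import Mathlib
import Pool.Agent.Helper28K9.RK.Stm

/-!
# [HKB]: basics about `HK`
-/

set_option autoImplicit false

open NumberField Module Finset

namespace Pool.Agent.Helper28K9.RK.H48

variable (K : Type) [Field K] [NumberField K]

theorem hk_nonneg (x : K) : 0 ≤ HK K x :=
  Finset.sum_nonneg fun _ _ => Real.log_nonneg (le_max_left _ _)

theorem logmax_pow (a : ℝ) (ha : 0 ≤ a) (n : ℕ) :
    Real.log (max 1 (a ^ n)) = n * Real.log (max 1 a) := by
  rw [← Real.log_pow]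
  congr 1
  rcases le_total a 1 with h | h
  · rw [max_eq_left h, max_eq_left (pow_le_one₀ ha h), one_pow]
  · rw [max_eq_right h, max_eq_right (one_le_pow₀ h)]

theorem hk_pow (x : K) (n : ℕ) : HK K (x ^ n) = n * HK K x := by
  unfold HK
  rw [Finset.mul_sum]
  refine Finset.sum_congr rfl fun τ _ => ?_
  rw [map_pow, norm_pow, logmax_pow _ (norm_nonneg _)]

theorem logmax_mul (a b : ℝ) (_ha : 0 ≤ a) (hb : 0 ≤ b) :
    Real.log (max 1 (a * b)) ≤ Real.log (max 1 a) + Real.log (max 1 b) := by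
  have h1 : (0 : ℝ) < max 1 a := lt_of_lt_of_le one_pos (le_max_left _ _)
  have h2 : (0 : ℝ) < max 1 b := lt_of_lt_of_le one_pos (le_max_left _ _)
  rw [← Real.log_mul h1.ne' h2.ne']
  refine Real.log_le_log (lt_of_lt_of_le one_pos (le_max_left _ _)) ?_
  refine max_le ?_ ?_
  · calc (1 : ℝ) = 1 * 1 := by ring
      _ ≤ max 1 a * max 1 b := mul_le_mul (le_max_left _ _) (le_max_left _ _) zero_le_one h1.le
  · exact mul_le_mul (le_max_right _ _) (le_max_right _ _) hb h1.le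

theorem hk_mul (x y : K) : HK K (x * y) ≤ HK K x + HK K y := by
  unfold HK
  rw [← Finset.sum_add_distrib]
  refine Finset.sum_le_sum fun τ _ => ?_
  rw [map_mul, norm_mul]
  exact logmax_mul _ _ (norm_nonneg _) (norm_nonneg _)

theorem prod_norm_embed (x : K) :
    ∏ τ : K →+* ℂ, ‖τ x‖ = |((Algebra.norm ℚ x : ℚ) : ℝ)| := by
  have h : ‖∏ σ : K →ₐ[ℚ] ℂ, σ x‖ = ‖algebraMap ℚ ℂ (Algebra.norm ℚ x)‖ :=
    (congr_arg (‖·‖) (Algebra.norm_eq_prod_embeddings ℚ ℂ x)).symm
  rw [norm_prod, ← Fintype.prod_equiv (RingHom.equivRatAlgHom K ℂ) (fun f => ‖f x‖)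
      (fun φ => ‖φ x‖) fun _ => by simp [RingHom.equivRatAlgHom_apply]] at h
  rw [h, eq_ratCast, ← Real.norm_eq_abs, ← Complex.norm_real, Complex.ofReal_ratCast]

theorem logmax_inv (a : ℝ) (ha : 0 < a) :
    Real.log (max 1 a⁻¹) = Real.log (max 1 a) - Real.log a := by
  rcases le_total a 1 with h | h
  · rw [max_eq_left h, max_eq_right ((one_le_inv₀ ha).2 h), Real.log_inv, Real.log_one]
    ring
  · rw [max_eq_right h, max_eq_left (inv_le_one_of_one_le₀ h), Real.log_one]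
    ring

theorem hk_inv (x : 𝓞 K) (hx : IsUnit x) : HK K ((x : K)⁻¹) = HK K (x : K) := by
  have hx0 : (x : K) ≠ 0 := by
    have := hx.ne_zero
    exact fun h => this (by exact_mod_cast h)
  have hpos : ∀ τ : K →+* ℂ, 0 < ‖τ (x : K)‖ := fun τ =>
    norm_pos_iff.2 ((map_ne_zero τ).2 hx0)
  have hprod : ∏ τ : K →+* ℂ, ‖τ (x : K)‖ = 1 := by
    rw [prod_norm_embed]
    have h := (NumberField.isUnit_iff_norm (K := K) (x := x)).1 hx
    have h2 : |(Algebra.norm ℚ (x : K) : ℚ)| = 1 := by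
      simpa using h
    exact_mod_cast h2
  have hsum : ∑ τ : K →+* ℂ, Real.log ‖τ (x : K)‖ = 0 := by
    rw [← Real.log_prod (fun τ _ => (hpos τ).ne'), hprod, Real.log_one]
  unfold HK
  have : ∀ τ : K →+* ℂ, Real.log (max 1 ‖τ ((x : K)⁻¹)‖) =
      Real.log (max 1 ‖τ (x : K)‖) - Real.log ‖τ (x : K)‖ := by
    intro τ
    rw [map_inv₀, norm_inv, logmax_inv _ (hpos τ)]
  rw [Finset.sum_congr rfl (fun τ _ => this τ), Finset.sum_sub_distrib, hsum, sub_zero]

theorem hk_map (ψ : K →+* K) (x : K) : HK K (ψ x) = HK K x := by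
  have hinj : Function.Injective ψ := ψ.injective
  have hsurj : Function.Surjective ψ := by
    have h : Function.Injective (RingHom.toRatAlgHom ψ).toLinearMap := by
      intro a b hab
      exact hinj hab
    exact LinearMap.surjective_of_injective h
  have hb : Function.Bijective (fun τ : K →+* ℂ => τ.comp ψ) := by
    refine Finite.injective_iff_bijective.1 ?_
    intro τ₁ τ₂ h
    ext a
    obtain ⟨b, rfl⟩ := hsurj a
    exact RingHom.congr_fun h b
  unfold HK
  exact Fintype.sum_bijective (fun τ : K →+* ℂ => τ.comp ψ) hb _ _ (fun τ => rfl)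

theorem hk_kronecker (x : 𝓞 K) (hx : x ≠ 0) (h : HK K (x : K) = 0) :
    ∃ n : ℕ, 0 < n ∧ x ^ n = 1 := by
  have h1 : ∀ τ : K →+* ℂ, ‖τ (x : K)‖ ≤ 1 := by
    intro τ
    have h2 := (Finset.sum_eq_zero_iff_of_nonneg
      (fun τ _ => Real.log_nonneg (le_max_left (1 : ℝ) ‖τ (x : K)‖))).1 h τ (Finset.mem_univ τ)
    have h3 : (0 : ℝ) < max 1 ‖τ (x : K)‖ := lt_of_lt_of_le one_pos (le_max_left _ _)
    have h4 := Real.exp_log h3
    rw [h2, Real.exp_zero] at h4
    rw [h4]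
    exact le_max_right _ _
  have hx0 : (x : K) ≠ 0 := fun h => hx (by exact_mod_cast h)
  obtain ⟨n, hn, hn2⟩ := NumberField.Embeddings.pow_eq_one_of_norm_le_one K ℂ hx0
    x.isIntegral_coe h1
  exact ⟨n, hn, by exact_mod_cast hn2⟩

end Pool.Agent.Helper28K9.RK.H48

namespace Pool.Agent.Helper28K9.RK

/-- [HKB] -/
theorem hkb : S_HKB := fun K _ _ =>
  ⟨H48.hk_nonneg K, H48.hk_pow K, H48.hk_mul K, H48.hk_inv K, H48.hk_map K, H48.hk_kronecker K⟩

end Pool.Agent.Helper28K9.RK
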