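import Mathlib
import Pool.Agent.Helper28K9.RK.Hkb

/-!
# [DISC]: the discriminant from above
-/

set_option autoImplicit false

open NumberField Module Finset

namespace Pool.Agent.Helper28K9.RK.H48

open scoped IntermediateField

variable {K : Type} [Field K] [NumberField K]

/-- a basis of monomials from two power bases -/
theorem mono_basis_aux {F : Type} [Field F] [Algebra ℚ F] [Algebra F K] [IsScalarTower ℚ F K]
    (p1 : PowerBasis ℚ F) (p2 : PowerBasis F K) (x y : K) (hx : algebraMap F K p1.gen = x)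
    (hy : p2.gen = y) :
    ∃ (m n : ℕ) (b : Basis (Fin m × Fin n) ℚ K), ∀ p : Fin m × Fin n,
      b p = x ^ (p.1 : ℕ) * y ^ (p.2 : ℕ) := by
  refine ⟨p1.dim, p2.dim, p1.basis.smulTower p2.basis, ?_⟩
  intro p
  rw [Basis.smulTower_apply, p1.basis_eq_pow, p2.basis_eq_pow, Algebra.smul_def, map_pow, hx, hy]

theorem adjoin_aux {F : Type} [Field F] [Algebra ℚ F] [Algebra F K] [IsScalarTower ℚ F K]
    (x y : K) (t : F) (ht : algebraMap F K t = x) (hxy : Algebra.adjoin ℚ {x, y} = ⊤) :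
    Algebra.adjoin F {y} = ⊤ := by
  rw [eq_top_iff]
  intro a _
  have h1 : Algebra.adjoin ℚ {x, y} ≤ (Algebra.adjoin F {y}).restrictScalars ℚ := by
    rw [Algebra.adjoin_le_iff]
    intro z hz
    have h5 : y ∈ Algebra.adjoin F {y} := Algebra.subset_adjoin (Set.mem_singleton y)
    have h6 : x ∈ Algebra.adjoin F {y} := by
      rw [← ht]
      exact (Algebra.adjoin F {y}).algebraMap_mem t
    have h7 : z = x ∨ z = y := hz
    have h8 : z ∈ Algebra.adjoin F {y} := by
      rcases h7 with h7 | h7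
      · rw [h7]; exact h6
      · rw [h7]; exact h5
    exact h8
  have h2 : a ∈ Algebra.adjoin ℚ {x, y} := by rw [hxy]; trivial
  exact h1 h2

/-- a basis of monomials -/
theorem exists_mono_basis (x y : K) (hxy : Algebra.adjoin ℚ {x, y} = ⊤) :
    ∃ (m n : ℕ) (b : Basis (Fin m × Fin n) ℚ K), ∀ p : Fin m × Fin n,
      b p = x ^ (p.1 : ℕ) * y ^ (p.2 : ℕ) := by
  have hx : IsIntegral ℚ x := Algebra.IsIntegral.isIntegral x
  have hy : IsIntegral ℚ⟮x⟯ y := Algebra.IsIntegral.isIntegral y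
  have hgen : algebraMap ℚ⟮x⟯ K (IntermediateField.AdjoinSimple.gen ℚ x) = x :=
    IntermediateField.AdjoinSimple.algebraMap_gen ℚ x
  have htop : Algebra.adjoin ℚ⟮x⟯ {y} = ⊤ := adjoin_aux x y _ hgen hxy
  refine mono_basis_aux (IntermediateField.adjoin.powerBasis hx)
    (PowerBasis.ofAdjoinEqTop hy htop) x y ?_ ?_
  · rw [IntermediateField.adjoin.powerBasis_gen]
    exact hgen
  · exact PowerBasis.ofAdjoinEqTop_gen hy htop

/-- the discriminant of a basis of integers is at least the discriminant of the field -/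
theorem discr_le_discr_basis {ι : Type} [Fintype ι] [DecidableEq ι] (b : Basis ι ℚ K)
    (hb : ∀ i, IsIntegral ℤ (b i)) :
    |((NumberField.discr K : ℤ) : ℚ)| ≤ |Algebra.discr ℚ b| := by
  classical
  let e : Free.ChooseBasisIndex ℤ (𝓞 K) ≃ ι := (integralBasis K).indexEquiv b
  let w : Basis ι ℤ (𝓞 K) := (RingOfIntegers.basis K).reindex e
  let W : Basis ι ℚ K := (integralBasis K).reindex e
  have hW : ∀ i, W i = algebraMap (𝓞 K) K (w i) := by
    intro i
    simp [W, w, integralBasis_apply]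
  have hdisc : Algebra.discr ℚ W = (NumberField.discr K : ℚ) := by
    rw [coe_discr]
    have : (W : ι → K) = (integralBasis K) ∘ e.symm := by
      funext i; simp [W]
    rw [this, Algebra.discr_reindex]
  choose z hz using fun i => (show ∃ z : 𝓞 K, algebraMap (𝓞 K) K z = b i from
    ⟨⟨b i, hb i⟩, rfl⟩)
  let P : Matrix ι ι ℤ := Matrix.of fun i j => w.repr (z j) i
  have hvec : (b : ι → K) = Matrix.vecMul (W : ι → K) ((P.map (Int.cast : ℤ → ℚ)).map
      (algebraMap ℚ K)) := by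
    funext j
    rw [← hz j]
    simp only [Matrix.vecMul, dotProduct, Matrix.map_apply]
    conv_lhs => rw [← w.sum_repr (z j)]
    rw [map_sum]
    refine Finset.sum_congr rfl fun i _ => ?_
    rw [hW i]
    simp [P, mul_comm, zsmul_eq_mul]
  have h1 : Algebra.discr ℚ b = (P.map (Int.cast : ℤ → ℚ)).det ^ 2 *
      (NumberField.discr K : ℚ) := by
    rw [hvec, Algebra.discr_of_matrix_vecMul, hdisc]
  have h2 : (P.map (Int.cast : ℤ → ℚ)).det = ((P.det : ℤ) : ℚ) := by
    have := (RingHom.map_det (Int.castRingHom ℚ) P).symm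
    simpa [RingHom.mapMatrix_apply] using this
  have h3 : Algebra.discr ℚ b ≠ 0 := Algebra.discr_not_zero_of_basis ℚ b
  have h4 : P.det ≠ 0 := by
    intro h
    rw [h1, h2, h] at h3
    simp at h3
  rw [h1, h2, abs_mul, abs_pow]
  have h5 : (1 : ℚ) ≤ |((P.det : ℤ) : ℚ)| := by
    have := Int.one_le_abs h4
    exact_mod_cast this
  have h6 : (1 : ℚ) ≤ |((P.det : ℤ) : ℚ)| ^ 2 := one_le_pow₀ h5
  nlinarith [abs_nonneg ((NumberField.discr K : ℚ))]

/-- a determinant with weighted entries -/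
theorem det_weight_le {ι : Type} [Fintype ι] [DecidableEq ι] (M : Matrix ι ι ℂ) (w : ι → ℝ)
    (hw : ∀ j, 0 < w j) (h : ∀ i j, ‖M i j‖ ≤ w j) :
    ‖M.det‖ ≤ (∏ j, w j) * (Fintype.card ι).factorial := by
  have h1 : M = Matrix.of fun i j => ((w j : ℝ) : ℂ) * ((((w j)⁻¹ : ℝ) : ℂ) * M i j) := by
    ext i j
    rw [Matrix.of_apply, ← mul_assoc, ← Complex.ofReal_mul, mul_inv_cancel₀ (hw j).ne']
    simp
  have h2 : M.det = (∏ j, ((w j : ℝ) : ℂ)) *
      (Matrix.of fun i j => (((w j)⁻¹ : ℝ) : ℂ) * M i j).det := by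
    conv_lhs => rw [h1]
    exact Matrix.det_mul_row (fun j => ((w j : ℝ) : ℂ))
      (Matrix.of fun i j => (((w j)⁻¹ : ℝ) : ℂ) * M i j)
  have h3 := Matrix.det_le (A := (Matrix.of fun i j => (((w j)⁻¹ : ℝ) : ℂ) * M i j))
    (abv := NormedField.toAbsoluteValue ℂ) (x := 1) (by
      intro i j
      rw [Matrix.of_apply]
      change ‖(((w j)⁻¹ : ℝ) : ℂ) * M i j‖ ≤ 1
      rw [norm_mul, Complex.norm_real, Real.norm_eq_abs, abs_of_pos (inv_pos.2 (hw j)),
        inv_mul_le_iff₀ (hw j), mul_one]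
      exact h i j)
  rw [h2, norm_mul, norm_prod]
  have h4 : ∏ j, ‖((w j : ℝ) : ℂ)‖ = ∏ j, w j := by
    refine Finset.prod_congr rfl fun j _ => ?_
    rw [Complex.norm_real, Real.norm_eq_abs, abs_of_pos (hw j)]
  rw [h4]
  refine mul_le_mul_of_nonneg_left ?_ (Finset.prod_nonneg fun j _ => (hw j).le)
  have h5 : ‖(Matrix.of fun i j => (((w j)⁻¹ : ℝ) : ℂ) * M i j).det‖ ≤
      (Fintype.card ι).factorial • (1 : ℝ) ^ Fintype.card ι := h3
  simpa using h5

theorem disc_main : S_DISC := by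
  classical
  intro K _ _ x y hxy
  obtain ⟨m, n, b, hb⟩ := exists_mono_basis (x : K) (y : K) hxy
  set D := finrank ℚ K with hD
  have hcard : Fintype.card (Fin m × Fin n) = D := (finrank_eq_card_basis b).symm
  have hDpos : 0 < D := finrank_pos
  have hmn : m * n = D := by
    rw [← hcard]; simp
  have hm : m ≤ D := by
    rw [← hmn]
    exact Nat.le_mul_of_pos_right m (Nat.pos_of_ne_zero (by rintro rfl; simp at hmn; omega))
  have hn : n ≤ D := by
    rw [← hmn]
    exact Nat.le_mul_of_pos_left n (Nat.pos_of_ne_zero (by rintro rfl; simp at hmn; omega))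
  have hint : ∀ p, IsIntegral ℤ (b p) := by
    intro p
    rw [hb p]
    exact (x.isIntegral_coe.pow _).mul (y.isIntegral_coe.pow _)
  have h1 := discr_le_discr_basis b hint
  -- the embeddings
  let e0 : (Fin m × Fin n) ≃ (K →ₐ[ℚ] ℂ) :=
    Fintype.equivOfCardEq (by rw [hcard, AlgHom.card])
  have h2 := Algebra.discr_eq_det_embeddingsMatrixReindex_pow_two ℚ ℂ (b : Fin m × Fin n → K) e0
  set M := Algebra.embeddingsMatrixReindex ℚ ℂ (b : Fin m × Fin n → K) e0 with hM
  have hMe : ∀ i j, M i j = (e0 j (x : K)) ^ (i.1 : ℕ) * (e0 j (y : K)) ^ (i.2 : ℕ) := by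
    intro i j
    have : M i j = e0 j (b i) := by
      simp [hM, Algebra.embeddingsMatrixReindex, Algebra.embeddingsMatrix]
    rw [this, hb i, map_mul, map_pow, map_pow]
  set w : Fin m × Fin n → ℝ := fun j => (max 1 ‖e0 j (x : K)‖) ^ D * (max 1 ‖e0 j (y : K)‖) ^ D
    with hw
  have hwpos : ∀ j, 0 < w j := fun j => mul_pos
    (pow_pos (lt_of_lt_of_le one_pos (le_max_left _ _)) _)
    (pow_pos (lt_of_lt_of_le one_pos (le_max_left _ _)) _)
  have hpow : ∀ (a : ℝ) (i : ℕ), 0 ≤ a → i ≤ D → a ^ i ≤ (max 1 a) ^ D := by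
    intro a i ha hi
    calc a ^ i ≤ (max 1 a) ^ i := pow_le_pow_left₀ ha (le_max_right _ _) i
      _ ≤ (max 1 a) ^ D := pow_le_pow_right₀ (le_max_left _ _) hi
  have h3 := det_weight_le M w hwpos (by
    intro i j
    rw [hMe, norm_mul, norm_pow, norm_pow]
    exact mul_le_mul (hpow _ _ (norm_nonneg _) (i.1.2.le.trans hm))
      (hpow _ _ (norm_nonneg _) (i.2.2.le.trans hn)) (pow_nonneg (norm_nonneg _) _)
      (pow_nonneg (zero_le_one.trans (le_max_left _ _)) _))
  -- logarithms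
  have h4 : ((|((NumberField.discr K : ℤ) : ℚ)| : ℚ) : ℝ) ≤
      ((∏ j, w j) * (Fintype.card (Fin m × Fin n)).factorial) ^ 2 := by
    have h5 : (((|Algebra.discr ℚ b| : ℚ)) : ℝ) = ‖M.det‖ ^ 2 := by
      rw [← norm_pow, ← h2, eq_ratCast, ← Complex.ofReal_ratCast, Complex.norm_real,
        Real.norm_eq_abs]
      push_cast
      rfl
    calc ((|((NumberField.discr K : ℤ) : ℚ)| : ℚ) : ℝ) ≤ (((|Algebra.discr ℚ b| : ℚ)) : ℝ) := by
          exact_mod_cast h1
      _ = ‖M.det‖ ^ 2 := h5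
      _ ≤ _ := pow_le_pow_left₀ (norm_nonneg _) h3 2
  have hd0 : (0 : ℝ) < |((NumberField.discr K : ℤ) : ℝ)| := by
    rw [abs_pos]
    exact_mod_cast NumberField.discr_ne_zero K
  have h6 : |((NumberField.discr K : ℤ) : ℝ)| ≤
      ((∏ j, w j) * (Fintype.card (Fin m × Fin n)).factorial) ^ 2 := by
    refine le_trans (le_of_eq ?_) h4
    push_cast
    rfl
  have hprodpos : 0 < ∏ j, w j := Finset.prod_pos fun j _ => hwpos j
  have hfacpos : (0 : ℝ) < ((Fintype.card (Fin m × Fin n)).factorial : ℝ) := by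
    exact_mod_cast Nat.factorial_pos _
  have h7 := Real.log_le_log hd0 h6
  rw [Real.log_pow, Real.log_mul hprodpos.ne' hfacpos.ne', Real.log_prod
    (fun j _ => (hwpos j).ne')] at h7
  have h8 : ∑ j, Real.log (w j) = D * HK K (x : K) + D * HK K (y : K) := by
    have h9 : ∀ j, Real.log (w j) = D * Real.log (max 1 ‖e0 j (x : K)‖) +
        D * Real.log (max 1 ‖e0 j (y : K)‖) := by
      intro j
      rw [hw]
      simp only
      rw [Real.log_mul, Real.log_pow, Real.log_pow]
      · exact (pow_pos (lt_of_lt_of_le one_pos (le_max_left _ _)) _).ne'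
      · exact (pow_pos (lt_of_lt_of_le one_pos (le_max_left _ _)) _).ne'
    rw [Finset.sum_congr rfl fun j _ => h9 j, Finset.sum_add_distrib, ← Finset.mul_sum,
      ← Finset.mul_sum]
    have h10 : ∀ z : K, ∑ j, Real.log (max 1 ‖e0 j z‖) = HK K z := by
      intro z
      unfold HK
      rw [e0.sum_comp (fun τ : K →ₐ[ℚ] ℂ => Real.log (max 1 ‖τ z‖))]
      refine (Fintype.sum_equiv (RingHom.equivRatAlgHom K ℂ) _ _ fun τ => ?_).symm
      simp [RingHom.equivRatAlgHom_apply]
    rw [h10, h10]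
  have h11 : Real.log ((Fintype.card (Fin m × Fin n)).factorial : ℝ) ≤ D * Real.log D := by
    rw [hcard, ← Real.log_pow]
    refine Real.log_le_log (by exact_mod_cast Nat.factorial_pos _) ?_
    exact_mod_cast Nat.factorial_le_pow D
  rw [h8] at h7
  push_cast at h7
  nlinarith [h7, h11]

end Pool.Agent.Helper28K9.RK.H48

namespace Pool.Agent.Helper28K9.RK

/-- [DISC] -/
theorem disc : S_DISC := H48.disc_main

end Pool.Agent.Helper28K9.RK
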