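import Pool.Agent.Helper28K9.RK.Stm

/-!
# Project RK (helper28), leaf TAY: Taylor expansion (helper12)
-/

set_option autoImplicit false

open NumberField Module Finset

namespace Pool.Agent.Helper28K9.RK

namespace TayL

theorem add_pow_range {R : Type} [CommRing R] (a d : R) {i A : ℕ} (hi : i < A) :
    (a + d) ^ i = ∑ k ∈ range A, (i.choose k : R) * a ^ (i - k) * d ^ k := by
  rw [add_comm, add_pow]
  have h1 : ∑ m ∈ range (i + 1), d ^ m * a ^ (i - m) * (i.choose m : R) =
      ∑ k ∈ range (i + 1), (i.choose k : R) * a ^ (i - k) * d ^ k :=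
    Finset.sum_congr rfl fun k _ => by ring
  rw [h1]
  refine Finset.sum_subset (Finset.range_subset_range.2 (by omega)) fun k _ hk => ?_
  have h2 : i < k := by
    rw [Finset.mem_range] at hk
    omega
  rw [Nat.choose_eq_zero_of_lt h2, Nat.cast_zero, zero_mul, zero_mul]

theorem sum4 {M : Type} [AddCommMonoid M] (A B : ℕ) (f : ℕ → ℕ → ℕ → ℕ → M) :
    ∑ i ∈ range A, ∑ j ∈ range B, ∑ k ∈ range A, ∑ l ∈ range B, f i j k l =
      ∑ k ∈ range A, ∑ l ∈ range B, ∑ i ∈ range A, ∑ j ∈ range B, f i j k l := by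
  have h1 : ∀ i, ∑ j ∈ range B, ∑ k ∈ range A, ∑ l ∈ range B, f i j k l =
      ∑ k ∈ range A, ∑ l ∈ range B, ∑ j ∈ range B, f i j k l := by
    intro i
    rw [Finset.sum_comm]
    exact Finset.sum_congr rfl fun k _ => Finset.sum_comm
  rw [Finset.sum_congr rfl fun i _ => h1 i, Finset.sum_comm]
  exact Finset.sum_congr rfl fun k _ => Finset.sum_comm

theorem key {R : Type} [CommRing R] (φ : R →+* R) (A B : ℕ) (c : ℕ → ℕ → ℤ) (x y δ ε : R) :
    evl A B c (φ x + δ) (φ y + ε) =
      ∑ k ∈ range A, ∑ l ∈ range B, φ (jet A B c x y k l) * (δ ^ k * ε ^ l) := by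
  have h1 : ∀ k l, φ (jet A B c x y k l) = ∑ i ∈ range A, ∑ j ∈ range B,
      algebraMap ℤ R (c i j) * (i.choose k : R) * (j.choose l : R) * (φ x) ^ (i - k) *
        (φ y) ^ (j - l) := by
    intro k l
    unfold jet
    rw [map_sum]
    refine Finset.sum_congr rfl fun i _ => ?_
    rw [map_sum]
    refine Finset.sum_congr rfl fun j _ => ?_
    rw [map_mul, map_mul, map_mul, map_mul, map_pow, map_pow, map_natCast, map_natCast]
    simp only [algebraMap_int_eq, eq_intCast, map_intCast]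
  have h2 : evl A B c (φ x + δ) (φ y + ε) = ∑ i ∈ range A, ∑ j ∈ range B, ∑ k ∈ range A,
      ∑ l ∈ range B, (algebraMap ℤ R (c i j) * (i.choose k : R) * (j.choose l : R) *
        (φ x) ^ (i - k) * (φ y) ^ (j - l)) * (δ ^ k * ε ^ l) := by
    unfold evl
    refine Finset.sum_congr rfl fun i hi => Finset.sum_congr rfl fun j hj => ?_
    rw [add_pow_range (φ x) δ (Finset.mem_range.1 hi), add_pow_range (φ y) ε
      (Finset.mem_range.1 hj), mul_assoc, Finset.sum_mul_sum, Finset.mul_sum]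
    refine Finset.sum_congr rfl fun k _ => ?_
    rw [Finset.mul_sum]
    refine Finset.sum_congr rfl fun l _ => ?_
    ring
  rw [h2, sum4]
  refine Finset.sum_congr rfl fun k _ => Finset.sum_congr rfl fun l _ => ?_
  rw [h1, Finset.sum_mul]
  refine Finset.sum_congr rfl fun i _ => ?_
  rw [Finset.sum_mul]

end TayL

open TayL in
theorem tay : S_TAY := by
  intro R _ φ q T A B c x y hq hφ hV
  obtain ⟨b, hb⟩ := hφ x
  obtain ⟨b', hb'⟩ := hφ y
  have hx : x ^ q = φ x + -(q * b) := by rw [hb]; ring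
  have hy : y ^ q = φ y + -(q * b') := by rw [hb']; ring
  rw [hx, hy, key]
  refine Finset.sum_eq_zero fun k _ => Finset.sum_eq_zero fun l _ => ?_
  by_cases hkl : k + l < T
  · rw [hV k l hkl, map_zero, zero_mul]
  · have h1 : (q : R) ^ (k + l) = 0 := by
      obtain ⟨m, hm⟩ := Nat.exists_eq_add_of_le (not_lt.1 hkl)
      rw [hm, pow_add, hq, zero_mul]
    have h2 : (-(q * b)) ^ k * (-(q * b')) ^ l =
        (q : R) ^ (k + l) * ((-b) ^ k * (-b') ^ l) := by
      rw [pow_add]
      have e1 : -((q : R) * b) = q * (-b) := by ring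
      have e2 : -((q : R) * b') = q * (-b') := by ring
      rw [e1, e2, mul_pow, mul_pow]
      ring
    rw [h2, h1, zero_mul, mul_zero]

end Pool.Agent.Helper28K9.RK
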