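import Pool.Agent.Helper28K9.RK.Nb
import Pool.Agent.Helper28K9.RK.Tay

/-!
# Project RK (helper28), leaves EXTRAP and EX1: extrapolation (helper12)
-/

set_option autoImplicit false

open NumberField Module Finset

namespace Pool.Agent.Helper28K9.RK

namespace ExtrapL

/-- the norm of an integer is the absolute value of an integer -/
theorem norm_nabs {K : Type} [Field K] [NumberField K] (α : 𝓞 K) :
    |((Algebra.norm ℚ (α : K) : ℚ) : ℝ)| = ((Algebra.norm ℤ α).natAbs : ℝ) := by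
  rw [← Algebra.coe_norm_int, Rat.cast_intCast, Nat.cast_natAbs, Int.cast_abs]

theorem bound_pow {K : Type} [Field K] [NumberField K] (x y : 𝓞 K) (A B q : ℕ) :
    ((A : ℝ) * B) ^ finrank ℚ K * Real.exp (q * (A * HK K x + B * HK K y)) =
      ((A : ℝ) * B * Real.exp (q * (A * HK K x + B * HK K y) / finrank ℚ K)) ^ finrank ℚ K := by
  have hD : (finrank ℚ K : ℝ) ≠ 0 := Nat.cast_ne_zero.2 Module.finrank_pos.ne'
  rw [mul_pow ((A : ℝ) * B) (Real.exp _), ← Real.exp_nat_mul, mul_div_cancel₀ _ hD]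

end ExtrapL

open ExtrapL in
theorem extrap : S_LOC → S_NB → S_EXTRAP := by
  intro hL hN K _ _ x y A B T q c hq hU hc hV hlt
  by_contra hα
  obtain ⟨s, hs, hprod⟩ := hU
  have hn := hN K x y A B q c hc
  rw [norm_nabs, bound_pow] at hn
  set α : 𝓞 K := evl A B c (x ^ q) (y ^ q) with hαdef
  have hnz : (Algebra.norm ℤ α).natAbs ≠ 0 := by
    rw [Int.natAbs_ne_zero]
    exact Algebra.norm_ne_zero_iff.2 hα
  have h1 : ∏ 𝔭 ∈ s, 𝔭 ^ T ∣ Ideal.span {α} := by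
    refine Finset.prod_dvd_of_coprime ?_ fun 𝔭 h𝔭 => ?_
    · intro 𝔭 h𝔭 𝔮 h𝔮 hne
      have hp := hs 𝔭 h𝔭
      have hq' := hs 𝔮 h𝔮
      haveI : 𝔭.IsMaximal := Ideal.IsPrime.isMaximal hp.1 hp.2.1
      haveI : 𝔮.IsMaximal := Ideal.IsPrime.isMaximal hq'.1 hq'.2.1
      exact (Ideal.isCoprime_of_isMaximal hne).pow
    · rw [Ideal.dvd_span_singleton]
      have hp := hs 𝔭 h𝔭
      exact hL K 𝔭 q T A B c x y hq hp.1 hp.2.2.1 hp.2.2.2 hV
  have h2 : (∏ 𝔭 ∈ s, Ideal.absNorm 𝔭) ^ T ∣ (Algebra.norm ℤ α).natAbs := by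
    have h3 := map_dvd Ideal.absNorm h1
    rw [Ideal.absNorm_span_singleton, map_prod] at h3
    simp only [map_pow] at h3
    rw [Finset.prod_pow] at h3
    exact h3
  have h4 : (∏ 𝔭 ∈ s, Ideal.absNorm 𝔭) ^ T ≤ (Algebra.norm ℤ α).natAbs :=
    Nat.le_of_dvd (Nat.pos_of_ne_zero hnz) h2
  have h5 : (q ^ T) ^ finrank ℚ K ≤ (Algebra.norm ℤ α).natAbs ^ 2 := by
    calc (q ^ T) ^ finrank ℚ K = (q ^ finrank ℚ K) ^ T := by rw [← pow_mul, ← pow_mul, mul_comm]
      _ ≤ ((∏ 𝔭 ∈ s, Ideal.absNorm 𝔭) ^ 2) ^ T := Nat.pow_le_pow_left hprod T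
      _ = ((∏ 𝔭 ∈ s, Ideal.absNorm 𝔭) ^ T) ^ 2 := by rw [← pow_mul, ← pow_mul, mul_comm]
      _ ≤ _ := Nat.pow_le_pow_left h4 2
  have h6 : (((q : ℝ) ^ T)) ^ finrank ℚ K ≤ ((Algebra.norm ℤ α).natAbs : ℝ) ^ 2 := by
    exact_mod_cast h5
  set E : ℝ := (A : ℝ) * B * Real.exp (q * (A * HK K x + B * HK K y) / finrank ℚ K) with hE
  have h7 : ((Algebra.norm ℤ α).natAbs : ℝ) ^ 2 ≤ (E ^ finrank ℚ K) ^ 2 :=
    pow_le_pow_left₀ (Nat.cast_nonneg _) hn 2
  have h8 : (E ^ finrank ℚ K) ^ 2 = (E ^ 2) ^ finrank ℚ K := by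
    rw [← pow_mul, ← pow_mul, mul_comm]
  have h9 : (E ^ 2) ^ finrank ℚ K < ((q : ℝ) ^ T) ^ finrank ℚ K :=
    pow_lt_pow_left₀ hlt (sq_nonneg _) Module.finrank_pos.ne'
  linarith

open ExtrapL LocL in
theorem ex1 : S_NB → S_EX1 := by
  intro hN K _ _ x y A B q c hq hc h0 hlt
  by_contra hα
  have hn := hN K x y A B q c hc
  rw [norm_nabs, bound_pow] at hn
  set α : 𝓞 K := evl A B c (x ^ q) (y ^ q) with hαdef
  have hnz : (Algebra.norm ℤ α).natAbs ≠ 0 := by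
    rw [Int.natAbs_ne_zero]
    exact Algebra.norm_ne_zero_iff.2 hα
  have hmem : α ∈ Ideal.span {(q : 𝓞 K)} := by
    by_cases hu : (q : 𝓞 K) ∈ nonunits (𝓞 K)
    · haveI : Fact q.Prime := ⟨hq⟩
      haveI : CharP (𝓞 K ⧸ (Ideal.span {(q : 𝓞 K)} : Ideal (𝓞 K))) q := CharP.quotient (𝓞 K) q hu
      set R := 𝓞 K ⧸ (Ideal.span {(q : 𝓞 K)} : Ideal (𝓞 K)) with hR
      rw [← Ideal.Quotient.eq_zero_iff_mem, hαdef, map_evl, map_pow, map_pow]
      refine tay R (frobenius R q) q 1 A B c _ _ (by rw [pow_one, CharP.cast_eq_zero]) ?_ ?_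
      · intro a
        exact ⟨0, by rw [mul_zero, add_zero]; rfl⟩
      · intro k l hkl
        have hk : k = 0 := by omega
        have hl : l = 0 := by omega
        subst hk
        subst hl
        rw [← map_jet]
        have h1 : jet A B c x y 0 0 = evl A B c x y := by
          unfold jet evl
          refine Finset.sum_congr rfl fun i _ => Finset.sum_congr rfl fun j _ => ?_
          rw [Nat.choose_zero_right, Nat.choose_zero_right, Nat.cast_one, mul_one, mul_one,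
            Nat.sub_zero, Nat.sub_zero]
        rw [h1, h0, map_zero]
    · rw [mem_nonunits_iff, not_not] at hu
      rw [Ideal.span_singleton_eq_top.2 hu]
      exact Submodule.mem_top
  have h2 : (q : ℕ) ^ finrank ℚ K ∣ (Algebra.norm ℤ α).natAbs := by
    obtain ⟨β, hβ⟩ := Ideal.mem_span_singleton.1 hmem
    rw [hβ, map_mul, Int.natAbs_mul]
    refine Dvd.dvd.mul_right (dvd_of_eq ?_) _
    have h3 : (Algebra.norm ℤ (q : 𝓞 K)) = (q : ℤ) ^ finrank ℚ K := by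
      have h4 := Algebra.norm_algebraMap_of_basis (RingOfIntegers.basis K) (q : ℤ)
      rw [← Module.finrank_eq_card_basis (RingOfIntegers.basis K), RingOfIntegers.rank] at h4
      rw [← h4]
      congr 1
      simp
    rw [h3, Int.natAbs_pow, Int.natAbs_natCast]
  have h4 : (q : ℕ) ^ finrank ℚ K ≤ (Algebra.norm ℤ α).natAbs :=
    Nat.le_of_dvd (Nat.pos_of_ne_zero hnz) h2
  have h5 : (q : ℝ) ^ finrank ℚ K ≤ ((Algebra.norm ℤ α).natAbs : ℝ) := by exact_mod_cast h4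
  have hHK : ∀ z : K, 0 ≤ HK K z := fun z =>
    Finset.sum_nonneg fun τ _ => Real.log_nonneg (le_max_left _ _)
  have h9 : ((A : ℝ) * B * Real.exp (q * (A * HK K x + B * HK K y) / finrank ℚ K)) ^
      finrank ℚ K < (q : ℝ) ^ finrank ℚ K :=
    pow_lt_pow_left₀ hlt (by positivity) Module.finrank_pos.ne'
  linarith

end Pool.Agent.Helper28K9.RK
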