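import Mathlib
import Pool.Agent.Helper28K9.RK.Stm

/-!
# [FIB] fibres of a linear map on 0-1 vectors
-/

set_option autoImplicit false

open Module Finset

namespace Pool.Agent.Helper28K9.RK

theorem fib : S_FIB := by
  classical
  intro ι V _ _ _ L v
  let w : ι → V := fun i => L (Pi.single i 1)
  obtain ⟨κ, a, ha, hsp, hli⟩ := exists_linearIndependent' ℚ w
  haveI : Finite κ := Finite.of_injective a ha
  letI : Fintype κ := Fintype.ofFinite κ
  have hL : ∀ c : ι → ℚ, L c = ∑ i, c i • w i := by
    intro c
    conv_lhs => rw [← Finset.univ_sum_single c]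
    rw [map_sum]
    refine Finset.sum_congr rfl fun i _ => ?_
    rw [← map_smul]
    congr 1
    ext j
    by_cases h : j = i
    · subst h; simp
    · simp [h]
  have hrange : LinearMap.range L = Submodule.span ℚ (Set.range w) := by
    apply le_antisymm
    · rintro _ ⟨c, rfl⟩
      rw [hL]
      exact Submodule.sum_mem _ fun i _ => Submodule.smul_mem _ _
        (Submodule.subset_span ⟨i, rfl⟩)
    · rw [Submodule.span_le]
      rintro _ ⟨i, rfl⟩
      exact ⟨_, rfl⟩
  have hfin : finrank ℚ (LinearMap.range L) = Fintype.card κ := by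
    rw [hrange, ← hsp]
    exact finrank_span_eq_card hli
  rw [hfin]
  let F := {c : ι → Bool // L (fun i => if c i then 1 else 0) = v}
  let f : F × (κ → Bool) → (ι → Bool) := fun p i =>
    if h : ∃ k, a k = i then p.2 h.choose else p.1.1 i
  have hf : Function.Injective f := by
    rintro ⟨c, d⟩ ⟨c', d'⟩ h
    have h1 : d = d' := by
      funext k
      have h2 := congrFun h (a k)
      have h3 : ∃ k', a k' = a k := ⟨k, rfl⟩
      simp only [f, dif_pos h3] at h2
      have h4 : h3.choose = k := ha h3.choose_spec
      rwa [h4] at h2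
    have h2 : ∀ i, (¬ ∃ k, a k = i) → c.1 i = c'.1 i := by
      intro i hi
      have h3 := congrFun h i
      simpa only [f, dif_neg hi] using h3
    have h3 : ∑ i, ((if c.1 i then (1 : ℚ) else 0) - (if c'.1 i then 1 else 0)) • w i = 0 := by
      have := hL (fun i => (if c.1 i then (1 : ℚ) else 0) - (if c'.1 i then 1 else 0))
      rw [← this]
      have h4 : (fun i => (if c.1 i then (1 : ℚ) else 0) - (if c'.1 i then 1 else 0)) =
        (fun i => if c.1 i then (1 : ℚ) else 0) - (fun i => if c'.1 i then (1 : ℚ) else 0) := rfl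
      rw [h4, map_sub, c.2, c'.2, sub_self]
    have h4 : ∑ k, ((if c.1 (a k) then (1 : ℚ) else 0) - (if c'.1 (a k) then 1 else 0)) •
        (w ∘ a) k = 0 := by
      rw [← h3]
      refine (Finset.sum_of_injOn a ha.injOn (fun _ _ => Finset.mem_coe.2 (Finset.mem_univ _)) ?_ ?_)
      · intro i _ hi
        have h5 : ¬ ∃ k, a k = i := by
          rintro ⟨k, hk⟩
          exact hi ⟨k, by simp, hk⟩
        rw [h2 i h5, sub_self, zero_smul]
      · intro k _
        rfl
    have h5 := Fintype.linearIndependent_iff.1 hli _ h4
    have h6 : c = c' := by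
      apply Subtype.ext
      funext i
      by_cases hi : ∃ k, a k = i
      · obtain ⟨k, rfl⟩ := hi
        have h7 := h5 k
        by_cases h8 : c.1 (a k) = true <;> by_cases h9 : c'.1 (a k) = true <;>
          simp_all
      · exact h2 i hi
    rw [h1, h6]
  haveI : Finite F := inferInstance
  have hcard := Nat.card_le_card_of_injective f hf
  rw [Nat.card_prod] at hcard
  simpa [Nat.card_eq_fintype_card] using hcard

end Pool.Agent.Helper28K9.RK
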