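import Pool.Agent.Helper28K9.RK.Stm

/-!
# An irreducible factor through a point
-/

set_option autoImplicit false

open NumberField Module Finset

namespace Pool.Agent.Helper28K9.RK

theorem irr : S_IRR := by
  intro k K _ _ _ P F hF hPF
  -- the factorisation
  induction F using UniqueFactorizationMonoid.induction_on_prime with
  | h₁ => exact absurd rfl hF
  | h₂ u hu =>
    exfalso
    have h1 : IsUnit (MvPolynomial.aeval P u) := hu.map _
    rw [hPF] at h1
    exact not_isUnit_zero h1
  | h₃ a p ha hp ih =>
    have ha0 : a ≠ 0 := ha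
    have hp0 : p ≠ 0 := hp.ne_zero
    have hdeg : ∀ i, (p * a).degreeOf i = p.degreeOf i + a.degreeOf i := fun i =>
      MvPolynomial.degreeOf_mul_eq hp0 ha0
    rw [map_mul, mul_eq_zero] at hPF
    rcases hPF with h | h
    · exact ⟨p, hp.irreducible, dvd_mul_right _ _, h, fun i => by rw [hdeg]; omega⟩
    · obtain ⟨g, h1, h2, h3, h4⟩ := ih ha0 h
      exact ⟨g, h1, h2.trans (dvd_mul_left _ _), h3, fun i => by rw [hdeg]; have := h4 i; omega⟩

end Pool.Agent.Helper28K9.RK
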