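import Pool.Agent.Helper28K9.RK.Bez
import Pool.Agent.Helper28K9.RK.Irr

/-!
# Full rank of the evaluation at one point `(β ^ q, β' ^ q)`
-/

set_option autoImplicit false

open NumberField Module Finset

namespace Pool.Agent.Helper28K9.RK

namespace FullL

open MvPolynomial

/-- the exponent `(i, j)` -/
noncomputable def ex (i j : ℕ) : Fin 2 →₀ ℕ := Finsupp.equivFunOnFinite.symm ![i, j]

theorem ex_zero (i j : ℕ) : ex i j 0 = i := rfl

theorem ex_one (i j : ℕ) : ex i j 1 = j := rfl

theorem ex_inj {i j i' j' : ℕ} (h : ex i j = ex i' j') : i = i' ∧ j = j' := by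
  constructor
  · have := congrArg (fun s : Fin 2 →₀ ℕ => s 0) h
    exact this
  · have := congrArg (fun s : Fin 2 →₀ ℕ => s 1) h
    exact this

/-- the polynomial with the coefficients `c` -/
noncomputable def RR (A B : ℕ) (c : Fin A × Fin B → ℚ) : MvPolynomial (Fin 2) ℚ :=
  ∑ p : Fin A × Fin B, monomial (ex p.1 p.2) (c p)

theorem coeff_RR (A B : ℕ) (c : Fin A × Fin B → ℚ) (p : Fin A × Fin B) :
    coeff (ex p.1 p.2) (RR A B c) = c p := by
  unfold RR
  rw [coeff_sum, Finset.sum_eq_single p]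
  · rw [coeff_monomial, if_pos rfl]
  · intro p' _ hp'
    rw [coeff_monomial, if_neg]
    intro h
    obtain ⟨h1, h2⟩ := ex_inj h
    exact hp' (Prod.ext (Fin.ext h1) (Fin.ext h2))
  · intro h
    exact absurd (Finset.mem_univ p) h

theorem support_RR (A B : ℕ) (c : Fin A × Fin B → ℚ) (m : Fin 2 →₀ ℕ)
    (hm : m ∈ (RR A B c).support) : m 0 < A ∧ m 1 < B := by
  rw [MvPolynomial.mem_support_iff] at hm
  by_contra hcon
  apply hm
  unfold RR
  rw [coeff_sum]
  apply Finset.sum_eq_zero
  intro p _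
  rw [coeff_monomial, if_neg]
  rintro rfl
  exact hcon ⟨p.1.2, p.2.2⟩

theorem aeval_RR {K : Type} [Field K] [Algebra ℚ K] (A B : ℕ) (c : Fin A × Fin B → ℚ) (x y : K) :
    aeval ![x, y] (RR A B c) = ∑ p : Fin A × Fin B, c p • (x ^ (p.1 : ℕ) * y ^ (p.2 : ℕ)) := by
  unfold RR
  rw [map_sum]
  refine Finset.sum_congr rfl fun p _ => ?_
  rw [aeval_monomial, Finsupp.prod_fintype _ _ (fun i => pow_zero _), Fin.prod_univ_two,
    Algebra.smul_def]
  rfl

theorem degreeOf_expand_le (q : ℕ) (i : Fin 2) (R : MvPolynomial (Fin 2) ℚ) :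
    (expand q R).degreeOf i ≤ q * R.degreeOf i := by
  classical
  rw [degreeOf_le_iff]
  intro m hm
  obtain ⟨s, hs, rfl⟩ := Finset.mem_image.1 (support_expand_subset R hm)
  have h1 : s i ≤ R.degreeOf i := by
    rw [degreeOf_eq_sup]
    exact Finset.le_sup (f := fun m : Fin 2 →₀ ℕ => m i) hs
  exact Nat.mul_le_mul_left q h1

theorem degreeOf_map_eq' {f : ℚ →+* ℂ} (hf : Function.Injective f) (i : Fin 2)
    (R : MvPolynomial (Fin 2) ℚ) : (map f R).degreeOf i = R.degreeOf i := by
  rw [degreeOf_eq_sup, degreeOf_eq_sup, support_map_of_injective R hf]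

end FullL

open FullL in
theorem full : S_IRR → S_BEZ → S_LINE → S_TRANS → S_FULL := by
  intro hirr hbez hline htrans K _ _ β β' g ω n q hβ hβ' hgen hg hgv hdeg hq hqω hnω hbig hmin
  classical
  set A := n * g.degreeOf 0 with hA
  set B := n * g.degreeOf 1 with hB
  have hli : LinearIndependent ℚ (fun p : Fin A × Fin B =>
      (fun q' : ({q} : Finset ℕ) => (β ^ (q' : ℕ)) ^ (p.1 : ℕ) * (β' ^ (q' : ℕ)) ^ (p.2 : ℕ) :
        ({q} : Finset ℕ) → K)) := by
    rw [Fintype.linearIndependent_iff]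
    intro c hc p
    have h1 : MvPolynomial.aeval ![β ^ q, β' ^ q] (RR A B c) = 0 := by
      rw [aeval_RR]
      have := congrFun hc ⟨q, Finset.mem_singleton_self q⟩
      rw [Finset.sum_apply] at this
      exact this
    by_contra hcp
    have hR0 : RR A B c ≠ 0 := by
      intro h
      apply hcp
      rw [← coeff_RR A B c p, h, MvPolynomial.coeff_zero]
    have hA0 : 0 < A := p.1.pos
    have hB0 : 0 < B := p.2.pos
    have hd0 : (RR A B c).degreeOf 0 < A :=
      (MvPolynomial.degreeOf_lt_iff hA0).2 fun m hm => (support_RR A B c m hm).1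
    have hd1 : (RR A B c).degreeOf 1 < B :=
      (MvPolynomial.degreeOf_lt_iff hB0).2 fun m hm => (support_RR A B c m hm).2
    -- `R (X ^ q, Y ^ q)`
    have h2 : MvPolynomial.aeval ![β, β'] (MvPolynomial.expand q (RR A B c)) = 0 := by
      rw [MvPolynomial.aeval_expand, ← h1]
      congr 2
      funext i
      fin_cases i <;> rfl
    have hdvd : g ∣ MvPolynomial.expand q (RR A B c) := by
      by_contra hnd
      have h3 := hbez K ![β, β'] g _ (by
        rw [← hgen]
        congr 1
        ext x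
        simp [Matrix.range_cons, Matrix.range_empty, or_comm]) hg hnd hgv h2
      have h4 := degreeOf_expand_le q 0 (RR A B c)
      have h5 := degreeOf_expand_le q 1 (RR A B c)
      have h6 : g.degreeOf 0 * (MvPolynomial.expand q (RR A B c)).degreeOf 1 ≤
          g.degreeOf 0 * (q * B) := Nat.mul_le_mul_left _ (h5.trans (Nat.mul_le_mul_left q hd1.le))
      have h7 : (MvPolynomial.expand q (RR A B c)).degreeOf 0 * g.degreeOf 1 ≤
          q * A * g.degreeOf 1 := Nat.mul_le_mul_right _ (h4.trans (Nat.mul_le_mul_left q hd0.le))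
      have h8 : g.degreeOf 0 * (q * B) + q * A * g.degreeOf 1 =
          2 * q * n * (g.degreeOf 0 * g.degreeOf 1) := by
        rw [hA, hB]
        ring
      omega
    -- over `ℂ`
    obtain ⟨τ⟩ : Nonempty (K →+* ℂ) := inferInstance
    have hinj : Function.Injective (algebraMap ℚ ℂ) := (algebraMap ℚ ℂ).injective
    have hmapinj := MvPolynomial.map_injective (σ := Fin 2) (algebraMap ℚ ℂ) hinj
    have hgC0 : MvPolynomial.map (algebraMap ℚ ℂ) g ≠ 0 := by
      intro h
      exact hg.ne_zero (hmapinj (by rw [h, map_zero]))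
    have hgCv : MvPolynomial.aeval ![τ β, τ β'] (MvPolynomial.map (algebraMap ℚ ℂ) g) = 0 := by
      rw [MvPolynomial.aeval_map_algebraMap]
      have h3 : τ (MvPolynomial.aeval ![β, β'] g) =
          MvPolynomial.aeval ![τ β, τ β'] g := by
        rw [MvPolynomial.aeval_def, MvPolynomial.aeval_def, MvPolynomial.hom_eval₂]
        congr 1
        · exact Subsingleton.elim _ _
        · funext i
          fin_cases i <;> rfl
      rw [← h3, hgv, map_zero]
    obtain ⟨g₁, h3, h4, h5, h6⟩ := hirr ℂ ℂ ![τ β, τ β'] _ hgC0 hgCv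
    have h7 : ∀ i, g₁.degreeOf i < ω := by
      intro i
      refine (h6 i).trans_lt ?_
      rw [degreeOf_map_eq' hinj]
      exact hdeg i
    by_cases hlin : ∀ s ∈ g₁.support, ∀ t ∈ g₁.support, ∀ r ∈ g₁.support, det3 s t r = 0
    · obtain ⟨u, v, huv, hu, hv, h8⟩ := hline K β β' τ g g₁ ω hβ hβ' hg.ne_zero hdeg h4
        (by rw [← MvPolynomial.coe_aeval_eq_eval]; exact h5) hlin
      exact absurd h8 (not_le.2 (hmin u v huv hu hv))
    · push Not at hlin
      obtain ⟨s, hs, t, ht, r, hr, hdet⟩ := hlin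
      have h8 := htrans g₁ (MvPolynomial.map (algebraMap ℚ ℂ) (RR A B c)) ω q h3 h7
        ⟨s, hs, t, ht, r, hr, hdet⟩ hq hqω (by
          intro h
          exact hR0 (hmapinj (by rw [h, map_zero]))) (by
          rw [← MvPolynomial.map_expand]
          exact h4.trans (map_dvd _ hdvd))
      rw [degreeOf_map_eq' hinj] at h8
      have h9 : A ≤ n * ω := Nat.mul_le_mul_left n (hdeg 0).le
      omega
  unfold rk
  rw [finrank_span_eq_card hli, Fintype.card_prod, Fintype.card_fin, Fintype.card_fin]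

end Pool.Agent.Helper28K9.RK
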