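import Pool.Agent.Helper28K9.RK.Stm

/-!
[JRK0] the trivial bound for the rank of the jets
-/

set_option autoImplicit false

open NumberField Module Finset

namespace Pool.Agent.Helper28K9.RK

theorem jrk0 : S_JRK0 := by
  intro K _ _ x y A B T
  unfold jrk
  refine (Submodule.finrank_le _).trans (le_of_eq ?_)
  rw [Module.finrank_pi_fintype, Finset.sum_const, Finset.card_univ, Fintype.card_prod,
    Fintype.card_fin, smul_eq_mul, pow_two]

end Pool.Agent.Helper28K9.RK
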