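import Pool.Agent.Helper28K9.RK.Stm

/-!
[JRK1] the rank of the values when there is a relation
-/

set_option autoImplicit false

open NumberField Module Finset

namespace Pool.Agent.Helper28K9.RK

namespace Jrk1L

/-- the exponent `(i, j)` -/
noncomputable def mon (p : ℕ × ℕ) : Fin 2 →₀ ℕ := Finsupp.single 0 p.1 + Finsupp.single 1 p.2

theorem mon_0 (p : ℕ × ℕ) : mon p 0 = p.1 := by simp [mon]

theorem mon_1 (p : ℕ × ℕ) : mon p 1 = p.2 := by simp [mon]

theorem mon_eq (m : Fin 2 →₀ ℕ) : mon (m 0, m 1) = m := by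
  ext i
  fin_cases i
  · exact mon_0 _
  · exact mon_1 _

theorem mon_inj : Function.Injective mon := by
  intro p q h
  have h0 := mon_0 p
  have h1 := mon_1 p
  rw [h, mon_0] at h0
  rw [h, mon_1] at h1
  exact Prod.ext h0.symm h1.symm

/-- sums over the support of a polynomial with small exponents -/
theorem sum_box {M : Type} [AddCommMonoid M] (A B : ℕ) (F : MvPolynomial (Fin 2) ℚ)
    (hF : ∀ m ∈ F.support, m 0 < A ∧ m 1 < B) (f : (Fin 2 →₀ ℕ) → M)
    (hf : ∀ m, m ∉ F.support → f m = 0) :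
    ∑ m ∈ F.support, f m = ∑ p : Fin A × Fin B, f (mon (p.1, p.2)) := by
  classical
  have hinj : Function.Injective (fun p : Fin A × Fin B => mon ((p.1 : ℕ), (p.2 : ℕ))) := by
    intro p q h
    have h1 := mon_inj h
    rw [Prod.mk.injEq] at h1
    exact Prod.ext (Fin.ext h1.1) (Fin.ext h1.2)
  have h1 : ∑ p : Fin A × Fin B, f (mon (p.1, p.2)) =
      ∑ m ∈ Finset.univ.image (fun p : Fin A × Fin B => mon ((p.1 : ℕ), (p.2 : ℕ))), f m := by
    rw [Finset.sum_image fun p _ q _ h => hinj h]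
  rw [h1]
  refine Finset.sum_subset ?_ fun m _ hm => hf m hm
  intro m hm
  rw [Finset.mem_image]
  obtain ⟨h2, h3⟩ := hF m hm
  exact ⟨(⟨m 0, h2⟩, ⟨m 1, h3⟩), Finset.mem_univ _, mon_eq m⟩

/-- the polynomial with the coefficients `c` -/
noncomputable def pol (A B : ℕ) : (Fin A × Fin B → ℚ) →ₗ[ℚ] MvPolynomial (Fin 2) ℚ :=
  ∑ p : Fin A × Fin B, (MvPolynomial.monomial (mon (p.1, p.2))) ∘ₗ LinearMap.proj p

theorem pol_apply (A B : ℕ) (c : Fin A × Fin B → ℚ) :
    pol A B c = ∑ p : Fin A × Fin B, MvPolynomial.monomial (mon (p.1, p.2)) (c p) := by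
  unfold pol
  rw [LinearMap.sum_apply]
  rfl

theorem pol_coeff (A B : ℕ) (c : Fin A × Fin B → ℚ) (p : Fin A × Fin B) :
    (pol A B c).coeff (mon (p.1, p.2)) = c p := by
  classical
  rw [pol_apply, MvPolynomial.coeff_sum, Finset.sum_eq_single p]
  · rw [MvPolynomial.coeff_monomial, if_pos rfl]
  · intro q _ hq
    rw [MvPolynomial.coeff_monomial, if_neg]
    intro h
    have h1 := mon_inj h
    rw [Prod.mk.injEq] at h1
    exact hq (Prod.ext (Fin.ext h1.1) (Fin.ext h1.2))
  · intro h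
    exact absurd (Finset.mem_univ p) h

theorem pol_supp (A B : ℕ) (c : Fin A × Fin B → ℚ) (m : Fin 2 →₀ ℕ)
    (hm : m ∈ (pol A B c).support) : m 0 < A ∧ m 1 < B := by
  classical
  rw [MvPolynomial.mem_support_iff, pol_apply, MvPolynomial.coeff_sum] at hm
  obtain ⟨p, -, hp⟩ := Finset.exists_ne_zero_of_sum_ne_zero hm
  rw [MvPolynomial.coeff_monomial] at hp
  by_cases h : mon (p.1, p.2) = m
  · rw [← h, mon_0, mon_1]
    exact ⟨p.1.2, p.2.2⟩
  · rw [if_neg h] at hp
    exact absurd rfl hp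

end Jrk1L

open Jrk1L in
theorem jrk1 : S_JRK1 := by
  classical
  intro K _ _ x y n g hn hg hev
  set a := g.degreeOf 0 with ha
  set b := g.degreeOf 1 with hb
  set v : Fin (n * a) × Fin (n * b) → (Fin 1 × Fin 1 → K) := fun p =>
    (fun kl : Fin 1 × Fin 1 => if (kl.1 : ℕ) + kl.2 < 1 then
      ((p.1 : ℕ).choose kl.1 : K) * ((p.2 : ℕ).choose kl.2 : K) * x ^ ((p.1 : ℕ) - kl.1) *
        y ^ ((p.2 : ℕ) - kl.2) else 0) with hv
  change finrank ℚ (Submodule.span ℚ (Set.range v)) ≤ _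
  have hv1 : ∀ p, v p = fun _ => x ^ (p.1 : ℕ) * y ^ (p.2 : ℕ) := by
    intro p
    funext kl
    have h0 : (kl.1 : ℕ) = 0 := by omega
    have h1 : (kl.2 : ℕ) = 0 := by omega
    simp only [hv, h0, h1, Nat.choose_zero_right, Nat.cast_one, one_mul, Nat.sub_zero]
    rw [if_pos (by norm_num)]
  set L := Fintype.linearCombination ℚ v with hL
  have hrange : LinearMap.range L = Submodule.span ℚ (Set.range v) :=
    Fintype.range_linearCombination ℚ v
  have hrk := LinearMap.finrank_range_add_finrank_ker L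
  rw [hrange, Module.finrank_fintype_fun_eq_card, Fintype.card_prod, Fintype.card_fin,
    Fintype.card_fin] at hrk
  -- the kernel is large
  set A' := (n - 1) * a with hA'
  set B' := (n - 1) * b with hB'
  have hAn : A' + a = n * a := by
    rw [hA']
    conv_rhs => rw [← Nat.sub_add_cancel hn]
    ring
  have hBn : B' + b = n * b := by
    rw [hB']
    conv_rhs => rw [← Nat.sub_add_cancel hn]
    ring
  have hsupp : ∀ c : Fin A' × Fin B' → ℚ, ∀ m ∈ (g * pol A' B' c).support,
      m 0 < n * a ∧ m 1 < n * b := by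
    intro c m hm
    obtain ⟨m1, hm1, m2, hm2, rfl⟩ := Finset.mem_add.1 (MvPolynomial.support_mul _ _ hm)
    have h1 := MvPolynomial.monomial_le_degreeOf 0 hm1
    have h2 := MvPolynomial.monomial_le_degreeOf 1 hm1
    obtain ⟨h3, h4⟩ := pol_supp A' B' c m2 hm2
    rw [Finsupp.add_apply, Finsupp.add_apply]
    constructor <;> omega
  set M : (Fin A' × Fin B' → ℚ) →ₗ[ℚ] (Fin (n * a) × Fin (n * b) → ℚ) :=
    LinearMap.pi fun p => (MvPolynomial.lcoeff ℚ (mon (p.1, p.2))) ∘ₗ
      (LinearMap.mulLeft ℚ g) ∘ₗ pol A' B' with hM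
  have hMapp : ∀ c p, M c p = (g * pol A' B' c).coeff (mon (p.1, p.2)) := fun c p => rfl
  have hMinj : Function.Injective M := by
    rw [← LinearMap.ker_eq_bot, LinearMap.ker_eq_bot']
    intro c hc
    have h1 : g * pol A' B' c = 0 := by
      by_contra hne
      obtain ⟨m, hm⟩ := MvPolynomial.support_nonempty.2 hne
      obtain ⟨h2, h3⟩ := hsupp c m hm
      have h4 := congrFun hc (⟨m 0, h2⟩, ⟨m 1, h3⟩)
      rw [hMapp] at h4
      have h5 : mon (m 0, m 1) = m := mon_eq m
      change MvPolynomial.coeff (mon (m 0, m 1)) _ = 0 at h4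
      rw [h5] at h4
      exact MvPolynomial.mem_support_iff.1 hm h4
    have h2 : pol A' B' c = 0 := (mul_eq_zero.1 h1).resolve_left hg
    funext p
    rw [← pol_coeff A' B' c p, h2]
    rfl
  have hMker : ∀ c, L (M c) = 0 := by
    intro c
    rw [hL, Fintype.linearCombination_apply]
    funext kl
    rw [Finset.sum_apply]
    have h1 : MvPolynomial.aeval ![x, y] (g * pol A' B' c) = 0 := by
      rw [map_mul, hev, zero_mul]
    rw [MvPolynomial.aeval_def, MvPolynomial.eval₂_eq'] at h1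
    have h2 := sum_box (n * a) (n * b) (g * pol A' B' c) (hsupp c)
      (fun m => (algebraMap ℚ K) ((g * pol A' B' c).coeff m) * ∏ i, ![x, y] i ^ m i)
      (fun m hm => by rw [MvPolynomial.notMem_support_iff.1 hm, map_zero, zero_mul])
    rw [h1] at h2
    rw [Pi.zero_apply, h2]
    refine Finset.sum_congr rfl fun p _ => ?_
    rw [Pi.smul_apply, hv1, hMapp, Fin.prod_univ_two, mon_0, mon_1, Algebra.smul_def]
    rfl
  have hker : A' * B' ≤ finrank ℚ (LinearMap.ker L) := by
    have h1 : finrank ℚ (LinearMap.range M) = A' * B' := by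
      rw [LinearMap.finrank_range_of_inj hMinj, Module.finrank_fintype_fun_eq_card,
        Fintype.card_prod, Fintype.card_fin, Fintype.card_fin]
    rw [← h1]
    refine Submodule.finrank_mono ?_
    rintro _ ⟨c, rfl⟩
    exact hMker c
  have h1 : n * a * (n * b) ≤ 2 * n * (a * b) + A' * B' := by
    obtain ⟨k, rfl⟩ : ∃ k, n = k + 1 := ⟨n - 1, by omega⟩
    rw [hA', hB', Nat.add_sub_cancel]
    nlinarith [Nat.zero_le (a * b)]
  omega

end Pool.Agent.Helper28K9.RK
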