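import Pool.Agent.Helper28K9.RK.Stm

/-!
# [LIFT] a lift of the Frobenius map to `𝓞 K / 𝔭 ^ T` (helper94)
-/

set_option autoImplicit false

open NumberField Module Finset

namespace Pool.Agent.Helper28K9.RK

namespace LiftL

open Polynomial

/-- a generator of a finite field -/
theorem gen (k : Type) [Field k] [Finite k] : ∃ g : k, ∀ z : k, z = 0 ∨ ∃ n : ℕ, z = g ^ n := by
  obtain ⟨g, hg⟩ := IsCyclic.exists_monoid_generator (α := kˣ)
  refine ⟨g, fun z => ?_⟩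
  by_cases hz : z = 0
  · exact Or.inl hz
  · right
    obtain ⟨n, hn⟩ := Submonoid.mem_powers_iff _ _ |>.1 (hg (Units.mk0 z hz))
    refine ⟨n, ?_⟩
    have := congrArg Units.val hn
    simpa using this.symm

/-- a lift of the minimal polynomial of an element of a finite field -/
theorem minp (k : Type) [Field k] [Finite k] (q : ℕ) (hq : q.Prime) (hq0 : (q : k) = 0) (g : k) :
    ∃ h : ℤ[X], aeval g h = 0 ∧ aeval g (derivative h) ≠ 0 ∧
      ∀ P : ℤ[X], aeval g P = 0 → ∃ u v : ℤ[X], P = h * u + C (q : ℤ) * v := by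
  have : Fact q.Prime := ⟨hq⟩
  have : CharP k q := (CharP.charP_iff_prime_eq_zero hq).2 hq0
  let _ : Algebra (ZMod q) k := ZMod.algebra k q
  have hsurj : Function.Surjective (Polynomial.map (algebraMap ℤ (ZMod q))) :=
    Polynomial.map_surjective _ (ZMod.intCast_surjective)
  obtain ⟨h, hh⟩ := hsurj (minpoly (ZMod q) g)
  have hev : ∀ P : ℤ[X], aeval g (P.map (algebraMap ℤ (ZMod q))) = aeval g P :=
    fun P => aeval_map_algebraMap (ZMod q) g P
  have hroot : aeval g h = 0 := by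
    rw [← hev, hh]
    exact minpoly.aeval _ _
  refine ⟨h, hroot, ?_, fun P hP => ?_⟩
  · have hsep : (minpoly (ZMod q) g).Separable := Algebra.IsSeparable.isSeparable (ZMod q) g
    have h1 := hsep.aeval_derivative_ne_zero (minpoly.aeval (ZMod q) g)
    rw [← hh, derivative_map, hev] at h1
    exact h1
  · have h1 : minpoly (ZMod q) g ∣ P.map (algebraMap ℤ (ZMod q)) := minpoly.dvd _ _ (by rw [hev, hP])
    obtain ⟨u', hu'⟩ := h1
    obtain ⟨u, hu⟩ := hsurj u'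
    have h2 : (P - h * u).map (algebraMap ℤ (ZMod q)) = 0 := by
      rw [Polynomial.map_sub, Polynomial.map_mul, hh, hu, hu', sub_self]
    have h3 : C (q : ℤ) ∣ P - h * u := by
      rw [C_dvd_iff_dvd_coeff]
      intro i
      have h4 := congrArg (fun s => s.coeff i) h2
      simp only [coeff_map, coeff_zero] at h4
      have h5 : (((P - h * u).coeff i : ℤ) : ZMod q) = 0 := by simpa using h4
      exact (ZMod.intCast_zmod_eq_zero_iff_dvd _ _).1 h5
    obtain ⟨v, hv⟩ := h3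
    refine ⟨u, v, ?_⟩
    linear_combination hv

/-- the abstract form: a ring `R` with `q ^ T = 0`, `q ^ i ≠ 0` for `i < T`, and a finite residue field `R / (q)` -/
theorem frob (R k : Type) [CommRing R] [Field k] [Finite k] (q T : ℕ) (hq : q.Prime) (hT : (q : R) ^ T = 0)
    (hne : ∀ i < T, (q : R) ^ i ≠ 0) (π : R →+* k) (hπs : Function.Surjective π)
    (hπ0 : ∀ x : R, π x = 0 ↔ ∃ y, x = q * y) :
    ∃ φ : R →+* R, ∀ a, ∃ b, φ a = a ^ q + q * b := by
  have hq0 : ((q : ℕ) : k) = 0 := by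
    have h1 : π (q : R) = 0 := (hπ0 _).2 ⟨1, by ring⟩
    rw [map_natCast] at h1
    exact h1
  have : Fact q.Prime := ⟨hq⟩
  have : CharP k q := (CharP.charP_iff_prime_eq_zero hq).2 hq0
  have hnil : ∀ x : R, π x = 0 → IsNilpotent x := by
    intro x hx
    obtain ⟨y, hy⟩ := (hπ0 x).1 hx
    exact ⟨T, by rw [hy, mul_pow, hT, zero_mul]⟩
  have hnil' : ∀ x : R, IsNilpotent x → π x = 0 := fun x hx => (hx.map π).eq_zero
  have hunit : ∀ x : R, π x ≠ 0 → IsUnit x := by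
    intro x hx
    obtain ⟨y, hy⟩ := hπs (π x)⁻¹
    have h1 : π (x * y - 1) = 0 := by
      rw [map_sub, map_mul, hy, map_one, mul_inv_cancel₀ hx, sub_self]
    have h2 : IsUnit (x * y) := by
      have h3 := (hnil _ h1).isUnit_add_one
      rwa [sub_add_cancel] at h3
    exact isUnit_of_mul_isUnit_left h2
  have hπev : ∀ (x : R) (P : ℤ[X]), π (aeval x P) = aeval (π x) P := fun x P =>
    (aeval_algHom_apply π.toIntAlgHom x P).symm
  obtain ⟨g, hg⟩ := gen k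
  obtain ⟨h, hh0, hh1, hh2⟩ := minp k q hq hq0 g
  obtain ⟨a0, ha0⟩ := hπs g
  obtain ⟨a, ⟨haN, ha⟩, -⟩ := existsUnique_nilpotent_sub_and_aeval_eq_zero (x := a0) (P := h)
    (hnil _ (by rw [hπev, ha0, hh0])) (hunit _ (by rw [hπev, ha0]; exact hh1))
  have hag : π a = g := by
    have h1 := hnil' _ haN
    rw [map_sub, sub_eq_zero] at h1
    rw [← h1, ha0]
  set F : k →+* k := frobenius _ q with hF
  have hFev : ∀ (P : ℤ[X]), aeval (g ^ q) P = (aeval g P) ^ q := by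
    intro P
    have h1 := aeval_algHom_apply F.toIntAlgHom g P
    exact h1
  have hqpos : q ≠ 0 := hq.ne_zero
  obtain ⟨b, ⟨hbN, hb⟩, -⟩ := existsUnique_nilpotent_sub_and_aeval_eq_zero (x := a ^ q) (P := h)
    (hnil _ (by rw [hπev, map_pow, hag, hFev, hh0, zero_pow hqpos]))
    (hunit _ (by rw [hπev, map_pow, hag, hFev]; exact pow_ne_zero _ hh1))
  have hbg : π b = g ^ q := by
    have h1 := hnil' _ hbN
    rw [map_sub, sub_eq_zero, map_pow, hag] at h1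
    exact h1.symm
  -- surjectivity
  have hsur : ∀ r : R, ∀ i : ℕ, ∃ (P : ℤ[X]) (s : R), r = aeval a P + (q : R) ^ i * s := by
    intro r i
    induction i with
    | zero => exact ⟨0, r, by simp⟩
    | succ i ih =>
      obtain ⟨P, s, hs⟩ := ih
      rcases hg (π s) with h0 | ⟨n, hn⟩
      · obtain ⟨y, hy⟩ := (hπ0 s).1 h0
        refine ⟨P, y, ?_⟩
        rw [hs, hy]
        ring
      · have h1 : π (s - a ^ n) = 0 := by rw [map_sub, map_pow, hag, hn, sub_self]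
        obtain ⟨y, hy⟩ := (hπ0 _).1 h1
        refine ⟨P + C ((q : ℤ) ^ i) * X ^ n, y, ?_⟩
        have h2 : s = a ^ n + q * y := by linear_combination hy
        rw [hs, h2]
        simp
        ring
  have hsurj : Function.Surjective (aeval a : ℤ[X] →ₐ[ℤ] R).toRingHom := by
    intro r
    obtain ⟨P, s, hs⟩ := hsur r T
    refine ⟨P, ?_⟩
    rw [hT, zero_mul, add_zero] at hs
    exact hs.symm
  -- kernel
  have hker : ∀ P : ℤ[X], aeval a P = 0 → ∀ i ≤ T, ∃ P1 P2 : ℤ[X], P = C ((q : ℤ) ^ i) * P1 + h * P2 := by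
    intro P hP i
    induction i with
    | zero => exact fun _ => ⟨P, 0, by simp⟩
    | succ i ih =>
      intro hi
      obtain ⟨P1, P2, hP12⟩ := ih (by omega)
      have h1 : (q : R) ^ i * aeval a P1 = 0 := by
        rw [hP12] at hP
        simpa [ha] using hP
      have h2 : π (aeval a P1) = 0 := by
        by_contra hcon
        have h3 := hunit _ hcon
        have h4 : (q : R) ^ i = 0 := (h3.mul_left_eq_zero).1 h1
        exact hne i (by omega) h4
      rw [hπev, hag] at h2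
      obtain ⟨u, v, huv⟩ := hh2 P1 h2
      refine ⟨v, P2 + C ((q : ℤ) ^ i) * u, ?_⟩
      rw [hP12, huv, pow_succ, C_mul]
      ring
  have hkk : RingHom.ker (aeval a : ℤ[X] →ₐ[ℤ] R).toRingHom ≤ RingHom.ker (aeval b : ℤ[X] →ₐ[ℤ] R).toRingHom := by
    intro P hP
    have hP' : aeval a P = 0 := hP
    obtain ⟨P1, P2, h12⟩ := hker P hP' T le_rfl
    show aeval b P = 0
    rw [h12]
    simp [hb, hT]
  refine ⟨RingHom.liftOfRightInverse _ _ (Function.rightInverse_surjInv hsurj) ⟨_, hkk⟩, fun r => ?_⟩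
  obtain ⟨P, rfl⟩ := hsurj r
  rw [RingHom.liftOfRightInverse_comp_apply]
  have h1 : π ((aeval b P : R) - (aeval a P : R) ^ q) = 0 := by
    rw [map_sub, map_pow, hπev, hπev, hbg, hag, hFev, sub_self]
  obtain ⟨y, hy⟩ := (hπ0 _).1 h1
  refine ⟨y, ?_⟩
  have h2 : (aeval b P : R) = (aeval a P : R) ^ q + q * y := by linear_combination hy
  exact h2

end LiftL

open LiftL in
theorem lift : S_LIFT := by
  intro K _ _ 𝔭 q T hq hP hqP hqP2
  rcases Nat.eq_zero_or_pos T with hT0 | hT0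
  · subst hT0
    have : Subsingleton (𝓞 K ⧸ 𝔭 ^ 0) := by
      rw [pow_zero, Ideal.one_eq_top]
      exact Ideal.Quotient.subsingleton_iff.2 rfl
    exact ⟨RingHom.id _, fun a => ⟨0, Subsingleton.elim _ _⟩⟩
  have hqne : (q : 𝓞 K) ≠ 0 := by exact_mod_cast hq.ne_zero
  have hPbot : 𝔭 ≠ ⊥ := by
    rintro rfl
    exact hqne (by simpa using hqP)
  have hPmax : 𝔭.IsMaximal := hP.isMaximal hPbot
  obtain ⟨J, hJ⟩ := Ideal.dvd_span_singleton.2 hqP
  have hJP : ¬ 𝔭 ∣ J := by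
    rintro ⟨J', hJ'⟩
    apply hqP2
    rw [← Ideal.dvd_span_singleton, hJ, hJ']
    exact ⟨J', by ring⟩
  have hcop : J ⊔ 𝔭 = ⊤ := by
    have h1 : ¬ J ≤ 𝔭 := fun h => hJP (Ideal.dvd_iff_le.2 h)
    rw [sup_comm]
    exact hPmax.out.2 _ (left_lt_sup.2 h1)
  have hsup : Ideal.span {(q : 𝓞 K)} ⊔ 𝔭 ^ T = 𝔭 := by
    obtain ⟨t, rfl⟩ : ∃ t, T = t + 1 := ⟨T - 1, by omega⟩
    rw [hJ, pow_succ', ← Ideal.mul_sup, Ideal.sup_pow_eq_top hcop, Ideal.mul_top]
  set R := 𝓞 K ⧸ 𝔭 ^ T with hR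
  have hmapq : Ideal.span {(q : 𝓞 K ⧸ 𝔭 ^ T)} = Ideal.map (Ideal.Quotient.mk (𝔭 ^ T)) 𝔭 := by
    have h1 : Ideal.map (Ideal.Quotient.mk (𝔭 ^ T)) (Ideal.span {(q : 𝓞 K)} ⊔ 𝔭 ^ T) =
        Ideal.span {(q : 𝓞 K ⧸ 𝔭 ^ T)} := by
      rw [Ideal.map_sup, Ideal.map_span, Set.image_singleton, map_natCast, Ideal.map_quotient_self, sup_bot_eq]
    rw [← h1, hsup]
  have hPT : 𝔭 ^ T ≠ ⊥ := pow_ne_zero T hPbot
  have : Finite (𝓞 K ⧸ 𝔭 ^ T) := Ideal.finiteQuotientOfFreeOfNeBot _ hPT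
  have hmax' : (Ideal.span {(q : 𝓞 K ⧸ 𝔭 ^ T)}).IsMaximal := by
    rw [hmapq]
    exact Ideal.IsMaximal.map_of_surjective_of_ker_le Ideal.Quotient.mk_surjective (by
      rw [Ideal.mk_ker]
      exact Ideal.pow_le_self (by omega))
  let F : Field ((𝓞 K ⧸ 𝔭 ^ T) ⧸ Ideal.span {(q : 𝓞 K ⧸ 𝔭 ^ T)}) := Ideal.Quotient.field _
  have : Finite ((𝓞 K ⧸ 𝔭 ^ T) ⧸ Ideal.span {(q : 𝓞 K ⧸ 𝔭 ^ T)}) :=
    Finite.of_surjective _ Ideal.Quotient.mk_surjective
  refine frob (𝓞 K ⧸ 𝔭 ^ T) ((𝓞 K ⧸ 𝔭 ^ T) ⧸ Ideal.span {(q : 𝓞 K ⧸ 𝔭 ^ T)}) q T hq ?_ ?_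
    (Ideal.Quotient.mk _) Ideal.Quotient.mk_surjective ?_
  · have h1 : (q : 𝓞 K) ^ T ∈ 𝔭 ^ T := Ideal.pow_mem_pow hqP T
    have h2 := Ideal.Quotient.eq_zero_iff_mem.2 h1
    simpa using h2
  · intro i hi h0
    have h1 : (q : 𝓞 K) ^ i ∈ 𝔭 ^ T := by
      apply Ideal.Quotient.eq_zero_iff_mem.1
      simpa using h0
    have h2 : 𝔭 ^ (i + 1) ∣ Ideal.span {(q : 𝓞 K)} ^ i := by
      rw [Ideal.span_singleton_pow, Ideal.dvd_span_singleton]
      exact Ideal.pow_le_pow_right (by omega) h1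
    rw [hJ, mul_pow, pow_succ] at h2
    have h3 : 𝔭 ∣ J ^ i := (mul_dvd_mul_iff_left (pow_ne_zero i hPbot)).1 h2
    exact hJP ((Ideal.prime_of_isPrime hPbot hP).dvd_of_dvd_pow h3)
  · intro x
    rw [Ideal.Quotient.eq_zero_iff_mem, Ideal.mem_span_singleton]
    exact Iff.rfl

end Pool.Agent.Helper28K9.RK
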