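import Pool.Agent.Helper28K9.RK.Stm

/-!
# Project RK (helper28), leaf LOC: the local extrapolation (helper12)
-/

set_option autoImplicit false

open NumberField Module Finset

namespace Pool.Agent.Helper28K9.RK

namespace LocL

theorem map_evl {R S : Type} [CommRing R] [CommRing S] (π : R →+* S) (A B : ℕ)
    (c : ℕ → ℕ → ℤ) (x y : R) : π (evl A B c x y) = evl A B c (π x) (π y) := by
  unfold evl
  rw [map_sum]
  refine Finset.sum_congr rfl fun i _ => ?_
  rw [map_sum]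
  refine Finset.sum_congr rfl fun j _ => ?_
  rw [map_mul, map_mul, map_pow, map_pow]
  simp only [algebraMap_int_eq, eq_intCast, map_intCast]

theorem map_jet {R S : Type} [CommRing R] [CommRing S] (π : R →+* S) (A B : ℕ)
    (c : ℕ → ℕ → ℤ) (x y : R) (k l : ℕ) :
    π (jet A B c x y k l) = jet A B c (π x) (π y) k l := by
  unfold jet
  rw [map_sum]
  refine Finset.sum_congr rfl fun i _ => ?_
  rw [map_sum]
  refine Finset.sum_congr rfl fun j _ => ?_
  rw [map_mul, map_mul, map_mul, map_mul, map_pow, map_pow, map_natCast, map_natCast]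
  simp only [algebraMap_int_eq, eq_intCast, map_intCast]

theorem map_van {R S : Type} [CommRing R] [CommRing S] (π : R →+* S) {A B : ℕ}
    {c : ℕ → ℕ → ℤ} {x y : R} {T : ℕ} (h : Van A B c x y T) : Van A B c (π x) (π y) T := by
  intro k l hkl
  rw [← map_jet, h k l hkl, map_zero]

end LocL

open LocL in
theorem loc : S_LIFT → S_TAY → S_LOC := by
  intro hL hT K _ _ 𝔭 q T A B c x y hq h𝔭 h1 h2 hV
  obtain ⟨φ, hφ⟩ := hL K 𝔭 q T hq h𝔭 h1 h2
  have hq0 : ((q : ℕ) : 𝓞 K ⧸ 𝔭 ^ T) ^ T = 0 := by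
    have h3 : ((q : ℕ) : 𝓞 K ⧸ 𝔭 ^ T) ^ T = Ideal.Quotient.mk (𝔭 ^ T) ((q : 𝓞 K) ^ T) := by
      rw [map_pow, map_natCast]
    rw [h3, Ideal.Quotient.eq_zero_iff_mem]
    exact Ideal.pow_mem_pow h1 T
  have h4 := hT (𝓞 K ⧸ 𝔭 ^ T) φ q T A B c (Ideal.Quotient.mk (𝔭 ^ T) x)
    (Ideal.Quotient.mk (𝔭 ^ T) y) hq0 hφ (map_van _ hV)
  rw [← Ideal.Quotient.eq_zero_iff_mem, map_evl, map_pow, map_pow]
  exact h4

end Pool.Agent.Helper28K9.RK
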