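import Mathlib
import Pool.Agent.Helper28K9.RK.Stm

/-!
# The weak two-dimensional Lehmer bound: the pieces put together
-/

set_option autoImplicit false

open NumberField Module Finset

namespace Pool.Agent.Helper28K9.RK

theorem nt (hA : S_CASEA) (hB : S_CASEB) (hP : S_PICK) (hH : S_HKB) : S_NT := by
  obtain ⟨r1, h1⟩ := hA
  obtain ⟨r2, h2⟩ := hB
  obtain ⟨r3, h3⟩ := hP
  obtain ⟨r0, hr01, hr02, hr03, hr04⟩ : ∃ r0 : ℕ, 1 ≤ r0 ∧ r1 ≤ r0 ∧ r2 ≤ r0 ∧ r3 ≤ r0 :=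
    ⟨max 1 (max r1 (max r2 r3)), by simp, by simp, by simp, by simp⟩
  refine ⟨r0 ^ 100, ?_⟩
  intro K _ _ x y hD hx hy hind hgen
  by_contra hcon
  push Not at hcon
  obtain ⟨hc1, hc2⟩ := max_lt_iff.1 hcon
  set D := finrank ℚ K with hDdef
  set t : ℝ := (D : ℝ) ^ (1 / 100 : ℝ) with ht
  have hD0 : (0 : ℝ) ≤ D := Nat.cast_nonneg D
  have ht0 : 0 ≤ t := Real.rpow_nonneg hD0 _
  have ht100 : t ^ 100 = D := by
    rw [ht, ← Real.rpow_natCast, ← Real.rpow_mul hD0]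
    norm_num
  set r := ⌊t⌋₊ with hr
  have hr_le : (r : ℝ) ≤ t := Nat.floor_le ht0
  have hr_lt : t < r + 1 := Nat.lt_floor_add_one t
  have hr0 : r0 ≤ r := by
    apply Nat.le_floor
    have h4 : (r0 : ℝ) ^ 100 ≤ t ^ 100 := by
      rw [ht100]
      exact_mod_cast hD
    exact le_of_pow_le_pow_left₀ (by norm_num) ht0 h4
  have hD1 : r ^ 100 ≤ D := by
    have : (r : ℝ) ^ 100 ≤ D := by
      rw [← ht100]
      exact pow_le_pow_left₀ (Nat.cast_nonneg r) hr_le _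
    exact_mod_cast this
  have hD2 : D < (r + 1) ^ 100 := by
    have : (D : ℝ) < ((r : ℝ) + 1) ^ 100 := by
      rw [← ht100]
      exact pow_lt_pow_left₀ hr_lt ht0 (by norm_num)
    exact_mod_cast this
  clear_value r t
  have hx0 : x ≠ 0 := hx.ne_zero
  have hy0 : y ≠ 0 := hy.ne_zero
  have hHx : HK K x ≤ r + 1 := by linarith only [hc1, hr_lt]
  have hHy : HK K y ≤ r + 1 := by linarith only [hc2, hr_lt]
  have hHx0 : HK K (x : K) ≠ 0 := by
    intro h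
    obtain ⟨n, hn, h4⟩ := (hH K).2.2.2.2.2 x hx0 h
    have h5 : (x : K) ^ (n : ℤ) * (y : K) ^ (0 : ℤ) = 1 := by
      rw [zpow_zero, mul_one, zpow_natCast]
      have := congrArg (fun z : 𝓞 K => (z : K)) h4
      simpa using this
    have := (hind _ _ h5).1
    omega
  obtain ⟨Q, hQc, hQ⟩ := h3 K x y r (hr04.trans hr0) hD1 hD2 hx0 hy0 hgen hHx hHy
  refine h2 K x y r Q (hr03.trans hr0) hD1 hD2 hHx0 hHx hHy hQc ?_
  intro p hp
  obtain ⟨hp1, hp2, hp3, hp4, hp5⟩ := hQ p hp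
  refine ⟨hp1, hp2, hp3, hp4, hp5, ?_⟩
  have hr1R : (1 : ℝ) ≤ r := by exact_mod_cast hr01.trans hr0
  have hpR : (p : ℝ) ≤ 2 * (r : ℝ) ^ 5 := by exact_mod_cast hp3
  have hbound : ∀ z : K, HK K z ≤ r + 1 → HK K (z ^ p) ≤ 4 * (r : ℝ) ^ 6 := by
    intro z hz
    rw [(hH K).2.1 z p]
    have h6 : 0 ≤ HK K z := (hH K).1 z
    calc (p : ℝ) * HK K z ≤ 2 * (r : ℝ) ^ 5 * (2 * r) :=
          mul_le_mul hpR (by linarith only [hz, hr1R]) h6
            (mul_nonneg zero_le_two (pow_nonneg (Nat.cast_nonneg r) 5))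
      _ = 4 * (r : ℝ) ^ 6 := by ring
  have hind' : Ind (((x ^ p : 𝓞 K) : K)) (((y ^ p : 𝓞 K) : K)) := by
    intro a b hab
    have h7 : (x : K) ^ (p * a) * (y : K) ^ (p * b) = 1 := by
      rw [zpow_mul, zpow_mul, zpow_natCast, zpow_natCast]
      simpa using hab
    have h8 := hind _ _ h7
    have hp0 : (p : ℤ) ≠ 0 := by exact_mod_cast hp1.ne_zero
    constructor
    · rcases mul_eq_zero.1 h8.1 with h | h
      · exact absurd h hp0
      · exact h
    · rcases mul_eq_zero.1 h8.2 with h | h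
      · exact absurd h hp0
      · exact h
  have h9 := h1 K (x ^ p) (y ^ p) r (hr02.trans hr0) hD1 (hx.pow p) (hy.pow p) hind'
    (by simpa using hp5) (by simpa using hbound x hHx) (by simpa using hbound y hHy)
  simpa using h9

end Pool.Agent.Helper28K9.RK
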