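import Mathlib
import Pool.Agent.Helper28K9.RK.Stm

/-!
# [PACK] separated points in a ball
-/

set_option autoImplicit false

open Module Finset MeasureTheory Metric Set ENNReal

namespace Pool.Agent.Helper28K9.RK

open scoped Function in
/-- volumes of disjoint balls -/
theorem pack : S_PACK := by
  intro E _ _ _ s ρ₀ δ₀ hδ hρ hs h
  borelize E
  let μ : Measure E := Measure.addHaar
  let δ : ℝ := δ₀ / 2
  let ρ : ℝ := ρ₀ + δ₀ / 2
  have δpos : 0 < δ := by positivity
  have ρpos : 0 < ρ := by positivity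
  set A := ⋃ c ∈ s, ball (c : E) δ with hA
  have D : Set.Pairwise (s : Set E) (Disjoint on fun c => ball (c : E) δ) := by
    rintro c hc d hd hcd
    apply ball_disjoint_ball
    rw [dist_eq_norm]
    have := h c hc d hd hcd
    simp only [δ]
    linarith
  have A_subset : A ⊆ ball (0 : E) ρ := by
    refine iUnion₂_subset fun x hx => ?_
    apply ball_subset_ball'
    have := hs x hx
    rw [dist_zero_right]
    simp only [δ, ρ]
    linarith
  have I :
    (s.card : ℝ≥0∞) * ENNReal.ofReal (δ ^ finrank ℝ E) * μ (ball 0 1) ≤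
      ENNReal.ofReal (ρ ^ finrank ℝ E) * μ (ball 0 1) :=
    calc
      (s.card : ℝ≥0∞) * ENNReal.ofReal (δ ^ finrank ℝ E) * μ (ball 0 1) = μ A := by
        rw [hA, measure_biUnion_finset D fun c _ => measurableSet_ball]
        simp only [μ.addHaar_ball_of_pos _ δpos]
        simp only [Finset.sum_const, nsmul_eq_mul, mul_assoc]
      _ ≤ μ (ball (0 : E) ρ) := measure_mono A_subset
      _ = ENNReal.ofReal (ρ ^ finrank ℝ E) * μ (ball 0 1) := by
        simp only [μ.addHaar_ball_of_pos _ ρpos]
  have J : (s.card : ℝ≥0∞) * ENNReal.ofReal (δ ^ finrank ℝ E) ≤ ENNReal.ofReal (ρ ^ finrank ℝ E) :=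
    (ENNReal.mul_le_mul_iff_left (measure_ball_pos _ _ zero_lt_one).ne' measure_ball_lt_top.ne).1 I
  have K := ENNReal.toReal_le_of_le_ofReal (pow_nonneg ρpos.le _) J
  rw [ENNReal.toReal_mul, ENNReal.toReal_natCast, ENNReal.toReal_ofReal (by positivity)] at K
  have hd : 0 < δ ^ finrank ℝ E := by positivity
  calc (s.card : ℝ) ≤ ρ ^ finrank ℝ E / δ ^ finrank ℝ E := by
        rw [le_div_iff₀ hd]; exact K
    _ = (1 + 2 * ρ₀ / δ₀) ^ finrank ℝ E := by
        rw [← div_pow]
        congr 1
        simp only [ρ, δ]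
        field_simp
        ring

end Pool.Agent.Helper28K9.RK
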