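import Mathlib
import Pool.Agent.Helper28K9.RK.Stm

/-!
# Good primes
-/

set_option autoImplicit false

open NumberField Module Finset

namespace Pool.Agent.Helper28K9.RK

namespace PickL

/-- numerics -/
lemma numB {b D r lD hx hy ld lY : ℝ} (hr : 1000 ≤ r) (hD : 0 < D) (hb0 : 0 ≤ b)
    (h1 : b * D * lY ≤ 4 * ld) (h2 : ld ≤ 2 * D * (lD + hx + hy)) (hl : lD ≤ 100 * r)
    (hx1 : hx ≤ r + 1) (hy1 : hy ≤ r + 1) (hY : 1 ≤ lY) : b ≤ 1000 * r := by
  have h3 : b * D * lY ≤ 8 * D * (102 * r + 2) := by nlinarith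
  have h4 : b * D ≤ b * D * lY := le_mul_of_one_le_right (by positivity) hY
  have h5 : D * b ≤ D * (8 * (102 * r + 2)) := by linarith
  have h6 : b ≤ 8 * (102 * r + 2) := le_of_mul_le_mul_left h5 hD
  linarith

lemma numP {c r : ℕ} (hD : 2 ^ c < (r + 1) ^ 100) : c < 100 * r + 1 := by
  have h1 : r + 1 ≤ 2 ^ r := Nat.lt_pow_self (by norm_num)
  have h2 : 2 ^ c < (2 ^ r) ^ 100 := lt_of_lt_of_le hD (Nat.pow_le_pow_left h1 100)
  rw [← pow_mul] at h2
  have := (Nat.pow_lt_pow_iff_right (by norm_num)).1 h2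
  omega

end PickL

open PickL

theorem pick (hPR : S_PRIMES) (hBAD : S_BADQ) (hDISC : S_DISC) (hDEG : S_DEGP) : S_PICK := by
  classical
  obtain ⟨X0, hX0⟩ := hPR
  refine ⟨max 1000000 X0, ?_⟩
  intro K _ _ x y r hr hD1 hD2 hx hy hgen hHx hHy
  have hr1 : 1000000 ≤ r := (le_max_left _ _).trans hr
  have hrX : X0 ≤ r := (le_max_right _ _).trans hr
  obtain ⟨D, hD⟩ : ∃ D, D = finrank ℚ K := ⟨_, rfl⟩
  rw [← hD] at hD1 hD2
  have hD0 : 0 < D := by rw [hD]; exact finrank_pos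
  have hX := hX0 (r ^ 5) (hrX.trans (Nat.le_self_pow (by norm_num) r))
  set P := prs (r ^ 5) with hP
  set B1 := P.filter (fun p => ¬ Unr K p) with hB1
  set B2 := P.filter (fun p => Algebra.adjoin ℚ {(x : K) ^ p} ≠ Algebra.adjoin ℚ {(x : K)})
    with hB2
  set B3 := P.filter (fun p => Algebra.adjoin ℚ {(y : K) ^ p} ≠ Algebra.adjoin ℚ {(y : K)})
    with hB3
  have hmemP : ∀ p ∈ P, p.Prime ∧ r ^ 5 < p ∧ p ≤ 2 * r ^ 5 := by
    intro p hp
    rw [hP, prs, Finset.mem_filter, Finset.mem_Ioc] at hp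
    exact ⟨hp.2, hp.1.1, hp.1.2⟩
  have hx0 : (x : K) ≠ 0 := by exact_mod_cast hx
  have hy0 : (y : K) ≠ 0 := by exact_mod_cast hy
  have c2 : B2.card < 100 * r + 1 := by
    apply numP
    refine lt_of_le_of_lt ?_ hD2
    rw [hD]
    exact hDEG K x B2 hx0 (fun p hp => by
      rw [hB2, Finset.mem_filter] at hp
      exact ⟨(hmemP p hp.1).1, hp.2⟩)
  have c3 : B3.card < 100 * r + 1 := by
    apply numP
    refine lt_of_le_of_lt ?_ hD2
    rw [hD]
    exact hDEG K y B3 hy0 (fun p hp => by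
      rw [hB3, Finset.mem_filter] at hp
      exact ⟨(hmemP p hp.1).1, hp.2⟩)
  have c1 : B1.card ≤ 1000 * r := by
    have h1 := hBAD K B1 (r ^ 5) (Nat.one_le_pow _ _ (by omega)) (fun p hp => by
      rw [hB1, Finset.mem_filter] at hp
      exact ⟨(hmemP p hp.1).1, (hmemP p hp.1).2.1, hp.2⟩)
    have h2 := hDISC K x y hgen
    rw [← hD] at h1 h2
    have hrR : (1000 : ℝ) ≤ r := by
      have : 1000 ≤ r := le_trans (by norm_num) hr1
      exact_mod_cast this
    have hDR : (0 : ℝ) < D := by exact_mod_cast hD0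
    have hlD : Real.log D ≤ 100 * r := by
      have h3 : (D : ℝ) ≤ ((r : ℝ) + 1) ^ 100 := by exact_mod_cast hD2.le
      refine (Real.log_le_log hDR h3).trans ?_
      rw [Real.log_pow]
      have h4 : Real.log ((r : ℝ) + 1) ≤ r := by
        have := Real.log_le_sub_one_of_pos (x := (r : ℝ) + 1) (by linarith)
        linarith
      push_cast
      linarith
    have hlY : 1 ≤ Real.log ((r ^ 5 : ℕ) : ℝ) := by
      rw [Real.le_log_iff_exp_le (by positivity)]
      have h3 := Real.exp_one_lt_d9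
      have h4 : ((r : ℝ)) ≤ ((r ^ 5 : ℕ) : ℝ) := by
        have := Nat.le_self_pow (n := 5) (by norm_num) r
        exact_mod_cast this
      linarith
    have h5 := numB hrR hDR (Nat.cast_nonneg B1.card) h1 h2 hlD hHx hHy hlY
    exact_mod_cast h5
  have hPc : 1201 * r ≤ P.card := by
    by_contra hcon
    push Not at hcon
    have h1 : P.card ^ 2 < (1201 * r) ^ 2 := Nat.pow_lt_pow_left hcon (by norm_num)
    have h2 : (1201 * r) ^ 2 ≤ r ^ 5 := by
      calc (1201 * r) ^ 2 = 1442401 * r ^ 2 := by ring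
        _ ≤ (r * r * r) * r ^ 2 := by
            apply Nat.mul_le_mul_right
            calc 1442401 ≤ 1000000 * 1000000 * 1000000 := by norm_num
              _ ≤ r * r * r := Nat.mul_le_mul (Nat.mul_le_mul hr1 hr1) hr1
        _ = r ^ 5 := by ring
    omega
  set G := P \ (B1 ∪ (B2 ∪ B3)) with hG
  have hGc : r ≤ G.card := by
    have h1 := Finset.le_card_sdiff (B1 ∪ (B2 ∪ B3)) P
    have h2 := Finset.card_union_le B1 (B2 ∪ B3)
    have h3 := Finset.card_union_le B2 B3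
    rw [← hG] at h1
    omega
  obtain ⟨Q, hQG, hQc⟩ := Finset.exists_subset_card_eq hGc
  refine ⟨Q, hQc, ?_⟩
  intro p hp
  have hpG := hQG hp
  rw [hG, Finset.mem_sdiff, Finset.mem_union, Finset.mem_union] at hpG
  obtain ⟨hpP, hpn⟩ := hpG
  obtain ⟨h1, h2, h3⟩ := hmemP p hpP
  have hu : Unr K p := by
    by_contra h
    exact hpn (Or.inl (by rw [hB1, Finset.mem_filter]; exact ⟨hpP, h⟩))
  have hxp : Algebra.adjoin ℚ {(x : K) ^ p} = Algebra.adjoin ℚ {(x : K)} := by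
    by_contra h
    exact hpn (Or.inr (Or.inl (by rw [hB2, Finset.mem_filter]; exact ⟨hpP, h⟩)))
  have hyp : Algebra.adjoin ℚ {(y : K) ^ p} = Algebra.adjoin ℚ {(y : K)} := by
    by_contra h
    exact hpn (Or.inr (Or.inr (by rw [hB3, Finset.mem_filter]; exact ⟨hpP, h⟩)))
  refine ⟨h1, h2, h3, hu, ?_⟩
  rw [Set.insert_eq, Algebra.adjoin_union, hxp, hyp, ← Algebra.adjoin_union, ← Set.insert_eq,
    hgen]

end Pool.Agent.Helper28K9.RK
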