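import Pool.Agent.Helper28K9.RK.Stm
import Pool.Agent.H442R2.KF.Pc

/-!
[PRIMES] many primes between `X` and `2 X`
-/

set_option autoImplicit false

open NumberField Module Finset

namespace Pool.Agent.Helper28K9.RK

theorem primes : S_PRIMES := by
  obtain ⟨c, hc, h⟩ := Pool.Agent.H442R2.KF.primes_dyadic (1 / 4) (by norm_num)
  obtain ⟨N, hN⟩ := exists_nat_ge (1 / c ^ 4)
  refine ⟨N + 1, fun X hX => ?_⟩
  have hX1 : 1 ≤ X := by omega
  have h1 := h X hX1
  have hXR : (1 : ℝ) ≤ X := by exact_mod_cast hX1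
  have hX0 : (0 : ℝ) < X := by linarith
  have h2 : 1 / c ^ 4 ≤ X := by
    have : (N : ℝ) ≤ X := by exact_mod_cast (by omega : N ≤ X)
    exact hN.trans this
  have h3 : 1 ≤ c ^ 4 * X := by
    rwa [div_le_iff₀ (by positivity), mul_comm] at h2
  set w : ℝ := (X : ℝ) ^ ((1 : ℝ) / 4) with hw
  have hw0 : 0 < w := Real.rpow_pos_of_pos hX0 _
  have hw4 : w ^ 4 = X := by
    rw [hw, ← Real.rpow_natCast, ← Real.rpow_mul hX0.le]
    norm_num
  have hw3 : (X : ℝ) ^ (1 - (1 : ℝ) / 4) = w ^ 3 := by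
    rw [hw, ← Real.rpow_natCast, ← Real.rpow_mul hX0.le]
    norm_num
  rw [hw3] at h1
  have h4 : 1 ≤ c * w := by
    by_contra hcon
    push Not at hcon
    have h5 : (c * w) ^ 4 < 1 := pow_lt_one₀ (by positivity) hcon (by norm_num)
    have h6 : (c * w) ^ 4 = c ^ 4 * X := by rw [mul_pow, hw4]
    linarith
  have h5 : w ^ 2 ≤ ((prs X).card : ℝ) := by
    calc w ^ 2 = w ^ 2 * 1 := (mul_one _).symm
      _ ≤ w ^ 2 * (c * w) := mul_le_mul_of_nonneg_left h4 (by positivity)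
      _ = c * w ^ 3 := by ring
      _ ≤ _ := h1
  have h6 : (X : ℝ) ≤ ((prs X).card : ℝ) ^ 2 := by
    calc (X : ℝ) = (w ^ 2) ^ 2 := by rw [← hw4]; ring
      _ ≤ _ := pow_le_pow_left₀ (by positivity) h5 2
  exact_mod_cast h6

end Pool.Agent.Helper28K9.RK
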