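import Mathlib
import Pool.Agent.Helper28K9.RK.Stm

/-!
# [SEPD] a nonzero algebraic integer is not small at all places
-/

set_option autoImplicit false

open NumberField Module Finset

namespace Pool.Agent.Helper28K9.RK

namespace SepdL

theorem one_le_prod (K : Type) [Field K] [NumberField K] (α : 𝓞 K) (hα : α ≠ 0) :
    1 ≤ ∏ τ : K →+* ℂ, ‖τ (α : K)‖ := by
  have h1 := Algebra.norm_eq_prod_embeddings ℚ ℂ (α : K)
  have h2 : ∏ τ : K →+* ℂ, ‖τ (α : K)‖ = ‖algebraMap ℚ ℂ (Algebra.norm ℚ (α : K))‖ := by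
    rw [h1, norm_prod]
    exact Fintype.prod_equiv (RingHom.equivRatAlgHom K ℂ) _ _ (fun τ => rfl)
  rw [h2, ← Algebra.coe_norm_int]
  have h3 : Algebra.norm ℤ α ≠ 0 := by
    rw [Ne, Algebra.norm_eq_zero_iff]
    exact hα
  have h4 : (1 : ℝ) ≤ |((Algebra.norm ℤ α : ℤ) : ℝ)| := by
    have := Int.one_le_abs h3
    exact_mod_cast this
  simpa using h4

theorem sum_log (K : Type) [Field K] [NumberField K] (α : 𝓞 K) (hα : α ≠ 0) :
    0 ≤ ∑ τ : K →+* ℂ, Real.log ‖τ (α : K)‖ := by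
  rw [← Real.log_prod]
  · exact Real.log_nonneg (one_le_prod K α hα)
  · intro τ _
    have : (α : K) ≠ 0 := by simpa using hα
    simpa using this

theorem card_emb (K : Type) [Field K] [NumberField K] :
    (Fintype.card (K →+* ℂ) : ℝ) = finrank ℚ K := by
  rw [NumberField.Embeddings.card]

end SepdL

open SepdL

theorem sepd : S_SEPD := by
  intro K _ _ x y A B α hα
  have hD : 0 < (finrank ℚ K : ℝ) := by exact_mod_cast finrank_pos
  set D : ℝ := (finrank ℚ K : ℝ) with hDdef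
  set H : ℝ := A * HK K x + B * HK K y with hH
  set m : ℝ := -(2 * H / D) with hm
  let u : (K →+* ℂ) → ℝ := fun τ => 2 * Real.log ‖τ (α : K)‖ -
    2 * (A * Real.log (max 1 ‖τ x‖) + B * Real.log (max 1 ‖τ y‖))
  have h1 : ∀ τ : K →+* ℂ, ‖τ (α : K)‖ ^ 2 / (max 1 ‖τ x‖ ^ A * max 1 ‖τ y‖ ^ B) ^ 2 =
      Real.exp (u τ) := by
    intro τ
    have ha : 0 < ‖τ (α : K)‖ := by
      have : (α : K) ≠ 0 := by simpa using hα
      simpa using this
    have hx : 0 < max 1 ‖τ x‖ := lt_of_lt_of_le one_pos (le_max_left _ _)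
    have hy : 0 < max 1 ‖τ y‖ := lt_of_lt_of_le one_pos (le_max_left _ _)
    have h2 : 0 < ‖τ (α : K)‖ ^ 2 / (max 1 ‖τ x‖ ^ A * max 1 ‖τ y‖ ^ B) ^ 2 := by positivity
    rw [← Real.exp_log h2]
    congr 1
    rw [Real.log_div (by positivity) (by positivity), Real.log_pow, Real.log_pow,
      Real.log_mul (by positivity) (by positivity), Real.log_pow, Real.log_pow]
    simp only [u]
    push_cast
    ring
  have h2 : ∀ τ : K →+* ℂ, Real.exp m * (1 + u τ - m) ≤ Real.exp (u τ) := by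
    intro τ
    have h3 : Real.exp (u τ) = Real.exp m * Real.exp (u τ - m) := by
      rw [← Real.exp_add]; congr 1; ring
    rw [h3]
    apply mul_le_mul_of_nonneg_left _ (Real.exp_pos m).le
    have := Real.add_one_le_exp (u τ - m)
    linarith
  have h3 : ∑ τ : K →+* ℂ, u τ = 2 * ∑ τ : K →+* ℂ, Real.log ‖τ (α : K)‖ - 2 * H := by
    simp only [u, hH, HK]
    rw [Finset.sum_sub_distrib, ← Finset.mul_sum, ← Finset.mul_sum, Finset.sum_add_distrib,
      ← Finset.mul_sum, ← Finset.mul_sum]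
  have h4 : D * m = - (2 * H) := by
    rw [hm]
    field_simp
  calc D * Real.exp m ≤ Real.exp m * (D + ∑ τ : K →+* ℂ, u τ - D * m) := by
        rw [h3, h4]
        have := sum_log K α hα
        nlinarith [Real.exp_pos m]
    _ = ∑ τ : K →+* ℂ, Real.exp m * (1 + u τ - m) := by
        have h5 : ∑ τ : K →+* ℂ, (1 + u τ - m) = D + ∑ τ : K →+* ℂ, u τ - D * m := by
          rw [Finset.sum_sub_distrib, Finset.sum_add_distrib]
          simp only [Finset.sum_const, Finset.card_univ, nsmul_eq_mul, mul_one]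
          rw [card_emb K]
        rw [← Finset.mul_sum, h5]
    _ ≤ ∑ τ : K →+* ℂ, Real.exp (u τ) := Finset.sum_le_sum fun τ _ => h2 τ
    _ = _ := Finset.sum_congr rfl fun τ _ => (h1 τ).symm

end Pool.Agent.Helper28K9.RK
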