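import Pool.Agent.Helper28K9.RK.Stm
import Pool.Agent.Helper55K9.AB.Hm
import Pool.Agent.W963.GE.Dob

/-!
[SMALL] Dobrowolski for products of powers of two units
-/

set_option autoImplicit false

open NumberField Module Finset

namespace Pool.Agent.Helper28K9.RK

namespace SmallL

theorem hk_zpow (hkb : S_HKB) {K : Type} [Field K] [NumberField K] (x : (𝓞 K)ˣ) (u : ℤ) :
    HK K ((x : K) ^ u) = |(u : ℝ)| * HK K (x : K) := by
  obtain ⟨-, h2, -, h4, -, -⟩ := hkb K
  rcases le_or_gt 0 u with h | h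
  · obtain ⟨n, rfl⟩ := Int.eq_ofNat_of_zero_le h
    rw [zpow_natCast, h2, Int.cast_natCast, abs_of_nonneg (Nat.cast_nonneg n)]
  · obtain ⟨n, hn⟩ := Int.eq_ofNat_of_zero_le (show 0 ≤ -u by omega)
    have hu : u = -(n : ℤ) := by omega
    rw [hu, zpow_neg, zpow_natCast, ← inv_pow, h2, h4 (x : 𝓞 K) x.isUnit, Int.cast_neg,
      Int.cast_natCast, abs_neg, abs_of_nonneg (Nat.cast_nonneg n)]

end SmallL

open SmallL in
theorem small (hkb : S_HKB) : S_SMALL := by
  classical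
  obtain ⟨c, hc, hdob⟩ := Pool.Agent.W963.GE.mm_dob
  refine ⟨c, hc, ?_⟩
  intro K _ _ β β' ω u v hβ hβ' hind huv hu hv hdeg
  obtain ⟨h0, h2, h3, h4, -, -⟩ := hkb K
  obtain ⟨b, rfl⟩ := hβ
  obtain ⟨b', rfl⟩ := hβ'
  set θ : K := ((b : 𝓞 K) : K) ^ u * ((b' : 𝓞 K) : K) ^ v with hθ
  have hθu : θ = (((b ^ u * b' ^ v : (𝓞 K)ˣ) : 𝓞 K) : K) := by
    rw [Units.val_mul]
    exact (congrArg₂ (· * ·) (NumberField.Units.coe_zpow b u).symm
      (NumberField.Units.coe_zpow b' v).symm)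
  have hθ0 : θ ≠ 0 := by
    rw [hθu]
    exact RingOfIntegers.coe_ne_zero_iff.2 (Units.ne_zero _)
  have hθi : IsIntegral ℤ θ := by
    rw [hθu]
    exact RingOfIntegers.isIntegral_coe _
  obtain ⟨τ⟩ : Nonempty (K →+* ℂ) := inferInstance
  set z : ℂ := τ θ with hz
  have hzi : IsIntegral ℤ z := by
    have := hθi.map τ.toIntAlgHom
    exact this
  have hz0 : z ≠ 0 := (map_ne_zero τ).2 hθ0
  have hzr : ∀ m > 0, z ^ m ≠ 1 := by
    intro m hm h
    rw [hz, ← map_pow, map_eq_one_iff τ τ.injective, hθ, mul_pow, ← zpow_natCast, ← zpow_natCast,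
      ← zpow_mul, ← zpow_mul] at h
    obtain ⟨e1, e2⟩ := hind _ _ h
    have hm' : (m : ℤ) ≠ 0 := by omega
    have e3 : u = 0 := (mul_eq_zero.1 e1).resolve_right hm'
    have e4 : v = 0 := (mul_eq_zero.1 e2).resolve_right hm'
    exact huv (by rw [e3, e4])
  have haev : Polynomial.aeval θ (minpoly ℤ z) = 0 := by
    apply τ.injective
    rw [map_zero]
    have h5 : τ (Polynomial.aeval θ (minpoly ℤ z)) = Polynomial.aeval (τ θ) (minpoly ℤ z) := by
      have := Polynomial.aeval_algHom_apply τ.toIntAlgHom θ (minpoly ℤ z)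
      exact this.symm
    rw [h5]
    exact minpoly.aeval ℤ z
  have hm := Pool.Agent.Helper55K9.AB.hm K θ z hzi haev
  have hnd : (minpoly ℤ z).natDegree = (minpoly ℚ θ).natDegree := by
    have e1 : minpoly ℚ z = minpoly ℚ θ := by
      have := minpoly.algHom_eq (τ.toRatAlgHom) τ.injective θ
      exact this
    rw [← e1, minpoly.isIntegrallyClosed_eq_field_fractions' ℚ hzi]
    exact (Polynomial.natDegree_map_eq_of_injective (algebraMap ℤ ℚ).injective_int _).symm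
  have hdpos : 1 ≤ (minpoly ℤ z).natDegree := minpoly.natDegree_pos hzi
  have hω1 : 1 ≤ ω := by
    rw [hnd] at hdpos
    omega
  have hdω : (minpoly ℤ z).natDegree ≤ ω := by rw [hnd]; exact hdeg
  have hMM : Pool.Agent.Helper72K9.AB.MM z = Pool.Agent.W963.GE.MM z := rfl
  have hHN : Pool.Agent.Helper72K9.AB.HN K θ = HK K θ := rfl
  rw [hMM, hHN] at hm
  have hdob' := hdob z hzi hz0 hzr
  set n : ℝ := ((minpoly ℤ z).natDegree : ℝ) with hn
  have hn1 : 1 ≤ n := by rw [hn]; exact_mod_cast hdpos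
  have hnω : n ≤ ω := by rw [hn]; exact_mod_cast hdω
  have hD : (0 : ℝ) < finrank ℚ K := by exact_mod_cast finrank_pos
  have hlog : 0 < Real.log (2 * n) := Real.log_pos (by linarith)
  have hlog2 : Real.log (2 * n) ≤ Real.log (2 * ω) := Real.log_le_log (by linarith) (by linarith)
  have h5 : c / (Real.log (2 * ω)) ^ 3 ≤ c / (Real.log (2 * n)) ^ 3 :=
    div_le_div_of_nonneg_left hc.le (pow_pos hlog 3) (pow_le_pow_left₀ hlog.le hlog2 3)
  refine h5.trans (hdob'.trans ?_)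
  have h6 : Real.log (Pool.Agent.W963.GE.MM z) = n * HK K θ / finrank ℚ K := by
    rw [hm]
    field_simp
  rw [h6]
  refine div_le_div_of_nonneg_right ?_ hD.le
  have hωR : (1 : ℝ) ≤ ω := by exact_mod_cast hω1
  have hu' : |(u : ℝ)| ≤ ω := by exact_mod_cast hu
  have hv' : |(v : ℝ)| ≤ ω := by exact_mod_cast hv
  have h7 : HK K θ ≤ ω * (HK K ((b : 𝓞 K) : K) + HK K ((b' : 𝓞 K) : K)) := by
    refine (h3 _ _).trans ?_
    rw [hk_zpow hkb, hk_zpow hkb, mul_add]
    exact add_le_add (mul_le_mul_of_nonneg_right hu' (h0 _)) (mul_le_mul_of_nonneg_right hv' (h0 _))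
  have h8 := h0 θ
  calc n * HK K θ ≤ ω * (ω * (HK K ((b : 𝓞 K) : K) + HK K ((b' : 𝓞 K) : K))) :=
        mul_le_mul hnω h7 h8 (by linarith)
    _ = (ω : ℝ) ^ 2 * (HK K ((b : 𝓞 K) : K) + HK K ((b' : 𝓞 K) : K)) := by ring

end Pool.Agent.Helper28K9.RK
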