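import Pool.Agent.Helper28K9.RK.Stm

/-!
# Powers of a generating subspace of a number field
-/

set_option autoImplicit false

open NumberField Module Finset

namespace Pool.Agent.Helper28K9.RK

namespace SpanL

variable {K : Type} [Field K] [NumberField K]

/-- the line through `z` -/
def P (z : K) : Submodule ℚ K := Submodule.span ℚ {z}

theorem mem_P {z x : K} {A : Submodule ℚ K} : x ∈ P z * A ↔ ∃ a ∈ A, z * a = x :=
  Submodule.mem_span_singleton_mul

theorem fin_P {z : K} (hz : z ≠ 0) (A : Submodule ℚ K) : finrank ℚ ↥(P z * A) = finrank ℚ A := by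
  have h1 : P z * A = A.map (LinearMap.mulLeft ℚ z) := by
    ext x
    rw [mem_P, Submodule.mem_map]
    rfl
  rw [h1]
  have hinj : Function.Injective (LinearMap.mulLeft ℚ z) := by
    intro a b h
    exact mul_left_cancel₀ hz h
  exact (Submodule.equivMapOfInjective _ hinj A).finrank_eq.symm

theorem P_ne_bot {z : K} (hz : z ≠ 0) {A : Submodule ℚ K} (hA : A ≠ ⊥) : P z * A ≠ ⊥ := by
  obtain ⟨a, ha, ha0⟩ := (Submodule.ne_bot_iff _).1 hA
  rw [Submodule.ne_bot_iff]
  exact ⟨z * a, mem_P.2 ⟨a, ha, rfl⟩, mul_ne_zero hz ha0⟩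

theorem eq_top_iff' (V : Submodule ℚ K) : V = ⊤ ↔ finrank ℚ V = finrank ℚ K := by
  constructor
  · rintro rfl
    exact finrank_top ℚ K
  · intro h
    exact Submodule.eq_top_of_finrank_eq h

theorem lt_of_ne_top {V : Submodule ℚ K} (h : V ≠ ⊤) : finrank ℚ V < finrank ℚ K := by
  have h1 := Submodule.finrank_le V
  rcases lt_or_eq_of_le h1 with h2 | h2
  · exact h2
  · exact absurd ((eq_top_iff' V).2 h2) h

theorem pos_of_ne_bot {V : Submodule ℚ K} (h : V ≠ ⊥) : 0 < finrank ℚ V := by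
  rw [Nat.pos_iff_ne_zero]
  intro h1
  exact h (Submodule.finrank_eq_zero.1 h1)

theorem P_ne_top {z : K} (hz : z ≠ 0) {A : Submodule ℚ K} (hA : A ≠ ⊤) : P z * A ≠ ⊤ := by
  intro h
  rw [eq_top_iff', fin_P hz] at h
  exact hA ((eq_top_iff' A).2 h)

/-- admissible subspaces -/
def Adm (W V : Submodule ℚ K) : Prop := V ≠ ⊥ ∧ V * W ≠ ⊤

theorem le_mul {W : Submodule ℚ K} (h1 : (1 : K) ∈ W) (V : Submodule ℚ K) : V ≤ V * W := by
  intro v hv
  rw [← mul_one v]
  exact Submodule.mul_mem_mul hv h1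

/-- trace duality -/
theorem dual (W V : Submodule ℚ K) (h : Adm W V) :
    ∃ V' : Submodule ℚ K, Adm W V' ∧ finrank ℚ V' + finrank ℚ ↥(V * W) = finrank ℚ K ∧
      finrank ℚ ↥(V' * W) + finrank ℚ V ≤ finrank ℚ K := by
  have hnd := traceForm_nondegenerate ℚ K
  let B := Algebra.traceForm ℚ K
  have h1 := LinearMap.BilinForm.finrank_orthogonal (B := B) hnd (V * W)
  have h2 := LinearMap.BilinForm.finrank_orthogonal (B := B) hnd V
  have h3 := Submodule.finrank_le (V * W)
  have h3' := Submodule.finrank_le V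
  have hlt := lt_of_ne_top h.2
  have hpos := pos_of_ne_bot h.1
  have hle : B.orthogonal (V * W) * W ≤ B.orthogonal V := by
    rw [Submodule.mul_le]
    intro x hx w hw
    rw [LinearMap.BilinForm.mem_orthogonal_iff] at hx ⊢
    intro v hv
    have h4 := hx (v * w) (Submodule.mul_mem_mul hv hw)
    have h5 : B v (x * w) = B (v * w) x := by
      show Algebra.traceForm ℚ K v (x * w) = Algebra.traceForm ℚ K (v * w) x
      rw [Algebra.traceForm_apply, Algebra.traceForm_apply]
      congr 1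
      ring
    rw [h5]
    exact h4
  have h6 := Submodule.finrank_mono hle
  refine ⟨B.orthogonal (V * W), ⟨?_, ?_⟩, by omega, by omega⟩
  · intro h7
    rw [h7, finrank_bot] at h1
    omega
  · intro h7
    rw [eq_top_iff'] at h7
    omega

/-- the main inequality -/
theorem main (W : Submodule ℚ K) (h1 : (1 : K) ∈ W) (hW : Algebra.adjoin ℚ (W : Set K) = ⊤)
    (V : Submodule ℚ K) (hV : Adm W V) :
    2 * finrank ℚ V + finrank ℚ W ≤ 2 * finrank ℚ ↥(V * W) := by
  classical
  have hge : ∀ V : Submodule ℚ K, finrank ℚ V ≤ finrank ℚ ↥(V * W) := fun V =>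
    Submodule.finrank_mono (le_mul h1 V)
  -- the minimum of `f`
  have hex : ∃ m : ℕ, ∃ V, Adm W V ∧ finrank ℚ ↥(V * W) = finrank ℚ V + m :=
    ⟨finrank ℚ ↥(V * W) - finrank ℚ V, V, hV, by have := hge V; omega⟩
  set κ := Nat.find hex with hκ
  have hmin : ∀ V, Adm W V → finrank ℚ V + κ ≤ finrank ℚ ↥(V * W) := by
    intro V hV
    by_contra hcon
    push Not at hcon
    have h2 := hge V
    exact Nat.find_min hex (m := finrank ℚ ↥(V * W) - finrank ℚ V) (by rw [← hκ]; omega)
      ⟨V, hV, by omega⟩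
  have hex2 : ∃ d : ℕ, ∃ V, Adm W V ∧ finrank ℚ ↥(V * W) = finrank ℚ V + κ ∧ finrank ℚ V = d := by
    obtain ⟨V, h2, h3⟩ := Nat.find_spec hex
    exact ⟨_, V, h2, h3, rfl⟩
  obtain ⟨A0, hA0, hA0κ, hA0d⟩ := Nat.find_spec hex2
  have hmin2 : ∀ V, Adm W V → finrank ℚ ↥(V * W) = finrank ℚ V + κ →
      finrank ℚ A0 ≤ finrank ℚ V := by
    intro V hV h3
    rw [hA0d]
    exact Nat.find_min' hex2 ⟨V, hV, h3, rfl⟩
  -- scaling
  obtain ⟨a, haA, ha0⟩ := (Submodule.ne_bot_iff _).1 hA0.1
  have ha1 : a⁻¹ ≠ 0 := inv_ne_zero ha0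
  set A := P a⁻¹ * A0 with hA
  have hA1 : (1 : K) ∈ A := mem_P.2 ⟨a, haA, inv_mul_cancel₀ ha0⟩
  have hAd : finrank ℚ A = finrank ℚ A0 := fin_P ha1 A0
  have hAW : A * W = P a⁻¹ * (A0 * W) := mul_assoc _ _ _
  have hAWd : finrank ℚ ↥(A * W) = finrank ℚ A + κ := by
    rw [hAW, fin_P ha1, hAd, hA0κ]
  have hAadm : Adm W A := ⟨P_ne_bot ha1 hA0.1, by rw [hAW]; exact P_ne_top ha1 hA0.2⟩
  have hminA : ∀ V, Adm W V → finrank ℚ ↥(V * W) ≤ finrank ℚ V + κ →
      finrank ℚ A ≤ finrank ℚ V := by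
    intro V hV h3
    rw [hAd]
    exact hmin2 V hV (le_antisymm h3 (hmin V hV))
  -- duality
  obtain ⟨A', hA', h2, h3⟩ := dual W A hAadm
  have h4 := hminA A' hA' (by omega)
  -- `A` is a field
  have key : ∀ z : K, z ≠ 0 → A ⊓ P z * A ≠ ⊥ → P z * A = A := by
    intro z hz hne
    have e1 := Submodule.finrank_sup_add_finrank_inf_eq A (P z * A)
    have e2 := Submodule.finrank_sup_add_finrank_inf_eq (A * W) (P z * A * W)
    have e3 : finrank ℚ ↥(P z * A) = finrank ℚ A := fin_P hz A
    have e4 : finrank ℚ ↥(P z * A * W) = finrank ℚ ↥(A * W) := by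
      rw [mul_assoc]
      exact fin_P hz _
    have e5 : (A ⊓ P z * A) * W ≤ A * W ⊓ P z * A * W :=
      le_inf (mul_le_mul_left inf_le_left W) (mul_le_mul_left inf_le_right W)
    have e6 := Submodule.finrank_mono e5
    have e7 : Adm W (A ⊓ P z * A) := by
      refine ⟨hne, fun h => hAadm.2 ?_⟩
      rw [eq_top_iff, ← h]
      exact mul_le_mul_left inf_le_left W
    have e8 := hmin _ e7
    have e9 := pos_of_ne_bot hne
    have e10 : (A ⊔ P z * A) * W = A * W ⊔ P z * A * W := Submodule.sup_mul _ _ _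
    have e11 : Adm W (A ⊔ P z * A) := by
      refine ⟨fun h => hAadm.1 (eq_bot_iff.2 (h ▸ le_sup_left)), fun h => ?_⟩
      rw [eq_top_iff', e10] at h
      omega
    have e12 := hmin _ e11
    rw [e10] at e12
    have e13 := hminA _ e7 (by omega)
    have e14 : A ⊓ P z * A = A := Submodule.eq_of_le_of_finrank_le inf_le_left e13
    have e15 : A ≤ P z * A := inf_eq_left.1 e14
    exact (Submodule.eq_of_le_of_finrank_le e15 e3.le).symm
  have hmulA : ∀ z ∈ A, ∀ b ∈ A, z * b ∈ A := by
    intro z hz b hb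
    by_cases hz0 : z = 0
    · rw [hz0, zero_mul]
      exact A.zero_mem
    · have h5 : P z * A = A := by
        apply key z hz0
        rw [Submodule.ne_bot_iff]
        exact ⟨z, ⟨hz, mem_P.2 ⟨1, hA1, mul_one z⟩⟩, hz0⟩
      have : z * b ∈ P z * A := mem_P.2 ⟨b, hb, rfl⟩
      rwa [h5] at this
  have hinvA : ∀ z ∈ A, z ≠ 0 → z⁻¹ ∈ A := by
    intro z hz hz0
    have h5 : P z * A = A := by
      apply key z hz0
      rw [Submodule.ne_bot_iff]
      exact ⟨z, ⟨hz, mem_P.2 ⟨1, hA1, mul_one z⟩⟩, hz0⟩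
    have h6 : (1 : K) ∈ P z * A := by rw [h5]; exact hA1
    obtain ⟨b, hb, hb1⟩ := mem_P.1 h6
    have : b = z⁻¹ := eq_inv_of_mul_eq_one_right hb1
    rwa [← this]
  -- `W` is not contained in `A`
  have hnot : ¬ W ≤ A := by
    intro hle
    let S : Subalgebra ℚ K :=
      { carrier := A
        mul_mem' := fun {a b} ha hb => hmulA a ha b hb
        add_mem' := fun {a b} ha hb => A.add_mem ha hb
        algebraMap_mem' := fun r => by
          rw [Algebra.algebraMap_eq_smul_one]
          exact A.smul_mem r hA1 }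
    have h5 : Algebra.adjoin ℚ (W : Set K) ≤ S := Algebra.adjoin_le hle
    rw [hW] at h5
    apply hAadm.2
    rw [eq_top_iff]
    intro x _
    have hx : x ∈ A := h5 (Algebra.mem_top (x := x))
    exact le_mul h1 A hx
  obtain ⟨w, hwW, hwA⟩ := SetLike.not_le_iff_exists.1 hnot
  have hw0 : w ≠ 0 := by
    rintro rfl
    exact hwA A.zero_mem
  have h5 : A ⊓ P w * A = ⊥ := by
    rw [eq_bot_iff]
    rintro x ⟨hxA, hx⟩
    obtain ⟨b, hb, rfl⟩ := mem_P.1 hx
    by_cases hb0 : b = 0
    · rw [hb0, mul_zero]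
      exact Submodule.zero_mem _
    · exfalso
      apply hwA
      have : w = (w * b) * b⁻¹ := by rw [mul_assoc, mul_inv_cancel₀ hb0, mul_one]
      rw [this]
      exact hmulA _ hxA _ (hinvA b hb hb0)
  have h6 := Submodule.finrank_sup_add_finrank_inf_eq A (P w * A)
  rw [h5, finrank_bot, fin_P hw0] at h6
  have h7 : A ⊔ P w * A ≤ A * W := by
    refine sup_le (le_mul h1 A) ?_
    rw [Submodule.mul_le]
    intro x hx b hb
    obtain ⟨r, rfl⟩ := Submodule.mem_span_singleton.1 hx
    have : (r • w) * b = r • (b * w) := by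
      rw [smul_mul_assoc, mul_comm]
    rw [this]
    exact Submodule.smul_mem _ _ (Submodule.mul_mem_mul hb hwW)
  have h8 := Submodule.finrank_mono h7
  have h9 : W ≤ A * W := by
    intro x hx
    rw [← one_mul x]
    exact Submodule.mul_mem_mul hA1 hx
  have h10 := Submodule.finrank_mono h9
  have h11 := hmin V hV
  omega

end SpanL

open SpanL in
theorem span_ : S_SPAN := by
  intro K _ _ W n h1 hW hn
  have hWpos : 0 < finrank ℚ W := by
    apply pos_of_ne_bot
    rw [Submodule.ne_bot_iff]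
    exact ⟨1, h1, one_ne_zero⟩
  have hD : 0 < finrank ℚ K := finrank_pos
  have hind : ∀ k : ℕ, W ^ (k + 1) = ⊤ ∨ (k + 2) * finrank ℚ W ≤ 2 * finrank ℚ ↥(W ^ (k + 1)) := by
    intro k
    induction k with
    | zero =>
      right
      rw [zero_add, pow_one]
    | succ k ih =>
      rcases ih with h | h
      · left
        rw [pow_succ, eq_top_iff]
        exact (le_of_eq h.symm).trans (le_mul h1 _)
      · by_cases h2 : W ^ (k + 1) * W = ⊤
        · left
          rw [pow_succ]
          exact h2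
        · right
          have h3 : W ^ (k + 1) ≠ ⊥ := by
            intro h4
            rw [h4, finrank_bot] at h
            have : 0 < (k + 2) * finrank ℚ W := by positivity
            omega
          have h4 := main W h1 hW _ ⟨h3, h2⟩
          rw [pow_succ W (k + 1)]
          have h5 : (k + 1 + 2) * finrank ℚ W = (k + 2) * finrank ℚ W + finrank ℚ W := by ring
          omega
  rcases n with _ | n
  · omega
  · rcases hind n with h | h
    · exact h
    · exfalso
      have h2 := Submodule.finrank_le (W ^ (n + 1))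
      have h3 : (n + 2) * finrank ℚ W = (n + 1) * finrank ℚ W + finrank ℚ W := by ring
      omega

end Pool.Agent.Helper28K9.RK
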