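import Pool.Agent.Helper28K9.RK.Stm

/-! [TRANS] (helper15): the translates of a polynomial by roots of unity. -/

set_option autoImplicit false

open NumberField Module Finset

namespace Pool.Agent.Helper28K9.RK

namespace TransL

open MvPolynomial

/-- rescaling of the variables -/
noncomputable def sc (c : Fin 2 → ℂ) : MvPolynomial (Fin 2) ℂ →ₐ[ℂ] MvPolynomial (Fin 2) ℂ :=
  aeval fun i => C (c i) * X i

theorem sc_monomial (c : Fin 2 → ℂ) (s : Fin 2 →₀ ℕ) (a : ℂ) :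
    sc c (monomial s a) = monomial s (c 0 ^ s 0 * c 1 ^ s 1 * a) := by
  unfold sc
  rw [aeval_monomial, Finsupp.prod_fintype _ _ (fun i => pow_zero _), Fin.prod_univ_two,
    monomial_eq (s := s), Finsupp.prod_fintype _ _ (fun i => pow_zero _), Fin.prod_univ_two]
  simp only [mul_pow, map_mul, map_pow, algebraMap_eq]
  ring

theorem coeff_sc (c : Fin 2 → ℂ) (s : Fin 2 →₀ ℕ) (g : MvPolynomial (Fin 2) ℂ) :
    coeff s (sc c g) = c 0 ^ s 0 * c 1 ^ s 1 * coeff s g := by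
  classical
  induction g using MvPolynomial.induction_on' with
  | monomial t a =>
    rw [sc_monomial, coeff_monomial, coeff_monomial]
    split_ifs with h
    · subst h
      rfl
    · simp
  | add p q hp hq =>
    rw [map_add, coeff_add, coeff_add, hp, hq]
    ring

theorem sc_sc (c c' : Fin 2 → ℂ) (h0 : c 0 * c' 0 = 1) (h1 : c 1 * c' 1 = 1) (g : MvPolynomial (Fin 2) ℂ) :
    sc c (sc c' g) = g := by
  ext s
  rw [coeff_sc, coeff_sc]
  have e : c 0 ^ s 0 * c 1 ^ s 1 * (c' 0 ^ s 0 * c' 1 ^ s 1 * coeff s g) =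
      (c 0 * c' 0) ^ s 0 * (c 1 * c' 1) ^ s 1 * coeff s g := by ring
  rw [e, h0, h1, one_pow, one_pow, one_mul, one_mul]

theorem sc_irr {c : Fin 2 → ℂ} (h0 : c 0 ≠ 0) (h1 : c 1 ≠ 0) {g : MvPolynomial (Fin 2) ℂ} (hg : Irreducible g) :
    Irreducible (sc c g) := by
  let e : MvPolynomial (Fin 2) ℂ ≃* MvPolynomial (Fin 2) ℂ :=
    { toFun := sc c
      invFun := sc c⁻¹
      left_inv := fun x => sc_sc _ _ (by simp [h0]) (by simp [h1]) x
      right_inv := fun x => sc_sc _ _ (by simp [h0]) (by simp [h1]) x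
      map_mul' := map_mul _ }
  exact (MulEquiv.irreducible_iff e).2 hg

theorem sc_support {c : Fin 2 → ℂ} (h0 : c 0 ≠ 0) (h1 : c 1 ≠ 0) (g : MvPolynomial (Fin 2) ℂ) :
    (sc c g).support = g.support := by
  ext s
  rw [MvPolynomial.mem_support_iff, MvPolynomial.mem_support_iff, coeff_sc]
  have h : c 0 ^ s 0 * c 1 ^ s 1 ≠ 0 := mul_ne_zero (pow_ne_zero _ h0) (pow_ne_zero _ h1)
  constructor
  · intro h2 h3
    exact h2 (by rw [h3, mul_zero])
  · intro h2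
    exact mul_ne_zero h h2

theorem sc_degreeOf {c : Fin 2 → ℂ} (h0 : c 0 ≠ 0) (h1 : c 1 ≠ 0) (g : MvPolynomial (Fin 2) ℂ) (i : Fin 2) :
    (sc c g).degreeOf i = g.degreeOf i := by
  rw [degreeOf_eq_sup, degreeOf_eq_sup, sc_support h0 h1]

theorem sc_expand {c : Fin 2 → ℂ} {q : ℕ} (h0 : c 0 ^ q = 1) (h1 : c 1 ^ q = 1) (R : MvPolynomial (Fin 2) ℂ) :
    sc c (expand q R) = expand q R := by
  have h : (sc c).comp (expand q) = expand q := by
    apply algHom_ext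
    intro i
    have hi : c i ^ q = 1 := by
      fin_cases i
      · exact h0
      · exact h1
    rw [AlgHom.comp_apply, expand_X, map_pow]
    unfold sc
    rw [aeval_X, mul_pow, ← map_pow, hi, map_one, one_mul]
  exact congrArg (fun f => f R) h

theorem degreeOf_expand_le (q : ℕ) (R : MvPolynomial (Fin 2) ℂ) (i : Fin 2) :
    (expand q R).degreeOf i ≤ q * R.degreeOf i := by
  classical
  rw [degreeOf_eq_sup, Finset.sup_le_iff]
  intro m hm
  obtain ⟨s, hs, rfl⟩ := Finset.mem_image.1 (support_expand_subset R hm)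
  have h := monomial_le_degreeOf i hs
  simpa using Nat.mul_le_mul_left q h

/-- two rescalings of `g` which are associated -/
theorem assoc {g : MvPolynomial (Fin 2) ℂ} {q : ℕ} {ζ : ℂ} (hζ : IsPrimitiveRoot ζ q) (hq0 : 0 < q) (a b a' b' : ℕ)
    (h : Associated (sc ![ζ ^ a, ζ ^ b] g) (sc ![ζ ^ a', ζ ^ b'] g)) :
    ∀ s ∈ g.support, ∀ t ∈ g.support,
      (q : ℤ) ∣ ((a' : ℤ) - a) * ((t 0 : ℤ) - s 0) + ((b' : ℤ) - b) * ((t 1 : ℤ) - s 1) := by
  have hζ0 : ζ ≠ 0 := hζ.ne_zero hq0.ne'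
  obtain ⟨u, hu⟩ := h
  obtain ⟨r, hr, hur⟩ := isUnit_iff_eq_C_of_isReduced.1 u.isUnit
  have hr0 : r ≠ 0 := hr.ne_zero
  have key : ∀ s ∈ g.support, ζ ^ ((a' : ℤ) * s 0 + (b' : ℤ) * s 1 - ((a : ℤ) * s 0 + (b : ℤ) * s 1)) = r := by
    intro s hs
    have h1 := congrArg (coeff s) hu
    rw [hur, mul_comm, coeff_C_mul, coeff_sc, coeff_sc] at h1
    simp only [Matrix.cons_val_zero, Matrix.cons_val_one] at h1
    have h2 : coeff s g ≠ 0 := MvPolynomial.mem_support_iff.1 hs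
    rw [zpow_sub₀ hζ0, zpow_add₀ hζ0, zpow_add₀ hζ0]
    have e1 : ∀ x y : ℕ, ζ ^ ((x : ℤ) * (y : ℤ)) = (ζ ^ x) ^ y := by
      intro x y
      rw [zpow_mul, zpow_natCast, zpow_natCast]
    rw [e1, e1, e1, e1, div_eq_iff (mul_ne_zero (pow_ne_zero _ (pow_ne_zero _ hζ0)) (pow_ne_zero _ (pow_ne_zero _ hζ0)))]
    apply mul_right_cancel₀ h2
    rw [← h1]
    ring
  intro s hs t ht
  have h1 := key s hs
  have h2 := key t ht
  have h3 : ζ ^ (((a' : ℤ) - a) * ((t 0 : ℤ) - s 0) + ((b' : ℤ) - b) * ((t 1 : ℤ) - s 1)) = 1 := by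
    have e : ((a' : ℤ) - a) * ((t 0 : ℤ) - s 0) + ((b' : ℤ) - b) * ((t 1 : ℤ) - s 1) =
        ((a' : ℤ) * t 0 + (b' : ℤ) * t 1 - ((a : ℤ) * t 0 + (b : ℤ) * t 1)) -
        ((a' : ℤ) * s 0 + (b' : ℤ) * s 1 - ((a : ℤ) * s 0 + (b : ℤ) * s 1)) := by ring
    rw [e, zpow_sub₀ hζ0, h1, h2, div_self hr0]
  exact (hζ.zpow_eq_one_iff_dvd _).1 h3

end TransL

open TransL MvPolynomial in
theorem trans_ : S_TRANS := by
  classical
  intro g R ω q hg hω hdet hq hqω hR hgR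
  obtain ⟨s, hs, t, ht, r, hr, hd⟩ := hdet
  have hq0 : 0 < q := hq.pos
  obtain ⟨ζ, hζ⟩ : ∃ ζ : ℂ, IsPrimitiveRoot ζ q := ⟨_, Complex.isPrimitiveRoot_exp q hq0.ne'⟩
  have hζ0 : ζ ≠ 0 := hζ.ne_zero hq0.ne'
  have hζq : ζ ^ q = 1 := hζ.pow_eq_one
  -- the determinant is not divisible by `q`
  have hbd : ∀ s' ∈ g.support, ∀ i, (s' i : ℤ) < ω := fun s' hs' i => by
    have h1 := monomial_le_degreeOf i hs'
    have h2 := hω i
    exact_mod_cast lt_of_le_of_lt h1 h2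
  have hdiff : ∀ s' ∈ g.support, ∀ t' ∈ g.support, ∀ i, |(t' i : ℤ) - s' i| ≤ ω := by
    intro s' hs' t' ht' i
    have h1 := hbd s' hs' i
    have h2 := hbd t' ht' i
    rw [abs_le]
    constructor <;> omega
  have hdle : |det3 s t r| ≤ 2 * (ω : ℤ) ^ 2 := by
    unfold det3
    have e1 := hdiff s hs t ht 0
    have e2 := hdiff s hs r hr 1
    have e3 := hdiff s hs r hr 0
    have e4 := hdiff s hs t ht 1
    have f1 := mul_le_mul e1 e2 (abs_nonneg _) (Int.natCast_nonneg ω)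
    have f2 := mul_le_mul e3 e4 (abs_nonneg _) (Int.natCast_nonneg ω)
    rw [← abs_mul] at f1 f2
    refine (abs_sub _ _).trans ?_
    nlinarith
  have hqd : ¬ (q : ℤ) ∣ det3 s t r := by
    intro h
    have h1 := Int.le_of_dvd (abs_pos.2 hd) ((dvd_abs _ _).2 h)
    have h2 : (2 * (ω : ℤ) ^ 2) < q := by exact_mod_cast hqω
    omega
  have hqp : Prime (q : ℤ) := Nat.prime_iff_prime_int.1 hq
  set F : Fin q × Fin q → MvPolynomial (Fin 2) ℂ := fun p => sc ![ζ ^ (p.1 : ℕ), ζ ^ (p.2 : ℕ)] g with hF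
  have hc0 : ∀ a b : ℕ, (![ζ ^ a, ζ ^ b] : Fin 2 → ℂ) 0 ≠ 0 := fun a b => by
    simpa using pow_ne_zero a hζ0
  have hc1 : ∀ a b : ℕ, (![ζ ^ a, ζ ^ b] : Fin 2 → ℂ) 1 ≠ 0 := fun a b => by
    simpa using pow_ne_zero b hζ0
  have hirr : ∀ p, Irreducible (F p) := fun p => sc_irr (hc0 _ _) (hc1 _ _) hg
  have hdvd : ∀ p, F p ∣ expand q R := by
    intro p
    have h1 := (sc ![ζ ^ (p.1 : ℕ), ζ ^ (p.2 : ℕ)]).toRingHom.map_dvd hgR
    have h2 : sc ![ζ ^ (p.1 : ℕ), ζ ^ (p.2 : ℕ)] (expand q R) = expand q R := by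
      refine sc_expand ?_ ?_ R
      · show (ζ ^ (p.1 : ℕ)) ^ q = 1
        rw [← pow_mul, mul_comm, pow_mul, hζq, one_pow]
      · show (ζ ^ (p.2 : ℕ)) ^ q = 1
        rw [← pow_mul, mul_comm, pow_mul, hζq, one_pow]
    have h3 : sc ![ζ ^ (p.1 : ℕ), ζ ^ (p.2 : ℕ)] g ∣ sc ![ζ ^ (p.1 : ℕ), ζ ^ (p.2 : ℕ)] (expand q R) := h1
    rw [h2] at h3
    exact h3
  have hpair : ((Finset.univ : Finset (Fin q × Fin q)) : Set (Fin q × Fin q)).Pairwise
      (Function.onFun IsRelPrime F) := by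
    intro p _ p' _ hne
    show IsRelPrime (F p) (F p')
    rw [(hirr p).isRelPrime_iff_not_dvd]
    intro hcon
    have has : Associated (F p) (F p') := (hirr p).associated_of_dvd (hirr p') hcon
    apply hne
    have h1 := assoc hζ hq0 _ _ _ _ has s hs t ht
    have h2 := assoc hζ hq0 _ _ _ _ has s hs r hr
    have hu : (q : ℤ) ∣ (((p'.1 : ℕ) : ℤ) - (p.1 : ℕ)) * det3 s t r := by
      have e : (((p'.1 : ℕ) : ℤ) - (p.1 : ℕ)) * det3 s t r =
          ((((p'.1 : ℕ) : ℤ) - (p.1 : ℕ)) * ((t 0 : ℤ) - s 0) + (((p'.2 : ℕ) : ℤ) - (p.2 : ℕ)) * ((t 1 : ℤ) - s 1)) *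
            ((r 1 : ℤ) - s 1) -
          ((((p'.1 : ℕ) : ℤ) - (p.1 : ℕ)) * ((r 0 : ℤ) - s 0) + (((p'.2 : ℕ) : ℤ) - (p.2 : ℕ)) * ((r 1 : ℤ) - s 1)) *
            ((t 1 : ℤ) - s 1) := by
        unfold det3
        ring
      rw [e]
      exact dvd_sub (h1.mul_right _) (h2.mul_right _)
    have hv : (q : ℤ) ∣ (((p'.2 : ℕ) : ℤ) - (p.2 : ℕ)) * det3 s t r := by
      have e : (((p'.2 : ℕ) : ℤ) - (p.2 : ℕ)) * det3 s t r =
          ((((p'.1 : ℕ) : ℤ) - (p.1 : ℕ)) * ((r 0 : ℤ) - s 0) + (((p'.2 : ℕ) : ℤ) - (p.2 : ℕ)) * ((r 1 : ℤ) - s 1)) *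
            ((t 0 : ℤ) - s 0) -
          ((((p'.1 : ℕ) : ℤ) - (p.1 : ℕ)) * ((t 0 : ℤ) - s 0) + (((p'.2 : ℕ) : ℤ) - (p.2 : ℕ)) * ((t 1 : ℤ) - s 1)) *
            ((r 0 : ℤ) - s 0) := by
        unfold det3
        ring
      rw [e]
      exact dvd_sub (h2.mul_right _) (h1.mul_right _)
    have hzero : ∀ x y : Fin q, (q : ℤ) ∣ (((y : ℕ) : ℤ) - (x : ℕ)) → x = y := by
      intro x y hxy
      have hx := x.2
      have hy := y.2
      obtain ⟨k, hk⟩ := hxy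
      have hk0 : k = 0 := by
        by_contra hk0
        have h3 : (q : ℤ) ≤ |(q : ℤ) * k| := by
          rw [abs_mul, Nat.abs_cast]
          have h4 : 1 ≤ |k| := Int.one_le_abs hk0
          nlinarith [Int.natCast_nonneg q]
        rw [← hk] at h3
        have h5 : |((y : ℕ) : ℤ) - (x : ℕ)| < q := by
          rw [abs_lt]
          constructor <;> omega
        omega
      rw [hk0, mul_zero] at hk
      apply Fin.ext
      omega
    exact Prod.ext (hzero _ _ ((hqp.dvd_or_dvd hu).resolve_right hqd)) (hzero _ _ ((hqp.dvd_or_dvd hv).resolve_right hqd))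
  have hprod : ∏ p, F p ∣ expand q R := Finset.prod_dvd_of_isRelPrime hpair fun p _ => hdvd p
  obtain ⟨k, hk⟩ := hprod
  have hE0 : expand q R ≠ 0 := (expand_ne_zero hq0).2 hR
  have hk0 : k ≠ 0 := by
    rintro rfl
    exact hE0 (by rw [hk, mul_zero])
  have hP0 : ∏ p, F p ≠ 0 := Finset.prod_ne_zero_iff.2 fun p _ => (hirr p).ne_zero
  have hdeg := congrArg (degreeOf 0) hk
  rw [degreeOf_mul_eq hP0 hk0, degreeOf_prod_eq _ _ fun p _ => (hirr p).ne_zero] at hdeg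
  have h1 : ∑ p, (F p).degreeOf 0 = q ^ 2 * g.degreeOf 0 := by
    have e : ∀ p, (F p).degreeOf 0 = g.degreeOf 0 := fun p => sc_degreeOf (hc0 _ _) (hc1 _ _) g 0
    simp only [e, Finset.sum_const, Finset.card_univ, Fintype.card_prod, Fintype.card_fin, smul_eq_mul]
    ring
  rw [h1] at hdeg
  have h2 := degreeOf_expand_le q R 0
  have h3 : 1 ≤ g.degreeOf 0 := by
    by_contra hcon
    have h4 : g.degreeOf 0 = 0 := by omega
    have h5 : ∀ s' ∈ g.support, s' 0 = 0 := fun s' hs' => by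
      have := monomial_le_degreeOf 0 hs'
      omega
    apply hd
    unfold det3
    rw [h5 s hs, h5 t ht, h5 r hr]
    simp
  have h6 : q * q ≤ q * R.degreeOf 0 := by nlinarith
  exact Nat.le_of_mul_le_mul_left h6 hq0

end Pool.Agent.Helper28K9.RK
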