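import Mathlib
import Pool.Agent.Helper28K9.RK.Hkb

/-!
# [SEP]: polynomials which separate the points `(x ^ q, y ^ q)` and `(x ^ p, y ^ p)`
-/

set_option autoImplicit false

open NumberField Module Finset

namespace Pool.Agent.Helper28K9.RK.H48

/-- the span of the monomials with exponents at most `n` in an algebra -/
def gr {S : Type} [CommRing S] [Algebra ℚ S] (n : ℕ) (u v : S) : Submodule ℚ S :=
  Submodule.span ℚ (Set.range fun p : Fin (n + 1) × Fin (n + 1) => u ^ (p.1 : ℕ) * v ^ (p.2 : ℕ))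

section

variable {S : Type} [CommRing S] [Algebra ℚ S]

theorem mono_mem_gr {n i j : ℕ} (u v : S) (hi : i ≤ n) (hj : j ≤ n) :
    u ^ i * v ^ j ∈ gr n u v :=
  Submodule.subset_span ⟨(⟨i, by omega⟩, ⟨j, by omega⟩), rfl⟩

theorem gr_mono {n m : ℕ} (h : n ≤ m) (u v : S) : gr n u v ≤ gr m u v := by
  unfold gr
  rw [Submodule.span_le]
  rintro _ ⟨p, rfl⟩
  exact mono_mem_gr u v (by have := p.1.2; omega) (by have := p.2.2; omega)

theorem gr_mul {n m : ℕ} (u v : S) {a b : S} (ha : a ∈ gr n u v) (hb : b ∈ gr m u v) :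
    a * b ∈ gr (n + m) u v := by
  have h : gr n u v * gr m u v ≤ gr (n + m) u v := by
    unfold gr
    rw [Submodule.span_mul_span, Submodule.span_le]
    rintro _ ⟨_, ⟨p, rfl⟩, _, ⟨r, rfl⟩, rfl⟩
    have : (fun p : Fin (n + 1) × Fin (n + 1) => u ^ (p.1 : ℕ) * v ^ (p.2 : ℕ)) p *
        (fun p : Fin (m + 1) × Fin (m + 1) => u ^ (p.1 : ℕ) * v ^ (p.2 : ℕ)) r =
        u ^ ((p.1 : ℕ) + r.1) * v ^ ((p.2 : ℕ) + r.2) := by
      simp only [pow_add]; ring
    rw [SetLike.mem_coe]
    change (fun p : Fin (n + 1) × Fin (n + 1) => u ^ (p.1 : ℕ) * v ^ (p.2 : ℕ)) p *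
        (fun p : Fin (m + 1) × Fin (m + 1) => u ^ (p.1 : ℕ) * v ^ (p.2 : ℕ)) r ∈ _
    rw [this]
    exact mono_mem_gr u v (by have := p.1.2; have := r.1.2; omega)
      (by have := p.2.2; have := r.2.2; omega)
  exact h (Submodule.mul_mem_mul ha hb)

theorem one_mem_gr (n : ℕ) (u v : S) : (1 : S) ∈ gr n u v := by
  simpa using mono_mem_gr (n := n) (i := 0) (j := 0) u v (by omega) (by omega)

/-- elements of `gr` come from coefficients -/
theorem mem_gr_iff (n : ℕ) (u v a : S) :
    a ∈ gr n u v ↔ ∃ c : ℕ → ℕ → ℚ, evl (n + 1) (n + 1) c u v = a := by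
  constructor
  · intro h
    unfold gr at h
    obtain ⟨c, hc⟩ := (Submodule.mem_span_range_iff_exists_fun ℚ).1 h
    refine ⟨fun i j => if h : i < n + 1 ∧ j < n + 1 then c (⟨i, h.1⟩, ⟨j, h.2⟩) else 0, ?_⟩
    rw [← hc]
    unfold evl
    rw [Finset.sum_range, Fintype.sum_prod_type]
    refine Finset.sum_congr rfl fun i _ => ?_
    rw [Finset.sum_range]
    refine Finset.sum_congr rfl fun j _ => ?_
    have hij : (i : ℕ) < n + 1 ∧ (j : ℕ) < n + 1 := ⟨i.2, j.2⟩
    simp only [hij, and_self, dif_pos, Fin.eta, Algebra.smul_def, mul_assoc]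
  · rintro ⟨c, rfl⟩
    unfold evl
    refine Submodule.sum_mem _ fun i hi => Submodule.sum_mem _ fun j hj => ?_
    rw [mul_assoc, ← Algebra.smul_def]
    exact Submodule.smul_mem _ _ (mono_mem_gr u v (by have := Finset.mem_range.1 hi; omega)
      (by have := Finset.mem_range.1 hj; omega))

end

theorem gr_prod_snd {K : Type} [Field K] [NumberField K] {n : ℕ} {u v u' v' : K} {a b : K}
    (h : (a, b) ∈ gr n ((u, u') : K × K) (v, v')) :
    ∃ c : ℕ → ℕ → ℚ, evl (n + 1) (n + 1) c u v = a ∧ evl (n + 1) (n + 1) c u' v' = b := by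
  obtain ⟨c, hc⟩ := (mem_gr_iff _ _ _ _).1 h
  refine ⟨c, ?_, ?_⟩
  · have h1 : (evl (n + 1) (n + 1) c (u, u') (v, v') : K × K).1 = a := congrArg Prod.fst hc
    rw [← h1]
    unfold evl
    rw [Prod.fst_sum]
    refine Finset.sum_congr rfl fun i _ => ?_
    rw [Prod.fst_sum]
    refine Finset.sum_congr rfl fun j _ => ?_
    simp
  · have h1 : (evl (n + 1) (n + 1) c (u, u') (v, v') : K × K).2 = b := congrArg Prod.snd hc
    rw [← h1]
    unfold evl
    rw [Prod.snd_sum]
    refine Finset.sum_congr rfl fun i _ => ?_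
    rw [Prod.snd_sum]
    refine Finset.sum_congr rfl fun j _ => ?_
    simp

theorem sep_main : S_SEP := by
  intro K _ _ x y A p q hA hpq hx hbox
  by_contra hcon
  push Not at hcon
  set G : ℕ → Submodule ℚ (K × K) := fun n => gr n ((x ^ q, x ^ p) : K × K) (y ^ q, y ^ p)
    with hG
  -- uniqueness
  have huniq : ∀ a b b' : K, (a, b) ∈ G (2 * A) → (a, b') ∈ G (2 * A) → b = b' := by
    intro a b b' h h'
    have h2 : ((0 : K), b - b') ∈ G (2 * A) := by
      have := Submodule.sub_mem _ h h'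
      simpa using this
    obtain ⟨c, hc1, hc2⟩ := gr_prod_snd h2
    have := hcon c hc1
    rw [hc2] at this
    exact sub_eq_zero.1 this
  -- existence
  have hex : ∀ a : K, ∃ b : K, (a, b) ∈ G A := by
    intro a
    have ha : a ∈ gr A (x ^ q) (y ^ q) := by
      have : gr A (x ^ q) (y ^ q) = ⊤ := hbox
      rw [this]; trivial
    obtain ⟨c, hc⟩ := (mem_gr_iff _ _ _ _).1 ha
    refine ⟨evl (A + 1) (A + 1) c (x ^ p) (y ^ p), ?_⟩
    refine (mem_gr_iff _ _ _ _).2 ⟨c, ?_⟩
    refine Prod.ext ?_ ?_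
    · rw [← hc]
      unfold evl
      rw [Prod.fst_sum]
      refine Finset.sum_congr rfl fun i _ => ?_
      rw [Prod.fst_sum]
      refine Finset.sum_congr rfl fun j _ => ?_
      simp
    · unfold evl
      rw [Prod.snd_sum]
      refine Finset.sum_congr rfl fun i _ => ?_
      rw [Prod.snd_sum]
      refine Finset.sum_congr rfl fun j _ => ?_
      simp
  choose z hz using hex
  have hAA : G A ≤ G (2 * A) := gr_mono (by omega) _ _
  have hmem : ∀ a b : K, (a, b) ∈ G (2 * A) → z a = b := fun a b h =>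
    huniq a _ _ (hAA (hz a)) h
  let ψ : K →+* K :=
    { toFun := z
      map_one' := hmem 1 1 (one_mem_gr _ _ _)
      map_mul' := fun a b => by
        refine hmem (a * b) (z a * z b) ?_
        have := gr_mul _ _ (hz a) (hz b)
        rw [← two_mul] at this
        exact this
      map_zero' := hmem 0 0 (Submodule.zero_mem _)
      map_add' := fun a b => by
        refine hmem (a + b) (z a + z b) ?_
        exact hAA (Submodule.add_mem _ (hz a) (hz b)) }
  have hψ : ψ (x ^ q) = x ^ p := by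
    refine hmem (x ^ q) (x ^ p) ?_
    have := mono_mem_gr (n := 2 * A) (i := 1) (j := 0) ((x ^ q, x ^ p) : K × K)
      (y ^ q, y ^ p) (by omega) (by omega)
    simpa using this
  have h1 := hk_map K ψ (x ^ q)
  rw [hψ, hk_pow, hk_pow] at h1
  have h2 := mul_right_cancel₀ hx h1
  exact hpq (by exact_mod_cast h2)

end Pool.Agent.Helper28K9.RK.H48

namespace Pool.Agent.Helper28K9.RK

/-- [SEP] -/
theorem sep : S_SEP := H48.sep_main

end Pool.Agent.Helper28K9.RK
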