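import Mathlib
import Pool.Agent.Helper28K9.RK.Sep

/-!
# [UNION]: the evaluation at all the points of `Q` is onto
-/

set_option autoImplicit false

open NumberField Module Finset

namespace Pool.Agent.Helper28K9.RK.H48

theorem gr_pi_evl {K : Type} [Field K] [NumberField K] {n : ℕ} {Q : Finset ℕ} (u v : Q → K)
    (c : ℕ → ℕ → ℚ) (q : Q) :
    (evl (n + 1) (n + 1) c u v : Q → K) q = evl (n + 1) (n + 1) c (u q) (v q) := by
  unfold evl
  rw [Finset.sum_apply]
  refine Finset.sum_congr rfl fun i _ => ?_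
  rw [Finset.sum_apply]
  refine Finset.sum_congr rfl fun j _ => ?_
  simp

theorem gr_prod {S : Type} [CommRing S] [Algebra ℚ S] {ι : Type} (s : Finset ι) (f : ι → S)
    (n : ℕ) (u v : S) (h : ∀ i ∈ s, f i ∈ gr n u v) : ∏ i ∈ s, f i ∈ gr (n * s.card) u v := by
  classical
  induction s using Finset.induction_on with
  | empty => simpa using one_mem_gr _ u v
  | insert a s ha ih =>
    rw [Finset.prod_insert ha, Finset.card_insert_of_notMem ha]
    have h1 := gr_mul u v (h a (Finset.mem_insert_self _ _))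
      (ih fun i hi => h i (Finset.mem_insert_of_mem hi))
    refine gr_mono (le_of_eq ?_) u v h1
    ring

theorem union_main : S_UNION := by
  classical
  intro K _ _ x y A Q hA hbox hsep
  set U : Q → K := fun q => x ^ (q : ℕ) with hU
  set V : Q → K := fun q => y ^ (q : ℕ) with hV
  have hspan : Submodule.span ℚ (Set.range fun p : Fin (2 * A * Q.card + 1) ×
      Fin (2 * A * Q.card + 1) => (fun q : Q => (x ^ (q : ℕ)) ^ (p.1 : ℕ) *
        (y ^ (q : ℕ)) ^ (p.2 : ℕ) : Q → K)) = gr (2 * A * Q.card) U V := rfl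
  have htop : gr (2 * A * Q.card) U V = ⊤ := by
    rw [eq_top_iff]
    -- single vectors
    have hsingle : ∀ (p : Q) (α : K), (Pi.single p α : Q → K) ∈ gr (2 * A * Q.card) U V := by
      intro p α
      -- separating elements
      have h1 : ∀ q : Q, q ≠ p → ∃ s : Q → K, s ∈ gr (2 * A) U V ∧ s q = 0 ∧ s p ≠ 0 := by
        intro q hq
        obtain ⟨c, hc1, hc2⟩ := hsep q q.2 p p.2 (fun h => hq (Subtype.ext h.symm))
        refine ⟨evl (2 * A + 1) (2 * A + 1) c U V, (mem_gr_iff _ _ _ _).2 ⟨c, rfl⟩, ?_, ?_⟩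
        · rw [gr_pi_evl]; exact hc1
        · rw [gr_pi_evl]; exact hc2
      choose! s hs1 hs2 hs3 using h1
      set P : Q → K := ∏ q ∈ Finset.univ.erase p, s q with hP
      have hPmem : P ∈ gr (2 * A * (Q.card - 1)) U V := by
        have h2 := gr_prod (Finset.univ.erase p) s (2 * A) U V
          (fun q hq => hs1 q (Finset.ne_of_mem_erase hq))
        rw [Finset.card_erase_of_mem (Finset.mem_univ p), Finset.card_univ, Fintype.card_coe] at h2
        exact h2
      have hP0 : ∀ q : Q, q ≠ p → P q = 0 := by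
        intro q hq
        rw [hP, Finset.prod_apply]
        exact Finset.prod_eq_zero (Finset.mem_erase.2 ⟨hq, Finset.mem_univ q⟩) (hs2 q hq)
      have hPp : P p ≠ 0 := by
        rw [hP, Finset.prod_apply]
        exact Finset.prod_ne_zero_iff.2 fun q hq => hs3 q (Finset.ne_of_mem_erase hq)
      -- the polynomial of degree at most `A`
      have h3 : (P p)⁻¹ * α ∈ gr A (x ^ (p : ℕ)) (y ^ (p : ℕ)) := by
        have : gr A (x ^ (p : ℕ)) (y ^ (p : ℕ)) = ⊤ := hbox p p.2
        rw [this]; trivial
      obtain ⟨c, hc⟩ := (mem_gr_iff _ _ _ _).1 h3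
      have h4 : evl (A + 1) (A + 1) c U V ∈ gr A U V := (mem_gr_iff _ _ _ _).2 ⟨c, rfl⟩
      have h5 := gr_mul U V hPmem h4
      have h6 : P * evl (A + 1) (A + 1) c U V = Pi.single p α := by
        funext q
        rw [Pi.mul_apply]
        by_cases hq : q = p
        · subst hq
          rw [gr_pi_evl, Pi.single_eq_same]
          change P q * evl (A + 1) (A + 1) c (x ^ (q : ℕ)) (y ^ (q : ℕ)) = α
          rw [hc, mul_inv_cancel_left₀ hPp]
        · rw [hP0 q hq, Pi.single_eq_of_ne hq, zero_mul]
      rw [h6] at h5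
      have hcard : 1 ≤ Q.card := Finset.card_pos.2 ⟨p, p.2⟩
      refine gr_mono ?_ U V h5
      obtain ⟨m, hm⟩ : ∃ m, Q.card = m + 1 := ⟨Q.card - 1, by omega⟩
      rw [hm]
      have : m + 1 - 1 = m := by omega
      rw [this]
      nlinarith
    intro f _
    have hf : f = ∑ p : Q, Pi.single p (f p) := by
      funext q
      rw [Finset.sum_apply]
      simp [Pi.single_apply]
    rw [hf]
    exact Submodule.sum_mem _ fun p _ => hsingle p (f p)
  unfold rk
  rw [hspan, htop, finrank_top, Module.finrank_pi_fintype]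
  simp

end Pool.Agent.Helper28K9.RK.H48

namespace Pool.Agent.Helper28K9.RK

/-- [UNION] -/
theorem union : S_UNION := H48.union_main

end Pool.Agent.Helper28K9.RK
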