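import Mathlib
import Pool.Agent.Helper28K9.RK.Bez
import Pool.Agent.Helper28K9.RK.Badq
import Pool.Agent.Helper28K9.RK.CaseA
import Pool.Agent.Helper28K9.RK.Count
import Pool.Agent.Helper28K9.RK.Degp
import Pool.Agent.Helper28K9.RK.Disc
import Pool.Agent.Helper28K9.RK.Extrap
import Pool.Agent.Helper28K9.RK.Fib
import Pool.Agent.Helper28K9.RK.Full
import Pool.Agent.Helper28K9.RK.Hkb
import Pool.Agent.Helper28K9.RK.Irr
import Pool.Agent.Helper28K9.RK.Jrk0
import Pool.Agent.Helper28K9.RK.Jrk1
import Pool.Agent.Helper28K9.RK.Lift
import Pool.Agent.Helper28K9.RK.Line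
import Pool.Agent.Helper28K9.RK.Loc
import Pool.Agent.Helper28K9.RK.Nt
import Pool.Agent.Helper28K9.RK.Pack
import Pool.Agent.Helper28K9.RK.Pick
import Pool.Agent.Helper28K9.RK.Primes
import Pool.Agent.Helper28K9.RK.Sepd
import Pool.Agent.Helper28K9.RK.Small
import Pool.Agent.Helper28K9.RK.Span
import Pool.Agent.Helper28K9.RK.Trans
import Pool.Agent.Helper28K9.RK.Union

/-!
# The weak two-dimensional Lehmer bound, without hypotheses
-/

set_option autoImplicit false

namespace Pool.Agent.Helper28K9.RK

theorem loc_final : S_LOC := loc lift tay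

theorem count_final : S_COUNT := count pack fib sepd

theorem full_final : S_FULL := full irr bez line trans_

theorem casea_final : S_CASEA :=
  casea full_final (small hkb) count_final (ex1 nb) jrk1 irr primes hkb

theorem caseb_final : S_CASEB :=
  caseb span_ sep union (extrap loc_final nb) count_final jrk0

theorem pick_final : S_PICK := pick primes badq disc degp

/-- **the weak two-dimensional Lehmer bound** -/
theorem nt_final : S_NT := nt casea_final caseb_final pick_final hkb

end Pool.Agent.Helper28K9.RK
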