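import Pool.Agent.Helper28K9.RK.StmCA

/-!
# Leaf CA: modules that are not finitely generated as abelian groups
-/

set_option autoImplicit false

namespace Pool.Agent.Helper28K9.RKF

universe u

namespace CaL

/-- an extension of modules finite over `ℤ` -/
theorem fin_of {R M : Type u} [CommRing R] [AddCommGroup M] [Module R M] (C : Submodule R M)
    (h1 : Module.Finite ℤ C) (h2 : Module.Finite ℤ (M ⧸ C)) : Module.Finite ℤ M := by
  have e1 : Module.Finite ℤ (C.restrictScalars ℤ) := h1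
  have e2 : Module.Finite ℤ (M ⧸ C.restrictScalars ℤ) :=
    Module.Finite.equiv (Submodule.Quotient.restrictScalarsEquiv ℤ C).symm
  exact Module.Finite.of_submodule_quotient (C.restrictScalars ℤ)

/-- a minimal quotient which is not finite over `ℤ` -/
theorem exists_min {R A : Type u} [CommRing R] [AddCommGroup A] [Module R A] [IsNoetherian R A]
    (hA : ¬ Module.Finite ℤ A) : ∃ B : Submodule R A, ¬ Module.Finite ℤ (A ⧸ B) ∧
      ∀ C : Submodule R (A ⧸ B), C ≠ ⊥ → Module.Finite ℤ ((A ⧸ B) ⧸ C) := by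
  obtain ⟨B, hB, hmax⟩ := WellFounded.has_min
    (wellFounded_gt (α := Submodule R A)) {B | ¬ Module.Finite ℤ (A ⧸ B)} ⟨⊥, by
      intro h
      exact hA (Module.Finite.equiv ((Submodule.quotEquivOfEqBot (⊥ : Submodule R A) rfl).restrictScalars ℤ))⟩
  refine ⟨B, hB, fun C hC => ?_⟩
  have h1 : Module.Finite ℤ (A ⧸ C.comap B.mkQ) := by
    by_contra hcon
    apply hmax _ hcon
    refine lt_of_le_of_ne (Submodule.le_comap_mkQ B C) ?_
    intro h
    apply hC
    have h2 : C = (C.comap B.mkQ).map B.mkQ :=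
      (Submodule.map_comap_eq_of_surjective (Submodule.mkQ_surjective B) C).symm
    rw [h2, ← h, Submodule.mkQ_map_self]
  let f : (A ⧸ C.comap B.mkQ) →ₗ[R] ((A ⧸ B) ⧸ C) := Submodule.mapQ _ _ B.mkQ le_rfl
  have hf : Function.Surjective f := by
    intro x
    obtain ⟨y, rfl⟩ := Submodule.mkQ_surjective C x
    obtain ⟨z, rfl⟩ := Submodule.mkQ_surjective B y
    exact ⟨Submodule.Quotient.mk z, rfl⟩
  exact Module.Finite.of_surjective (f.restrictScalars ℤ) hf

/-- every element acts as zero or injectively -/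
theorem inj_or_zero {R M : Type u} [CommRing R] [AddCommGroup M] [Module R M]
    (hM : ¬ Module.Finite ℤ M)
    (hC : ∀ C : Submodule R M, C ≠ ⊥ → Module.Finite ℤ (M ⧸ C)) (r : R) :
    (∀ m : M, r • m = 0) ∨ ∀ m : M, r • m = 0 → m = 0 := by
  by_contra hcon
  push Not at hcon
  obtain ⟨⟨m1, h1⟩, m2, h2, h3⟩ := hcon
  let f : M →ₗ[R] M := LinearMap.lsmul R M r
  have hr : LinearMap.range f ≠ ⊥ := by
    intro h
    apply h1
    have : f m1 ∈ LinearMap.range f := ⟨m1, rfl⟩
    rw [h, Submodule.mem_bot] at this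
    exact this
  have hk : LinearMap.ker f ≠ ⊥ := by
    intro h
    apply h3
    have : m2 ∈ LinearMap.ker f := h2
    rwa [h, Submodule.mem_bot] at this
  have e1 : Module.Finite ℤ (M ⧸ LinearMap.ker f) := hC _ hk
  have e2 : Module.Finite ℤ (LinearMap.range f) :=
    Module.Finite.equiv (f.quotKerEquivRange.restrictScalars ℤ)
  exact hM (fin_of _ e2 (hC _ hr))

end CaL

open CaL in
theorem ca : S_CA.{u} := by
  intro R _ T hT hadj A _ _ hfin hA
  have hft : Algebra.FiniteType ℤ R := ⟨⟨hT.toFinset, by simpa using hadj⟩⟩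
  have hnR : IsNoetherianRing R := Algebra.FiniteType.isNoetherianRing ℤ R
  have hnA : IsNoetherian R A := isNoetherian_of_isNoetherianRing_of_finite R A
  obtain ⟨B, hB, hmin⟩ := exists_min (R := R) hA
  have key := inj_or_zero hB hmin
  have hnt : Nontrivial (A ⧸ B) := by
    by_contra h
    rw [not_nontrivial_iff_subsingleton] at h
    exact hB inferInstance
  obtain ⟨m0, hm0⟩ := exists_ne (0 : A ⧸ B)
  let P : Ideal R := Module.annihilator R (A ⧸ B)
  have hP : P.IsPrime := by
    refine ⟨?_, ?_⟩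
    · intro h
      have h1 : (1 : R) ∈ P := by rw [h]; trivial
      have h2 := Module.mem_annihilator.1 h1 m0
      rw [one_smul] at h2
      exact hm0 h2
    · intro x y hxy
      by_cases hx : x ∈ P
      · exact Or.inl hx
      · right
        have h1 : ∀ m : A ⧸ B, x • m = 0 → m = 0 := by
          rcases key x with h | h
          · exact absurd (Module.mem_annihilator.2 h) hx
          · exact h
        refine Module.mem_annihilator.2 fun m => h1 _ ?_
        rw [← mul_smul]
        exact Module.mem_annihilator.1 hxy m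
  let instM : Module (R ⧸ P) (A ⧸ B) := Module.quotientAnnihilator
  have hsm : ∀ (r : R) (m : A ⧸ B), (Ideal.Quotient.mk P r) • m = r • m := fun r m => rfl
  have : IsScalarTower R (R ⧸ P) (A ⧸ B) := by
    refine ⟨fun r d m => ?_⟩
    obtain ⟨s, rfl⟩ := Ideal.Quotient.mk_surjective d
    rw [hsm, ← mul_smul, ← hsm (r * s), map_mul]
    rfl
  let S := nonZeroDivisors (R ⧸ P)
  let V := LocalizedModule S (A ⧸ B)
  let F := FractionRing (R ⧸ P)
  let ι : (A ⧸ B) →ₗ[R ⧸ P] V := LocalizedModule.mkLinearMap S (A ⧸ B)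
  have hv : ι m0 ≠ 0 := by
    intro h
    obtain ⟨⟨c, hc⟩, h1⟩ := (IsLocalizedModule.eq_zero_iff S ι).1 h
    obtain ⟨s, rfl⟩ := Ideal.Quotient.mk_surjective c
    have h2 : s • m0 = 0 := h1
    have h3 : s ∉ P := by
      intro hs
      have : (Ideal.Quotient.mk P s) = 0 := Ideal.Quotient.eq_zero_iff_mem.2 hs
      rw [this] at hc
      exact zero_notMem_nonZeroDivisors hc
    rcases key s with h4 | h4
    · exact h3 (Module.mem_annihilator.2 h4)
    · exact hm0 (h4 _ h2)
  obtain ⟨ψ, hψ⟩ : ∃ ψ : Module.Dual F V, ψ (ι m0) ≠ 0 := by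
    by_contra hcon
    push Not at hcon
    exact hv ((Module.forall_dual_apply_eq_zero_iff F (ι m0)).1 hcon)
  have hint : ∃ t ∈ T, ¬ IsIntegral ℤ (algebraMap (R ⧸ P) F (Ideal.Quotient.mk P t)) := by
    by_contra hcon
    apply hB
    have hint : ∀ t ∈ T, IsIntegral ℤ (Ideal.Quotient.mk P t) := by
      intro t ht
      have h1 : IsIntegral ℤ (algebraMap (R ⧸ P) F (Ideal.Quotient.mk P t)) := by
        by_contra h
        exact hcon ⟨t, ht, h⟩
      exact (isIntegral_algebraMap_iff (IsFractionRing.injective (R ⧸ P) F)).1 h1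
    have hD : Module.Finite ℤ (R ⧸ P) := by
      have h1 := fg_adjoin_of_finite (R := ℤ) (hT.image (Ideal.Quotient.mk P)) (by
        rintro x ⟨t, ht, rfl⟩
        exact hint t ht)
      have h2 : Algebra.adjoin ℤ ((Ideal.Quotient.mk P) '' T) = ⊤ := by
        have h3 := AlgHom.map_adjoin (Ideal.Quotient.mkₐ ℤ P) T
        rw [hadj, Algebra.map_top] at h3
        have h4 : (Ideal.Quotient.mkₐ ℤ P).range = ⊤ :=
          (AlgHom.range_eq_top _).2 (Ideal.Quotient.mkₐ_surjective ℤ P)
        rw [h4] at h3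
        exact h3.symm
      rw [h2, Algebra.top_toSubmodule] at h1
      exact ⟨h1⟩
    have h5 : Module.Finite R (A ⧸ B) := inferInstance
    have h6 : Module.Finite (R ⧸ P) (A ⧸ B) := Module.Finite.of_restrictScalars_finite R _ _
    exact Module.Finite.trans (R ⧸ P) (A ⧸ B)
  obtain ⟨a0, ha0⟩ := Submodule.mkQ_surjective B m0
  refine ⟨F, inferInstance, (algebraMap (R ⧸ P) F).comp (Ideal.Quotient.mk P),
    (ψ.toAddMonoidHom.comp (ι.toAddMonoidHom.comp B.mkQ.toAddMonoidHom)), ?_, ⟨a0, ?_⟩, ?_⟩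
  · intro r a
    change ψ (ι (B.mkQ (r • a))) = algebraMap (R ⧸ P) F (Ideal.Quotient.mk P r) * ψ (ι (B.mkQ a))
    have h1 : B.mkQ (r • a) = (Ideal.Quotient.mk P r) • B.mkQ a := by
      rw [map_smul, hsm]
    have h2 : ι ((Ideal.Quotient.mk P r) • B.mkQ a) = (Ideal.Quotient.mk P r) • ι (B.mkQ a) :=
      ι.map_smul _ _
    have h3 : (Ideal.Quotient.mk P r) • ι (B.mkQ a) =
        (algebraMap (R ⧸ P) F (Ideal.Quotient.mk P r)) • ι (B.mkQ a) :=
      (algebraMap_smul F _ _).symm
    rw [h1, h2, h3, ψ.map_smul, smul_eq_mul]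
  · change ψ (ι (B.mkQ a0)) ≠ 0
    rw [ha0]
    exact hψ
  · obtain ⟨t, ht, h⟩ := hint
    refine ⟨t, ht, fun h' => h ?_⟩
    obtain ⟨p, hp1, hp2⟩ := h'
    refine ⟨p, hp1, ?_⟩
    rw [← hp2]
    congr 1
    exact RingHom.ext_int _ _

end Pool.Agent.Helper28K9.RKF
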