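import Pool.Agent.Helper28K9.RK.St2
import Pool.Agent.R976.UG.Const
import Pool.Agent.W963.GE.Dob

/-! Leaf [CHOICE] (helper18). -/

set_option autoImplicit false

open NumberField Module Finset

namespace Pool.Agent.Helper28K9.RK

namespace ChoL

open IntermediateField

theorem adj_top (x ξ : ℂ) (K : IntermediateField ℚ ℂ)
    (hK : K = IntermediateField.adjoin ℚ {x, ξ}) (hf : FiniteDimensional ℚ K)
    (X Ξ : K) (hX : (X : ℂ) = x) (hΞ : (Ξ : ℂ) = ξ) :
    Algebra.adjoin ℚ {X, Ξ} = ⊤ := by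
  have h1 : IntermediateField.adjoin ℚ ({X, Ξ} : Set K) = ⊤ := by
    rw [eq_top_iff]
    intro z _
    have h2 : K ≤ (IntermediateField.adjoin ℚ ({X, Ξ} : Set K)).map K.val := by
      conv_lhs => rw [hK]
      refine adjoin_le_iff.2 ?_
      rintro w (rfl | rfl)
      · exact ⟨X, subset_adjoin _ _ (by simp), hX⟩
      · exact ⟨Ξ, subset_adjoin _ _ (by simp), hΞ⟩
    obtain ⟨z', hz', he⟩ := h2 z.2
    have : z' = z := Subtype.ext he
    rwa [this] at hz'
  have h3 := IntermediateField.adjoin_toSubalgebra (F := ℚ) ({X, Ξ} : Set K)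
  rw [← h3, h1]
  rfl

theorem li_one (ξ Q : ℂ) : LI 1 ξ Q := by
  intro a _ h j
  rw [Fin.sum_univ_one] at h
  have : j = 0 := Subsingleton.elim _ _
  rw [this]
  simpa using h

theorem mem_of_adj (L : IntermediateField ℚ ℂ) (X : L) (J : ℕ)
    (h : Algebra.adjoin ℚ {X ^ J} = Algebra.adjoin ℚ {X}) :
    (X : ℂ) ∈ IntermediateField.adjoin ℚ {(X : ℂ) ^ J} := by
  have h1 : X ∈ Algebra.adjoin ℚ {X ^ J} := by
    rw [h]; exact Algebra.subset_adjoin rfl
  refine Algebra.adjoin_induction (p := fun (z : L) _ =>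
    (z : ℂ) ∈ IntermediateField.adjoin ℚ {(X : ℂ) ^ J}) ?_ ?_ ?_ ?_ h1
  · rintro z rfl
    have : ((X ^ J : L) : ℂ) = (X : ℂ) ^ J := rfl
    rw [this]
    exact IntermediateField.subset_adjoin _ _ rfl
  · intro r
    have : ((algebraMap ℚ L r : L) : ℂ) = algebraMap ℚ ℂ r := by
      rw [eq_ratCast, eq_ratCast]
      exact map_ratCast L.val r
    rw [this]
    exact IntermediateField.algebraMap_mem _ r
  · intro a b _ _ ha hb
    exact add_mem ha hb
  · intro a b _ _ ha hb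
    exact mul_mem ha hb

theorem deg_eq {z z' : ℂ} (h : IntermediateField.adjoin ℚ {z} = IntermediateField.adjoin ℚ {z'})
    (hz : IsIntegral ℚ z) (hz' : IsIntegral ℚ z') :
    (minpoly ℚ z).natDegree = (minpoly ℚ z').natDegree := by
  rw [← IntermediateField.adjoin.finrank hz, ← IntermediateField.adjoin.finrank hz', h]

theorem exists_e (L : IntermediateField ℚ ℂ) [FiniteDimensional ℚ L] (W : L) :
    ∃ e : ℕ, 0 < e ∧ e * (minpoly ℚ (W : ℂ)).natDegree = finrank ℚ L := by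
  refine ⟨finrank (IntermediateField.adjoin ℚ {W}) L, Module.finrank_pos, ?_⟩
  have h1 := Module.finrank_mul_finrank ℚ (IntermediateField.adjoin ℚ {W}) L
  have h2 : finrank ℚ (IntermediateField.adjoin ℚ {W}) = (minpoly ℚ W).natDegree :=
    IntermediateField.adjoin.finrank (Algebra.IsIntegral.isIntegral W)
  have h3 : minpoly ℚ W = minpoly ℚ (W : ℂ) := IntermediateField.minpoly_eq W
  rw [h2, h3, mul_comm] at h1
  exact h1

/-- the linear independence -/
theorem li_of (ξ Q : ℂ) (L : IntermediateField ℚ ℂ) [FiniteDimensional ℚ L]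
    (hL : L = IntermediateField.adjoin ℚ {Q, ξ}) (e : ℕ) (hQ : IsIntegral ℚ Q)
    (hξ : IsIntegral ℚ ξ)
    (he : e * (minpoly ℚ Q).natDegree = finrank ℚ L) :
    ∀ a : Fin e → ℂ, (∀ j, a j ∈ IntermediateField.adjoin ℚ {Q}) →
    ∑ j : Fin e, a j * ξ ^ (j : ℕ) = 0 → ∀ j, a j = 0 := by
  intro a ha hsum
  have h2' : (IntermediateField.adjoin (IntermediateField.adjoin ℚ {Q}) {ξ}).restrictScalars ℚ =
      IntermediateField.adjoin ℚ ({Q} ∪ {ξ}) := IntermediateField.adjoin_adjoin_left ℚ {Q} {ξ}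
  obtain ⟨F, hF⟩ : ∃ F : IntermediateField ℚ ℂ, F = IntermediateField.adjoin ℚ {Q} := ⟨_, rfl⟩
  have h1 : finrank ℚ F = (minpoly ℚ Q).natDegree := by
    rw [hF]; exact IntermediateField.adjoin.finrank hQ
  have h2 : (IntermediateField.adjoin F {ξ}).restrictScalars ℚ = L := by
    subst hF
    rw [h2', hL]
    rfl
  have h3 : finrank F (IntermediateField.adjoin F {ξ}) = (minpoly F ξ).natDegree :=
    IntermediateField.adjoin.finrank hξ.tower_top
  have h4 := Module.finrank_mul_finrank ℚ F (IntermediateField.adjoin F {ξ})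
  have h5 : finrank ℚ (IntermediateField.adjoin F {ξ}) = finrank ℚ L := by
    rw [← h2]; rfl
  have hpos : 0 < (minpoly ℚ Q).natDegree := minpoly.natDegree_pos hQ
  have h6 : (minpoly F ξ).natDegree = e := by
    rw [h1, h3, h5, ← he, mul_comm] at h4
    exact Nat.eq_of_mul_eq_mul_right hpos h4
  have h7 := linearIndependent_pow (K := F) ξ
  rw [h6, Fintype.linearIndependent_iff] at h7
  intro j
  have h8 := h7 (fun j => ⟨a j, by rw [hF]; exact ha j⟩) (by
    rw [← hsum]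
    refine Finset.sum_congr rfl fun i _ => ?_
    rfl) j
  exact congrArg Subtype.val h8

/-- good primes -/
theorem good_prime (hP : S_PRIMES) (hD : S_DEGP) : ∃ D1 : ℕ, ∀ (K : Type) [Field K]
    [NumberField K] (x w : K) (e : ℕ), x ≠ 0 → w ≠ 0 → D1 ≤ finrank ℚ K →
    (finrank ℚ K : ℝ) ^ (1 / 100 : ℝ) ≤ e → ∃ J : ℕ, J.Prime ∧ e < J ∧ J ≤ 2 * e ∧
      Algebra.adjoin ℚ {x ^ J} = Algebra.adjoin ℚ {x} ∧
      Algebra.adjoin ℚ {w ^ J} = Algebra.adjoin ℚ {w} := by
  classical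
  obtain ⟨X0, hX0⟩ := hP
  obtain ⟨m0, hm0⟩ : ∃ m0 : ℕ, ∀ m : ℕ, m0 ≤ m → m ^ 400 < 2 ^ m := by
    have h1 := tendsto_pow_const_div_const_pow_of_one_lt 400 (by norm_num : (1 : ℝ) < 2)
    have h2 := h1.eventually (gt_mem_nhds one_pos)
    obtain ⟨m0, hm0⟩ := Filter.eventually_atTop.1 h2
    refine ⟨m0, fun m hm => ?_⟩
    have h3 := hm0 m hm
    rw [div_lt_one (by positivity)] at h3
    exact_mod_cast h3
  refine ⟨max (m0 ^ 200) (X0 ^ 100) + 1, fun K _ _ x w e hx hw hDK he => ?_⟩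
  obtain ⟨D, hDD⟩ : ∃ D, D = finrank ℚ K := ⟨_, rfl⟩
  rw [← hDD] at hDK he
  obtain ⟨t, ht⟩ : ∃ t : ℝ, t = (D : ℝ) ^ (1 / 100 : ℝ) := ⟨_, rfl⟩
  have ht0 : 0 ≤ t := by rw [ht]; positivity
  have ht100 : t ^ 100 = D := by
    rw [ht, ← Real.rpow_natCast, ← Real.rpow_mul (Nat.cast_nonneg _)]
    norm_num
  rw [← ht] at he
  have hroot : ∀ n : ℕ, n ^ 100 < D → (n : ℝ) < t := by
    intro n hn
    by_contra hcon
    push Not at hcon
    have h1 : t ^ 100 ≤ (n : ℝ) ^ 100 := pow_le_pow_left₀ ht0 hcon 100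
    rw [ht100] at h1
    have : D ≤ n ^ 100 := by exact_mod_cast h1
    omega
  have hX : X0 ≤ e := by
    have h1 : (X0 : ℝ) < t := hroot X0 (by
      have := le_max_right (m0 ^ 200) (X0 ^ 100); omega)
    have h2 : (X0 : ℝ) < e := h1.trans_le he
    have h3 : X0 < e := by exact_mod_cast h2
    omega
  obtain ⟨m, hm⟩ : ∃ m, m = (prs e).card := ⟨_, rfl⟩
  have hcard : e ≤ m ^ 2 := by rw [hm]; exact hX0 e hX
  by_contra hcon
  push Not at hcon
  obtain ⟨Bx, hBx⟩ : ∃ B : Finset ℕ, B = (prs e).filter fun p =>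
    Algebra.adjoin ℚ {x ^ p} ≠ Algebra.adjoin ℚ {x} := ⟨_, rfl⟩
  obtain ⟨Bw, hBw⟩ : ∃ B : Finset ℕ, B = (prs e).filter fun p =>
    Algebra.adjoin ℚ {w ^ p} ≠ Algebra.adjoin ℚ {w} := ⟨_, rfl⟩
  have hsub : prs e ⊆ Bx ∪ Bw := by
    intro p hp
    have hp' := hp
    unfold prs at hp'
    rw [mem_filter, mem_Ioc] at hp'
    rw [mem_union, hBx, hBw, mem_filter, mem_filter]
    by_cases h1 : Algebra.adjoin ℚ {x ^ p} = Algebra.adjoin ℚ {x}
    · exact Or.inr ⟨hp, hcon p hp'.2 hp'.1.1 hp'.1.2 h1⟩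
    · exact Or.inl ⟨hp, h1⟩
  have hprime : ∀ p ∈ prs e, p.Prime := by
    intro p hp
    unfold prs at hp
    exact (mem_filter.1 hp).2
  have h1 : 2 ^ Bx.card ≤ D := by
    rw [hDD]
    refine hD K x Bx hx fun p hp => ?_
    rw [hBx, mem_filter] at hp
    exact ⟨hprime p hp.1, hp.2⟩
  have h2 : 2 ^ Bw.card ≤ D := by
    rw [hDD]
    refine hD K w Bw hw fun p hp => ?_
    rw [hBw, mem_filter] at hp
    exact ⟨hprime p hp.1, hp.2⟩
  have h3 : m ≤ Bx.card + Bw.card := by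
    rw [hm]; exact (card_le_card hsub).trans (card_union_le _ _)
  have h4 : 2 ^ m ≤ D * D := by
    calc 2 ^ m ≤ 2 ^ (Bx.card + Bw.card) := Nat.pow_le_pow_right (by norm_num) h3
      _ = 2 ^ Bx.card * 2 ^ Bw.card := pow_add _ _ _
      _ ≤ D * D := Nat.mul_le_mul h1 h2
  have htm : t ≤ (m : ℝ) ^ 2 := by
    have : (e : ℝ) ≤ (m : ℝ) ^ 2 := by exact_mod_cast hcard
    linarith
  have h5 : D ≤ m ^ 200 := by
    have h6 : t ^ 100 ≤ ((m : ℝ) ^ 2) ^ 100 := pow_le_pow_left₀ ht0 htm 100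
    rw [ht100, ← pow_mul] at h6
    exact_mod_cast h6
  have h6 : m0 ≤ m := by
    by_contra hlt
    push Not at hlt
    have h7 : ((m0 ^ 2 : ℕ) : ℝ) < t := hroot (m0 ^ 2) (by
      have e0 : (m0 ^ 2) ^ 100 = m0 ^ 200 := by rw [← pow_mul]
      rw [e0]
      have := le_max_left (m0 ^ 200) (X0 ^ 100); omega)
    have h8 : ((m0 ^ 2 : ℕ) : ℝ) < (m : ℝ) ^ 2 := h7.trans_le htm
    have h9 : m0 ^ 2 < m ^ 2 := by exact_mod_cast h8
    have h10 : m ^ 2 ≤ m0 ^ 2 := Nat.pow_le_pow_left hlt.le 2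
    omega
  have h7 := hm0 m h6
  have h8 : D * D ≤ m ^ 400 := by
    calc D * D ≤ m ^ 200 * m ^ 200 := Nat.mul_le_mul h5 h5
      _ = m ^ 400 := by rw [← pow_add]
  omega

/-- the choice of the conjugation: heights -/
theorem heights (hB : S_HKB) (K : Type) [Field K] [NumberField K] (x y : 𝓞 K) (hx : IsUnit x)
    (hy : IsUnit y) : max (HK K x) (HK K y) ≤ 3 * HK K ((y : K) * x) ∨
      max (HK K x) (HK K y) ≤ 3 * HK K ((y : K) * (x * y)) := by
  obtain ⟨h0, hpow, hmul, hinv, -, -⟩ := hB K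
  have hx0 : (x : K) ≠ 0 := by
    intro h
    have : x = 0 := by exact_mod_cast h
    exact hx.ne_zero this
  have hy0 : (y : K) ≠ 0 := by
    intro h
    have : y = 0 := by exact_mod_cast h
    exact hy.ne_zero this
  have i1 : HK K (((y : K) * x)⁻¹) = HK K ((y : K) * x) := by
    exact hinv (y * x) (hy.mul hx)
  have i2 : HK K (((y : K) * (x * y))⁻¹) = HK K ((y : K) * (x * y)) := by
    exact hinv (y * (x * y)) (hy.mul (hx.mul hy))
  have e1 : (x : K) = ((y : K) * x) ^ 2 * ((y : K) * (x * y))⁻¹ := by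
    field_simp
  have e2 : (y : K) = ((y : K) * (x * y)) * ((y : K) * x)⁻¹ := by
    field_simp
  have a1 : HK K x ≤ 2 * HK K ((y : K) * x) + HK K ((y : K) * (x * y)) := by
    have := hmul (((y : K) * x) ^ 2) (((y : K) * (x * y))⁻¹)
    rw [← e1, i2, hpow] at this
    push_cast at this
    exact this
  have a2 : HK K y ≤ HK K ((y : K) * (x * y)) + HK K ((y : K) * x) := by
    have := hmul ((y : K) * (x * y)) (((y : K) * x)⁻¹)
    rw [← e2, i1] at this
    exact this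
  have p1 := h0 ((y : K) * x)
  have p2 := h0 ((y : K) * (x * y))
  rcases le_total (HK K ((y : K) * (x * y))) (HK K ((y : K) * x)) with h | h
  · left
    exact max_le (by linarith) (by linarith)
  · right
    exact max_le (by linarith) (by linarith)

end ChoL

open ChoL IntermediateField in
open Pool.Agent.H746UG (eta) in
/-- **CHOICE** -/
theorem choice : S_HKB → S_PRIMES → S_DEGP → S_NT → S_ETAB → S_CHOICE := by
  intro hB hP hD hNT hE
  obtain ⟨D0, hD0⟩ := hNT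
  obtain ⟨D1, hD1⟩ := good_prime hP hD
  obtain ⟨c', hc', hdob⟩ := W963.GE.mm_dob
  obtain ⟨D2, hD2⟩ : ∃ D2 : ℕ, D2 = max (max D0 D1) 1 := ⟨_, rfl⟩
  have hD21 : 1 ≤ D2 := by rw [hD2]; exact le_max_right _ _
  have hD21' : (1 : ℝ) ≤ D2 := by exact_mod_cast hD21
  have hlog : 0 < Real.log (2 * D2) := Real.log_pos (by linarith)
  obtain ⟨δ, hδ⟩ : ∃ δ, δ = min (1 / 180) (c' / (Real.log (2 * D2)) ^ 3) := ⟨_, rfl⟩
  have hδ0 : 0 < δ := by rw [hδ]; exact lt_min (by norm_num) (by positivity)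
  refine ⟨min (1 / 720) (δ / 2), lt_min (by norm_num) (by positivity), ?_⟩
  intro x ξ hx0 hξ0 hxi hxi' hξi hξi' hind
  obtain ⟨K, hK⟩ : ∃ K : IntermediateField ℚ ℂ, K = IntermediateField.adjoin ℚ {x, ξ} := ⟨_, rfl⟩
  have hfin : FiniteDimensional ℚ K := by
    rw [hK]
    exact IntermediateField.finiteDimensional_adjoin_pair hxi.tower_top hξi.tower_top
  have hNF : NumberField K := { to_charZero := inferInstance, to_finiteDimensional := hfin }
  have hxK : x ∈ K := by rw [hK]; exact subset_adjoin _ _ (by simp)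
  have hξK : ξ ∈ K := by rw [hK]; exact subset_adjoin _ _ (by simp)
  obtain ⟨X, hX⟩ : ∃ X : K, (X : ℂ) = x := ⟨⟨x, hxK⟩, rfl⟩
  obtain ⟨Ξ, hΞ⟩ : ∃ Ξ : K, (Ξ : ℂ) = ξ := ⟨⟨ξ, hξK⟩, rfl⟩
  have hint : ∀ z : K, IsIntegral ℤ (z : ℂ) → IsIntegral ℤ z := fun z hz =>
    (isIntegral_algebraMap_iff (algebraMap K ℂ).injective).mp hz
  have hcinv : ∀ z : K, ((z⁻¹ : K) : ℂ) = (z : ℂ)⁻¹ := fun z => rfl
  have hXi : IsIntegral ℤ X := hint X (by rw [hX]; exact hxi)
  have hXi' : IsIntegral ℤ X⁻¹ := hint _ (by rw [hcinv, hX]; exact hxi')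
  have hΞi : IsIntegral ℤ Ξ := hint Ξ (by rw [hΞ]; exact hξi)
  have hΞi' : IsIntegral ℤ Ξ⁻¹ := hint _ (by rw [hcinv, hΞ]; exact hξi')
  have hX0 : X ≠ 0 := by rintro rfl; exact hx0 hX.symm
  have hΞ0 : Ξ ≠ 0 := by rintro rfl; exact hξ0 hΞ.symm
  obtain ⟨X', hX'⟩ : ∃ X' : 𝓞 K, (X' : K) = X := ⟨⟨X, hXi⟩, rfl⟩
  obtain ⟨Ξ', hΞ'⟩ : ∃ Ξ' : 𝓞 K, (Ξ' : K) = Ξ := ⟨⟨Ξ, hΞi⟩, rfl⟩
  have hXu : IsUnit X' := by
    refine IsUnit.of_mul_eq_one (⟨X⁻¹, hXi'⟩ : 𝓞 K) ?_
    apply RingOfIntegers.ext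
    show (X' : K) * X⁻¹ = 1
    rw [hX', mul_inv_cancel₀ hX0]
  have hΞu : IsUnit Ξ' := by
    refine IsUnit.of_mul_eq_one (⟨Ξ⁻¹, hΞi'⟩ : 𝓞 K) ?_
    apply RingOfIntegers.ext
    show (Ξ' : K) * Ξ⁻¹ = 1
    rw [hΞ', mul_inv_cancel₀ hΞ0]
  have hindK : Ind (X' : K) (Ξ' : K) := by
    intro a b h
    apply hind a b
    rw [hX', hΞ'] at h
    have h1 := congrArg (algebraMap K ℂ) h
    rw [map_mul, map_zpow₀, map_zpow₀, map_one] at h1
    have e1 : algebraMap K ℂ X = x := hX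
    have e2 : algebraMap K ℂ Ξ = ξ := hΞ
    rwa [e1, e2] at h1
  have hadj : Algebra.adjoin ℚ {(X' : K), (Ξ' : K)} = ⊤ := by
    rw [hX', hΞ']
    exact adj_top x ξ K hK hfin X Ξ hX hΞ
  -- the choice of the conjugation
  obtain ⟨ψ, k, hψ, hw, hH⟩ : ∃ (ψ : ℂ) (k : ℕ), (ψ = x ∨ ψ = x * ξ) ∧ ξ * ψ = x * ξ ^ k ∧
      max (HK K X) (HK K Ξ) ≤ 3 * HK K (X * Ξ ^ k) := by
    have h := heights hB K X' Ξ' hXu hΞu
    rw [hX', hΞ'] at h
    rcases h with h | h
    · refine ⟨x, 1, Or.inl rfl, by ring, ?_⟩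
      have e1 : X * Ξ ^ 1 = Ξ * X := by ring
      rw [e1]; exact h
    · refine ⟨x * ξ, 2, Or.inr rfl, by ring, ?_⟩
      have e1 : X * Ξ ^ 2 = Ξ * (X * Ξ) := by ring
      rw [e1]; exact h
  refine ⟨ψ, hψ, ?_⟩
  rw [hw]
  obtain ⟨W, hW⟩ : ∃ W : K, W = X * Ξ ^ k := ⟨_, rfl⟩
  rw [← hW] at hH
  have hWc : (W : ℂ) = x * ξ ^ k := by
    rw [hW, ← hX, ← hΞ]; rfl
  have hW0 : W ≠ 0 := by rw [hW]; exact mul_ne_zero hX0 (pow_ne_zero _ hΞ0)
  have hWi : IsIntegral ℤ (W : ℂ) := by rw [hWc]; exact hxi.mul (hξi.pow k)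
  have hWr : ∀ m > 0, W ^ m ≠ 1 := by
    intro m hm h
    have h1 := hindK m (k * m) (by
      rw [hX', hΞ', ← h, hW]
      rw [mul_pow, ← pow_mul]
      push_cast
      rw [← zpow_natCast X m, ← zpow_natCast Ξ (k * m)]
      push_cast
      rfl)
    omega
  have hWr' : ∀ m > 0, (W : ℂ) ^ m ≠ 1 := by
    intro m hm h
    exact hWr m hm (Subtype.ext h)
  have hW0' : (W : ℂ) ≠ 0 := fun h => hW0 (Subtype.ext h)
  rw [← hWc]
  by_cases hDD : D2 ≤ finrank ℚ K
  · -- large degree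
    have hd0 : D0 ≤ finrank ℚ K := by
      rw [hD2] at hDD
      exact (le_max_left _ _).trans ((le_max_left _ _).trans hDD)
    have hd1 : D1 ≤ finrank ℚ K := by
      rw [hD2] at hDD
      exact (le_max_right _ _).trans ((le_max_left _ _).trans hDD)
    have hnt := hD0 K X' Ξ' hd0 hXu hΞu hindK hadj
    rw [hX', hΞ'] at hnt
    obtain ⟨t, ht⟩ : ∃ t : ℝ, t = (finrank ℚ K : ℝ) ^ (1 / 100 : ℝ) := ⟨_, rfl⟩
    have ht1 : 1 ≤ t := by
      rw [ht]
      refine Real.one_le_rpow ?_ (by norm_num)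
      exact_mod_cast (hD21.trans hDD)
    have ht3 : t ≤ 3 * HK K W := by
      rw [ht]; exact hnt.trans hH
    obtain ⟨e, he0, he⟩ := exists_e K W
    have he0' : (0 : ℝ) < e := by exact_mod_cast he0
    by_cases h180 : (e : ℝ) / 180 ≤ HK K W
    · refine ⟨1, 1, one_pos, le_rfl, li_one _ _, ?_⟩
      have h1 := hE K W e hWi hW0 hWr he
      have h2 : min (1 / 180) (HK K W / e) = 1 / 180 := by
        apply min_eq_left
        rw [le_div_iff₀ he0']
        linarith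
      rw [h2] at h1
      rw [pow_one, Nat.cast_one, div_one, one_mul]
      refine (min_le_left _ _).trans ?_
      linarith
    · push Not at h180
      have hte : (finrank ℚ K : ℝ) ^ (1 / 100 : ℝ) ≤ e := by
        rw [← ht]
        rw [lt_div_iff₀ (by norm_num)] at h180
        linarith
      obtain ⟨J, hJp, hJ1, hJ2, hJx, hJw⟩ := hD1 K X W e hX0 hW0 hd1 hte
      have hJ0 : (0 : ℝ) < J := by exact_mod_cast hJp.pos
      have hxJ := mem_of_adj K X J hJx
      have hwJ := mem_of_adj K W J hJw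
      obtain ⟨Q, hQ⟩ : ∃ Q : ℂ, Q = (W : ℂ) ^ J := ⟨_, rfl⟩
      have hQi : IsIntegral ℚ Q := by rw [hQ]; exact (hWi.pow J).tower_top
      have hwQ : IntermediateField.adjoin ℚ {Q} = IntermediateField.adjoin ℚ {(W : ℂ)} := by
        apply le_antisymm
        · rw [IntermediateField.adjoin_simple_le_iff, hQ]
          exact pow_mem (IntermediateField.mem_adjoin_simple_self ℚ (W : ℂ)) J
        · rw [IntermediateField.adjoin_simple_le_iff, hQ]
          exact hwJ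
      have hdeg : (minpoly ℚ Q).natDegree = (minpoly ℚ (W : ℂ)).natDegree :=
        deg_eq hwQ hQi hWi.tower_top
      have hKQ : K = IntermediateField.adjoin ℚ {Q, ξ} := by
        apply le_antisymm
        · conv_lhs => rw [hK]
          have hξm : ξ ∈ IntermediateField.adjoin ℚ {Q, ξ} := subset_adjoin _ _ (by simp)
          have hQm : Q ∈ IntermediateField.adjoin ℚ {Q, ξ} := subset_adjoin _ _ (by simp)
          refine adjoin_le_iff.2 ?_
          have hxm : x ∈ IntermediateField.adjoin ℚ {Q, ξ} := by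
            rw [hX] at hxJ
            have h1 : x ^ J ∈ IntermediateField.adjoin ℚ {Q, ξ} := by
              have h2 : x ^ J = Q * ((ξ ^ k) ^ J)⁻¹ := by
                rw [hQ, hWc, mul_pow]
                field_simp
              rw [h2]
              exact mul_mem hQm (inv_mem (pow_mem (pow_mem hξm _) _))
            have h3 : IntermediateField.adjoin ℚ {x ^ J} ≤ IntermediateField.adjoin ℚ {Q, ξ} := by
              rw [IntermediateField.adjoin_simple_le_iff]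
              exact h1
            exact h3 hxJ
          rintro z (rfl | rfl)
          · exact hxm
          · exact hξm
        · refine adjoin_le_iff.2 ?_
          rintro z (rfl | rfl)
          · rw [hQ]
            exact pow_mem W.2 J
          · exact hξK
      refine ⟨J, e, he0, hJ1.le, ?_, ?_⟩
      · rw [← hQ]
        refine li_of ξ Q K hKQ e hQi hξi.tower_top ?_
        rw [hdeg]
        exact he
      · have h1 := hE K (W ^ J) e (hWi.pow J) (pow_ne_zero _ hW0) (fun m hm h => by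
          rw [← pow_mul] at h
          exact hWr _ (Nat.mul_pos hJp.pos hm) h) (by
          have : (((W ^ J : K) : ℂ)) = Q := by rw [hQ]; rfl
          rw [this, hdeg]
          exact he)
        have h2 : HK K (W ^ J) = J * HK K W := (hB K).2.1 W J
        have h3 : (1 : ℝ) / 180 ≤ HK K (W ^ J) / e := by
          rw [h2, le_div_iff₀ he0']
          have h4 : (e : ℝ) ≤ J := by exact_mod_cast hJ1.le
          have h5 : (1 : ℝ) / 3 ≤ HK K W := by linarith
          have h6 : (e : ℝ) * (1 / 3) ≤ J * HK K W := mul_le_mul h4 h5 (by norm_num) hJ0.le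
          linarith
        rw [min_eq_left h3] at h1
        have h4 : (((W ^ J : K) : ℂ)) = (W : ℂ) ^ J := rfl
        rw [h4] at h1
        have h5 : (1 : ℝ) / 2 ≤ (e : ℝ) / J := by
          rw [div_le_div_iff₀ (by norm_num) hJ0]
          have : (J : ℝ) ≤ 2 * e := by exact_mod_cast hJ2
          linarith
        refine (min_le_left _ _).trans ?_
        calc (1 : ℝ) / 720 = 1 / 2 * (1 / 180 / 2) := by norm_num
          _ ≤ (e : ℝ) / J * eta ((W : ℂ) ^ J) := mul_le_mul h5 h1 (by norm_num) (by positivity)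
  · -- small degree
    push Not at hDD
    refine ⟨1, 1, one_pos, le_rfl, li_one _ _, ?_⟩
    rw [pow_one, Nat.cast_one, div_one, one_mul]
    refine (min_le_right _ _).trans ?_
    have h1 := hdob (W : ℂ) hWi hW0' hWr'
    have hdegi : (minpoly ℤ (W : ℂ)).natDegree = (minpoly ℚ (W : ℂ)).natDegree := by
      rw [minpoly.isIntegrallyClosed_eq_field_fractions' ℚ hWi, (minpoly.monic hWi).natDegree_map]
    obtain ⟨e, he0, he⟩ := exists_e K W
    have hdle : (minpoly ℤ (W : ℂ)).natDegree ≤ D2 := by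
      rw [hdegi]
      have h2 : (minpoly ℚ (W : ℂ)).natDegree ≤ e * (minpoly ℚ (W : ℂ)).natDegree :=
        Nat.le_mul_of_pos_left _ he0
      rw [he] at h2
      omega
    have hdpos : 0 < (minpoly ℤ (W : ℂ)).natDegree := minpoly.natDegree_pos hWi
    refine R976.UG.eta_boundC hW0' hWi hWr' hδ0 (by rw [hδ]; exact min_le_left _ _) ?_
    rw [hδ]
    refine (min_le_right _ _).trans (le_trans ?_ h1)
    have h3 : (1 : ℝ) ≤ (minpoly ℤ (W : ℂ)).natDegree := by exact_mod_cast hdpos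
    have h4 : ((minpoly ℤ (W : ℂ)).natDegree : ℝ) ≤ D2 := by exact_mod_cast hdle
    have h5 : 0 < Real.log (2 * (minpoly ℤ (W : ℂ)).natDegree) := Real.log_pos (by linarith)
    refine div_le_div_of_nonneg_left hc'.le (by positivity) ?_
    refine pow_le_pow_left₀ h5.le ?_ 3
    exact Real.log_le_log (by linarith) (by linarith)

end Pool.Agent.Helper28K9.RK
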