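import Pool.Agent.Helper28K9.RK.St2
import Pool.Agent.Helper55K9.AB.Hm
import Pool.Agent.R976.UG.Const

/-! Leaf [ETAB] (helper18). -/

set_option autoImplicit false

open NumberField Module Finset

namespace Pool.Agent.Helper28K9.RK

open Pool.Agent.H746UG (eta)

/-- **ETAB** -/
theorem etab : S_ETAB := by
  intro K _ Q e hi h0 hroot he
  have h0' : (Q : ℂ) ≠ 0 := fun h => h0 (Subtype.ext h)
  have hroot' : ∀ m > 0, (Q : ℂ) ^ m ≠ 1 := by
    intro m hm h
    apply hroot m hm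
    exact Subtype.ext h
  have h1 := Helper55K9.AB.hm K Q (Q : ℂ) hi (by
    have h2 := minpoly.aeval ℤ (Q : ℂ)
    have h3 : algebraMap K ℂ (Polynomial.aeval Q (minpoly ℤ (Q : ℂ))) =
        Polynomial.aeval (algebraMap K ℂ Q) (minpoly ℤ (Q : ℂ)) :=
      (Polynomial.aeval_algebraMap_apply ℂ Q _).symm
    have h4 : algebraMap K ℂ Q = (Q : ℂ) := rfl
    rw [h4, h2] at h3
    exact (map_eq_zero _).1 h3)
  have hHK : Helper72K9.AB.HN K Q = HK K Q := rfl
  have hMM : Helper72K9.AB.MM (Q : ℂ) = W963.GE.MM (Q : ℂ) := rfl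
  have hdeg : (minpoly ℤ (Q : ℂ)).natDegree = (minpoly ℚ (Q : ℂ)).natDegree := by
    rw [minpoly.isIntegrallyClosed_eq_field_fractions' ℚ hi,
      (minpoly.monic hi).natDegree_map]
  have hd0 : 0 < (minpoly ℚ (Q : ℂ)).natDegree := minpoly.natDegree_pos hi.tower_top
  have hK0 : 0 < finrank ℚ K := Module.finrank_pos
  have he0 : 0 < e := by
    rcases Nat.eq_zero_or_pos e with h | h
    · rw [h, zero_mul] at he; omega
    · exact h
  rw [hHK, hMM, hdeg, ← he] at h1
  push_cast at h1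
  have hd0' : (0 : ℝ) < (minpoly ℚ (Q : ℂ)).natDegree := by exact_mod_cast hd0
  have he0' : (0 : ℝ) < e := by exact_mod_cast he0
  have h2 : HK K Q / e = Real.log (W963.GE.MM (Q : ℂ)) := by
    rw [div_eq_iff he0'.ne']
    have h3 : ((minpoly ℚ (Q : ℂ)).natDegree : ℝ) * HK K Q =
        (minpoly ℚ (Q : ℂ)).natDegree * (Real.log (W963.GE.MM (Q : ℂ)) * e) := by
      rw [h1]; ring
    exact mul_left_cancel₀ hd0'.ne' h3
  have hM := W963.GE.MM_gt (Q : ℂ) hi h0' hroot'
  rw [h2]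
  exact R976.UG.eta_boundC h0' hi hroot' (lt_min (by norm_num) (Real.log_pos hM))
    (min_le_left _ _) (min_le_right _ _)

end Pool.Agent.Helper28K9.RK
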