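import Pool.Agent.Helper28K9.RK.StmEV

/-!
# [EV] a common eigenvector with a given eigenvalue of one element
-/

set_option autoImplicit false

open scoped TensorProduct

namespace Pool.Agent.Helper28K9.RKF

universe u v w

namespace EvL

/-- commuting endomorphisms have a common eigenvector in every nonzero stable subspace -/
theorem common {H : Type u} {W : Type v} [AddCommGroup W] [Module ℂ W] [FiniteDimensional ℂ W]
    (T : H → Module.End ℂ W) (hT : ∀ g h, T g * T h = T h * T g) (E : Submodule ℂ W)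
    (hE : E ≠ ⊥) (hst : ∀ h, ∀ y ∈ E, T h y ∈ E) :
    ∃ F ∈ E, F ≠ 0 ∧ ∀ h, ∃ μ : ℂ, T h F = μ • F := by
  obtain ⟨U, ⟨hU0, hUE, hUst⟩, hmin⟩ := (wellFounded_lt (α := Submodule ℂ W)).has_min
    {U | U ≠ ⊥ ∧ U ≤ E ∧ ∀ h, ∀ y ∈ U, T h y ∈ U} ⟨E, hE, le_rfl, hst⟩
  obtain ⟨F, hFU, hF0⟩ := U.exists_mem_ne_zero_of_ne_bot hU0
  refine ⟨F, hUE hFU, hF0, fun h => ?_⟩
  have hnt : Nontrivial U := Submodule.nontrivial_iff_ne_bot.2 hU0
  obtain ⟨μ, hμ⟩ := Module.End.exists_eigenvalue ((T h).restrict (hUst h))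
  obtain ⟨y, hy⟩ := hμ.exists_hasEigenvector
  have hy1 : T h (y : W) = μ • (y : W) := by
    have := congrArg (Subtype.val) hy.apply_eq_smul
    exact this
  have hy0 : (y : W) ≠ 0 := fun h0 => hy.2 (Subtype.ext h0)
  have hmem : (U ⊓ Module.End.eigenspace (T h) μ) ∈
      {U | U ≠ ⊥ ∧ U ≤ E ∧ ∀ h, ∀ y ∈ U, T h y ∈ U} := by
    refine ⟨?_, inf_le_left.trans hUE, fun g z hz => ?_⟩
    · intro h0
      apply hy0
      have h1 : (y : W) ∈ U ⊓ Module.End.eigenspace (T h) μ :=
        ⟨y.2, Module.End.mem_eigenspace_iff.2 hy1⟩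
      rw [h0] at h1
      exact (Submodule.mem_bot ℂ).1 h1
    · refine ⟨hUst g z hz.1, Module.End.mem_eigenspace_iff.2 ?_⟩
      have h1 := Module.End.mem_eigenspace_iff.1 hz.2
      have h2 : T h (T g z) = T g (T h z) := by
        rw [← Module.End.mul_apply, ← Module.End.mul_apply, hT]
      rw [h2, h1, map_smul]
  have h1 : U ⊓ Module.End.eigenspace (T h) μ = U :=
    (eq_of_le_of_not_lt inf_le_left (hmin _ hmem))
  have h2 : F ∈ U ⊓ Module.End.eigenspace (T h) μ := by
    rw [h1]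
    exact hFU
  exact ⟨μ, Module.End.mem_eigenspace_iff.1 h2.2⟩

/-- eigenvalues of the dual map -/
theorem dual_eig {V : Type v} [AddCommGroup V] [Module ℂ V] [FiniteDimensional ℂ V]
    (B : Module.End ℂ V) (x : ℂ) (h : Module.End.HasEigenvalue B x) :
    Module.End.eigenspace (B.dualMap : Module.End ℂ (Module.Dual ℂ V)) x ≠ ⊥ := by
  intro h0
  have h1 : Function.Injective (B - algebraMap ℂ (Module.End ℂ V) x).dualMap := by
    rw [← LinearMap.ker_eq_bot, ← h0]
    ext φ
    rw [LinearMap.mem_ker, Module.End.mem_eigenspace_iff]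
    constructor
    · intro h2
      ext y
      have h3 := LinearMap.congr_fun h2 y
      simp only [LinearMap.dualMap_apply, LinearMap.sub_apply, Module.algebraMap_end_apply,
        map_sub, map_smul, LinearMap.zero_apply] at h3
      simpa [LinearMap.dualMap_apply] using sub_eq_zero.1 h3
    · intro h2
      ext y
      have h3 := LinearMap.congr_fun h2 y
      simp only [LinearMap.dualMap_apply, LinearMap.smul_apply] at h3
      simp only [LinearMap.dualMap_apply, LinearMap.sub_apply, Module.algebraMap_end_apply,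
        map_sub, map_smul, LinearMap.zero_apply, h3, sub_self]
  rw [LinearMap.dualMap_injective_iff] at h1
  have h2 := LinearMap.injective_iff_surjective.2 h1
  obtain ⟨y, hy⟩ := h.exists_hasEigenvector
  apply hy.2
  apply h2
  rw [map_zero, LinearMap.sub_apply, hy.apply_eq_smul, Module.algebraMap_end_apply, sub_self]

end EvL

open EvL in
theorem ev : S_EV.{u} := by
  intro H _ A _ hfin r hr t x hx
  have hfd : FiniteDimensional ℂ (ℂ ⊗[ℤ] A) := Module.Finite.base_change ℤ ℂ A
  let T : H → Module.End ℂ (Module.Dual ℂ (ℂ ⊗[ℤ] A)) := fun h =>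
    (LinearMap.baseChange ℂ (r h) : Module.End ℂ (ℂ ⊗[ℤ] A)).dualMap
  have hT1 : ∀ h (φ : Module.Dual ℂ (ℂ ⊗[ℤ] A)) y,
      T h φ y = φ (LinearMap.baseChange ℂ (r h) y) := fun h φ y => rfl
  have hb : ∀ g h (y : ℂ ⊗[ℤ] A), LinearMap.baseChange ℂ (r g) (LinearMap.baseChange ℂ (r h) y) =
      LinearMap.baseChange ℂ (r h) (LinearMap.baseChange ℂ (r g) y) := by
    intro g h y
    have h1 := congrArg (LinearMap.baseChange ℂ) (hr g h)
    rw [LinearMap.baseChange_mul, LinearMap.baseChange_mul] at h1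
    exact LinearMap.congr_fun h1 y
  have hT : ∀ g h, T g * T h = T h * T g := by
    intro g h
    refine LinearMap.ext fun φ => LinearMap.ext fun y => ?_
    rw [Module.End.mul_apply, Module.End.mul_apply, hT1, hT1, hT1, hT1, hb]
  obtain ⟨F, hFE, hF0, hF⟩ := common T hT (Module.End.eigenspace (T t) x)
    (dual_eig _ x hx) (fun h y hy => by
      rw [Module.End.mem_eigenspace_iff] at hy ⊢
      rw [← Module.End.mul_apply, hT, Module.End.mul_apply, hy, map_smul])
  choose μ hμ using hF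
  let f : A →+ ℂ := F.toAddMonoidHom.comp (TensorProduct.mk ℤ ℂ A 1).toAddMonoidHom
  have hf : ∀ a, f a = F (1 ⊗ₜ[ℤ] a) := fun a => rfl
  have hfr : ∀ h a, f (r h a) = μ h * f a := by
    intro h a
    have h1 := LinearMap.congr_fun (hμ h) (1 ⊗ₜ[ℤ] a)
    rw [hT1, LinearMap.baseChange_tmul, LinearMap.smul_apply, smul_eq_mul] at h1
    rw [hf, hf]
    exact h1
  have hne : ∃ a, f a ≠ 0 := by
    by_contra hno
    push Not at hno
    apply hF0
    refine LinearMap.ext fun y => ?_
    induction y using TensorProduct.induction_on with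
    | zero => rw [map_zero, map_zero]
    | tmul z a =>
      have h1 : z ⊗ₜ[ℤ] a = z • ((1 : ℂ) ⊗ₜ[ℤ] a) := by
        rw [TensorProduct.smul_tmul', smul_eq_mul, mul_one]
      rw [h1, map_smul, ← hf, hno, smul_zero, LinearMap.zero_apply]
    | add y z hy hz => rw [map_add, hy, hz, map_add]
  obtain ⟨a, ha⟩ := hne
  have hμ1 : μ 1 = 1 := by
    have h1 := hfr 1 a
    rw [map_one, Module.End.one_apply] at h1
    exact (mul_eq_right₀ ha).1 h1.symm
  have hμm : ∀ g h, μ (g * h) = μ g * μ h := by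
    intro g h
    have h1 := hfr (g * h) a
    rw [map_mul, Module.End.mul_apply, hfr, hfr, ← mul_assoc] at h1
    exact (mul_right_cancel₀ ha h1).symm
  let χ : H →* ℂ := { toFun := μ, map_one' := hμ1, map_mul' := hμm }
  refine ⟨χ.toHomUnits, f, fun h b => ?_, ⟨a, ha⟩, ?_⟩
  · rw [MonoidHom.coe_toHomUnits]
    exact hfr h b
  · rw [MonoidHom.coe_toHomUnits]
    have h1 := LinearMap.congr_fun (Module.End.mem_eigenspace_iff.1 hFE) (1 ⊗ₜ[ℤ] a)
    have h2 := LinearMap.congr_fun (hμ t) (1 ⊗ₜ[ℤ] a)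
    rw [h1, LinearMap.smul_apply, LinearMap.smul_apply, smul_eq_mul, smul_eq_mul] at h2
    exact (mul_right_cancel₀ ha h2).symm

end Pool.Agent.Helper28K9.RKF
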