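import Mathlib
import Pool.Agent.Helper28K9.RK.Stm

/-!
# Statements: eigenvectors in `Hom (Γ, ℂ)`, `H / Γ` nilpotent
-/

set_option autoImplicit false

namespace Pool.Agent.Helper28K9.RK

universe u

/-- `φ` is a nonzero homomorphism from `Γ` to `ℂ`, and an eigenvector with character `χ` of the
action of `H` by conjugation -/
def EigVec {H : Type u} [Group H] (Γ : Subgroup H) (χ : H →* ℂˣ) (φ : H → ℂ) : Prop :=
  (∀ x ∈ Γ, ∀ y ∈ Γ, φ (x * y) = φ x + φ y) ∧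
  (∀ g : H, ∀ x ∈ Γ, φ (g * x * g⁻¹) = χ g * φ x) ∧ ∃ x ∈ Γ, φ x ≠ 0

/-- [EXT] **`φ` extends to a cocycle** (`H² (H / Γ, ℂ_χ) = 0`, `H / Γ` nilpotent, `χ ≠ 1`).
`L_i = lowerCentralSeries H i` (`L_0 = H`, `L_1 = [H, H]`), `χ = 1` on `L_1`, `[g, t] = g t g⁻¹ t⁻¹`.
FORMULA (*): if `β` is a cocycle (`β (g h) = β g + χ g β h`) with `β t = 0` then
`β [g, t] = (1 - χ t) β g` (compare `g t = [g, t] t g`).
(0) Some `L_k ≤ Γ`, `k ≥ 1`.  `φ ≠ 0` on `L_k`: if `φ x ≠ 0`, `x ∈ Γ`, then `[x, t] ∈ Γ` and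
`φ [x, t] = (1 - χ t) φ x ≠ 0`; iterate `k` times.
(1) Step from `L_{i+1}` to `L_i`, `i ≥ 1`: `φ` an eigenvector on `L_{i+1}`; put
`φ' γ = φ [γ, t] / (1 - χ t)` for `γ ∈ L_i`.  It is a homomorphism (`[γγ', t] = γ[γ', t]γ⁻¹ [γ, t]`,
`χ γ = 1`) and extends `φ`.  Equivariance: for `γ ∈ L_i` let `β h = φ [γ, h]`; it is a cocycle
(`[γ, h h'] = [γ, h] (h [γ, h'] h⁻¹)`) and vanishes on `L_{i+1}`; `β' h = β h - (1 - χ h) β t / (1 -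
χ t)` is a cocycle with `β' t = 0`, zero on `L_{i+1}`, so `β' = 0` by (*) iterated (`[[h, t], t]..`
gets into `L_{i+1}`).  So `β h = (1 - χ h) φ' γ` for all `h`, and
`φ [g γ g⁻¹, t] = χ g φ [γ, g⁻¹ t g] = χ g (1 - χ t) φ' γ`.
(2) From `L_1` to `H`: `b g = φ [g, t] / (1 - χ t)` is a cocycle (`[g h, t] = g [h, t] g⁻¹ [g, t]`)
and `b = φ` on `L_1`.  It is not zero on `L_1 = [H, H]`, on `ker χ` it is a homomorphism, so
`b [g, h] ≠ 0` for some `g`, `h`, and `b (g h) = b [g, h] + b (h g)` -/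
def S_EXT : Prop := ∀ (H : Type u) [Group H] (Γ : Subgroup H) [Γ.Normal] (χ : H →* ℂˣ)
  (φ : H → ℂ) (t : H), Group.IsNilpotent (H ⧸ Γ) → χ t ≠ 1 → EigVec Γ χ φ →
  ∃ b : H → ℂ, (∀ g h, b (g * h) = b g + χ g * b h) ∧ ∃ g h, b (g * h) ≠ b (h * g)

end Pool.Agent.Helper28K9.RK
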