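import Mathlib
import Pool.Agent.Helper28K9.RK.St3

/-!
# Affine actions over arbitrary fields (generalizes Act.lean of helper25)
-/

set_option autoImplicit false

open Module Finset
open scoped Pointwise

namespace Pool.Agent.Helper28K9.RKF

universe u v

/-- `x` and `y` are multiplicatively independent -/
def Ind {F : Type v} [Field F] (x y : F) : Prop := ∀ a b : ℤ, x ^ a * y ^ b = 1 → a = 0 ∧ b = 0

/-- the sums `∑ ε (m, j) Q ^ m ξ ^ j`, `m < n`, `j < J`, with digits 0 and 1 -/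
def dbl {F : Type v} [Field F] (J n : ℕ) (ξ Q : F) : Set F :=
  {z | ∃ ε : Fin n → Fin J → Bool,
    z = ∑ m : Fin n, ∑ j : Fin J, if ε m j then Q ^ (m : ℕ) * ξ ^ (j : ℕ) else 0}

theorem pair {G : Type u} [Group G] (S : Set G) {F : Type v} [Field F] (χ : G →* Fˣ) (b : G → F)
    (hS : Subgroup.closure S = ⊤) (hb : ∀ g h, b (g * h) = b g + χ g * b h)
    (hne : ∃ g h, b (g * h) ≠ b (h * g)) : ∃ s ∈ S, ∃ t ∈ S, b (s * t) ≠ b (t * s) := by
  by_contra hcon
  push Not at hcon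
  have h0 : b 1 = 0 := by
    have := hb 1 1
    rw [mul_one, map_one, Units.val_one, one_mul] at this
    linear_combination -this
  have key : ∀ g h : G, b (g * h) = b (h * g) ↔
      (1 - ((χ h : Fˣ) : F)) * b g = (1 - ((χ g : Fˣ) : F)) * b h := by
    intro g h
    rw [hb g h, hb h g]
    constructor
    · intro e; linear_combination e
    · intro e; linear_combination e
  let C : G → Subgroup G := fun g =>
    { carrier := {h | (1 - ((χ h : Fˣ) : F)) * b g = (1 - ((χ g : Fˣ) : F)) * b h}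
      mul_mem' := by
        intro h h' h1 h2
        have h1' : (1 - ((χ h : Fˣ) : F)) * b g = (1 - ((χ g : Fˣ) : F)) * b h := h1
        have h2' : (1 - ((χ h' : Fˣ) : F)) * b g = (1 - ((χ g : Fˣ) : F)) * b h' := h2
        show (1 - ((χ (h * h') : Fˣ) : F)) * b g = (1 - ((χ g : Fˣ) : F)) * b (h * h')
        rw [hb, map_mul, Units.val_mul]
        linear_combination h1' + ((χ h : Fˣ) : F) * h2'
      one_mem' := by
        show (1 - ((χ 1 : Fˣ) : F)) * b g = (1 - ((χ g : Fˣ) : F)) * b 1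
        rw [h0, map_one, Units.val_one]
        ring
      inv_mem' := by
        intro h h1
        have h1' : (1 - ((χ h : Fˣ) : F)) * b g = (1 - ((χ g : Fˣ) : F)) * b h := h1
        show (1 - ((χ h⁻¹ : Fˣ) : F)) * b g = (1 - ((χ g : Fˣ) : F)) * b h⁻¹
        have h3 := hb h⁻¹ h
        rw [inv_mul_cancel, h0] at h3
        have h2 : b h⁻¹ = -((χ h⁻¹ : Fˣ) : F) * b h := by linear_combination -h3
        have h4 : ((χ h⁻¹ : Fˣ) : F) * ((χ h : Fˣ) : F) = 1 := by
          rw [← Units.val_mul, ← map_mul, inv_mul_cancel, map_one, Units.val_one]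
        rw [h2]
        linear_combination (-((χ h⁻¹ : Fˣ) : F)) * h1' - b g * h4 }
  have hC : ∀ g, (∀ s ∈ S, s ∈ C g) → ∀ h, h ∈ C g := fun g hg h => by
    have h1 : Subgroup.closure S ≤ C g := (Subgroup.closure_le _).mpr hg
    rw [hS] at h1
    exact h1 (Subgroup.mem_top h)
  obtain ⟨g, h, hgh⟩ := hne
  apply hgh
  rw [key]
  have h2 : h ∈ C g := by
    refine hC g (fun s hs => ?_) h
    have h1 : g ∈ C s := hC s (fun t ht => (key s t).mp (hcon s hs t ht)) g
    have h1' : (1 - ((χ g : Fˣ) : F)) * b s = (1 - ((χ s : Fˣ) : F)) * b g := h1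
    exact h1'.symm
  exact h2

theorem rank {G : Type u} [Group G] (S : Set G) {F : Type v} [Field F] (χ : G →* Fˣ)
    (hS : Subgroup.closure S = ⊤) (hgh : ∃ g h, Ind ((χ g : Fˣ) : F) ((χ h : Fˣ) : F)) :
    ∃ s ∈ S, ∃ t ∈ S, Ind ((χ s : Fˣ) : F) ((χ t : Fˣ) : F) := by
  obtain ⟨g, h, hgh⟩ := hgh
  by_contra hcon
  push Not at hcon
  have toU : ∀ (x y : Fˣ) (a b : ℤ), (x : F) ^ a * (y : F) ^ b = 1 ↔ x ^ a * y ^ b = 1 := by
    intro x y a b
    rw [← Units.val_zpow_eq_zpow_val, ← Units.val_zpow_eq_zpow_val, ← Units.val_mul,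
      Units.val_eq_one]
  have dep : ∀ s ∈ S, ∀ t ∈ S, ∃ a b : ℤ, (a ≠ 0 ∨ b ≠ 0) ∧ χ s ^ a * χ t ^ b = 1 := by
    intro s hs t ht
    have h1 := hcon s hs t ht
    unfold Ind at h1
    push Not at h1
    obtain ⟨a, b, h2, h3⟩ := h1
    refine ⟨a, b, ?_, (toU _ _ _ _).mp h2⟩
    by_cases ha : a = 0
    · exact Or.inr (h3 ha)
    · exact Or.inl ha
  by_cases hall : ∀ s ∈ S, ∃ m : ℤ, m ≠ 0 ∧ χ s ^ m = 1
  · let T : Subgroup G :=
      { carrier := {g | ∃ m : ℤ, m ≠ 0 ∧ χ g ^ m = 1}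
        mul_mem' := by
          rintro a c ⟨m, hm, e⟩ ⟨m', hm', e'⟩
          refine ⟨m * m', mul_ne_zero hm hm', ?_⟩
          rw [map_mul, mul_zpow, zpow_mul, e, one_zpow, one_mul, mul_comm m m', zpow_mul, e',
            one_zpow]
        one_mem' := ⟨1, one_ne_zero, by simp⟩
        inv_mem' := by
          rintro a ⟨m, hm, e⟩
          refine ⟨m, hm, ?_⟩
          rw [map_inv, inv_zpow, e, inv_one] }
    have h1 : Subgroup.closure S ≤ T := (Subgroup.closure_le _).mpr hall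
    rw [hS] at h1
    obtain ⟨m, hm, e⟩ := h1 (Subgroup.mem_top g)
    refine hm (hgh m 0 ?_).1
    rw [toU, e, zpow_zero, mul_one]
  · push Not at hall
    obtain ⟨s0, hs0, h0⟩ := hall
    let T : Subgroup G :=
      { carrier := {g | ∃ m k : ℤ, m ≠ 0 ∧ χ g ^ m = χ s0 ^ k}
        mul_mem' := by
          rintro a c ⟨m, k, hm, e⟩ ⟨m', k', hm', e'⟩
          refine ⟨m * m', k * m' + k' * m, mul_ne_zero hm hm', ?_⟩
          rw [map_mul, mul_zpow, zpow_mul, e, mul_comm m m', zpow_mul, e', ← zpow_mul,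
            ← zpow_mul, ← zpow_add]
        one_mem' := ⟨1, 0, one_ne_zero, by simp⟩
        inv_mem' := by
          rintro a ⟨m, k, hm, e⟩
          refine ⟨m, -k, hm, ?_⟩
          rw [map_inv, inv_zpow, e, zpow_neg] }
    have h1 : Subgroup.closure S ≤ T := by
      refine (Subgroup.closure_le _).mpr (fun t ht => ?_)
      obtain ⟨a, b, hab, e⟩ := dep s0 hs0 t ht
      have hb : b ≠ 0 := by
        intro hb
        rw [hb, zpow_zero, mul_one] at e
        rcases hab with ha | hb'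
        · exact h0 a ha e
        · exact hb' hb
      refine ⟨b, -a, hb, ?_⟩
      rw [zpow_neg]
      exact eq_inv_of_mul_eq_one_right e
    rw [hS] at h1
    obtain ⟨m, k, hm, e⟩ := h1 (Subgroup.mem_top g)
    obtain ⟨m', k', hm', e'⟩ := h1 (Subgroup.mem_top h)
    by_cases hk : k' = 0
    · have h2 : χ h ^ m' = 1 := by rw [e', hk, zpow_zero]
      refine hm' (hgh 0 m' ?_).2
      rw [toU, h2, zpow_zero, mul_one]
    · have h3 := hgh (m * k') (-(m' * k)) (by
        rw [toU, zpow_mul, e, zpow_neg, zpow_mul, e', ← zpow_mul, ← zpow_mul, mul_comm k' k,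
          mul_inv_cancel])
      exact mul_ne_zero hm hk h3.1

theorem prog {G : Type u} [Group G] (S : Set G) {F : Type v} [Field F] (χ : G →* Fˣ) (b : G → F)
    (u v w z : G) (l₀ l₁ l₂ J n : ℕ) (hS : S.Finite) (hb : ∀ g h, b (g * h) = b g + χ g * b h)
    (hu : u ∈ S ^ l₀) (hv : v ∈ S ^ l₀) (hw : w ∈ S ^ l₁) (hz : z ∈ S ^ l₂) (hχ : χ u = χ v)
    (hne : b u ≠ b v) :
    Nat.card (dbl J n ((χ (u * w) : Fˣ) : F) (((χ (u * w * z) : Fˣ) : F) ^ J)) ≤
      Nat.card ↥(S ^ (n * (J * (l₀ + l₁) + J * l₂))) := by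
  have h0 : b 1 = 0 := by
    have := hb 1 1
    rw [mul_one, map_one, Units.val_one, one_mul] at this
    linear_combination -this
  set ξ : F := ((χ (u * w) : Fˣ) : F) with hξ
  have inner : ∀ j : ℕ, ∃ c : F, ∀ ε : ℕ → Bool, ∃ g ∈ S ^ (j * (l₀ + l₁)),
      ((χ g : Fˣ) : F) = ξ ^ j ∧
      b g = c + (b u - b v) * ∑ i ∈ range j, if ε i then ξ ^ i else 0 := by
    intro j
    induction j with
    | zero =>
      refine ⟨0, fun ε => ⟨1, ?_, ?_, ?_⟩⟩
      · rw [zero_mul, pow_zero]; exact Set.mem_one.mpr rfl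
      · rw [map_one, Units.val_one, pow_zero]
      · rw [h0, Finset.sum_range_zero]; ring
    | succ j ih =>
      obtain ⟨c, hc⟩ := ih
      refine ⟨c + ξ ^ j * (b v + ((χ v : Fˣ) : F) * b w), fun ε => ?_⟩
      obtain ⟨g, hg, hg1, hg2⟩ := hc ε
      have hx : ∃ x ∈ S ^ l₀, χ x = χ v ∧ b x = b v + (b u - b v) * (if ε j then 1 else 0) := by
        by_cases h : ε j
        · exact ⟨u, hu, hχ, by rw [if_pos h]; ring⟩
        · exact ⟨v, hv, rfl, by rw [if_neg h]; ring⟩
      obtain ⟨x, hx1, hx2, hx3⟩ := hx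
      refine ⟨g * (x * w), ?_, ?_, ?_⟩
      · rw [Nat.succ_mul, pow_add, pow_add]
        exact Set.mul_mem_mul hg (Set.mul_mem_mul hx1 hw)
      · rw [map_mul, map_mul, hx2, Units.val_mul, hg1, pow_succ, hξ, map_mul, hχ]
      · rw [hb, hb, hg1, hg2, hx2, hx3, Finset.sum_range_succ]
        by_cases h : ε j
        · rw [if_pos h, if_pos h]; ring
        · rw [if_neg h, if_neg h]; ring
  set Q : F := ((χ (u * w * z) : Fˣ) : F) ^ J with hQ
  have hzJ : z ^ J ∈ S ^ (J * l₂) := by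
    rw [mul_comm, pow_mul]
    exact Set.pow_mem_pow hz
  have outer : ∀ n : ℕ, ∃ c : F, ∀ ε : ℕ → ℕ → Bool,
      ∃ g ∈ S ^ (n * (J * (l₀ + l₁) + J * l₂)), ((χ g : Fˣ) : F) = Q ^ n ∧
      b g = c + (b u - b v) *
        ∑ m ∈ range n, ∑ j ∈ range J, if ε m j then Q ^ m * ξ ^ j else 0 := by
    intro n
    induction n with
    | zero =>
      refine ⟨0, fun ε => ⟨1, ?_, ?_, ?_⟩⟩
      · rw [zero_mul, pow_zero]; exact Set.mem_one.mpr rfl
      · rw [map_one, Units.val_one, pow_zero]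
      · rw [h0, Finset.sum_range_zero]; ring
    | succ n ih =>
      obtain ⟨c, hc⟩ := ih
      obtain ⟨c', hc'⟩ := inner J
      refine ⟨c + Q ^ n * (c' + ξ ^ J * b (z ^ J)), fun ε => ?_⟩
      obtain ⟨g, hg, hg1, hg2⟩ := hc ε
      obtain ⟨g', hg', hg1', hg2'⟩ := hc' (ε n)
      refine ⟨g * (g' * z ^ J), ?_, ?_, ?_⟩
      · rw [Nat.succ_mul, pow_add, pow_add]
        exact Set.mul_mem_mul hg (Set.mul_mem_mul hg' hzJ)
      · rw [map_mul, map_mul, Units.val_mul, Units.val_mul, hg1, hg1', pow_succ, map_pow,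
          Units.val_pow_eq_pow_val, ← mul_pow, hQ, hξ, ← Units.val_mul, ← map_mul]
      · rw [hb, hb, hg1, hg2, hg1', hg2', Finset.sum_range_succ]
        have h7 : ∑ j ∈ range J, (if ε n j then Q ^ n * ξ ^ j else 0) =
            Q ^ n * ∑ j ∈ range J, (if ε n j then ξ ^ j else 0) := by
          rw [Finset.mul_sum]
          apply Finset.sum_congr rfl
          intro j _
          split_ifs
          · rfl
          · rw [mul_zero]
        rw [h7]
        ring
  obtain ⟨c, hc⟩ := outer n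
  have hsub : dbl J n ξ Q ⊆ (fun g => (b g - c) / (b u - b v)) ''
      (S ^ (n * (J * (l₀ + l₁) + J * l₂))) := by
    rintro y ⟨ε, rfl⟩
    obtain ⟨g, hg, _, hbg⟩ := hc (fun m j => if h : m < n ∧ j < J then ε ⟨m, h.1⟩ ⟨j, h.2⟩ else
      false)
    refine ⟨g, hg, ?_⟩
    show (b g - c) / (b u - b v) = _
    rw [hbg, add_sub_cancel_left, mul_div_cancel_left₀ _ (sub_ne_zero.mpr hne),
      Finset.sum_range]
    apply Finset.sum_congr rfl
    intro m _
    rw [Finset.sum_range]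
    apply Finset.sum_congr rfl
    intro j _
    simp [m.2, j.2]
  have hpow : ∀ N : ℕ, (S ^ N).Finite := by
    intro N
    induction N with
    | zero => rw [pow_zero]; exact Set.finite_one
    | succ N ih => rw [pow_succ]; exact ih.mul hS
  have hSf : (S ^ (n * (J * (l₀ + l₁) + J * l₂))).Finite := hpow _
  refine (Nat.card_mono (hSf.image _) hsub).trans ?_
  exact Set.ncard_image_le hSf

end Pool.Agent.Helper28K9.RKF
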