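import Mathlib
import Pool.Agent.Helper28K9.RK.St3

/-!
# Extension of eigenvectors to cocycles
-/

set_option autoImplicit false

namespace Pool.Agent.Helper28K9.RKF

universe u v

open scoped commutatorElement

/-- `φ` is a nonzero homomorphism from `Γ` to `F`, and an eigenvector with character `χ` of the
action of `H` by conjugation -/
def EigVec {H : Type u} [Group H] {F : Type v} [Field F] (Γ : Subgroup H) (χ : H →* Fˣ)
    (φ : H → F) : Prop :=
  (∀ x ∈ Γ, ∀ y ∈ Γ, φ (x * y) = φ x + φ y) ∧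
  (∀ g : H, ∀ x ∈ Γ, φ (g * x * g⁻¹) = χ g * φ x) ∧ ∃ x ∈ Γ, φ x ≠ 0

namespace ExtL

/-- the lower central series -/
abbrev LC (H : Type u) [Group H] (n : ℕ) : Subgroup H := (⊤ : Subgroup H).lowerCentralSeries n

variable {H : Type u} [Group H] {F : Type v} [Field F]

lemma LC_anti {m n : ℕ} (h : m ≤ n) : LC H n ≤ LC H m :=
  (⊤ : Subgroup H).lowerCentralSeries_antitone h

/-- iterated commutators with `t` -/
def it (t : H) : ℕ → H → H
  | 0, h => h
  | n + 1, h => ⁅it t n h, t⁆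

lemma it_mem (t : H) (n : ℕ) (h : H) : it t n h ∈ LC H n := by
  induction n with
  | zero => exact Subgroup.mem_top _
  | succ n ih => exact Subgroup.commutator_mem_commutator ih (Subgroup.mem_top t)

lemma comm_mem {n : ℕ} {g : H} (hg : g ∈ LC H n) (h : H) :
    ⁅g, h⁆ ∈ LC H (n + 1) := by
  exact Subgroup.commutator_mem_commutator hg (Subgroup.mem_top h)

lemma chi_comm (χ : H →* Fˣ) (g h : H) : χ ⁅g, h⁆ = 1 := by
  rw [commutatorElement_def, map_mul, map_mul, map_mul, map_inv, map_inv]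
  rw [mul_comm (χ g) (χ h), mul_assoc (χ h), mul_inv_cancel, mul_one, mul_inv_cancel]

lemma chi_low (χ : H →* Fˣ) {n : ℕ} (hn : 1 ≤ n) {g : H} (hg : g ∈ LC H n) :
    χ g = 1 := by
  have h1 : LC H n ≤ LC H 1 := LC_anti hn
  have h2 : LC H 1 ≤ χ.ker := by
    rw [LC, Subgroup.top_lowerCentralSeries_one, commutator_eq_closure, Subgroup.closure_le]
    rintro _ ⟨a, b, rfl⟩
    exact (MonoidHom.mem_ker).2 (chi_comm χ a b)
  exact (MonoidHom.mem_ker).1 (h2 (h1 hg))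

/-- the formula (*) -/
lemma star {χ : H →* Fˣ} {β : H → F} (hβ : ∀ g h, β (g * h) = β g + χ g * β h) {t : H}
    (ht : β t = 0) (g : H) : β ⁅g, t⁆ = (1 - χ t) * β g := by
  have h1 : g * t = ⁅g, t⁆ * (t * g) := by rw [commutatorElement_def]; group
  have h2 : β (g * t) = β g := by rw [hβ, ht, mul_zero, add_zero]
  have h3 : β (t * g) = χ t * β g := by rw [hβ, ht, zero_add]
  have h4 : β (g * t) = β ⁅g, t⁆ + β (t * g) := by
    rw [h1, hβ, chi_comm]
    simp
  rw [h2, h3] at h4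
  linear_combination -h4

/-- cocycles vanishing at `t` and far out are zero -/
lemma zero_of {χ : H →* Fˣ} {β : H → F} (hβ : ∀ g h, β (g * h) = β g + χ g * β h) {t : H}
    (ht : β t = 0) (hχ : χ t ≠ 1) {n : ℕ} (hn : ∀ x ∈ LC H n, β x = 0) (h : H) :
    β h = 0 := by
  have hne : (1 - (χ t : F)) ≠ 0 := by
    intro h0
    apply hχ
    ext
    push_cast
    linear_combination -h0
  have h1 : ∀ m, β (it t m h) = (1 - χ t) ^ m * β h := by
    intro m
    induction m with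
    | zero => simp [it]
    | succ m ih => rw [it, star hβ ht, ih, pow_succ]; ring
  have h2 := h1 n
  rw [hn _ (it_mem t n h)] at h2
  rcases mul_eq_zero.1 h2.symm with h3 | h3
  · exact absurd h3 (pow_ne_zero _ hne)
  · exact h3

end ExtL

open ExtL

/-- the step from `L_{i+1}` to `L_i` -/
lemma ext_step {H : Type u} [Group H] {F : Type v} [Field F] (χ : H →* Fˣ) (t : H) (hχ : χ t ≠ 1) (i : ℕ) (hi : 1 ≤ i)
    (φ : H → F) (h : EigVec (LC H (i + 1)) χ φ) :
    ∃ φ' : H → F, EigVec (LC H i) χ φ' := by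
  obtain ⟨h1, h2, x, hx, hx0⟩ := h
  have hne : (1 - (χ t : F)) ≠ 0 := by
    intro h0
    apply hχ
    ext
    push_cast
    linear_combination -h0
  have hle : LC H (i + 1) ≤ LC H i :=
    LC_anti (Nat.le_succ i)
  have hone : φ 1 = 0 := by
    have := h1 1 (one_mem _) 1 (one_mem _)
    rw [mul_one] at this
    linear_combination -this
  have hinv : ∀ y ∈ LC H (i + 1), φ y⁻¹ = - φ y := by
    intro y hy
    have := h1 y hy y⁻¹ (inv_mem hy)
    rw [mul_inv_cancel, hone] at this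
    linear_combination -this
  -- the cocycle h ↦ φ [γ, h]
  have hcoc : ∀ γ ∈ LC H i, ∀ g h : H,
      φ ⁅γ, g * h⁆ = φ ⁅γ, g⁆ + χ g * φ ⁅γ, h⁆ := by
    intro γ hγ g h
    have e : ⁅γ, g * h⁆ = ⁅γ, g⁆ * (g * ⁅γ, h⁆ * g⁻¹) := by
      simp only [commutatorElement_def]; group
    have hn : (LC H (i + 1)).Normal := inferInstance
    rw [e, h1 _ (comm_mem hγ g) _ (hn.conj_mem _ (comm_mem hγ h) g), h2 g _ (comm_mem hγ h)]
  have hvan : ∀ γ ∈ LC H i, ∀ δ ∈ LC H (i + 1),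
      φ ⁅γ, δ⁆ = 0 := by
    intro γ hγ δ hδ
    have hn : (LC H (i + 1)).Normal := inferInstance
    rw [commutatorElement_def, h1 _ (hn.conj_mem _ hδ γ) _ (inv_mem hδ), h2 γ _ hδ,
      chi_low χ hi hγ, hinv δ hδ]
    simp
  have hcob : ∀ γ ∈ LC H i, ∀ h : H,
      φ ⁅γ, h⁆ = (1 - χ h) * (φ ⁅γ, t⁆ / (1 - χ t)) := by
    intro γ hγ h
    have hz := zero_of (χ := χ) (β := fun h => φ ⁅γ, h⁆ - (1 - χ h) * (φ ⁅γ, t⁆ / (1 - χ t)))
      (t := t) (n := i + 1) (by
        intro g h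
        simp only [hcoc γ hγ g h, map_mul, Units.val_mul]
        ring)
      (by
        show φ ⁅γ, t⁆ - (1 - χ t) * (φ ⁅γ, t⁆ / (1 - χ t)) = 0
        field_simp
        ring) hχ (by
        intro y hy
        show φ ⁅γ, y⁆ - (1 - χ y) * (φ ⁅γ, t⁆ / (1 - χ t)) = 0
        rw [hvan γ hγ y hy, chi_low χ (by omega) hy]
        simp) h
    have hz' : φ ⁅γ, h⁆ - (1 - χ h) * (φ ⁅γ, t⁆ / (1 - χ t)) = 0 := hz
    linear_combination hz'
  refine ⟨fun γ => φ ⁅γ, t⁆ / (1 - χ t), ?_, ?_, x, hle hx, ?_⟩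
  · intro γ hγ γ' hγ'
    have e : ⁅γ * γ', t⁆ = (γ * ⁅γ', t⁆ * γ⁻¹) * ⁅γ, t⁆ := by
      simp only [commutatorElement_def]; group
    have hn : (LC H (i + 1)).Normal := inferInstance
    show φ ⁅γ * γ', t⁆ / (1 - χ t) = _
    rw [e, h1 _ (hn.conj_mem _ (comm_mem hγ' t) γ) _ (comm_mem hγ t), h2 γ _ (comm_mem hγ' t),
      chi_low χ hi hγ]
    simp
    ring
  · intro g γ hγ
    show φ ⁅g * γ * g⁻¹, t⁆ / (1 - χ t) = χ g * (φ ⁅γ, t⁆ / (1 - χ t))
    have e : ⁅g * γ * g⁻¹, t⁆ = g * ⁅γ, g⁻¹ * t * g⁆ * g⁻¹ := by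
      simp only [commutatorElement_def]; group
    have hc : χ (g⁻¹ * t * g) = χ t := by
      rw [map_mul, map_mul, map_inv]
      rw [mul_comm, ← mul_assoc, mul_inv_cancel, one_mul]
    rw [e, h2 g _ (comm_mem hγ _), hcob γ hγ (g⁻¹ * t * g), hc]
    field_simp
  · show φ ⁅x, t⁆ / (1 - χ t) ≠ 0
    have hn : (LC H (i + 1)).Normal := inferInstance
    have e : ⁅x, t⁆ = x * (t * x⁻¹ * t⁻¹) := by rw [commutatorElement_def]; group
    rw [e, h1 _ hx _ (hn.conj_mem _ (inv_mem hx) t), h2 t _ (inv_mem hx), hinv x hx]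
    have : φ x + χ t * -φ x = (1 - χ t) * φ x := by ring
    rw [this, mul_div_cancel_left₀ _ hne]
    exact hx0

theorem ext {H : Type u} [Group H] {F : Type v} [Field F] (Γ : Subgroup H) (hΓn : Γ.Normal)
    (χ : H →* Fˣ) (φ : H → F) (t : H) (hnil : Group.IsNilpotent (H ⧸ Γ)) (hχ : χ t ≠ 1)
    (hφ : EigVec Γ χ φ) :
    ∃ b : H → F, (∀ g h, b (g * h) = b g + χ g * b h) ∧ ∃ g h, b (g * h) ≠ b (h * g) := by
  have hne : (1 - (χ t : F)) ≠ 0 := by
    intro h0
    apply hχ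
    ext
    push_cast
    linear_combination -h0
  obtain ⟨h1, h2, x, hx, hx0⟩ := hφ
  have hone : φ 1 = 0 := by
    have := h1 1 (one_mem _) 1 (one_mem _)
    rw [mul_one] at this
    linear_combination -this
  have hinv : ∀ y ∈ Γ, φ y⁻¹ = - φ y := by
    intro y hy
    have := h1 y hy y⁻¹ (inv_mem hy)
    rw [mul_inv_cancel, hone] at this
    linear_combination -this
  -- some term of the lower central series is in Γ
  obtain ⟨k, hk⟩ : ∃ k, LC H k ≤ Γ := by
    obtain ⟨n, hn⟩ := Subgroup.nilpotent_iff_lowerCentralSeries.1 hnil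
    refine ⟨n, ?_⟩
    intro y hy
    have h3 := (⊤ : Subgroup H).map_lowerCentralSeries (QuotientGroup.mk' Γ) n
    rw [← MonoidHom.range_eq_map, MonoidHom.range_eq_top.2 (QuotientGroup.mk'_surjective Γ),
      hn] at h3
    have h4 : (QuotientGroup.mk' Γ) y ∈ (⊥ : Subgroup (H ⧸ Γ)) := by
      rw [← h3]
      exact ⟨y, hy, rfl⟩
    rw [Subgroup.mem_bot] at h4
    exact (QuotientGroup.eq_one_iff y).1 h4
  have hk1 : LC H (k + 1) ≤ Γ :=
    (LC_anti (Nat.le_succ k)).trans hk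
  have hcomm : ∀ y ∈ Γ, ⁅y, t⁆ ∈ Γ ∧ φ ⁅y, t⁆ = (1 - χ t) * φ y := by
    intro y hy
    have e : ⁅y, t⁆ = y * (t * y⁻¹ * t⁻¹) := by rw [commutatorElement_def]; group
    have hm := hΓn.conj_mem _ (inv_mem hy) t
    refine ⟨by rw [e]; exact mul_mem hy hm, ?_⟩
    rw [e, h1 _ hy _ hm, h2 t _ (inv_mem hy), hinv y hy]
    ring
  have hit : ∀ m, it t m x ∈ Γ ∧ φ (it t m x) = (1 - χ t) ^ m * φ x := by
    intro m
    induction m with
    | zero => exact ⟨hx, by simp [it]⟩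
    | succ m ih =>
      refine ⟨(hcomm _ ih.1).1, ?_⟩
      rw [it, (hcomm _ ih.1).2, ih.2, pow_succ]
      ring
  have hE : EigVec (LC H (k + 1)) χ φ := by
    refine ⟨fun a ha b hb => h1 a (hk1 ha) b (hk1 hb), fun g a ha => h2 g a (hk1 ha),
      it t (k + 1) x, it_mem t _ x, ?_⟩
    rw [(hit _).2]
    exact mul_ne_zero (pow_ne_zero _ hne) hx0
  -- descend
  have hdesc : ∀ j, j ≤ k → ∃ φ' : H → F, EigVec (LC H (k + 1 - j)) χ φ' := by
    intro j
    induction j with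
    | zero => intro _; exact ⟨φ, hE⟩
    | succ j ih =>
      intro hj
      obtain ⟨φ', h'⟩ := ih (by omega)
      have e : k + 1 - j = (k + 1 - (j + 1)) + 1 := by omega
      rw [e] at h'
      exact ext_step χ t hχ _ (by omega) φ' h'
  obtain ⟨ψ, hψ⟩ := hdesc k le_rfl
  have e1 : k + 1 - k = 1 := by omega
  rw [e1] at hψ
  obtain ⟨g1, g2, y, hy, hy0⟩ := hψ
  have hmem : ∀ g : H, ⁅g, t⁆ ∈ LC H 1 := fun g =>
    comm_mem (n := 0) (Subgroup.mem_top g) t
  have hn1 : (LC H 1).Normal := inferInstance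
  have hone' : ψ 1 = 0 := by
    have := g1 1 (one_mem _) 1 (one_mem _)
    rw [mul_one] at this
    linear_combination -this
  have hinv' : ∀ y ∈ LC H 1, ψ y⁻¹ = - ψ y := by
    intro y hy
    have := g1 y hy y⁻¹ (inv_mem hy)
    rw [mul_inv_cancel, hone'] at this
    linear_combination -this
  have hb : ∀ g h : H, ψ ⁅g * h, t⁆ / (1 - χ t) =
      ψ ⁅g, t⁆ / (1 - χ t) + χ g * (ψ ⁅h, t⁆ / (1 - χ t)) := by
    intro g h
    have e : ⁅g * h, t⁆ = (g * ⁅h, t⁆ * g⁻¹) * ⁅g, t⁆ := by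
      simp only [commutatorElement_def]; group
    rw [e, g1 _ (hn1.conj_mem _ (hmem h) g) _ (hmem g), g2 g _ (hmem h)]
    ring
  refine ⟨fun g => ψ ⁅g, t⁆ / (1 - χ t), hb, ?_⟩
  by_contra hcon
  push Not at hcon
  -- b vanishes on commutators, so on the derived subgroup
  have hby : ψ ⁅y, t⁆ / (1 - χ t) = ψ y := by
    have e : ⁅y, t⁆ = y * (t * y⁻¹ * t⁻¹) := by rw [commutatorElement_def]; group
    rw [e, g1 _ hy _ (hn1.conj_mem _ (inv_mem hy) t), g2 t _ (inv_mem hy), hinv' y hy]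
    have : ψ y + χ t * -ψ y = (1 - χ t) * ψ y := by ring
    rw [this, mul_div_cancel_left₀ _ hne]
  have hcomm0 : ∀ g h : H, ψ ⁅⁅g, h⁆, t⁆ / (1 - χ t) = 0 := by
    intro g h
    have e : g * h = ⁅g, h⁆ * (h * g) := by rw [commutatorElement_def]; group
    have h5 := hcon g h
    rw [e] at h5
    simp only [hb] at h5
    rw [chi_comm] at h5
    simp only [Units.val_one, one_mul] at h5
    linear_combination h5
  let b' : H → F := fun g => ψ ⁅g, t⁆ / (1 - χ t)
  have hker : ∀ z ∈ LC H 1, b' z = 0 := by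
    intro z hz
    rw [LC, Subgroup.top_lowerCentralSeries_one, commutator_eq_closure] at hz
    refine Subgroup.closure_induction (p := fun z _ => b' z = 0 ∧ χ z = 1) ?_ ?_ ?_ ?_ hz |>.1
    · rintro _ ⟨a, c, rfl⟩
      exact ⟨hcomm0 a c, chi_comm χ a c⟩
    · refine ⟨?_, map_one χ⟩
      have := hb 1 1
      simp only [mul_one, map_one, Units.val_one, one_mul] at this
      show ψ ⁅(1 : H), t⁆ / (1 - χ t) = 0
      linear_combination -this
    · rintro p q _ _ ⟨hp, hp'⟩ ⟨hq, hq'⟩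
      refine ⟨?_, by rw [map_mul, hp', hq', one_mul]⟩
      show ψ ⁅p * q, t⁆ / (1 - χ t) = 0
      rw [hb]
      have hp2 : ψ ⁅p, t⁆ / (1 - χ t) = 0 := hp
      have hq2 : ψ ⁅q, t⁆ / (1 - χ t) = 0 := hq
      rw [hp2, hq2]
      simp
    · rintro p _ ⟨hp, hp'⟩
      refine ⟨?_, by rw [map_inv, hp', inv_one]⟩
      have h6 := hb p p⁻¹
      have hp2 : ψ ⁅p, t⁆ / (1 - χ t) = 0 := hp
      have h7 := hb 1 1
      simp only [mul_one, map_one, Units.val_one, one_mul] at h7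
      rw [mul_inv_cancel, hp2, hp'] at h6
      simp only [Units.val_one, one_mul, zero_add] at h6
      show ψ ⁅p⁻¹, t⁆ / (1 - χ t) = 0
      linear_combination -h6 - h7
  have h8 := hker y hy
  have h9 : ψ ⁅y, t⁆ / (1 - χ t) = 0 := h8
  rw [hby] at h9
  exact hy0 h9

end Pool.Agent.Helper28K9.RKF
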