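import Mathlib
import Pool.Agent.H746UG.Digits
import Pool.Agent.TH53.UG5
import Pool.Agent.Helper28K9.RK.GenA

/-!
# Numbers that are not algebraic units, in arbitrary fields
-/

set_option autoImplicit false

open Polynomial Filter Topology Module
open scoped Pointwise

namespace Pool.Agent.Helper28K9.RKF

open Pool.Agent.H746UG (dsm dsm_map dsm_X_inj coeff01 DS card_DS_of_inj rho)

universe u v

lemma integral_of_collision' {F : Type v} [Field F] (x : F) (u v : List Bool) (hl : u.length = v.length) (hne : u ≠ v)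
    (h : dsm x u = dsm x v) : IsIntegral ℤ x := by
  set P : ℤ[X] := dsm X u - dsm X v with hP
  have hP0 : P ≠ 0 := by
    intro h0
    exact hne (dsm_X_inj u v hl (sub_eq_zero.mp h0))
  have hPx : aeval x P = 0 := by
    have h1 : ∀ w : List Bool, (aeval x) (dsm (X : ℤ[X]) w) = dsm x w := by
      intro w
      have := dsm_map ((aeval x : ℤ[X] →ₐ[ℤ] F) : ℤ[X] →+* F) X w
      simpa using this
    rw [hP, map_sub, h1, h1, h, sub_self]
  have hlc : P.leadingCoeff = 1 ∨ P.leadingCoeff = -1 := by
    have h1 : P.leadingCoeff ≠ 0 := leadingCoeff_ne_zero.mpr hP0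
    have h2 : P.leadingCoeff =
        (dsm (X : ℤ[X]) u).coeff P.natDegree - (dsm (X : ℤ[X]) v).coeff P.natDegree := by
      rw [← coeff_sub]; rfl
    rcases coeff01 u P.natDegree with h3 | h3 <;> rcases coeff01 v P.natDegree with h4 | h4 <;>
      rw [h3, h4] at h2
    · rw [h2] at h1; simp at h1
    · right; rw [h2]; norm_num
    · left; rw [h2]; norm_num
    · rw [h2] at h1; simp at h1
  rcases hlc with h1 | h1
  · exact ⟨P, h1, by rw [← aeval_def]; exact hPx⟩
  · refine ⟨-P, ?_, ?_⟩
    · show (-P).leadingCoeff = 1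
      rw [leadingCoeff_neg, h1]; norm_num
    · rw [← aeval_def, map_neg, hPx, neg_zero]

lemma dsm_append {F : Type v} [Field F] (y : F) (w : List Bool) (b : Bool) :
    dsm y (w ++ [b]) = dsm y w + y ^ w.length * (if b then 0 else 1) := by
  induction w with
  | nil => simp [dsm]
  | cons a w ih =>
    rw [List.cons_append, dsm, ih, dsm, List.length_cons]; ring

lemma dsm_reverse {F : Type v} [Field F] (x : F) (hx : x ≠ 0) (w : List Bool) :
    dsm x⁻¹ w.reverse = x⁻¹ ^ w.length * x * dsm x w := by
  induction w with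
  | nil => simp [dsm]
  | cons b w ih =>
    rw [List.reverse_cons, dsm_append, ih, List.length_reverse, dsm, List.length_cons, pow_succ]
    field_simp
    ring

lemma integral_of_collision {F : Type v} [Field F] (x : F) (hx : x ≠ 0) (u v : List Bool) (hl : u.length = v.length)
    (hne : u ≠ v) (h : dsm x u = dsm x v) : IsIntegral ℤ x ∧ IsIntegral ℤ x⁻¹ := by
  refine ⟨integral_of_collision' x u v hl hne h, ?_⟩
  apply integral_of_collision' x⁻¹ u.reverse v.reverse
  · rw [List.length_reverse, List.length_reverse, hl]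
  · intro h1; exact hne (List.reverse_injective h1)
  · rw [dsm_reverse x hx, dsm_reverse x hx, hl, h]

/-- algebraic units -/
def AlgUnit {F : Type v} [Field F] (x : F) : Prop := IsIntegral ℤ x ∧ IsIntegral ℤ x⁻¹

lemma DS_sub_dbl {F : Type v} [Field F] (x : F) (n : ℕ) : DS x n ⊆ dbl 1 n x x := by
  have key : ∀ w : List Bool, dsm x w =
      ∑ i ∈ Finset.range w.length, if w.getD i true then 0 else x ^ i := by
    intro w
    induction w with
    | nil => simp [dsm]
    | cons b w ih =>
      rw [dsm, ih, List.length_cons, Finset.sum_range_succ', Finset.mul_sum, add_comm]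
      congr 1
      · apply Finset.sum_congr rfl
        intro i _
        rw [List.getD_cons_succ]
        split_ifs
        · rw [mul_zero]
        · rw [pow_succ']
      · simp
  rintro _ ⟨w, hw, rfl⟩
  refine ⟨fun m _ => !(w.getD m true), ?_⟩
  rw [key w, hw, Finset.sum_range]
  apply Finset.sum_congr rfl
  intro i _
  rw [Fin.sum_univ_one]
  show (if w.getD (i : ℕ) true = true then (0 : F) else x ^ (i : ℕ)) =
    if (!(w.getD (i : ℕ) true)) = true then x ^ (i : ℕ) * x ^ (((0 : Fin 1)) : ℕ) else 0
  generalize w.getD (i : ℕ) true = b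
  cases b <;> simp

lemma card_dbl_of_not {F : Type v} [Field F] (x : F) (hx : x ≠ 0) (h : ¬ AlgUnit x) (n : ℕ) :
    2 ^ n ≤ Nat.card (dbl 1 n x x) := by
  have h1 : Nat.card (DS x n) = 2 ^ n := by
    apply card_DS_of_inj
    intro u v hl he
    by_contra hne
    exact h (integral_of_collision x hx u v hl hne he)
  rw [← h1]
  have hfin : (dbl 1 n x x).Finite := by
    have h1 : (dbl 1 n x x) = Set.range (fun ε : Fin n → Fin 1 → Bool =>
        ∑ m : Fin n, ∑ j : Fin 1, if ε m j then x ^ (m : ℕ) * x ^ (j : ℕ) else 0) := by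
      ext z
      constructor
      · rintro ⟨ε, h⟩
        exact ⟨ε, h.symm⟩
      · rintro ⟨ε, h⟩
        exact ⟨ε, h.symm⟩
    rw [h1]
    exact Set.finite_range _
  exact Nat.card_mono hfin (DS_sub_dbl x n)

/-- in positive characteristic, integral elements have finite order -/
lemma order_of_integral {F : Type v} [Field F] (p : ℕ) [hp : Fact p.Prime] [CharP F p] (x : F)
    (hx : x ≠ 0) (h : IsIntegral ℤ x) : ∃ n : ℕ, 0 < n ∧ x ^ n = 1 := by
  have hfg : Module.Finite ℤ (Algebra.adjoin ℤ {x}) :=
    Module.Finite.iff_fg.2 h.fg_adjoin_singleton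
  have htor : Module.IsTorsion ℤ (Algebra.adjoin ℤ {x}) := by
    intro y
    refine ⟨⟨(p : ℤ), mem_nonZeroDivisors_of_ne_zero (by exact_mod_cast hp.out.ne_zero)⟩, ?_⟩
    apply Subtype.ext
    show (p : ℤ) • (y : F) = 0
    rw [zsmul_eq_mul]
    have : ((p : ℤ) : F) = 0 := by
      rw [Int.cast_natCast]
      exact CharP.cast_eq_zero F p
    rw [this, zero_mul]
  have hfin : Finite (Algebra.adjoin ℤ {x}) := Module.finite_of_fg_torsion _ htor
  obtain ⟨a, b, hab, h1⟩ := Finite.exists_ne_map_eq_of_infinite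
    (fun n : ℕ => (⟨x ^ n, pow_mem (Algebra.self_mem_adjoin_singleton ℤ x) n⟩ :
      Algebra.adjoin ℤ {x}))
  have h2 : x ^ a = x ^ b := congrArg Subtype.val h1
  rcases lt_or_gt_of_ne hab with h3 | h3
  · refine ⟨b - a, by omega, ?_⟩
    have h4 : x ^ a * x ^ (b - a) = x ^ a * 1 := by
      rw [← pow_add, mul_one, h2]; congr 1; omega
    exact mul_left_cancel₀ (pow_ne_zero _ hx) h4
  · refine ⟨a - b, by omega, ?_⟩
    have h4 : x ^ b * x ^ (a - b) = x ^ b * 1 := by
      rw [← pow_add, mul_one, ← h2]; congr 1; omega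
    exact mul_left_cancel₀ (pow_ne_zero _ hx) h4

end Pool.Agent.Helper28K9.RKF
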