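import Mathlib
import Pool.Agent.Helper28K9.RK.GenC
import Pool.Agent.Helper28K9.RK.All
import Pool.Agent.Helper28K9.RK.Act
import Pool.Agent.Helper28K9.RK.Choice
import Pool.Agent.Helper28K9.RK.Etab

/-!
# The growth gap for affine actions over arbitrary fields
-/

set_option autoImplicit false

open Module Finset
open scoped Pointwise IntermediateField

namespace Pool.Agent.Helper28K9.RKF

open Pool.Agent.H746UG (rho eta digitSums)

universe u v

lemma ind_choice {F : Type v} [Field F] {x y c : F} (hx : x ≠ 0) (hy : y ≠ 0) (hc : c ≠ 0)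
    (h : Ind x y) : ∃ i : ℕ, 1 ≤ i ∧ i ≤ 2 ∧ Ind x (c * y ^ i) := by
  by_contra hcon
  push Not at hcon
  have h1 := hcon 1 le_rfl (by norm_num)
  have h2 := hcon 2 (by norm_num) le_rfl
  rw [Ind] at h1 h2
  push Not at h1 h2
  obtain ⟨a1, b1, e1, n1⟩ := h1
  obtain ⟨a2, b2, e2, n2⟩ := h2
  have hb1 : b1 ≠ 0 := by
    intro h0
    subst h0
    rw [zpow_zero, mul_one] at e1
    have := h a1 0 (by rw [zpow_zero, mul_one]; exact e1)
    exact n1 this.1 rfl
  have hb2 : b2 ≠ 0 := by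
    intro h0
    subst h0
    rw [zpow_zero, mul_one] at e2
    have := h a2 0 (by rw [zpow_zero, mul_one]; exact e2)
    exact n2 this.1 rfl
  have e1' : x ^ (a1 * b2) * (c * y) ^ (b1 * b2) = 1 := by
    rw [zpow_mul, zpow_mul, ← mul_zpow]
    rw [pow_one] at e1
    rw [e1, one_zpow]
  have e2' : x ^ (a2 * b1) * (c * y ^ 2) ^ (b1 * b2) = 1 := by
    rw [mul_comm b1 b2, zpow_mul, zpow_mul, ← mul_zpow, e2, one_zpow]
  have e3 : x ^ (a1 * b2 - a2 * b1) * y ^ (-(b1 * b2)) = 1 := by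
    have h5 : (c * y ^ 2) ^ (b1 * b2) = (c * y) ^ (b1 * b2) * y ^ (b1 * b2) := by
      rw [← mul_zpow]
      congr 1
      ring
    rw [h5] at e2'
    have hX1 : x ^ (a1 * b2) ≠ 0 := zpow_ne_zero _ hx
    have hX2 : x ^ (a2 * b1) ≠ 0 := zpow_ne_zero _ hx
    have hY : y ^ (b1 * b2) ≠ 0 := zpow_ne_zero _ hy
    have hC : (c * y) ^ (b1 * b2) ≠ 0 := zpow_ne_zero _ (mul_ne_zero hc hy)
    rw [zpow_sub₀ hx, zpow_neg]
    field_simp
    have h6 : x ^ (a1 * b2) * (c * y) ^ (b1 * b2) =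
        x ^ (a2 * b1) * y ^ (b1 * b2) * (c * y) ^ (b1 * b2) := by
      rw [e1', mul_assoc, mul_comm (y ^ (b1 * b2)), e2']
    exact mul_right_cancel₀ hC h6
  have := (h _ _ e3).2
  have h7 : b1 * b2 = 0 := by linarith
  rcases mul_eq_zero.1 h7 with h8 | h8
  · exact hb1 h8
  · exact hb2 h8

lemma card_dbl_map {K : Type u} {L : Type v} [Field K] [Field L] (f : K →+* L) (J n : ℕ)
    (ξ Q : K) : Nat.card (dbl J n (f ξ) (f Q)) = Nat.card (dbl J n ξ Q) := by
  have h : dbl J n (f ξ) (f Q) = f '' dbl J n ξ Q := by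
    ext z
    constructor
    · rintro ⟨ε, rfl⟩
      refine ⟨_, ⟨ε, rfl⟩, ?_⟩
      rw [map_sum]
      apply Finset.sum_congr rfl
      intro m _
      rw [map_sum]
      apply Finset.sum_congr rfl
      intro j _
      split_ifs
      · rw [map_mul, map_pow, map_pow]
      · rw [map_zero]
    · rintro ⟨_, ⟨ε, rfl⟩, rfl⟩
      refine ⟨ε, ?_⟩
      rw [map_sum]
      apply Finset.sum_congr rfl
      intro m _
      rw [map_sum]
      apply Finset.sum_congr rfl
      intro j _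
      split_ifs
      · rw [map_mul, map_pow, map_pow]
      · rw [map_zero]
  rw [h]
  exact Nat.card_image_of_injective f.injective _

lemma algUnit_one {F : Type v} [Field F] : AlgUnit (1 : F) :=
  ⟨isIntegral_one, by rw [inv_one]; exact isIntegral_one⟩

lemma AlgUnit.mul {F : Type v} [Field F] {x y : F} (hx : AlgUnit x) (hy : AlgUnit y) :
    AlgUnit (x * y) :=
  ⟨hx.1.mul hy.1, by rw [mul_inv]; exact hx.2.mul hy.2⟩

lemma AlgUnit.inv {F : Type v} [Field F] {x : F} (hx : AlgUnit x) : AlgUnit x⁻¹ :=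
  ⟨hx.2, by rw [inv_inv]; exact hx.1⟩

/-- if the values at the generators are algebraic units, then all values are -/
lemma algUnit_all {G : Type u} [Group G] (S : Set G) {F : Type v} [Field F] (χ : G →* Fˣ)
    (hS : Subgroup.closure S = ⊤) (h : ∀ s ∈ S, AlgUnit ((χ s : Fˣ) : F)) (g : G) :
    AlgUnit ((χ g : Fˣ) : F) := by
  let T : Subgroup G :=
    { carrier := {g | AlgUnit ((χ g : Fˣ) : F)}
      mul_mem' := by
        intro a b ha hb
        show AlgUnit ((χ (a * b) : Fˣ) : F)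
        rw [map_mul, Units.val_mul]
        exact AlgUnit.mul ha hb
      one_mem' := by
        show AlgUnit ((χ 1 : Fˣ) : F)
        rw [map_one, Units.val_one]
        exact algUnit_one
      inv_mem' := by
        intro a ha
        show AlgUnit ((χ a⁻¹ : Fˣ) : F)
        rw [map_inv, Units.val_inv_eq_inv_val]
        exact AlgUnit.inv ha }
  have h1 : Subgroup.closure S ≤ T := (Subgroup.closure_le _).mpr h
  rw [hS] at h1
  exact h1 (Subgroup.mem_top g)

/-- a nonabelian action with a value that is not an algebraic unit -/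
lemma grow_not {G : Type u} [Group G] (S : Set G) (hfin : S.Finite)
    (hgen : Subgroup.closure S = ⊤) {F : Type v} [Field F] (χ : G →* Fˣ) (b : G → F)
    (hb : ∀ g h, b (g * h) = b g + χ g * b h) (hne : ∃ g h, b (g * h) ≠ b (h * g))
    (hn : ∃ g, ¬ AlgUnit ((χ g : Fˣ) : F)) : Real.log 2 / 3 ≤ rho S := by
  obtain ⟨s, hs, t, ht, hst⟩ := pair S χ b hgen hb hne
  obtain ⟨r, hr, hrn⟩ : ∃ r ∈ S, ¬ AlgUnit ((χ r : Fˣ) : F) := by
    by_contra hcon
    push Not at hcon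
    obtain ⟨g, hg⟩ := hn
    exact hg (algUnit_all S χ hgen hcon g)
  obtain ⟨u, hu⟩ : ∃ u, u = s * t := ⟨_, rfl⟩
  obtain ⟨v, hv⟩ : ∃ v, v = t * s := ⟨_, rfl⟩
  have huv : χ u = χ v := by rw [hu, hv, map_mul, map_mul, mul_comm]
  have hbuv : b u ≠ b v := by rw [hu, hv]; exact hst
  have huS : u ∈ S ^ 2 := by rw [hu, pow_two]; exact Set.mul_mem_mul hs ht
  have hvS : v ∈ S ^ 2 := by rw [hv, pow_two]; exact Set.mul_mem_mul ht hs
  have hl2 : 0 < Real.log 2 := Real.log_pos (by norm_num)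
  have key : ∀ (w : G) (l : ℕ), w ∈ S ^ l → l ≤ 1 → ¬ AlgUnit ((χ (u * w) : Fˣ) : F) →
      Real.log 2 / 3 ≤ rho S := by
    intro w l hw hl hnw
    have h1 : ∀ n, 2 ^ n ≤ Nat.card ↥(S ^ n) ^ (2 + l) := by
      intro n
      have h2 := prog S χ b u v w 1 2 l 0 1 n hfin hb huS hvS hw
        (by rw [pow_zero]; exact Set.mem_one.2 rfl) huv hbuv
      rw [mul_one, pow_one] at h2
      refine (card_dbl_of_not _ (Units.ne_zero _) hnw n).trans (h2.trans ?_)
      have h3 : n * (1 * (2 + l) + 1 * 0) = (2 + l) * n := by ring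
      rw [h3]
      exact H746UG.card_pow_mul S (2 + l) n
    have h4 := TH53.UG.rho_of_two S (L := 2 + l) (by omega) h1
    refine le_trans ?_ h4
    apply div_le_div_of_nonneg_left hl2.le (by positivity)
    have : 2 + l ≤ 3 := by omega
    exact_mod_cast this
  by_cases hcu : AlgUnit ((χ u : Fˣ) : F)
  · refine key r 1 (by rw [pow_one]; exact hr) le_rfl ?_
    intro h5
    apply hrn
    have h6 := AlgUnit.mul (AlgUnit.inv hcu) h5
    rw [map_mul, Units.val_mul, ← mul_assoc, inv_mul_cancel₀ (Units.ne_zero _), one_mul] at h6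
    exact h6
  · refine key 1 0 (by rw [pow_zero]; exact Set.mem_one.2 rfl) (by omega) ?_
    rw [mul_one]
    exact hcu

/-- **the growth gap over arbitrary fields** -/
theorem growF : ∃ c : ℝ, 0 < c ∧ ∀ (G : Type u) [Group G] (S : Set G), S.Finite →
    Subgroup.closure S = ⊤ → ∀ (F : Type v) [Field F] (χ : G →* Fˣ) (b : G → F),
    (∀ g h, b (g * h) = b g + χ g * b h) → (∃ g h, b (g * h) ≠ b (h * g)) →
    ((∃ g, ¬ AlgUnit ((χ g : Fˣ) : F)) ∨ ∃ g h, Ind ((χ g : Fˣ) : F) ((χ h : Fˣ) : F)) →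
    c ≤ rho S := by
  obtain ⟨c1, hc1, hch⟩ := RK.choice RK.hkb RK.primes RK.degp RK.nt_final RK.etab
  have hl2 : 0 < Real.log 2 := Real.log_pos (by norm_num)
  refine ⟨min (c1 / 9) (Real.log 2 / 3), lt_min (by positivity) (by positivity), ?_⟩
  intro G _ S hfin hgen F _ χ b hb hne hbig
  by_cases hunit : ∃ g, ¬ AlgUnit ((χ g : Fˣ) : F)
  · exact (min_le_right _ _).trans (grow_not S hfin hgen χ b hb hne hunit)
  have hrank : ∃ g h, Ind ((χ g : Fˣ) : F) ((χ h : Fˣ) : F) := hbig.resolve_left hunit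
  push Not at hunit
  obtain ⟨s, hs, t, ht, hst⟩ := pair S χ b hgen hb hne
  obtain ⟨s1, hs1, s2, hs2, hind⟩ := rank S χ hgen hrank
  -- the characteristic is zero
  have hchar : CharZero F := by
    obtain ⟨p, hp⟩ := CharP.exists F
    rcases CharP.char_is_prime_or_zero F p with h0 | h0
    · exfalso
      haveI : Fact p.Prime := ⟨h0⟩
      obtain ⟨m, hm, hm1⟩ := order_of_integral p _ (Units.ne_zero (χ s1)) (hunit s1).1
      have h1 := (hind m 0 (by rw [zpow_natCast, hm1, zpow_zero, mul_one])).1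
      omega
    · subst h0
      exact CharP.charP_to_charZero F
  obtain ⟨u, hu⟩ : ∃ u, u = s * t := ⟨_, rfl⟩
  obtain ⟨v, hv⟩ : ∃ v, v = t * s := ⟨_, rfl⟩
  have huv : χ u = χ v := by rw [hu, hv, map_mul, map_mul, mul_comm]
  have hbuv : b u ≠ b v := by rw [hu, hv]; exact hst
  have huS : u ∈ S ^ 2 := by rw [hu, pow_two]; exact Set.mul_mem_mul hs ht
  have hvS : v ∈ S ^ 2 := by rw [hv, pow_two]; exact Set.mul_mem_mul ht hs
  have hx0 : ((χ s1 : Fˣ) : F) ≠ 0 := Units.ne_zero _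
  have hy0 : ((χ s2 : Fˣ) : F) ≠ 0 := Units.ne_zero _
  obtain ⟨i, hi1, hi2, hix⟩ := ind_choice hx0 hy0 (Units.ne_zero (χ u)) hind
  obtain ⟨w, hw⟩ : ∃ w, w = s2 ^ i := ⟨_, rfl⟩
  have hwS : w ∈ S ^ i := by rw [hw]; exact Set.pow_mem_pow hs2
  obtain ⟨x, hx⟩ : ∃ x : F, x = (χ s1 : Fˣ) := ⟨_, rfl⟩
  obtain ⟨ξ, hξ⟩ : ∃ ξ : F, ξ = (χ (u * w) : Fˣ) := ⟨_, rfl⟩
  have hξ' : ξ = (χ u : Fˣ) * ((χ s2 : Fˣ) : F) ^ i := by
    rw [hξ, hw, map_mul, map_pow]
    push_cast
    rfl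
  rw [← hξ', ← hx] at hix
  rw [← hx] at hx0
  have hξ0 : ξ ≠ 0 := by rw [hξ]; exact Units.ne_zero _
  have hxi : AlgUnit x := by rw [hx]; exact hunit s1
  have hξi : AlgUnit ξ := by rw [hξ]; exact hunit _
  -- the field `ℚ (x, ξ)` and an embedding in `ℂ`
  obtain ⟨K, hK⟩ : ∃ K : IntermediateField ℚ F, K = IntermediateField.adjoin ℚ {x, ξ} := ⟨_, rfl⟩
  have hxK : x ∈ K := by rw [hK]; exact IntermediateField.subset_adjoin _ _ (by simp)
  have hξK : ξ ∈ K := by rw [hK]; exact IntermediateField.subset_adjoin _ _ (by simp)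
  have hxQ : IsIntegral ℚ x := hxi.1.tower_top
  have hξQ : IsIntegral ℚ ξ := hξi.1.tower_top
  have halg : Algebra.IsAlgebraic ℚ K := by
    rw [hK]
    apply IntermediateField.isAlgebraic_adjoin
    intro z hz
    rcases hz with rfl | hz
    · exact hxQ
    · rw [Set.mem_singleton_iff.1 hz]; exact hξQ
  obtain ⟨σ⟩ : Nonempty (K →ₐ[ℚ] ℂ) := ⟨IsAlgClosed.lift⟩
  obtain ⟨x', hx'⟩ : ∃ x' : K, (x' : F) = x := ⟨⟨x, hxK⟩, rfl⟩
  obtain ⟨ξ', hξ''⟩ : ∃ ξ' : K, (ξ' : F) = ξ := ⟨⟨ξ, hξK⟩, rfl⟩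
  have hK0 : ∀ z : K, (z : F) ≠ 0 → σ z ≠ 0 := by
    intro z hz h0
    apply hz
    rw [(map_eq_zero σ).1 h0]
    rfl
  have hint : ∀ z : K, IsIntegral ℤ (z : F) → IsIntegral ℤ (σ z) := by
    intro z hz
    have h1 : IsIntegral ℤ z := by
      have h2 : (z : F) = algebraMap K F z := rfl
      rw [h2] at hz
      exact (isIntegral_algebraMap_iff (FaithfulSMul.algebraMap_injective K F)).1 hz
    exact h1.map (σ.restrictScalars ℤ)
  have hindC : RK.Ind (σ x') (σ ξ') := by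
    intro a c hac
    apply hix a c
    have h1 : x' ^ a * ξ' ^ c = 1 := by
      apply σ.injective
      rw [map_mul, map_zpow₀, map_zpow₀, map_one]
      exact hac
    have h2 : ((x' ^ a * ξ' ^ c : K) : F) = ((1 : K) : F) := congrArg (fun z : K => (z : F)) h1
    rw [← hx', ← hξ'']
    have h3 : ((x' ^ a * ξ' ^ c : K) : F) = (x' : F) ^ a * (ξ' : F) ^ c := by
      push_cast
      rfl
    rw [← h3, h2]
    rfl
  obtain ⟨ψ, hψ, J, e, he, heJ, hLI, hc⟩ :=
    hch (σ x') (σ ξ') (hK0 _ (by rw [hx']; exact hx0)) (hK0 _ (by rw [hξ'']; exact hξ0))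
      (hint _ (by rw [hx']; exact hxi.1))
      (by
        rw [← map_inv₀]
        apply hint
        have : ((x'⁻¹ : K) : F) = x⁻¹ := by rw [← hx']; rfl
        rw [this]; exact hxi.2)
      (hint _ (by rw [hξ'']; exact hξi.1))
      (by
        rw [← map_inv₀]
        apply hint
        have : ((ξ'⁻¹ : K) : F) = ξ⁻¹ := by rw [← hξ'']; rfl
        rw [this]; exact hξi.2) hindC
  have hJ : 0 < J := he.trans_le heJ
  have hJR : (0 : ℝ) < J := by exact_mod_cast hJ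
  have heR : (0 : ℝ) < e := by exact_mod_cast he
  have hη : 0 < eta ((σ ξ' * ψ) ^ J) := by
    by_contra hcon
    push Not at hcon
    have : (e : ℝ) / J * eta ((σ ξ' * ψ) ^ J) ≤ 0 :=
      mul_nonpos_of_nonneg_of_nonpos (by positivity) hcon
    linarith
  obtain ⟨z, l, ψ', hzS, hl, hz, hψ'⟩ : ∃ (z : G) (l : ℕ) (ψ' : K), z ∈ S ^ l ∧ l ≤ 3 + i ∧
      ((χ z : Fˣ) : F) = ψ' ∧ σ ψ' = ψ := by
    rcases hψ with h | h
    · exact ⟨s1, 1, x', by rw [pow_one]; exact hs1, by omega, by rw [hx', hx], h.symm⟩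
    · refine ⟨s1 * (u * w), 1 + (2 + i), x' * ξ', ?_, by omega, ?_, by rw [map_mul, h]⟩
      · rw [pow_add, pow_add, pow_one]
        exact Set.mul_mem_mul hs1 (Set.mul_mem_mul huS hwS)
      · have h3 : ((x' * ξ' : K) : F) = (x' : F) * ξ' := rfl
        rw [map_mul χ s1 (u * w), Units.val_mul, h3, hx', hξ'', hx, hξ]
  have h1 := RK.rate G S ((σ ξ' * ψ) ^ J) e (J * (2 + i) + J * l)
    (pow_ne_zero _ (mul_ne_zero (hK0 _ (by rw [hξ'']; exact hξ0))
      (by rw [← hψ']; exact hK0 _ (by rw [← hz]; exact Units.ne_zero _))))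
    (by positivity) (fun n => by
      refine (RK.dbl_ok (σ ξ') _ J n e heJ hLI).trans ?_
      have h2 := prog S χ b u v w z 2 i l J n hfin hb huS hvS hwS hzS huv hbuv
      have h4 : ((χ (u * w * z) : Fˣ) : F) ^ J = algebraMap K F ((ξ' * ψ') ^ J) := by
        rw [map_mul χ (u * w) z, Units.val_mul, ← hξ, hz, ← hξ'', map_pow, map_mul]
        rfl
      have h5 : ((χ (u * w) : Fˣ) : F) = algebraMap K F ξ' := by
        rw [← hξ, ← hξ'']
        rfl
      rw [h4, h5, card_dbl_map (algebraMap K F) J n ξ' ((ξ' * ψ') ^ J)] at h2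
      have h6 := card_dbl_map (σ : K →+* ℂ) J n ξ' ((ξ' * ψ') ^ J)
      have h7 : (σ : K →+* ℂ) ((ξ' * ψ') ^ J) = (σ ξ' * ψ) ^ J := by
        rw [map_pow, map_mul, ← hψ']
        rfl
      rw [h7] at h6
      refine le_trans (le_of_eq ?_) h2
      exact h6)
  refine (min_le_left _ _).trans (le_trans ?_ h1)
  have hlen : ((2 + i : ℕ) : ℝ) + l ≤ 9 := by
    have : 2 + i + l ≤ 9 := by omega
    exact_mod_cast this
  have hlen0 : (0 : ℝ) < ((2 + i : ℕ) : ℝ) + l := by positivity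
  calc c1 / 9 ≤ (e : ℝ) / J * eta ((σ ξ' * ψ) ^ J) / 9 := by linarith
    _ = (e : ℝ) / (J * 9) * eta ((σ ξ' * ψ) ^ J) := by field_simp
    _ ≤ (e : ℝ) / (J * ((2 + i : ℕ) + l)) * eta ((σ ξ' * ψ) ^ J) := by
        apply mul_le_mul_of_nonneg_right _ hη.le
        apply div_le_div_of_nonneg_left heR.le (by positivity)
        exact mul_le_mul_of_nonneg_left hlen hJR.le
    _ = (e : ℝ) / ((J * (2 + i) + J * l : ℕ) : ℝ) * eta ((σ ξ' * ψ) ^ J) := by
        congr 2
        push_cast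
        ring

end Pool.Agent.Helper28K9.RKF
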