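import Mathlib

/-!
# Statement: modules that are not finitely generated as abelian groups

[CA] `R` a commutative ring generated by a finite set `T`, `A` a finite `R`-module which is not
finitely generated as an abelian group.  Then there are a field `F`, a ring homomorphism
`g : R → F` and a nonzero `g`-linear map `φ : A → F`, and some `g t`, `t ∈ T`, is not integral.

Proof.  `R` is noetherian (`Algebra.FiniteType.isNoetherianRing ℤ R`), so `A` is.
(1) Let `B` be a maximal submodule among those with `A ⧸ B` not finite over `ℤ`, `M = A ⧸ B`: then
`M` is not finite over `ℤ`, and `M ⧸ C` is for all submodules `C ≠ ⊥`.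
(2) Every `r : R` acts on `M` as zero or injectively: otherwise `M ⧸ range` is finite and
`range ≃ M ⧸ ker` is finite, so `M` is finite over `ℤ` (`Module.Finite.of_submodule_quotient`).
(3) So `P = Module.annihilator R M` is prime (`M` is nontrivial); `D = R ⧸ P`, and `M` is a
torsion-free `D`-module (`Module.quotientAnnihilator`); `F = FractionRing D`.
(4) `V = LocalizedModule (nonZeroDivisors D) M` is a vector space over `F` and `M → V` is injective
(`IsLocalizedModule.eq_zero_iff`); take `m ≠ 0` and a linear form on `V` not zero at the image of
`m` (`Module.forall_dual_apply_eq_zero_iff`).  This gives `φ`.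
(5) If all `g t`, `t ∈ T`, are integral then `D` is finite over `ℤ` (`fg_adjoin_of_finite`), and
`M` is finite over `D`, so `M` is finite over `ℤ`: contradiction.
-/

set_option autoImplicit false

namespace Pool.Agent.Helper28K9.RKF

universe u

/-- [CA] -/
def S_CA : Prop := ∀ (R : Type u) [CommRing R] (T : Set R), T.Finite → Algebra.adjoin ℤ T = ⊤ →
  ∀ (A : Type u) [AddCommGroup A] [Module R A], Module.Finite R A → ¬ Module.Finite ℤ A →
  ∃ (F : Type u) (_ : Field F) (g : R →+* F) (φ : A →+ F), (∀ (r : R) (a : A), φ (r • a) = g r * φ a) ∧
    (∃ a, φ a ≠ 0) ∧ ∃ t ∈ T, ¬ IsIntegral ℤ (g t)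

end Pool.Agent.Helper28K9.RKF
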