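import Mathlib
import Pool.Agent.Helper28K9.RK.StmCA

/-!
# The action of a group on the abelianization of its commutator subgroup
-/

set_option autoImplicit false

open scoped commutatorElement Pointwise

namespace Pool.Agent.Helper28K9.RKF

universe u

namespace NpL

variable {H : Type u} [Group H]

/-- `H' / H''` -/
abbrev AA (H : Type u) [Group H] : Type u := Additive (Abelianization ↥(commutator H))

/-- the class of an element of `H'` -/
def mkA (x : commutator H) : AA H := Additive.ofMul (Abelianization.of x)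

lemma mkA_mul (x y : commutator H) : mkA (x * y) = mkA x + mkA y := by
  simp [mkA]

lemma mkA_one : mkA (1 : commutator H) = 0 := by
  simp [mkA]

lemma mkA_inv (x : commutator H) : mkA x⁻¹ = -mkA x := by
  simp [mkA]

lemma mkA_surj (a : AA H) : ∃ x, mkA x = a := by
  obtain ⟨x, hx⟩ := QuotientGroup.mk_surjective (Additive.toMul a)
  exact ⟨x, hx⟩

/-- the action by conjugation -/
def act (h : H) : AddMonoid.End (AA H) :=
  MonoidHom.toAdditive (Abelianization.map (MulAut.conjNormal h : commutator H ≃* commutator H).toMonoidHom)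

lemma act_mkA (h : H) (x : commutator H) :
    act h (mkA x) = mkA (MulAut.conjNormal h x) := rfl

lemma ext_mkA {f g : AddMonoid.End (AA H)} (h : ∀ x, f (mkA x) = g (mkA x)) : f = g := by
  ext a
  obtain ⟨x, rfl⟩ := mkA_surj a
  exact h x

/-- the action by conjugation, as a homomorphism -/
def rh (H : Type u) [Group H] : H →* AddMonoid.End (AA H) where
  toFun := act
  map_one' := by
    apply ext_mkA
    intro x
    rw [act_mkA, map_one]
    rfl
  map_mul' g h := by
    apply ext_mkA
    intro x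
    show act (g * h) (mkA x) = act g (act h (mkA x))
    rw [act_mkA, act_mkA, act_mkA, map_mul]
    rfl

lemma rh_mkA (h : H) (x : commutator H) : rh H h (mkA x) = mkA (MulAut.conjNormal h x) := rfl

lemma rh_comm (g h : H) : rh H g * rh H h = rh H h * rh H g := by
  rw [← map_mul, ← map_mul]
  have hc : ⁅g, h⁆ ∈ commutator H := by
    rw [commutator_def]
    exact Subgroup.commutator_mem_commutator (Subgroup.mem_top g) (Subgroup.mem_top h)
  have h1 : g * h = ((⟨⁅g, h⁆, hc⟩ : commutator H) : H) * (h * g) := by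
    show g * h = ⁅g, h⁆ * (h * g)
    rw [commutatorElement_def]; group
  rw [h1, map_mul]
  apply ext_mkA
  intro x
  show rh H _ (rh H (h * g) (mkA x)) = _
  rw [rh_mkA, rh_mkA]
  have h2 : (MulAut.conjNormal ((⟨⁅g, h⁆, hc⟩ : commutator H) : H)) (MulAut.conjNormal (h * g) x) =
      (⟨⁅g, h⁆, hc⟩ : commutator H) * MulAut.conjNormal (h * g) x *
      (⟨⁅g, h⁆, hc⟩ : commutator H)⁻¹ := by
    apply Subtype.ext
    rw [MulAut.conjNormal_apply]
    rfl
  rw [h2, mkA_mul, mkA_mul, mkA_inv]
  abel

end NpL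

open NpL

/-- a finitely generated group `H` with `H' / H''` not finitely generated has an eigenvector with
a value that is not an algebraic unit -/
theorem npoly (hCA : S_CA.{u}) (H : Type u) [Group H] (T : Set H) (hT : T.Finite)
    (hgen : Subgroup.closure T = ⊤) (hn : ¬ Group.FG (Abelianization ↥(commutator H))) :
    ∃ (F : Type u) (_ : Field F) (χ : H →* Fˣ) (φ : H → F),
      ((∀ x ∈ commutator H, ∀ y ∈ commutator H, φ (x * y) = φ x + φ y) ∧
      (∀ g : H, ∀ x ∈ commutator H, φ (g * x * g⁻¹) = χ g * φ x) ∧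
      ∃ x ∈ commutator H, φ x ≠ 0) ∧ ∃ g, ¬ IsIntegral ℤ ((χ g : Fˣ) : F) := by
  classical
  let T' : Set (AddMonoid.End (AA H)) := rh H '' (T ∪ T⁻¹)
  have hcomm : ∀ a ∈ T', ∀ b ∈ T', a * b = b * a := by
    rintro _ ⟨x, _, rfl⟩ _ ⟨y, _, rfl⟩
    exact rh_comm x y
  let R : Subalgebra ℤ (AddMonoid.End (AA H)) := Algebra.adjoin ℤ T'
  letI : CommRing R := Algebra.adjoinCommRingOfComm ℤ hcomm
  have hmem : ∀ h, rh H h ∈ R := by
    intro h
    have h1 : h ∈ Subgroup.closure T := by rw [hgen]; exact Subgroup.mem_top h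
    have h2 : rh H h ∈ R ∧ rh H h⁻¹ ∈ R := by
      induction h1 using Subgroup.closure_induction with
      | mem x hx =>
        exact ⟨Algebra.subset_adjoin ⟨x, Or.inl hx, rfl⟩,
          Algebra.subset_adjoin ⟨x⁻¹, Or.inr (by simpa using hx), rfl⟩⟩
      | one => rw [inv_one, map_one]; exact ⟨R.one_mem, R.one_mem⟩
      | mul x y _ _ hx hy =>
        rw [mul_inv_rev, map_mul, map_mul]
        exact ⟨R.mul_mem hx.1 hy.1, R.mul_mem hy.2 hx.2⟩
      | inv x _ hx => rw [inv_inv]; exact ⟨hx.2, hx.1⟩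
    exact h2.1
  have hfinT : ((↑) ⁻¹' T' : Set R).Finite := by
    apply Set.Finite.preimage Subtype.val_injective.injOn
    exact ((hT.union hT.inv).image _)
  have hadj : Algebra.adjoin ℤ ((↑) ⁻¹' T' : Set R) = ⊤ := Algebra.adjoin_adjoin_coe_preimage
  -- `A` is finite over `R`
  have hA : Module.Finite R (AA H) := by
    let C : Set (AA H) := {a | ∃ s ∈ T, ∃ t ∈ T, ∃ hx : ⁅s, t⁆ ∈ commutator H, a = mkA ⟨_, hx⟩}
    have hC : C.Finite := by
      have h1 : C ⊆ (fun p : H × H => if hx : ⁅p.1, p.2⁆ ∈ commutator H then mkA ⟨_, hx⟩ else 0) ''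
          (T ×ˢ T) := by
        rintro a ⟨s, hs, t, ht, hx, rfl⟩
        exact ⟨(s, t), ⟨hs, ht⟩, by simp [hx]⟩
      exact ((hT.prod hT).image _).subset h1
    let M₀ : Submodule R (AA H) := Submodule.span R C
    have hconj : ∀ (g : H) (a : AA H), a ∈ M₀ → rh H g a ∈ M₀ := by
      intro g a ha
      exact M₀.smul_mem (⟨rh H g, hmem g⟩ : R) ha
    let K : Subgroup H :=
      { carrier := {h | ∃ hN : h ∈ commutator H, mkA ⟨h, hN⟩ ∈ M₀}
        mul_mem' := by
          rintro a b ⟨ha, ha'⟩ ⟨hb, hb'⟩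
          refine ⟨mul_mem ha hb, ?_⟩
          have : (⟨a * b, mul_mem ha hb⟩ : commutator H) = ⟨a, ha⟩ * ⟨b, hb⟩ := rfl
          rw [this, mkA_mul]
          exact M₀.add_mem ha' hb'
        one_mem' := by
          refine ⟨one_mem _, ?_⟩
          have : (⟨1, one_mem _⟩ : commutator H) = 1 := rfl
          rw [this, mkA_one]
          exact M₀.zero_mem
        inv_mem' := by
          rintro a ⟨ha, ha'⟩
          refine ⟨inv_mem ha, ?_⟩
          have : (⟨a⁻¹, inv_mem ha⟩ : commutator H) = (⟨a, ha⟩)⁻¹ := rfl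
          rw [this, mkA_inv]
          exact M₀.neg_mem ha' }
    have hKn : K.Normal := by
      constructor
      rintro n ⟨hn, hn'⟩ g
      refine ⟨Subgroup.Normal.conj_mem inferInstance n hn g, ?_⟩
      have h1 := hconj g _ hn'
      rw [rh_mkA] at h1
      have h2 : (⟨g * n * g⁻¹, Subgroup.Normal.conj_mem inferInstance n hn g⟩ : commutator H) =
          MulAut.conjNormal g ⟨n, hn⟩ := by
        apply Subtype.ext
        rw [MulAut.conjNormal_apply]
      rw [h2]
      exact h1
    have hcT : ∀ g h : H, Commute (QuotientGroup.mk' K g) (QuotientGroup.mk' K h) := by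
      intro g h
      have hg : g ∈ Subgroup.closure T := by rw [hgen]; exact Subgroup.mem_top g
      have hh : h ∈ Subgroup.closure T := by rw [hgen]; exact Subgroup.mem_top h
      induction hg, hh using Subgroup.closure_induction₂ with
      | mem s t hs ht =>
        rw [← commutatorElement_eq_one_iff_commute, ← map_commutatorElement]
        show ((⁅s, t⁆ : H) : H ⧸ K) = 1
        rw [QuotientGroup.eq_one_iff]
        have hx : ⁅s, t⁆ ∈ commutator H := by
          rw [commutator_def]
          exact Subgroup.commutator_mem_commutator (Subgroup.mem_top s) (Subgroup.mem_top t)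
        exact ⟨hx, Submodule.subset_span ⟨s, hs, t, ht, hx, rfl⟩⟩
      | one_left x _ => rw [map_one]; exact Commute.one_left _
      | one_right x _ => rw [map_one]; exact Commute.one_right _
      | mul_left x y z _ _ _ h1 h2 => rw [map_mul]; exact h1.mul_left h2
      | mul_right y z x _ _ _ h1 h2 => rw [map_mul]; exact h1.mul_right h2
      | inv_left x y _ _ h1 => rw [map_inv]; exact h1.inv_left
      | inv_right x y _ _ h1 => rw [map_inv]; exact h1.inv_right
    have hNK : commutator H ≤ K := by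
      rw [commutator_def, Subgroup.commutator_le]
      intro g _ h _
      rw [← QuotientGroup.eq_one_iff]
      show QuotientGroup.mk' K ⁅g, h⁆ = 1
      rw [map_commutatorElement, commutatorElement_eq_one_iff_commute]
      exact hcT g h
    have htop : M₀ = ⊤ := by
      rw [eq_top_iff]
      rintro a -
      obtain ⟨⟨x, hx⟩, rfl⟩ := mkA_surj a
      obtain ⟨_, h1⟩ := hNK hx
      exact h1
    exact ⟨⟨hC.toFinset, by rw [Set.Finite.coe_toFinset]; exact htop⟩⟩
  have hA' : ¬ Module.Finite ℤ (AA H) := by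
    intro h
    apply hn
    rw [GroupFG.iff_add_fg]
    exact Module.Finite.iff_addGroup_fg.1 h
  obtain ⟨F, hF, g, φ, h1, ⟨a, ha⟩, t, ht, hti⟩ := hCA R _ hfinT hadj (AA H) hA hA'
  let ρR : H →* R :=
    { toFun := fun h => ⟨rh H h, hmem h⟩
      map_one' := Subtype.ext (map_one _)
      map_mul' := fun x y => Subtype.ext (map_mul _ x y) }
  let χ : H →* Fˣ := ((g : R →* F).comp ρR).toHomUnits
  have hχ : ∀ h, ((χ h : Fˣ) : F) = g ⟨rh H h, hmem h⟩ := fun h => rfl
  refine ⟨F, hF, χ, fun x => if hx : x ∈ commutator H then φ (mkA ⟨x, hx⟩) else 0,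
    ⟨?_, ?_, ?_⟩, ?_⟩
  · intro x hx y hy
    have h2 : (⟨x * y, mul_mem hx hy⟩ : commutator H) = ⟨x, hx⟩ * ⟨y, hy⟩ := rfl
    simp only [hx, hy, mul_mem hx hy, dif_pos]
    rw [h2, mkA_mul, map_add]
  · intro k x hx
    have hkx : k * x * k⁻¹ ∈ commutator H := Subgroup.Normal.conj_mem inferInstance x hx k
    have h2 : (⟨k * x * k⁻¹, hkx⟩ : commutator H) = MulAut.conjNormal k ⟨x, hx⟩ := by
      apply Subtype.ext
      rw [MulAut.conjNormal_apply]
    simp only [hx, hkx, dif_pos]
    rw [h2, ← rh_mkA, hχ, ← h1]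
    rfl
  · obtain ⟨⟨x, hx⟩, rfl⟩ := mkA_surj a
    refine ⟨x, hx, ?_⟩
    simp only [hx, dif_pos]
    exact ha
  · obtain ⟨s, _, hs⟩ := ht
    refine ⟨s, ?_⟩
    rw [hχ]
    have h3 : (⟨rh H s, hmem s⟩ : R) = t := Subtype.ext hs
    rw [h3]
    exact hti

end Pool.Agent.Helper28K9.RKF
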