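import Mathlib
import Pool.Agent.W963.GE.Index
import Pool.Agent.Helper28K9.RK.GenB
import Pool.Agent.Helper28K9.RK.GenD

/-!
# From the growth gap for affine actions to eigenvectors of subgroups
-/

set_option autoImplicit false

open scoped Pointwise

namespace Pool.Agent.Helper28K9.RKF

universe u v

/-- the growth gap for affine actions on fields -/
def GapF (c : ℝ) : Prop := ∀ (G : Type u) [Group G] (S : Set G), S.Finite →
    Subgroup.closure S = ⊤ → ∀ (F : Type v) [Field F] (χ : G →* Fˣ) (b : G → F),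
    (∀ g h, b (g * h) = b g + χ g * b h) → (∃ g h, b (g * h) ≠ b (h * g)) →
    ((∃ g, ¬ AlgUnit ((χ g : Fˣ) : F)) ∨ ∃ g h, Ind ((χ g : Fˣ) : F) ((χ h : Fˣ) : F)) →
    c ≤ H746UG.rho S

theorem gapF_ok : ∃ c : ℝ, 0 < c ∧ GapF.{u, v} c := growF

theorem eig_gap {c : ℝ} (hgrow : GapF.{u, v} c) {G : Type u} [Group G] (S : Set G)
    (hfin : S.Finite) (hgen : Subgroup.closure S = ⊤) (H : Subgroup G) (d : ℕ)
    (hH0 : H.index ≠ 0) (hHd : H.index ≤ d) (Γ : Subgroup H) (hΓ : Γ.Normal)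
    (hnil : Group.IsNilpotent (H ⧸ Γ)) (F : Type v) [Field F] (χ : H →* Fˣ) (φ : H → F)
    (hφ : EigVec Γ χ φ)
    (hbig : (∃ g, ¬ AlgUnit ((χ g : Fˣ) : F)) ∨ ∃ g h, Ind ((χ g : Fˣ) : F) ((χ h : Fˣ) : F)) :
    c / (2 * d - 1) ≤ H746UG.rho S := by
  have hd : 1 ≤ d := by omega
  -- some value of `χ` is not one
  obtain ⟨t, ht⟩ : ∃ t, χ t ≠ 1 := by
    rcases hbig with ⟨g, hg⟩ | ⟨g, g', h⟩
    · refine ⟨g, fun h1 => hg ?_⟩
      rw [h1, Units.val_one]
      exact algUnit_one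
    · refine ⟨g, fun h1 => ?_⟩
      have := (h 1 0 (by rw [h1]; simp)).1
      exact one_ne_zero this
  obtain ⟨b, hb1, hb2⟩ := ext.{u, v} Γ hΓ χ φ t hnil ht hφ
  have h1 := hgrow H (W963.GE.TT S H d) (W963.GE.TT_finite S hfin H d)
    (W963.GE.TT_gen S hgen H hH0 hHd) F χ b hb1 hb2 hbig
  rcases S.eq_empty_or_nonempty with hS | hne
  · exfalso
    rw [hS, Subgroup.closure_empty] at hgen
    have hsub : Subsingleton G := Subgroup.subsingleton_iff.1 (subsingleton_of_bot_eq_top hgen)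
    exact ht (by rw [Subsingleton.elim t 1, map_one])
  have h2 := W963.GE.rho_TT S hfin hne H hd
  have he : ((2 * d - 1 : ℕ) : ℝ) = 2 * d - 1 := by
    rw [Nat.cast_sub (by omega)]; push_cast; ring
  rw [he] at h2
  have hpos : (0 : ℝ) < 2 * d - 1 := by
    have : (1 : ℝ) ≤ d := by exact_mod_cast hd
    linarith
  rw [div_le_iff₀ hpos, mul_comm (H746UG.rho S)]
  exact h1.trans h2

end Pool.Agent.Helper28K9.RKF
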