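import Mathlib

/-!
# Statement: a common eigenvector in `Hom (A, ℂ)` with a given eigenvalue of one element

[EV] `A` a finitely generated abelian group, `H` acts by commuting endomorphisms, `x` an eigenvalue
of `t` on `ℂ ⊗ A`.  Then there is a nonzero `f : A → ℂ` which is an eigenvector for all of `H`, with
eigenvalue `x` for `t`.

Proof.  `W = Module.Dual ℂ (ℂ ⊗ A)`, finite-dimensional; `T h = (baseChange ℂ (r h)).dualMap`
(`T (g h) = T h T g = T g T h`); they commute.  `E = eigenspace (T t) x ≠ ⊥`: otherwise `T t - x` is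
injective, so `baseChange ℂ (r t) - x` is surjective (`LinearMap.dualMap_injective_iff`), so it is
injective (finite dimension, `LinearMap.injective_iff_surjective`), against `HasEigenvalue`.
Let `U` be minimal among the nonzero submodules of `E` stable under all `T h` (`E` is one of them;
`wellFounded_lt.has_min`).  For every `h` the restriction of `T h` to `U` has an eigenvalue `μ`
(`Module.End.exists_eigenvalue`), `U ⊓ eigenspace (T h) μ` is again such a submodule, so it is `U`:
`T h` is a scalar on `U`.  Take `F ≠ 0` in `U` and `f a = F (1 ⊗ a)`; it is not zero, since the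
`1 ⊗ a` generate.  `χ (g h) f a = f (r g (r h a)) = χ g χ h f a`, `χ 1 = 1`, and
`MonoidHom.toHomUnits`.
-/

set_option autoImplicit false

open scoped TensorProduct

namespace Pool.Agent.Helper28K9.RKF

universe u

/-- [EV] -/
def S_EV : Prop := ∀ (H : Type u) [Group H] (A : Type u) [AddCommGroup A], Module.Finite ℤ A →
  ∀ r : H →* Module.End ℤ A, (∀ g h, r g * r h = r h * r g) → ∀ (t : H) (x : ℂ),
  Module.End.HasEigenvalue (LinearMap.baseChange ℂ (r t) : Module.End ℂ (ℂ ⊗[ℤ] A)) x →
  ∃ (χ : H →* ℂˣ) (f : A →+ ℂ), (∀ h a, f (r h a) = χ h * f a) ∧ (∃ a, f a ≠ 0) ∧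
    ((χ t : ℂˣ) : ℂ) = x

end Pool.Agent.Helper28K9.RKF
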