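import Mathlib
import Pool.Agent.Helper34K9.UG.Mix
import Pool.Agent.Helper28K9.RK.StmEV
import Pool.Agent.Helper28K9.RK.GenB

/-!
# The trichotomy for nilpotent-by-abelian groups, with an eigencharacter
-/

set_option autoImplicit false

open scoped commutatorElement Pointwise TensorProduct

namespace Pool.Agent.Helper28K9.RKF

open Pool.Agent.TH53.UG Pool.Agent.W963.GE

universe u

namespace TriL

variable {H : Type u} [Group H] {N : Subgroup H} [N.Normal]

/-- the class of an element of `N` -/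
def mkN (x : N) : Additive (Abelianization N) := Additive.ofMul (Abelianization.of x)

lemma mkN_mul (x y : N) : mkN (x * y) = mkN x + mkN y := by
  simp [mkN]

lemma mkN_inv (x : N) : mkN x⁻¹ = -mkN x := by
  simp [mkN]

lemma mkN_surj (a : Additive (Abelianization N)) : ∃ x, mkN x = a := by
  obtain ⟨x, hx⟩ := QuotientGroup.mk_surjective (Additive.toMul a)
  exact ⟨x, hx⟩

lemma act_mkN (h : H) (x : N) : act N h (mkN x) = mkN (MulAut.conjNormal h x) := rfl

lemma ext_mkN {f g : Module.End ℤ (Additive (Abelianization N))}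
    (h : ∀ x, f (mkN x) = g (mkN x)) : f = g := by
  ext a
  obtain ⟨x, hx⟩ := mkN_surj (Additive.ofMul a)
  have := h x
  rw [hx] at this
  exact this

end TriL

open TriL

/-- a common eigenvector with the given eigenvalue of `t` -/
theorem common (hEV : S_EV.{u}) {H : Type u} [Group H] (N : Subgroup H) [hNn : N.Normal]
    (hN : N = commutator H) (hfg : Module.Finite ℤ (Additive (Abelianization N))) (t : H) (x : ℂ)
    (hE : Module.End.HasEigenvalue (LinearMap.baseChange ℂ (act N t) :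
      Module.End ℂ (ℂ ⊗[ℤ] (Additive (Abelianization N)))) x) :
    ∃ (χ : H →* ℂˣ) (φ : H → ℂ), EigVec N χ φ ∧ ((χ t : ℂˣ) : ℂ) = x := by
  classical
  let r : H →* Module.End ℤ (Additive (Abelianization N)) :=
    { toFun := act N
      map_one' := by
        apply ext_mkN
        intro x
        rw [act_mkN, map_one]
        rfl
      map_mul' := fun g h => by
        apply ext_mkN
        intro x
        show act N (g * h) (mkN x) = act N g (act N h (mkN x))
        rw [act_mkN, act_mkN, act_mkN, map_mul]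
        rfl }
  have hr : ∀ (h : H) (x : N), r h (mkN x) = mkN (MulAut.conjNormal h x) := fun h x => rfl
  have hcomm : ∀ g h, r g * r h = r h * r g := by
    intro g h
    rw [← map_mul, ← map_mul]
    have hc : ⁅g, h⁆ ∈ N := by
      rw [hN, commutator_def]
      exact Subgroup.commutator_mem_commutator (Subgroup.mem_top g) (Subgroup.mem_top h)
    have h1 : g * h = ((⟨⁅g, h⁆, hc⟩ : N) : H) * (h * g) := by
      show g * h = ⁅g, h⁆ * (h * g)
      rw [commutatorElement_def]; group
    rw [h1, map_mul]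
    apply ext_mkN
    intro x
    show r _ (r (h * g) (mkN x)) = _
    rw [hr, hr]
    have h2 : (MulAut.conjNormal ((⟨⁅g, h⁆, hc⟩ : N) : H)) (MulAut.conjNormal (h * g) x) =
        (⟨⁅g, h⁆, hc⟩ : N) * MulAut.conjNormal (h * g) x * (⟨⁅g, h⁆, hc⟩ : N)⁻¹ := by
      apply Subtype.ext
      rw [MulAut.conjNormal_apply]
      rfl
    rw [h2, mkN_mul, mkN_mul, mkN_inv]
    abel
  obtain ⟨χ, f, hf, ⟨a, ha⟩, hχ⟩ := hEV H _ hfg r hcomm t x hE
  refine ⟨χ, fun x => if hx : x ∈ N then f (mkN ⟨x, hx⟩) else 0, ⟨?_, ?_, ?_⟩, hχ⟩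
  · intro x hx y hy
    have h2 : (⟨x * y, mul_mem hx hy⟩ : N) = ⟨x, hx⟩ * ⟨y, hy⟩ := rfl
    simp only [hx, hy, mul_mem hx hy, dif_pos]
    rw [h2, mkN_mul, map_add]
  · intro k x hx
    have hkx : k * x * k⁻¹ ∈ N := hNn.conj_mem x hx k
    have h2 : (⟨k * x * k⁻¹, hkx⟩ : N) = MulAut.conjNormal k ⟨x, hx⟩ := by
      apply Subtype.ext
      rw [MulAut.conjNormal_apply]
    simp only [hx, hkx, dif_pos]
    rw [h2, ← hr, hf]
  · obtain ⟨⟨x, hx⟩, rfl⟩ := mkN_surj a
    refine ⟨x, hx, ?_⟩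
    simp only [hx, dif_pos]
    exact ha

theorem tri (hEV : S_EV.{u}) {d : ℕ} {G : Type u} [Group G] (S : Set G)
    (hfin : S.Finite) (hgen : Subgroup.closure S = ⊤) (H : Subgroup G) (hH0 : H.index ≠ 0)
    (hHd : H.index ≤ d)
    (hcls : Group.IsNilpotent (commutator H) ∨
      ¬ Group.IsVirtuallyNilpotent (H ⧸ ⁅commutator H, commutator H⁆))
    (hfg : Group.FG (Abelianization (commutator H))) :
    Group.IsVirtuallyNilpotent G ∨ Real.log 2 / (4 * (2 * d - 1)) ≤ H746UG.rho S ∨
      ∃ (χ : H →* ℂˣ) (φ : H → ℂ) (t : H), EigVec (commutator H) χ φ ∧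
        IsIntegral ℤ ((χ t : ℂˣ) : ℂ) ∧ (∀ n > 0, ((χ t : ℂˣ) : ℂ) ^ n ≠ 1) ∧
        H746UG.eta ((χ t : ℂˣ) : ℂ) / (4 * (2 * d - 1)) ≤ H746UG.rho S := by
  have hN : gam H 1 = commutator H := Subgroup.top_lowerCentralSeries_one
  have e4 : (2 : ℝ) ^ (1 + 1) = 4 := by norm_num
  have key : ∀ (N : Subgroup H) [N.Normal], N = commutator H →
      ¬ Group.IsVirtuallyNilpotent (H ⧸ ⁅commutator H, commutator H⁆) →
      ¬ Group.IsVirtuallyNilpotent (H ⧸ ⁅N, N⁆) := by
    intro N _ h
    subst h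
    exact id
  have hcls' : Group.IsNilpotent (gam H 1) ∨
      ¬ Group.IsVirtuallyNilpotent (H ⧸ ⁅gam H 1, gam H 1⁆) := by
    rcases hcls with h | h
    · left
      rw [hN]
      exact h
    · right
      exact key _ hN h
  rcases Helper34K9.UG.gap_track (k := 1) le_rfl S hfin hgen H hH0 hHd hcls' with
    h | h | ⟨t, x, hE, h0, hi, hroot, h⟩
  · exact Or.inl h
  · right; left
    rw [e4] at h
    exact h
  · right; right
    have hfg' : Module.Finite ℤ (Additive (Abelianization (gam H 1))) := by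
      rw [hN, Module.Finite.iff_addGroup_fg, ← GroupFG.iff_add_fg]
      exact hfg
    obtain ⟨χ, φ, h1, h2⟩ := common hEV (gam H 1) hN hfg' t x hE
    refine ⟨χ, φ, t, ?_, ?_, ?_, ?_⟩
    · rw [← hN]; exact h1
    · rw [h2]; exact hi
    · rw [h2]; exact hroot
    · rw [h2, ← e4]; exact h

end Pool.Agent.Helper28K9.RKF
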