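import Mathlib
import Pool.Agent.Helper28K9.RK.St2

/-!
# The growth gap for actions of rank two: the pieces put together
-/

set_option autoImplicit false

open NumberField Module Finset
open scoped Pointwise

namespace Pool.Agent.Helper28K9.RK

open Pool.Agent.H746UG (rho eta digitSums)

universe u

namespace GrowL

lemma ind_choice {x y c : ℂ} (hx : x ≠ 0) (hy : y ≠ 0) (hc : c ≠ 0) (h : Ind x y) :
    ∃ i : ℕ, 1 ≤ i ∧ i ≤ 2 ∧ Ind x (c * y ^ i) := by
  by_contra hcon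
  push Not at hcon
  have h1 := hcon 1 le_rfl (by norm_num)
  have h2 := hcon 2 (by norm_num) le_rfl
  rw [Ind] at h1 h2
  push Not at h1 h2
  obtain ⟨a1, b1, e1, n1⟩ := h1
  obtain ⟨a2, b2, e2, n2⟩ := h2
  have hb1 : b1 ≠ 0 := by
    intro h0
    subst h0
    rw [zpow_zero, mul_one] at e1
    have := h a1 0 (by rw [zpow_zero, mul_one]; exact e1)
    exact n1 this.1 rfl
  have hb2 : b2 ≠ 0 := by
    intro h0
    subst h0
    rw [zpow_zero, mul_one] at e2
    have := h a2 0 (by rw [zpow_zero, mul_one]; exact e2)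
    exact n2 this.1 rfl
  have e1' : x ^ (a1 * b2) * (c * y) ^ (b1 * b2) = 1 := by
    rw [zpow_mul, zpow_mul, ← mul_zpow]
    rw [pow_one] at e1
    rw [e1, one_zpow]
  have e2' : x ^ (a2 * b1) * (c * y ^ 2) ^ (b1 * b2) = 1 := by
    rw [mul_comm b1 b2, zpow_mul, zpow_mul, ← mul_zpow, e2, one_zpow]
  have e3 : x ^ (a1 * b2 - a2 * b1) * y ^ (-(b1 * b2)) = 1 := by
    have h5 : (c * y ^ 2) ^ (b1 * b2) = (c * y) ^ (b1 * b2) * y ^ (b1 * b2) := by
      rw [← mul_zpow]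
      congr 1
      ring
    rw [h5] at e2'
    have hX1 : x ^ (a1 * b2) ≠ 0 := zpow_ne_zero _ hx
    have hX2 : x ^ (a2 * b1) ≠ 0 := zpow_ne_zero _ hx
    have hY : y ^ (b1 * b2) ≠ 0 := zpow_ne_zero _ hy
    have hC : (c * y) ^ (b1 * b2) ≠ 0 := zpow_ne_zero _ (mul_ne_zero hc hy)
    rw [zpow_sub₀ hx, zpow_neg]
    field_simp
    have h6 : x ^ (a1 * b2) * (c * y) ^ (b1 * b2) =
        x ^ (a2 * b1) * y ^ (b1 * b2) * (c * y) ^ (b1 * b2) := by
      rw [e1', mul_assoc, mul_comm (y ^ (b1 * b2)), e2']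
    exact mul_right_cancel₀ hC h6
  have := (h _ _ e3).2
  have h7 : b1 * b2 = 0 := by linarith
  rcases mul_eq_zero.1 h7 with h8 | h8
  · exact hb1 h8
  · exact hb2 h8

lemma li_one (ξ Q : ℂ) : LI 1 ξ Q := by
  intro a _ h j
  rw [Fin.sum_univ_one] at h
  simp at h
  rw [Fin.eq_zero j]
  exact h

end GrowL

open GrowL

theorem grow (hPAIR : S_PAIR.{u}) (hRANK : S_RANK.{u}) (hPROG : S_PROG.{u}) (hDBL : S_DBL)
    (hRATE : S_RATE.{u}) (hCH : S_CHOICE) : S_GROW.{u} := by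
  obtain ⟨c1, hc1, hch⟩ := hCH
  have hl2 : 0 < Real.log 2 := Real.log_pos (by norm_num)
  refine ⟨min (c1 / 9) (Real.log 2 / 5), lt_min (by positivity) (by positivity), ?_⟩
  intro G _ S hfin hgen χ b hb hne hrank
  obtain ⟨s, hs, t, ht, hst⟩ := hPAIR G S χ b hgen hb hne
  obtain ⟨s1, hs1, s2, hs2, hind⟩ := hRANK G S χ hgen hrank
  obtain ⟨u, hu⟩ : ∃ u, u = s * t := ⟨_, rfl⟩
  obtain ⟨v, hv⟩ : ∃ v, v = t * s := ⟨_, rfl⟩
  have huv : χ u = χ v := by rw [hu, hv, map_mul, map_mul, mul_comm]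
  have hbuv : b u ≠ b v := by rw [hu, hv]; exact hst
  have huS : u ∈ S ^ 2 := by rw [hu, pow_two]; exact Set.mul_mem_mul hs ht
  have hvS : v ∈ S ^ 2 := by rw [hv, pow_two]; exact Set.mul_mem_mul ht hs
  have hx0 : ((χ s1 : ℂˣ) : ℂ) ≠ 0 := Units.ne_zero _
  have hy0 : ((χ s2 : ℂˣ) : ℂ) ≠ 0 := Units.ne_zero _
  obtain ⟨i, hi1, hi2, hix⟩ := ind_choice hx0 hy0 (Units.ne_zero (χ u)) hind
  obtain ⟨w, hw⟩ : ∃ w, w = s2 ^ i := ⟨_, rfl⟩
  have hwS : w ∈ S ^ i := by rw [hw]; exact Set.pow_mem_pow hs2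
  obtain ⟨x, hx⟩ : ∃ x : ℂ, x = (χ s1 : ℂˣ) := ⟨_, rfl⟩
  obtain ⟨ξ, hξ⟩ : ∃ ξ : ℂ, ξ = (χ (u * w) : ℂˣ) := ⟨_, rfl⟩
  have hξ' : ξ = (χ u : ℂˣ) * ((χ s2 : ℂˣ) : ℂ) ^ i := by
    rw [hξ, hw, map_mul, map_pow]
    push_cast
    rfl
  rw [← hξ', ← hx] at hix
  rw [← hx] at hx0
  have hξ0 : ξ ≠ 0 := by rw [hξ]; exact Units.ne_zero _
  -- the general bound
  have key : ∀ (z : G) (l J e : ℕ), z ∈ S ^ l → 0 < e → e ≤ J → l ≤ 3 + i →
      LI e ξ ((ξ * (χ z : ℂˣ)) ^ J) → 0 ≤ eta ((ξ * (χ z : ℂˣ)) ^ J) →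
      (e : ℝ) / (J * ((2 + i : ℕ) + l)) * eta ((ξ * (χ z : ℂˣ)) ^ J) ≤ rho S := by
    intro z l J e hz he heJ hl hLI hη
    have hJ : 0 < J := he.trans_le heJ
    have hQ : (((χ (u * w * z) : ℂˣ) : ℂ)) ^ J = (ξ * (χ z : ℂˣ)) ^ J := by
      rw [map_mul χ (u * w) z, hξ]
      push_cast
      rfl
    have h1 := hRATE G S ((ξ * (χ z : ℂˣ)) ^ J) e (J * (2 + i) + J * l)
      (pow_ne_zero _ (mul_ne_zero hξ0 (Units.ne_zero _)))
      (by positivity) (fun n => by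
        refine (hDBL ξ _ J n e heJ hLI).trans ?_
        have h2 := hPROG G S χ b u v w z 2 i l J n hfin hb huS hvS hwS hz huv hbuv
        rw [hQ, ← hξ] at h2
        exact h2)
    refine le_trans (le_of_eq ?_) h1
    congr 2
    push_cast
    ring
  by_cases hξi : IsIntegral ℤ ξ ∧ IsIntegral ℤ ξ⁻¹
  · by_cases hxi : IsIntegral ℤ x ∧ IsIntegral ℤ x⁻¹
    · -- units
      obtain ⟨ψ, hψ, J, e, he, heJ, hLI, hc⟩ :=
        hch x ξ hx0 hξ0 hxi.1 hxi.2 hξi.1 hξi.2 hix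
      have hJ : 0 < J := he.trans_le heJ
      have hJR : (0 : ℝ) < J := by exact_mod_cast hJ
      have heR : (0 : ℝ) < e := by exact_mod_cast he
      have hη : 0 < eta ((ξ * ψ) ^ J) := by
        by_contra hcon
        push Not at hcon
        have : (e : ℝ) / J * eta ((ξ * ψ) ^ J) ≤ 0 :=
          mul_nonpos_of_nonneg_of_nonpos (by positivity) hcon
        linarith
      obtain ⟨z, l, hzS, hl, hz⟩ : ∃ (z : G) (l : ℕ), z ∈ S ^ l ∧ l ≤ 3 + i ∧
          ((χ z : ℂˣ) : ℂ) = ψ := by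
        rcases hψ with rfl | rfl
        · exact ⟨s1, 1, by rw [pow_one]; exact hs1, by omega, hx.symm⟩
        · refine ⟨s1 * (u * w), 1 + (2 + i), ?_, by omega, ?_⟩
          · rw [pow_add, pow_add, pow_one]
            exact Set.mul_mem_mul hs1 (Set.mul_mem_mul huS hwS)
          · rw [map_mul χ s1 (u * w), hx, hξ]
            push_cast
            rfl
      have h1 := key z l J e hzS he heJ hl (by rw [hz]; exact hLI) (by rw [hz]; exact hη.le)
      rw [hz] at h1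
      refine (min_le_left _ _).trans (le_trans ?_ h1)
      have hlen : ((2 + i : ℕ) : ℝ) + l ≤ 9 := by
        have : 2 + i + l ≤ 9 := by omega
        exact_mod_cast this
      have hlen0 : (0 : ℝ) < ((2 + i : ℕ) : ℝ) + l := by positivity
      calc c1 / 9 ≤ (e : ℝ) / J * eta ((ξ * ψ) ^ J) / 9 := by linarith
        _ = (e : ℝ) / (J * 9) * eta ((ξ * ψ) ^ J) := by field_simp
        _ ≤ (e : ℝ) / (J * ((2 + i : ℕ) + l)) * eta ((ξ * ψ) ^ J) := by
            apply mul_le_mul_of_nonneg_right _ hη.le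
            apply div_le_div_of_nonneg_left heR.le (by positivity)
            exact mul_le_mul_of_nonneg_left hlen hJR.le
    · -- `ξ x` is not a unit
      have hn : ¬ (IsIntegral ℤ (ξ * x) ∧ IsIntegral ℤ (ξ * x)⁻¹) := by
        rintro ⟨h1, h2⟩
        apply hxi
        constructor
        · have h3 := h1.mul hξi.2
          have h4 : ξ * x * ξ⁻¹ = x := by field_simp
          rwa [h4] at h3
        · have h3 := h2.mul hξi.1
          have h4 : (ξ * x)⁻¹ * ξ = x⁻¹ := by field_simp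
          rwa [h4] at h3
      have hη := H746UG.eta_eq_log_two (ξ * x) (mul_ne_zero hξ0 hx0) hn
      have h1 := key s1 1 1 1 (by rw [pow_one]; exact hs1) one_pos le_rfl (by omega)
        (li_one _ _) (by rw [← hx, pow_one, hη]; exact hl2.le)
      rw [← hx, pow_one, hη] at h1
      refine (min_le_right _ _).trans (le_trans ?_ h1)
      have hlen : ((2 + i : ℕ) : ℝ) + (1 : ℕ) ≤ 5 := by
        have : 2 + i + 1 ≤ 5 := by omega
        exact_mod_cast this
      have hlen0 : (0 : ℝ) < ((2 + i : ℕ) : ℝ) + (1 : ℕ) := by positivity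
      rw [Nat.cast_one, one_mul, div_mul_eq_mul_div, one_mul]
      rw [Nat.cast_one] at hlen hlen0
      exact div_le_div_of_nonneg_left hl2.le hlen0 hlen
  · -- `ξ` is not a unit
    have hη := H746UG.eta_eq_log_two ξ hξ0 hξi
    have hone : (((χ (1 : G) : ℂˣ)) : ℂ) = 1 := by rw [map_one]; rfl
    have h1 := key 1 0 1 1 (by rw [pow_zero]; exact Set.mem_one.2 rfl) one_pos le_rfl (by omega)
      (li_one _ _) (by rw [hone, mul_one, pow_one, hη]; exact hl2.le)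
    rw [hone, mul_one, pow_one, hη] at h1
    refine (min_le_right _ _).trans (le_trans ?_ h1)
    have hlen : ((2 + i : ℕ) : ℝ) + (0 : ℕ) ≤ 5 := by
      have : 2 + i + 0 ≤ 5 := by omega
      exact_mod_cast this
    have hlen0 : (0 : ℝ) < ((2 + i : ℕ) : ℝ) + (0 : ℕ) := by positivity
    rw [Nat.cast_one, one_mul, div_mul_eq_mul_div, one_mul]
    exact div_le_div_of_nonneg_left hl2.le hlen0 hlen

end Pool.Agent.Helper28K9.RK
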