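import Pool.Agent.Helper28K9.RK.Stm

/-!
[LINE] a factor with support on a line
-/

set_option autoImplicit false

open NumberField Module Finset

namespace Pool.Agent.Helper28K9.RK

namespace LineL

/-- a Laurent polynomial which vanishes at all points has vanishing coefficients -/
theorem part_zero {ι : Type} (s : Finset ι) (A : ι → ℂ) (e : ι → ℤ)
    (h : ∀ z : ℂ, z ≠ 0 → ∑ m ∈ s, A m * z ^ e m = 0) (ℓ : ℤ) :
    ∑ m ∈ s with e m = ℓ, A m = 0 := by
  classical
  set N : ℤ := (∑ m ∈ s, |e m|) + |ℓ| with hN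
  have hN1 : ∀ m ∈ s, 0 ≤ e m + N := by
    intro m hm
    have h1 : |e m| ≤ ∑ m ∈ s, |e m| :=
      Finset.single_le_sum (f := fun m => |e m|) (fun m _ => abs_nonneg _) hm
    have h2 := neg_abs_le (e m)
    have h3 := abs_nonneg ℓ
    omega
  have hN2 : 0 ≤ ℓ + N := by
    have h1 : 0 ≤ ∑ m ∈ s, |e m| := Finset.sum_nonneg fun m _ => abs_nonneg _
    have h2 := neg_abs_le ℓ
    omega
  set P : Polynomial ℂ := ∑ m ∈ s, Polynomial.C (A m) * Polynomial.X ^ (e m + N).toNat with hP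
  have h1 : P = 0 := by
    refine Polynomial.eq_zero_of_infinite_isRoot P ?_
    refine Set.Infinite.mono ?_ (Set.Finite.infinite_compl (Set.finite_singleton (0 : ℂ)))
    intro z hz
    have hz0 : z ≠ 0 := hz
    change Polynomial.eval z P = 0
    rw [hP, Polynomial.eval_finset_sum]
    have h2 : ∀ m ∈ s, Polynomial.eval z (Polynomial.C (A m) * Polynomial.X ^ (e m + N).toNat) =
        A m * z ^ e m * z ^ N := by
      intro m hm
      rw [Polynomial.eval_mul, Polynomial.eval_C, Polynomial.eval_pow, Polynomial.eval_X,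
        ← zpow_natCast, Int.toNat_of_nonneg (hN1 m hm), zpow_add₀ hz0, mul_assoc]
    rw [Finset.sum_congr rfl h2, ← Finset.sum_mul, h z hz0, zero_mul]
  have h2 : P.coeff (ℓ + N).toNat = ∑ m ∈ s with e m = ℓ, A m := by
    rw [hP, Polynomial.finsetSum_coeff, Finset.sum_filter]
    refine Finset.sum_congr rfl fun m hm => ?_
    rw [Polynomial.coeff_C_mul_X_pow]
    have := hN1 m hm
    by_cases h3 : e m = ℓ
    · rw [if_pos h3, if_pos (by rw [h3])]
    · rw [if_neg h3, if_neg (by omega)]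
  rw [← h2, h1, Polynomial.coeff_zero]

theorem sum_two {k L : Type} [Field k] [Field L] (f : k →+* L) (g : MvPolynomial (Fin 2) k)
    (a b : L) : MvPolynomial.eval₂ f ![a, b] g =
      ∑ m ∈ g.support, f (g.coeff m) * (a ^ m 0 * b ^ m 1) := by
  rw [MvPolynomial.eval₂_eq']
  refine Finset.sum_congr rfl fun m _ => ?_
  rw [Fin.prod_univ_two]
  rfl

theorem pow_split {a b z : ℂ} (hz : z ≠ 0) (u v : ℤ) (i j : ℕ) :
    (a * z ^ v) ^ i * (b * z ^ (-u)) ^ j = (a ^ i * b ^ j) * z ^ (v * i - u * j) := by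
  rw [mul_pow, mul_pow, sub_eq_add_neg, zpow_add₀ hz, zpow_mul, zpow_natCast, ← neg_mul,
    zpow_mul, zpow_natCast]
  ring

end LineL

open LineL in
theorem line : S_LINE := by
  classical
  intro K _ _ β β' τ g g₁ ω hβ hβ' hg hdeg hdvd hev hlin
  set a : ℂ := τ β with ha
  set b : ℂ := τ β' with hb
  have ha0 : a ≠ 0 := (map_ne_zero τ).2 hβ
  have hb0 : b ≠ 0 := (map_ne_zero τ).2 hβ'
  have hgC : MvPolynomial.map (algebraMap ℚ ℂ) g ≠ 0 := by
    intro h
    exact hg (MvPolynomial.map_injective _ (algebraMap ℚ ℂ).injective (by rw [h, map_zero]))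
  obtain ⟨h, hh⟩ := hdvd
  have hg1 : g₁ ≠ 0 := by
    rintro rfl
    rw [zero_mul] at hh
    exact hgC hh
  have hh0 : h ≠ 0 := by
    rintro rfl
    rw [mul_zero] at hh
    exact hgC hh
  have hdeg1 : ∀ i, g₁.degreeOf i < ω := by
    intro i
    have h1 := MvPolynomial.degreeOf_mul_eq (n := i) hg1 hh0
    have h2 : (MvPolynomial.map (algebraMap ℚ ℂ) g).degreeOf i ≤ g.degreeOf i :=
      by
        classical
        rw [MvPolynomial.degreeOf_def, MvPolynomial.degreeOf_def]
        exact Multiset.count_le_of_le _ MvPolynomial.degrees_map_le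
    rw [← hh] at h1
    have := hdeg i
    omega
  have hle1 : ∀ m ∈ g₁.support, ∀ i, (m i : ℕ) < ω := fun m hm i =>
    lt_of_le_of_lt (MvPolynomial.monomial_le_degreeOf i hm) (hdeg1 i)
  have hle : ∀ m ∈ g.support, ∀ i, (m i : ℕ) < ω := fun m hm i =>
    lt_of_le_of_lt (MvPolynomial.monomial_le_degreeOf i hm) (hdeg i)
  -- two different exponents
  have hevs : ∑ m ∈ g₁.support, g₁.coeff m * (a ^ m 0 * b ^ m 1) = 0 := by
    have h1 := sum_two (RingHom.id ℂ) g₁ a b
    simp only [RingHom.id_apply] at h1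
    rw [← h1]
    exact hev
  obtain ⟨s, hs, t, ht, hst⟩ : ∃ s ∈ g₁.support, ∃ t ∈ g₁.support, s ≠ t := by
    by_contra hcon
    push Not at hcon
    obtain ⟨s, hs⟩ := MvPolynomial.support_nonempty.2 hg1
    have h1 : g₁.support = {s} := by
      refine Finset.eq_singleton_iff_unique_mem.2 ⟨hs, fun t ht => hcon t ht s hs⟩
    rw [h1, Finset.sum_singleton] at hevs
    have h2 : g₁.coeff s ≠ 0 := MvPolynomial.mem_support_iff.1 hs
    exact mul_ne_zero h2 (mul_ne_zero (pow_ne_zero _ ha0) (pow_ne_zero _ hb0)) hevs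
  set p : ℤ := (t 0 : ℤ) - s 0 with hp
  set r : ℤ := (t 1 : ℤ) - s 1 with hr
  have hpr : ¬ (p = 0 ∧ r = 0) := by
    rintro ⟨h1, h2⟩
    apply hst
    ext i
    fin_cases i
    · change s 0 = t 0
      omega
    · change s 1 = t 1
      omega
  set d : ℤ := (Int.gcd p r : ℤ) with hd
  have hd0 : 0 < d := by
    have : Int.gcd p r ≠ 0 := by
      rw [Ne, Int.gcd_eq_zero_iff]
      exact hpr
    omega
  obtain ⟨u, hu⟩ : d ∣ p := Int.gcd_dvd_left ..
  obtain ⟨v, hv⟩ : d ∣ r := Int.gcd_dvd_right ..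
  obtain ⟨x, y, hxy⟩ : ∃ x y : ℤ, x * u + y * v = 1 := by
    have h1 := Int.gcd_eq_gcd_ab p r
    refine ⟨Int.gcdA p r, Int.gcdB p r, ?_⟩
    have h2 : d * (Int.gcdA p r * u + Int.gcdB p r * v) = d * 1 := by
      rw [mul_one]
      conv_rhs => rw [hd, h1]
      linear_combination -(Int.gcdA p r) * hu - (Int.gcdB p r) * hv
    exact mul_left_cancel₀ hd0.ne' h2
  have hub : |u| < ω := by
    have h1 : |p| < ω := by
      have e1 := hle1 s hs 0
      have e2 := hle1 t ht 0
      rw [abs_lt]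
      omega
    have h2 : |u| ≤ |p| := by
      rw [hu, abs_mul, abs_of_pos hd0]
      nlinarith [abs_nonneg u]
    omega
  have hvb : |v| < ω := by
    have h1 : |r| < ω := by
      have e1 := hle1 s hs 1
      have e2 := hle1 t ht 1
      rw [abs_lt]
      omega
    have h2 : |v| ≤ |r| := by
      rw [hv, abs_mul, abs_of_pos hd0]
      nlinarith [abs_nonneg v]
    omega
  have huv : (u, v) ≠ (0, 0) := by
    intro h1
    rw [Prod.mk.injEq] at h1
    rw [h1.1, h1.2] at hxy
    simp at hxy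
  refine ⟨u, v, huv, hub, hvb, ?_⟩
  -- `g₁` vanishes along the curve
  have hcst : ∀ m ∈ g₁.support, v * (m 0 : ℤ) - u * m 1 = v * (s 0 : ℤ) - u * s 1 := by
    intro m hm
    have h1 := hlin s hs t ht m hm
    unfold det3 at h1
    have h2 : d * (v * (m 0 : ℤ) - u * m 1) = d * (v * (s 0 : ℤ) - u * s 1) := by
      have h3 : p * ((m 1 : ℤ) - s 1) - ((m 0 : ℤ) - s 0) * r = 0 := h1
      rw [hu, hv] at h3
      linear_combination -h3
    exact mul_left_cancel₀ hd0.ne' h2
  have hcurve1 : ∀ z : ℂ, z ≠ 0 → MvPolynomial.eval ![a * z ^ v, b * z ^ (-u)] g₁ = 0 := by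
    intro z hz
    have h1 := sum_two (RingHom.id ℂ) g₁ (a * z ^ v) (b * z ^ (-u))
    change MvPolynomial.eval₂ (RingHom.id ℂ) _ g₁ = 0
    rw [h1]
    have h2 : ∀ m ∈ g₁.support, (RingHom.id ℂ) (g₁.coeff m) *
        ((a * z ^ v) ^ m 0 * (b * z ^ (-u)) ^ m 1) =
        g₁.coeff m * (a ^ m 0 * b ^ m 1) * z ^ (v * (s 0 : ℤ) - u * s 1) := by
      intro m hm
      rw [pow_split hz, hcst m hm, RingHom.id_apply]
      ring
    rw [Finset.sum_congr rfl h2, ← Finset.sum_mul, hevs, zero_mul]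
  have hcurve : ∀ z : ℂ, z ≠ 0 →
      ∑ m ∈ g.support, (algebraMap ℚ ℂ (g.coeff m) * (a ^ m 0 * b ^ m 1)) *
        z ^ (v * (m 0 : ℤ) - u * m 1) = 0 := by
    intro z hz
    have h1 := sum_two (algebraMap ℚ ℂ) g (a * z ^ v) (b * z ^ (-u))
    rw [← MvPolynomial.eval_map, hh, map_mul, hcurve1 z hz, zero_mul] at h1
    rw [h1]
    refine Finset.sum_congr rfl fun m _ => ?_
    rw [pow_split hz]
    ring
  -- the line through an exponent of `g`
  obtain ⟨m₀, hm₀⟩ := MvPolynomial.support_nonempty.2 hg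
  set ℓ : ℤ := v * (m₀ 0 : ℤ) - u * m₀ 1 with hℓ
  have hpart := part_zero g.support (fun m => algebraMap ℚ ℂ (g.coeff m) * (a ^ m 0 * b ^ m 1))
    (fun m => v * (m 0 : ℤ) - u * m 1) hcurve ℓ
  set S := g.support.filter (fun m => v * (m 0 : ℤ) - u * m 1 = ℓ) with hS
  have hSne : S.Nonempty := ⟨m₀, by rw [hS, Finset.mem_filter]; exact ⟨hm₀, rfl⟩⟩
  obtain ⟨m₁, hm₁, hmin⟩ := Finset.exists_min_image S
    (fun m => x * (m 0 : ℤ) + y * m 1) hSne
  have hK : ∑ m ∈ S, algebraMap ℚ K (g.coeff m) * (β ^ m 0 * β' ^ m 1) = 0 := by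
    apply τ.injective
    rw [map_zero, map_sum, ← hpart]
    refine Finset.sum_congr rfl fun m _ => ?_
    rw [map_mul, map_mul, map_pow, map_pow, ← ha, ← hb]
    congr 1
    rw [eq_ratCast, map_ratCast, eq_ratCast]
  set κ : (Fin 2 →₀ ℕ) → ℤ := fun m => (x * (m 0 : ℤ) + y * m 1) - (x * (m₁ 0 : ℤ) + y * m₁ 1)
    with hκ
  have hκ0 : ∀ m ∈ S, 0 ≤ κ m := fun m hm => by
    have := hmin m hm
    simp only [hκ]
    omega
  have hm1S := (Finset.mem_filter.1 hm₁).2
  have hdiff0 : ∀ m ∈ S, (m 0 : ℤ) = m₁ 0 + κ m * u := by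
    intro m hm
    have h1 := (Finset.mem_filter.1 hm).2
    simp only [hκ]
    linear_combination (-(m 0 : ℤ) + m₁ 0) * hxy + y * (h1 - hm1S)
  have hdiff1 : ∀ m ∈ S, (m 1 : ℤ) = m₁ 1 + κ m * v := by
    intro m hm
    have h1 := (Finset.mem_filter.1 hm).2
    simp only [hκ]
    linear_combination (-(m 1 : ℤ) + m₁ 1) * hxy - x * (h1 - hm1S)
  set θ : K := β ^ u * β' ^ v with hθ
  have hθ0 : θ ≠ 0 := mul_ne_zero (zpow_ne_zero _ hβ) (zpow_ne_zero _ hβ')
  have hmono : ∀ m ∈ S, β ^ m 0 * β' ^ m 1 = (β ^ m₁ 0 * β' ^ m₁ 1) * θ ^ (κ m).toNat := by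
    intro m hm
    rw [← zpow_natCast β (m 0), ← zpow_natCast β' (m 1), hdiff0 m hm, hdiff1 m hm,
      zpow_add₀ hβ, zpow_add₀ hβ', ← zpow_natCast θ, Int.toNat_of_nonneg (hκ0 m hm), hθ, mul_zpow,
      ← zpow_mul, ← zpow_mul, zpow_natCast, zpow_natCast, mul_comm (κ m) u, mul_comm (κ m) v]
    ring
  set F : Polynomial ℚ := ∑ m ∈ S, Polynomial.C (g.coeff m) * Polynomial.X ^ (κ m).toNat with hF
  have hFθ : Polynomial.aeval θ F = 0 := by
    have h1 : (β ^ m₁ 0 * β' ^ m₁ 1) * Polynomial.aeval θ F = 0 := by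
      rw [← hK, hF, map_sum, Finset.mul_sum]
      refine Finset.sum_congr rfl fun m hm => ?_
      rw [hmono m hm, map_mul, Polynomial.aeval_C, map_pow, Polynomial.aeval_X]
      ring
    rcases mul_eq_zero.1 h1 with h2 | h2
    · exact absurd h2 (mul_ne_zero (pow_ne_zero _ hβ) (pow_ne_zero _ hβ'))
    · exact h2
  have hinj : ∀ m ∈ S, ∀ m' ∈ S, κ m = κ m' → m = m' := by
    intro m hm m' hm' h1
    ext i
    fin_cases i
    · have e1 := hdiff0 m hm
      have e2 := hdiff0 m' hm'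
      rw [h1] at e1
      change m 0 = m' 0
      omega
    · have e1 := hdiff1 m hm
      have e2 := hdiff1 m' hm'
      rw [h1] at e1
      change m 1 = m' 1
      omega
  have hF0 : F ≠ 0 := by
    intro h1
    have h2 : F.coeff (κ m₀).toNat = g.coeff m₀ := by
      have hm0S : m₀ ∈ S := by rw [hS, Finset.mem_filter]; exact ⟨hm₀, rfl⟩
      rw [hF, Polynomial.finsetSum_coeff, Finset.sum_eq_single m₀]
      · rw [Polynomial.coeff_C_mul_X_pow, if_pos rfl]
      · intro m hm hne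
        rw [Polynomial.coeff_C_mul_X_pow, if_neg]
        intro h3
        have e1 := hκ0 m hm
        have e2 := hκ0 m₀ hm0S
        exact hne (hinj m hm m₀ hm0S (by omega))
      · intro h3
        exact absurd hm0S h3
    rw [h1, Polynomial.coeff_zero] at h2
    exact MvPolynomial.mem_support_iff.1 hm₀ h2.symm
  have hFdeg : F.natDegree ≤ ω := by
    refine Polynomial.natDegree_sum_le_of_forall_le S _ fun m hm => ?_
    refine (Polynomial.natDegree_C_mul_X_pow_le _ _).trans ?_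
    have e1 := hdiff0 m hm
    have e2 := hdiff1 m hm
    have e3 := hκ0 m hm
    have l0 := hle m (Finset.mem_filter.1 hm).1
    have l1 := hle m₁ (Finset.mem_filter.1 hm₁).1
    have b0 := l0 0
    have b1 := l0 1
    have c0 := l1 0
    have c1 := l1 1
    have hk : κ m ≤ ω := by
      rcases eq_or_ne u 0 with h1 | h1
      · have h2 : v ≠ 0 := by
          rintro rfl
          exact huv (by rw [h1])
        have h3 : κ m * |v| ≤ ω := by
          have h4 : κ m * |v| = |κ m * v| := by rw [abs_mul, abs_of_nonneg e3]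
          rw [h4]
          have h5 : κ m * v = (m 1 : ℤ) - m₁ 1 := by linarith
          rw [h5, abs_le]
          constructor <;> omega
        have h4 : 1 ≤ |v| := Int.one_le_abs h2
        nlinarith
      · have h3 : κ m * |u| ≤ ω := by
          have h4 : κ m * |u| = |κ m * u| := by rw [abs_mul, abs_of_nonneg e3]
          rw [h4]
          have h5 : κ m * u = (m 0 : ℤ) - m₁ 0 := by linarith
          rw [h5, abs_le]
          constructor <;> omega
        have h4 : 1 ≤ |u| := Int.one_le_abs h1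
        nlinarith
    omega
  exact (Polynomial.natDegree_le_of_dvd (minpoly.dvd ℚ θ hFθ) hF0).trans hFdeg

end Pool.Agent.Helper28K9.RK
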