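import Pool.Agent.Helper28K9.RK.Loc

/-!
# Project RK (helper28), leaf NB: the norm from above (helper12)
-/

set_option autoImplicit false

open NumberField Module Finset

namespace Pool.Agent.Helper28K9.RK

namespace NbL

theorem norm_prod (K : Type) [Field K] [NumberField K] (α : K) :
    |((Algebra.norm ℚ α : ℚ) : ℝ)| = ∏ τ : K →+* ℂ, ‖τ α‖ := by
  have h1 : ((Algebra.norm ℚ α : ℚ) : ℂ) = ∏ σ : K →ₐ[ℚ] ℂ, σ α := by
    have := Algebra.norm_eq_prod_embeddings ℚ ℂ α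
    simpa using this
  have h2 : ∏ σ : K →ₐ[ℚ] ℂ, σ α = ∏ τ : K →+* ℂ, τ α := by
    refine (Fintype.prod_equiv (RingHom.equivRatAlgHom (R := K) (S := ℂ)) _ _ fun τ => ?_).symm
    rfl
  have h3 : |((Algebra.norm ℚ α : ℚ) : ℝ)| = ‖((Algebra.norm ℚ α : ℚ) : ℂ)‖ := by
    rw [← Complex.ofReal_ratCast, Complex.norm_real, Real.norm_eq_abs]
  rw [h3, h1, h2, _root_.norm_prod]

theorem evl_le (A B q : ℕ) (c : ℕ → ℕ → ℤ) (hc : ∀ i j, |c i j| ≤ 1) (z w : ℂ) :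
    ‖evl A B c (z ^ q) (w ^ q)‖ ≤ (A : ℝ) * B * ((max 1 ‖z‖) ^ (q * A) * (max 1 ‖w‖) ^ (q * B)) := by
  unfold evl
  have hz : (1 : ℝ) ≤ max 1 ‖z‖ := le_max_left _ _
  have hw : (1 : ℝ) ≤ max 1 ‖w‖ := le_max_left _ _
  have h1 : ∀ i ∈ range A, ∀ j ∈ range B,
      ‖algebraMap ℤ ℂ (c i j) * (z ^ q) ^ i * (w ^ q) ^ j‖ ≤
        (max 1 ‖z‖) ^ (q * A) * (max 1 ‖w‖) ^ (q * B) := by
    intro i hi j hj
    rw [norm_mul, norm_mul, ← pow_mul, ← pow_mul, norm_pow, norm_pow]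
    have h2 : ‖algebraMap ℤ ℂ (c i j)‖ ≤ 1 := by
      rw [algebraMap_int_eq, eq_intCast, Complex.norm_intCast]
      have := hc i j
      exact_mod_cast this
    have h3 : ‖z‖ ^ (q * i) ≤ (max 1 ‖z‖) ^ (q * A) :=
      (pow_le_pow_left₀ (norm_nonneg _) (le_max_right _ _) _).trans
        (pow_le_pow_right₀ hz (Nat.mul_le_mul_left q (Finset.mem_range.1 hi).le))
    have h4 : ‖w‖ ^ (q * j) ≤ (max 1 ‖w‖) ^ (q * B) :=
      (pow_le_pow_left₀ (norm_nonneg _) (le_max_right _ _) _).trans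
        (pow_le_pow_right₀ hw (Nat.mul_le_mul_left q (Finset.mem_range.1 hj).le))
    calc _ ≤ 1 * (max 1 ‖z‖) ^ (q * A) * (max 1 ‖w‖) ^ (q * B) := by
          gcongr
      _ = _ := by ring
  calc _ ≤ ∑ i ∈ range A, ‖∑ j ∈ range B, algebraMap ℤ ℂ (c i j) * (z ^ q) ^ i * (w ^ q) ^ j‖ :=
        norm_sum_le _ _
    _ ≤ ∑ i ∈ range A, ∑ j ∈ range B, (max 1 ‖z‖) ^ (q * A) * (max 1 ‖w‖) ^ (q * B) := by
        refine Finset.sum_le_sum fun i hi => (norm_sum_le _ _).trans ?_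
        exact Finset.sum_le_sum fun j hj => h1 i hi j hj
    _ = _ := by
        simp only [Finset.sum_const, Finset.card_range, nsmul_eq_mul]
        ring

end NbL

open NbL in
theorem nb : S_NB := by
  intro K _ _ x y A B q c hc
  have h0 : ∀ τ : K →+* ℂ, τ ((evl A B c (x ^ q) (y ^ q) : 𝓞 K) : K) =
      evl A B c (τ x ^ q) (τ y ^ q) := by
    intro τ
    have h1 := LocL.map_evl (τ.comp (algebraMap (𝓞 K) K)) A B c (x ^ q) (y ^ q)
    rw [map_pow, map_pow] at h1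
    exact h1
  rw [NbL.norm_prod]
  have h2 : ∀ τ : K →+* ℂ, ‖τ ((evl A B c (x ^ q) (y ^ q) : 𝓞 K) : K)‖ ≤
      (A : ℝ) * B * Real.exp (q * (A * Real.log (max 1 ‖τ x‖) + B * Real.log (max 1 ‖τ y‖))) := by
    intro τ
    rw [h0]
    refine (evl_le A B q c hc (τ x) (τ y)).trans (le_of_eq ?_)
    congr 1
    have hx : (0 : ℝ) < max 1 ‖τ x‖ := lt_of_lt_of_le one_pos (le_max_left _ _)
    have hy : (0 : ℝ) < max 1 ‖τ y‖ := lt_of_lt_of_le one_pos (le_max_left _ _)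
    rw [← Real.exp_log (pow_pos hx (q * A)), ← Real.exp_log (pow_pos hy (q * B)), ← Real.exp_add,
      Real.log_pow, Real.log_pow]
    congr 1
    push_cast
    ring
  calc _ ≤ ∏ τ : K →+* ℂ, ((A : ℝ) * B *
        Real.exp (q * (A * Real.log (max 1 ‖τ x‖) + B * Real.log (max 1 ‖τ y‖)))) :=
        Finset.prod_le_prod (fun τ _ => norm_nonneg _) fun τ _ => h2 τ
    _ = _ := by
        rw [Finset.prod_mul_distrib, Finset.prod_const, ← Real.exp_sum, Finset.card_univ,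
          NumberField.Embeddings.card K ℂ]
        congr 2
        unfold HK
        rw [← Finset.mul_sum, Finset.sum_add_distrib, Finset.mul_sum, Finset.mul_sum]

end Pool.Agent.Helper28K9.RK
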